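import Pool.Agent.Lib_helper42.JO.FHDefs

/-! Project JO, part FH, block ABE: the Abelian theorem -/

namespace Pool.Agent.JOF

open Pool.Agent.JO Complex MeasureTheory Filter Topology Set
open scoped ComplexConjugate ContDiff

/-- the derivative of `u ^ j e^{-2u}` -/
noncomputable def abe_P (j : ℕ) (u : ℝ) : ℝ := (j * u ^ (j - 1) - 2 * u ^ j) * Real.exp (-(2 * u))

theorem abe_P_bound (j : ℕ) : ∃ C : ℝ, 0 ≤ C ∧ ∀ u : ℝ, 0 ≤ u →
    |abe_P j u| * (1 + u) ^ 2 ≤ C * Real.exp (-u) := by
  refine ⟨(j + 2) * ((j + 2).factorial * Real.exp 1), by positivity, ?_⟩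
  intro u hu
  have h1 : |abe_P j u| ≤ (j + 2) * (1 + u) ^ j * Real.exp (-(2 * u)) := by
    unfold abe_P
    rw [abs_mul, abs_of_pos (Real.exp_pos _)]
    apply mul_le_mul_of_nonneg_right _ (Real.exp_pos _).le
    have h2 : u ^ (j - 1) ≤ (1 + u) ^ j := by
      calc u ^ (j - 1) ≤ (1 + u) ^ (j - 1) := by gcongr; linarith
        _ ≤ (1 + u) ^ j := by
            apply pow_le_pow_right₀ (by linarith) (by omega)
    have h3 : u ^ j ≤ (1 + u) ^ j := by gcongr; linarith
    have h4 : 0 ≤ u ^ (j - 1) := by positivity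
    have h5 : 0 ≤ u ^ j := by positivity
    have hj : (0 : ℝ) ≤ j := by positivity
    rw [abs_le]
    constructor <;> nlinarith
  have h2 : (1 + u) ^ (j + 2) ≤ (j + 2).factorial * Real.exp (1 + u) := by
    have := Real.pow_div_factorial_le_exp (1 + u) (by linarith) (j + 2)
    rw [div_le_iff₀ (by positivity)] at this
    linarith
  calc |abe_P j u| * (1 + u) ^ 2
      ≤ (j + 2) * (1 + u) ^ j * Real.exp (-(2 * u)) * (1 + u) ^ 2 := by gcongr
    _ = (j + 2) * Real.exp (-(2 * u)) * (1 + u) ^ (j + 2) := by rw [pow_add]; ring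
    _ ≤ (j + 2) * Real.exp (-(2 * u)) * ((j + 2).factorial * Real.exp (1 + u)) := by gcongr
    _ = (j + 2) * (j + 2).factorial * (Real.exp (-(2 * u)) * Real.exp (1 + u)) := by ring
    _ = (j + 2) * (j + 2).factorial * (Real.exp 1 * Real.exp (-u)) := by
        rw [← Real.exp_add, ← Real.exp_add]
        congr 2; ring
    _ = _ := by ring

theorem abe_P_cont (j : ℕ) : Continuous (abe_P j) := by
  unfold abe_P
  fun_prop

/-- integrability of `P(u) G(u)` if `|G(u)| ≤ D (1 + u)^2` -/
theorem abe_int (j : ℕ) {G : ℝ → ℝ} (hG : ContinuousOn G (Ioi 0)) {D : ℝ}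
    (hD : ∀ u, 0 < u → |G u| ≤ D * (1 + u) ^ 2) :
    IntegrableOn (fun u => abe_P j u * G u) (Ioi 0) := by
  obtain ⟨C, hC, hb⟩ := abe_P_bound j
  have h1 : IntegrableOn (fun u : ℝ => D * C * Real.exp (-u)) (Ioi 0) :=
    Integrable.const_mul (integrableOn_exp_neg_Ioi 0) _
  refine Integrable.mono' h1 ?_ ?_
  · exact (((abe_P_cont j).continuousOn).mul hG).aestronglyMeasurable measurableSet_Ioi
  · rw [ae_restrict_iff' measurableSet_Ioi]
    refine Eventually.of_forall (fun u hu => ?_)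
    have hu0 : (0 : ℝ) < u := hu
    rw [Real.norm_eq_abs, abs_mul]
    have h2 := hD u hu0
    have h3 := hb u hu0.le
    have hD0 : 0 ≤ D := by
      have : 0 ≤ D * (1 + u) ^ 2 := (abs_nonneg _).trans h2
      by_contra hneg
      push Not at hneg
      have : 0 < (1 + u) ^ 2 := by positivity
      nlinarith
    calc |abe_P j u| * |G u| ≤ |abe_P j u| * (D * (1 + u) ^ 2) := by gcongr
      _ = D * (|abe_P j u| * (1 + u) ^ 2) := by ring
      _ ≤ D * (C * Real.exp (-u)) := by gcongr
      _ = _ := by ring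

theorem abe_log (s : ℝ) (hs : 0 ≤ s) : |s * Real.log s| ≤ (1 + s) ^ 2 := by
  rcases eq_or_lt_of_le hs with h0 | h0
  · rw [← h0]; simp
  rcases le_or_gt s 1 with h1 | h1
  · have := Real.abs_log_mul_self_lt s h0 h1
    rw [mul_comm]
    nlinarith
  · have h2 : 0 ≤ Real.log s := Real.log_nonneg h1.le
    have h3 : Real.log s ≤ s := (Real.log_le_sub_one_of_pos h0).trans (by linarith)
    rw [abs_of_nonneg (by positivity)]
    nlinarith

theorem abe_sqrt (s : ℝ) (hs : 0 ≤ s) : √s ≤ 1 + s := by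
  rw [Real.sqrt_le_left (by linarith)]
  nlinarith

/-- block ABE -/
theorem abel_pr {w : ℝ → ℝ} (hw : Continuous w) (h0 : ∀ t, 0 ≤ t → 0 ≤ w t) {A B : ℝ}
    (hE : (fun T : ℝ => (∫ t in (0 : ℝ)..T, w t) - (A * T * Real.log T + B * T)) =o[atTop]
      fun T : ℝ => √T) (j : ℕ) :
    (∀ θ : ℝ, 0 < θ →
      IntegrableOn (fun s : ℝ => s ^ j * w s * Real.exp (-(2 * θ * s))) (Ioi 0)) ∧
    ∃ α β : ℝ, (fun θ : ℝ => θ ^ (j + 1) *
        (∫ s in Ioi (0 : ℝ), s ^ j * w s * Real.exp (-(2 * θ * s))) -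
          (α * Real.log θ⁻¹ + β)) =o[𝓝[>] 0] fun θ : ℝ => √θ := by
  set W : ℝ → ℝ := fun T => ∫ t in (0 : ℝ)..T, w t with hW
  have hW0 : W 0 = 0 := by simp [hW]
  have hWd : ∀ x, HasDerivAt W (w x) x := fun x =>
    intervalIntegral.integral_hasDerivAt_right (hw.intervalIntegrable _ _)
      (hw.stronglyMeasurableAtFilter _ _) hw.continuousAt
  have hWc : Continuous W := continuous_iff_continuousAt.mpr (fun x => (hWd x).continuousAt)
  set E : ℝ → ℝ := fun s => W s - (A * (s * Real.log s) + B * s) with hEdef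
  have hEc : Continuous E := by
    have : Continuous (fun s : ℝ => s * Real.log s) := Real.continuous_mul_log
    simp only [hEdef]
    fun_prop
  -- the error term
  have hEb : ∀ δ : ℝ, 0 < δ → ∃ C : ℝ, 0 ≤ C ∧ ∀ s : ℝ, 0 ≤ s → |E s| ≤ C + δ * √s := by
    intro δ hδ
    have h1 := hE.def hδ
    rw [eventually_atTop] at h1
    obtain ⟨T₀, hT₀⟩ := h1
    obtain ⟨C, hC⟩ := (isCompact_Icc (a := (0 : ℝ)) (b := max T₀ 0)).exists_bound_of_continuousOn
      hEc.continuousOn
    refine ⟨max C 0, le_max_right _ _, ?_⟩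
    intro s hs
    rcases le_or_gt s (max T₀ 0) with h2 | h2
    · have h3 := hC s ⟨hs, h2⟩
      rw [Real.norm_eq_abs] at h3
      have h4 : 0 ≤ δ * √s := by positivity
      have h5 := le_max_left C 0
      linarith
    · have h3 := hT₀ s ((le_max_left _ _).trans h2.le)
      rw [Real.norm_eq_abs, Real.norm_eq_abs, abs_of_nonneg (Real.sqrt_nonneg s)] at h3
      have h4 : E s = W s - (A * s * Real.log s + B * s) := by
        simp only [hEdef]; ring
      rw [h4]
      have h5 := le_max_right C 0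
      linarith
  obtain ⟨C₁, hC₁, hE1⟩ := hEb 1 one_pos
  set D : ℝ := |A| + |B| + C₁ + 1 with hD
  have hD0 : 0 ≤ D := by positivity
  have hWb : ∀ s : ℝ, 0 ≤ s → |W s| ≤ D * (1 + s) ^ 2 := by
    intro s hs
    have h1 := hE1 s hs
    have h2 := abe_log s hs
    have h3 := abe_sqrt s hs
    have h4 : W s = E s + (A * (s * Real.log s) + B * s) := by simp only [hEdef]; ring
    have h5 : s ≤ (1 + s) ^ 2 := by nlinarith
    have h6 : 1 ≤ (1 + s) ^ 2 := by nlinarith
    have h7 : 1 + s ≤ (1 + s) ^ 2 := by nlinarith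
    rw [h4]
    calc |E s + (A * (s * Real.log s) + B * s)| ≤ |E s| + (|A * (s * Real.log s)| + |B * s|) :=
          (abs_add_le _ _).trans (by gcongr; exact abs_add_le _ _)
      _ = |E s| + (|A| * |s * Real.log s| + |B| * s) := by
          rw [abs_mul, abs_mul B s, abs_of_nonneg hs]
      _ ≤ (C₁ * (1 + s) ^ 2 + (1 + s) ^ 2) + (|A| * (1 + s) ^ 2 + |B| * (1 + s) ^ 2) := by
          gcongr
          have : C₁ * 1 ≤ C₁ * (1 + s) ^ 2 := by gcongr
          linarith
      _ = _ := by rw [hD]; ring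
  -- the functions `φ` and `φ'`
  set φ : ℝ → ℝ → ℝ := fun θ s => s ^ j * Real.exp (-(2 * θ * s)) with hφ
  set φ' : ℝ → ℝ → ℝ := fun θ s => (j * s ^ (j - 1) - 2 * θ * s ^ j) * Real.exp (-(2 * θ * s))
    with hφ'
  have hφd : ∀ θ s : ℝ, HasDerivAt (φ θ) (φ' θ s) s := by
    intro θ s
    have h1 : HasDerivAt (fun s : ℝ => s ^ j) (j * s ^ (j - 1)) s := hasDerivAt_pow j s
    have h2 : HasDerivAt (fun s : ℝ => -(2 * θ * s)) (-(2 * θ * 1)) s :=
      ((hasDerivAt_id s).const_mul (2 * θ)).neg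
    have h3 := h1.mul h2.exp
    refine h3.congr_deriv ?_
    simp only [hφ']
    ring
  have hφ'c : ∀ θ : ℝ, Continuous (φ' θ) := by
    intro θ
    simp only [hφ']
    fun_prop
  have hscale : ∀ θ s : ℝ, θ ^ j * φ' θ s = θ * abe_P j (θ * s) := by
    intro θ s
    simp only [hφ', abe_P]
    rcases Nat.eq_zero_or_pos j with hj | hj
    · subst hj
      simp only [Nat.cast_zero, zero_mul, zero_sub, pow_zero]
      rw [show -(2 * θ * s) = -(2 * (θ * s)) by ring]
      ring
    · obtain ⟨i, rfl⟩ : ∃ i, j = i + 1 := ⟨j - 1, by omega⟩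
      rw [show -(2 * θ * s) = -(2 * (θ * s)) by ring, Nat.add_sub_cancel, mul_pow, mul_pow]
      ring
  -- integrability of `φ' W`
  have hint : ∀ θ : ℝ, 0 < θ → IntegrableOn (fun u => abe_P j u * W (u / θ)) (Ioi 0) := by
    intro θ hθ
    refine abe_int j (D := D * (max 1 (1 / θ)) ^ 2) ?_ ?_
    · exact (hWc.comp (continuous_id.div_const θ)).continuousOn
    · intro u hu
      have h1 := hWb (u / θ) (by positivity)
      refine h1.trans ?_
      have h2 : 1 + u / θ ≤ max 1 (1 / θ) * (1 + u) := by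
        have h3 : 1 ≤ max 1 (1 / θ) := le_max_left _ _
        have h4 : 1 / θ ≤ max 1 (1 / θ) := le_max_right _ _
        have h5 : u / θ = 1 / θ * u := by ring
        rw [h5]
        nlinarith
      calc D * (1 + u / θ) ^ 2 ≤ D * (max 1 (1 / θ) * (1 + u)) ^ 2 := by gcongr
        _ = _ := by ring
  have hint' : ∀ θ : ℝ, 0 < θ → IntegrableOn (fun s => φ' θ s * W s) (Ioi 0) := by
    intro θ hθ
    have h1 := hint θ hθ
    have h2 : IntegrableOn (fun s => abe_P j (θ * s) * W (θ * s / θ)) (Ioi 0) := by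
      have := (integrableOn_Ioi_comp_mul_left_iff (fun u => abe_P j u * W (u / θ)) 0 hθ).mpr
        (by rw [mul_zero]; exact h1)
      exact this
    have h3 : (fun s => φ' θ s * W s) =
        fun s => (θ / θ ^ j) * (abe_P j (θ * s) * W (θ * s / θ)) := by
      funext s
      have h4 := hscale θ s
      have h5 : θ * s / θ = s := by field_simp
      rw [h5, ← mul_assoc]
      congr 1
      have h6 : (θ : ℝ) ^ j ≠ 0 := by positivity
      field_simp
      linarith
    rw [h3]
    exact h2.const_mul _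
  have hIval : ∀ θ : ℝ, 0 < θ → ∫ s in Ioi (0 : ℝ), φ' θ s * W s =
      (θ / θ ^ j) * (θ⁻¹ * ∫ u in Ioi (0 : ℝ), abe_P j u * W (u / θ)) := by
    intro θ hθ
    have h3 : (fun s => φ' θ s * W s) =
        fun s => (θ / θ ^ j) * (abe_P j (θ * s) * W (θ * s / θ)) := by
      funext s
      have h4 := hscale θ s
      have h5 : θ * s / θ = s := by field_simp
      rw [h5, ← mul_assoc]
      congr 1
      have h6 : (θ : ℝ) ^ j ≠ 0 := by positivity
      field_simp
      linarith
    rw [h3, integral_const_mul]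
    congr 1
    have := integral_comp_mul_left_Ioi (fun u => abe_P j u * W (u / θ)) 0 hθ
    rw [mul_zero, smul_eq_mul] at this
    exact this
  -- the primitive
  set g : ℝ → ℝ → ℝ := fun θ T => φ θ T * W T - ∫ s in (0 : ℝ)..T, φ' θ s * W s with hg
  have hgd : ∀ θ x : ℝ, HasDerivAt (g θ) (x ^ j * w x * Real.exp (-(2 * θ * x))) x := by
    intro θ x
    have h1 := (hφd θ x).mul (hWd x)
    have h2 : Continuous (fun s => φ' θ s * W s) := (hφ'c θ).mul hWc
    have h3 : HasDerivAt (fun T => ∫ s in (0 : ℝ)..T, φ' θ s * W s) (φ' θ x * W x) x :=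
      intervalIntegral.integral_hasDerivAt_right (h2.intervalIntegrable _ _)
        (h2.stronglyMeasurableAtFilter _ _) h2.continuousAt
    refine (h1.sub h3).congr_deriv ?_
    simp only [hφ]
    ring
  have hgl : ∀ θ : ℝ, 0 < θ → Tendsto (g θ) atTop (𝓝 (0 - ∫ s in Ioi (0 : ℝ), φ' θ s * W s)) := by
    intro θ hθ
    apply Tendsto.sub
    · -- `φ W → 0`
      have h1 : Tendsto (fun T : ℝ => D * ((1 + T) ^ (j + 2) * Real.exp (-(2 * θ * T)))) atTop
          (𝓝 (D * 0)) := by
        apply Tendsto.const_mul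
        have h2 : Tendsto (fun y : ℝ => y ^ (j + 2) * Real.exp (-(2 * θ) * y)) atTop (𝓝 0) := by
          have := Real.tendsto_pow_mul_exp_neg_atTop_nhds_zero (j + 2)
          have h3 := this.comp (tendsto_id.const_mul_atTop (show (0 : ℝ) < 2 * θ by positivity))
          have h4 : (fun y : ℝ => y ^ (j + 2) * Real.exp (-(2 * θ) * y)) =
              fun y => (1 / (2 * θ) ^ (j + 2)) *
                (((fun x : ℝ => x ^ (j + 2) * Real.exp (-x)) ∘ fun x => 2 * θ * id x) y) := by
            funext y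
            simp only [Function.comp, id]
            have h5 : (2 * θ) ^ (j + 2) ≠ 0 := by positivity
            rw [show -(2 * θ * y) = -(2 * θ) * y by ring, mul_pow (2 * θ) y (j + 2), ← mul_assoc,
              ← mul_assoc, one_div, inv_mul_cancel₀ h5, one_mul]
          rw [h4]
          simpa using h3.const_mul (1 / (2 * θ) ^ (j + 2))
        have h3 := h2.comp (tendsto_atTop_add_const_left atTop (1 : ℝ) tendsto_id)
        have h4 : (fun T : ℝ => (1 + T) ^ (j + 2) * Real.exp (-(2 * θ * T))) =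
            fun T => Real.exp (2 * θ) * (((fun y : ℝ => y ^ (j + 2) * Real.exp (-(2 * θ) * y)) ∘
              fun x => 1 + id x) T) := by
          funext T
          simp only [Function.comp, id]
          rw [mul_left_comm, ← Real.exp_add]
          congr 2
          ring
        rw [h4]
        simpa using h3.const_mul (Real.exp (2 * θ))
      rw [mul_zero] at h1
      apply squeeze_zero_norm' _ h1
      filter_upwards [eventually_ge_atTop (0 : ℝ)] with T hT
      rw [Real.norm_eq_abs, abs_mul]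
      simp only [hφ]
      rw [abs_mul, abs_of_nonneg (by positivity : (0 : ℝ) ≤ T ^ j), abs_of_pos (Real.exp_pos _)]
      calc T ^ j * Real.exp (-(2 * θ * T)) * |W T|
          ≤ (1 + T) ^ j * Real.exp (-(2 * θ * T)) * (D * (1 + T) ^ 2) := by
            have := hWb T hT
            gcongr
            linarith
        _ = _ := by rw [pow_add]; ring
    · exact intervalIntegral_tendsto_integral_Ioi 0 (hint' θ hθ) tendsto_id
  have hnonneg : ∀ θ x : ℝ, x ∈ Ioi (0 : ℝ) → 0 ≤ x ^ j * w x * Real.exp (-(2 * θ * x)) := by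
    intro θ x hx
    have hx0 : (0 : ℝ) < x := hx
    have := h0 x hx0.le
    positivity
  refine ⟨fun θ hθ => integrableOn_Ioi_deriv_of_nonneg' (fun x _ => hgd θ x)
    (hnonneg θ) (hgl θ hθ), ?_⟩
  have hval : ∀ θ : ℝ, 0 < θ → θ ^ (j + 1) *
      (∫ s in Ioi (0 : ℝ), s ^ j * w s * Real.exp (-(2 * θ * s))) =
      -(θ * ∫ u in Ioi (0 : ℝ), abe_P j u * W (u / θ)) := by
    intro θ hθ
    have h1 := integral_Ioi_of_hasDerivAt_of_nonneg' (fun x _ => hgd θ x) (hnonneg θ) (hgl θ hθ)
    have h2 : g θ 0 = 0 := by simp only [hg]; rw [hW0]; simp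
    rw [h1, h2, sub_zero, zero_sub, hIval θ hθ]
    have h6 : (θ : ℝ) ^ j ≠ 0 := by positivity
    rw [pow_succ]
    field_simp
  -- the main terms
  have hI1 : IntegrableOn (fun u => abe_P j u * (u * Real.log u)) (Ioi 0) :=
    abe_int j (D := 1) (Real.continuous_mul_log.continuousOn)
      (fun u hu => by rw [one_mul]; exact abe_log u hu.le)
  have hI2 : IntegrableOn (fun u => abe_P j u * u) (Ioi 0) :=
    abe_int j (D := 1) continuousOn_id
      (fun u hu => by rw [one_mul, abs_of_pos hu]; nlinarith)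
  refine ⟨-(A * ∫ u in Ioi (0 : ℝ), abe_P j u * u),
    -(A * (∫ u in Ioi (0 : ℝ), abe_P j u * (u * Real.log u)) +
      B * ∫ u in Ioi (0 : ℝ), abe_P j u * u), ?_⟩
  have hdiff : ∀ θ : ℝ, 0 < θ → θ ^ (j + 1) *
      (∫ s in Ioi (0 : ℝ), s ^ j * w s * Real.exp (-(2 * θ * s))) -
        (-(A * ∫ u in Ioi (0 : ℝ), abe_P j u * u) * Real.log θ⁻¹ +
          -(A * (∫ u in Ioi (0 : ℝ), abe_P j u * (u * Real.log u)) +
            B * ∫ u in Ioi (0 : ℝ), abe_P j u * u)) =
      -(θ * ∫ u in Ioi (0 : ℝ), abe_P j u * E (u / θ)) := by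
    intro θ hθ
    rw [hval θ hθ]
    have h1 : ∀ u ∈ Ioi (0 : ℝ), abe_P j u * E (u / θ) = abe_P j u * W (u / θ) -
        ((A / θ) * (abe_P j u * (u * Real.log u)) +
          ((A / θ) * Real.log θ⁻¹ + B / θ) * (abe_P j u * u)) := by
      intro u hu
      have hu0 : (0 : ℝ) < u := hu
      simp only [hEdef]
      have h2 : Real.log (u / θ) = Real.log u + Real.log θ⁻¹ := by
        rw [div_eq_mul_inv, Real.log_mul hu0.ne' (inv_ne_zero hθ.ne')]
      rw [h2]
      ring
    have hadd : IntegrableOn (fun u => (A / θ) * (abe_P j u * (u * Real.log u)) +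
          ((A / θ) * Real.log θ⁻¹ + B / θ) * (abe_P j u * u)) (Ioi 0) :=
      (hI1.const_mul _).add (hI2.const_mul _)
    rw [setIntegral_congr_fun measurableSet_Ioi h1, integral_sub (hint θ hθ) hadd,
      integral_add (hI1.const_mul _) (hI2.const_mul _), integral_const_mul, integral_const_mul]
    field_simp
    ring
  rw [Asymptotics.isLittleO_iff]
  intro c hc
  -- constants
  have hI3 : IntegrableOn (fun u => |abe_P j u|) (Ioi 0) := by
    have : IntegrableOn (fun u => abe_P j u * 1) (Ioi 0) :=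
      abe_int j (D := 1) continuousOn_const
        (fun u hu => by rw [one_mul, abs_one]; nlinarith)
    have h2 : IntegrableOn (fun u => ‖abe_P j u * 1‖) (Ioi 0) := this.norm
    simpa [Real.norm_eq_abs] using h2
  have hI4 : IntegrableOn (fun u => |abe_P j u| * √u) (Ioi 0) := by
    have : IntegrableOn (fun u => abe_P j u * √u) (Ioi 0) :=
      abe_int j (D := 1) (Real.continuous_sqrt.continuousOn)
        (fun u hu => by
          rw [one_mul, abs_of_nonneg (Real.sqrt_nonneg u)]
          have := abe_sqrt u hu.le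
          nlinarith [hu])
    have h2 : IntegrableOn (fun u => ‖abe_P j u * √u‖) (Ioi 0) := this.norm
    refine h2.congr_fun (fun u _ => ?_) measurableSet_Ioi
    simp only [norm_mul, Real.norm_eq_abs, abs_of_nonneg (Real.sqrt_nonneg u)]
  set I3 : ℝ := ∫ u in Ioi (0 : ℝ), |abe_P j u| with hI3def
  set I4 : ℝ := ∫ u in Ioi (0 : ℝ), |abe_P j u| * √u with hI4def
  have hI30 : 0 ≤ I3 := integral_nonneg (fun u => abs_nonneg _)
  have hI40 : 0 ≤ I4 := integral_nonneg (fun u => by positivity)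
  obtain ⟨C₂, hC₂, hE2⟩ := hEb (c / (2 * (I4 + 1))) (by positivity)
  have hθ0 : 0 < (c / (2 * (C₂ * I3 + 1))) ^ 2 := by positivity
  filter_upwards [Ioo_mem_nhdsGT hθ0] with θ hθ
  have hθp : 0 < θ := hθ.1
  rw [hdiff θ hθp, norm_neg, norm_mul, Real.norm_eq_abs, Real.norm_eq_abs, Real.norm_eq_abs,
    abs_of_pos hθp, abs_of_nonneg (Real.sqrt_nonneg θ)]
  have hsθ : √θ * √θ = θ := Real.mul_self_sqrt hθp.le
  have hsθ0 : 0 < √θ := Real.sqrt_pos.mpr hθp
  have hsθ1 : √θ ≤ c / (2 * (C₂ * I3 + 1)) := by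
    rw [Real.sqrt_le_left (by positivity)]
    exact hθ.2.le
  have hbound : |∫ u in Ioi (0 : ℝ), abe_P j u * E (u / θ)| ≤
      C₂ * I3 + c / (2 * (I4 + 1)) * (1 / √θ) * I4 := by
    have h1 : |∫ u in Ioi (0 : ℝ), abe_P j u * E (u / θ)| ≤
        ∫ u in Ioi (0 : ℝ), (C₂ * |abe_P j u| +
          c / (2 * (I4 + 1)) * (1 / √θ) * (|abe_P j u| * √u)) := by
      rw [← Real.norm_eq_abs]
      have hadd2 : IntegrableOn (fun u => C₂ * |abe_P j u| +
          c / (2 * (I4 + 1)) * (1 / √θ) * (|abe_P j u| * √u)) (Ioi 0) :=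
        (hI3.const_mul _).add (hI4.const_mul _)
      refine norm_integral_le_of_norm_le hadd2 ?_
      rw [ae_restrict_iff' measurableSet_Ioi]
      refine Eventually.of_forall (fun u hu => ?_)
      have hu0 : (0 : ℝ) < u := hu
      rw [Real.norm_eq_abs, abs_mul]
      have h2 := hE2 (u / θ) (by positivity)
      calc |abe_P j u| * |E (u / θ)| ≤ |abe_P j u| * (C₂ + c / (2 * (I4 + 1)) * √(u / θ)) := by
            gcongr
        _ = _ := by
            rw [Real.sqrt_div hu0.le]
            ring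
    rw [integral_add (hI3.const_mul _) (hI4.const_mul _), integral_const_mul,
      integral_const_mul] at h1
    exact h1
  calc θ * |∫ u in Ioi (0 : ℝ), abe_P j u * E (u / θ)|
      ≤ θ * (C₂ * I3 + c / (2 * (I4 + 1)) * (1 / √θ) * I4) := by gcongr
    _ = √θ * (√θ * (C₂ * I3)) + √θ * (c / 2 * (I4 / (I4 + 1))) := by
        rw [← hsθ]
        simp only [Real.sqrt_mul_self hsθ0.le]
        field_simp
    _ ≤ √θ * (c / 2) + √θ * (c / 2) := by
        have h1 : √θ * (C₂ * I3) ≤ c / 2 := by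
          calc √θ * (C₂ * I3) ≤ c / (2 * (C₂ * I3 + 1)) * (C₂ * I3) := by gcongr
            _ ≤ c / (2 * (C₂ * I3 + 1)) * (C₂ * I3 + 1) := by gcongr; linarith
            _ = c / 2 := by field_simp
        have h2 : c / 2 * (I4 / (I4 + 1)) ≤ c / 2 := by
          have : I4 / (I4 + 1) ≤ 1 := by
            rw [div_le_one (by positivity)]; linarith
          nlinarith
        gcongr
    _ = c * √θ := by ring

alias abel := abel_pr

end Pool.Agent.JOF
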