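import Pool.Agent.Lib_helper42.JO.FHDefs

/-! Block ALG (project JO, part FH): the elementary contradiction. -/

namespace Pool.Agent.JOF

open Pool.Agent.JO Complex MeasureTheory Filter Topology Set
open scoped ComplexConjugate ContDiff

variable {k N : ℕ} {a b : ℕ → ℂ} {f g : ℂ → ℂ} {c : ℂ} {M : ℝ}

theorem alg_pow {p : ℕ} (hk : 1 ≤ k) (hp : 2 ≤ p) {X : ℝ} (hX : 0 < X) {C : ℝ} (hC : 0 ≤ C) :
    (p : ℝ) ^ (k - 1) * (C * ((p * X) ^ k)⁻¹) ≤ C * (X ^ k)⁻¹ := by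
  have hp0 : (0 : ℝ) < p := by exact_mod_cast (by omega : 0 < p)
  have hp1 : (1 : ℝ) ≤ p := by exact_mod_cast (by omega : 1 ≤ p)
  have h1 : (p : ℝ) ^ k = p ^ (k - 1) * p := by
    rw [← pow_succ, Nat.sub_add_cancel hk]
  have h2 : (p : ℝ) ^ (k - 1) * (C * ((p * X) ^ k)⁻¹) = C * (X ^ k)⁻¹ * (1 / p) := by
    rw [mul_pow, h1]
    field_simp
  rw [h2]
  have h3 : 1 / (p : ℝ) ≤ 1 := by rw [div_le_one hp0]; exact hp1
  have h4 : 0 ≤ C * (X ^ k)⁻¹ := by positivity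
  nlinarith

/-- block ALG: elementary.  (1) real part of `V1` gives `Re ap = 0`; (2) with `ap = iτ`,
`iτ W = p^{k-1} T + O`, `W = iτ T - p^{k-1} conj W(pX)`, so `(p^{k-1}+τ²) T(X) = p^{2k-2} T(pX) + O`
and `p^k T(pX) ≤ T(X)`. -/
theorem f3_alg_pr {p : ℕ} (hk : 1 ≤ k) (hp : 2 ≤ p) {ap : ℂ} {c' : ℝ} (hc : 0 ≤ c')
    {T₁ T₁' T₂ T₂' : ℝ → ℝ} {U₁ U₁' U₂ U₂' W₂ W₂' : ℝ → ℂ}
    (hU₁ : ∀ X : ℝ, 0 < X → U₁ X = ap * T₁ X - (p : ℂ) ^ (k - 1) * conj (U₁ (p * X)))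
    (hU₁' : ∀ X : ℝ, 0 < X → U₁' X = ap * T₁' X - (p : ℂ) ^ (k - 1) * conj (U₁' (p * X)))
    (hU₂ : ∀ X : ℝ, 0 < X → U₂ X = ap * T₂ X - (p : ℂ) ^ (k - 1) * conj (U₂ (p * X)))
    (hU₂' : ∀ X : ℝ, 0 < X → U₂' X = ap * T₂' X - (p : ℂ) ^ (k - 1) * conj (U₂' (p * X)))
    (hW₂ : ∀ X : ℝ, 0 < X → W₂ X = ap * U₂ X - (p : ℂ) ^ (k - 1) * T₂ X)
    (hW₂' : ∀ X : ℝ, 0 < X → W₂' X = ap * U₂' X - (p : ℂ) ^ (k - 1) * T₂' X)
    (hT₁' : ∀ X : ℝ, 0 < X → 0 ≤ T₁' X) (hT₂' : ∀ X : ℝ, 0 < X → 0 ≤ T₂' X)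
    (hT₁ : ∀ B : ℝ, ∃ δ : ℝ, 0 < δ ∧ ∀ X : ℝ, 0 < X → X < δ → B ≤ X ^ k * T₁ X)
    (hT₂ : ∀ B : ℝ, ∃ δ : ℝ, 0 < δ ∧ ∀ X : ℝ, 0 < X → X < δ → B ≤ X ^ k * T₂ X)
    (hm : ∀ X : ℝ, 0 < X → (p : ℝ) ^ k * T₂ (p * X) ≤ T₂ X)
    (hm' : ∀ X : ℝ, 0 < X → (p : ℝ) ^ k * T₂' (p * X) ≤ T₂' X)
    {C δ : ℝ} (hδ : 0 < δ)
    (hV₁ : ∀ X : ℝ, 0 < X → X < δ → ‖U₁ X + c' * conj (U₁' X)‖ ≤ C * (X ^ k)⁻¹)
    (hV₂ : ∀ X : ℝ, 0 < X → X < δ → ‖W₂ X + c' * conj (W₂' X)‖ ≤ C * (X ^ k)⁻¹) :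
    False := by
  have hp0 : (0 : ℝ) < p := by exact_mod_cast (by omega : 0 < p)
  have hp1 : (1 : ℝ) ≤ p := by exact_mod_cast (by omega : 1 ≤ p)
  have hp2 : (2 : ℝ) ≤ p := by exact_mod_cast hp
  set q : ℝ := (p : ℝ) ^ (k - 1) with hq
  have hq1 : 1 ≤ q := one_le_pow₀ hp1
  have hqc : (p : ℂ) ^ (k - 1) = (q : ℂ) := by rw [hq]; push_cast; rfl
  have hpk : (p : ℝ) ^ k = q * p := by
    rw [hq, ← pow_succ, Nat.sub_add_cancel hk]
  rw [hqc] at hU₁ hU₁' hU₂ hU₂' hW₂ hW₂'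
  have hC : 0 ≤ C := by
    have h1 := (norm_nonneg _).trans (hV₁ (δ / 2) (by positivity) (by linarith))
    have h2 : 0 < ((δ / 2) ^ k)⁻¹ := by positivity
    by_contra h3
    have h4 : C * ((δ / 2) ^ k)⁻¹ < 0 := mul_neg_of_neg_of_pos (not_le.1 h3) h2
    linarith
  -- first part
  have hre : ap.re = 0 := by
    by_contra hne
    have hpos : 0 < |ap.re| := abs_pos.2 hne
    obtain ⟨δ₁, hδ₁, hB⟩ := hT₁ ((2 * C + 1) / |ap.re|)
    set X : ℝ := min (δ / (2 * p)) (δ₁ / 2) with hX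
    have hX0 : 0 < X := by rw [hX]; positivity
    have hX1 : X < δ₁ := lt_of_le_of_lt (min_le_right _ _) (by linarith)
    have hpX : p * X < δ := by
      have h1 : X ≤ δ / (2 * p) := min_le_left _ _
      calc p * X ≤ p * (δ / (2 * p)) := by gcongr
        _ = δ / 2 := by field_simp
        _ < δ := by linarith
    have hXδ : X < δ := lt_of_le_of_lt (by nlinarith) hpX
    have hpX0 : 0 < p * X := by positivity
    have e1 : (U₁ X + c' * conj (U₁' X)) + q * conj (U₁ (p * X) + c' * conj (U₁' (p * X))) =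
        ap * T₁ X + c' * (conj ap * T₁' X) := by
      have h2 : conj (U₁' X) = conj ap * T₁' X - q * U₁' (p * X) := by
        rw [hU₁' X hX0]
        simp
      rw [h2, hU₁ X hX0]
      simp only [map_add, map_mul, Complex.conj_conj, Complex.conj_ofReal]
      ring
    have e2 : (ap * T₁ X + c' * (conj ap * T₁' X)).re = ap.re * (T₁ X + c' * T₁' X) := by
      simp
      ring
    have e3 : |ap.re * (T₁ X + c' * T₁' X)| ≤ 2 * (C * (X ^ k)⁻¹) := by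
      rw [← e2, ← e1]
      refine (Complex.abs_re_le_norm _).trans ((norm_add_le _ _).trans ?_)
      rw [norm_mul, Complex.norm_real, Real.norm_of_nonneg (by linarith : 0 ≤ q), RCLike.norm_conj]
      have h1 := hV₁ X hX0 hXδ
      have h2 := mul_le_mul_of_nonneg_left (hV₁ (p * X) hpX0 hpX) (by linarith : 0 ≤ q)
      have h3 := alg_pow hk hp hX0 hC
      rw [← hq] at h3
      linarith
    have e4 := hB X hX0 hX1
    have hXk : 0 < X ^ k := by positivity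
    have e5 : X ^ k * T₁ X ≤ X ^ k * (T₁ X + c' * T₁' X) := by
      have h1 := mul_nonneg hc (hT₁' X hX0)
      exact mul_le_mul_of_nonneg_left (by linarith) hXk.le
    have e6 : |ap.re| * ((2 * C + 1) / |ap.re|) ≤ |ap.re| * (X ^ k * (T₁ X + c' * T₁' X)) :=
      mul_le_mul_of_nonneg_left (e4.trans e5) hpos.le
    have e7 : |ap.re| * ((2 * C + 1) / |ap.re|) = 2 * C + 1 := by field_simp
    have e8 : |ap.re| * (X ^ k * (T₁ X + c' * T₁' X)) ≤
        X ^ k * |ap.re * (T₁ X + c' * T₁' X)| := by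
      rw [abs_mul]
      have h1 := le_abs_self (T₁ X + c' * T₁' X)
      calc |ap.re| * (X ^ k * (T₁ X + c' * T₁' X)) ≤ |ap.re| * (X ^ k * |T₁ X + c' * T₁' X|) := by
            gcongr
        _ = _ := by ring
    have e9 : X ^ k * |ap.re * (T₁ X + c' * T₁' X)| ≤ 2 * C := by
      calc X ^ k * |ap.re * (T₁ X + c' * T₁' X)| ≤ X ^ k * (2 * (C * (X ^ k)⁻¹)) := by gcongr
        _ = 2 * C := by field_simp
    linarith
  -- second part
  set τ : ℝ := ap.im with hτ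
  have hap : conj ap = -ap := by
    apply Complex.ext
    · simp [hre]
    · simp
  have hapI : ap = (τ : ℂ) * I := by
    apply Complex.ext
    · simp [hre]
    · simp [hτ]
  have hap2 : ap * ap = ((-τ ^ 2 : ℝ) : ℂ) := by
    calc ap * ap = ((τ : ℂ) * I) * ((τ : ℂ) * I) := by rw [← hapI]
      _ = (τ : ℂ) ^ 2 * (I * I) := by ring
      _ = ((-τ ^ 2 : ℝ) : ℂ) := by
          rw [Complex.I_mul_I]
          push_cast
          ring
  set S : ℝ → ℝ := fun X => T₂ X + c' * T₂' X with hS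
  set Z : ℝ → ℂ := fun X => U₂ X - c' * conj (U₂' X) with hZ
  set E : ℝ → ℂ := fun X => W₂ X + c' * conj (W₂' X) with hE
  have z1 : ∀ X : ℝ, 0 < X → E X = ap * Z X - q * S X := by
    intro X hX
    simp only [hE, hZ, hS]
    rw [hW₂ X hX, hW₂' X hX]
    simp only [map_sub, map_mul, Complex.conj_ofReal, hap]
    push_cast
    ring
  have z2 : ∀ X : ℝ, 0 < X → Z X = ap * S X - q * conj (Z (p * X)) := by
    intro X hX
    simp only [hZ, hS]
    have h2 : conj (U₂' X) = -ap * T₂' X - q * U₂' (p * X) := by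
      rw [hU₂' X hX]
      simp [hap]
    rw [h2, hU₂ X hX]
    simp only [map_sub, map_mul, Complex.conj_conj, Complex.conj_ofReal]
    push_cast
    ring
  obtain ⟨δ₁, hδ₁, hB⟩ := hT₂ (4 * C + 1)
  set X : ℝ := min (δ / (2 * p)) (δ₁ / 2) with hX
  have hX0 : 0 < X := by rw [hX]; positivity
  have hX1 : X < δ₁ := lt_of_le_of_lt (min_le_right _ _) (by linarith)
  have hpX : p * X < δ := by
    have h1 : X ≤ δ / (2 * p) := min_le_left _ _
    calc p * X ≤ p * (δ / (2 * p)) := by gcongr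
      _ = δ / 2 := by field_simp
      _ < δ := by linarith
  have hXδ : X < δ := lt_of_le_of_lt (by nlinarith) hpX
  have hpX0 : 0 < p * X := by positivity
  have hXk : 0 < X ^ k := by positivity
  have e1 : (((q + τ ^ 2) * S X - q ^ 2 * S (p * X) : ℝ) : ℂ) = q * conj (E (p * X)) - E X := by
    rw [z1 X hX0, z1 (p * X) hpX0]
    simp only [map_sub, map_mul, Complex.conj_ofReal, hap]
    have h3 : ap * Z X = ap * ap * S X - q * (ap * conj (Z (p * X))) := by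
      rw [z2 X hX0]
      ring
    rw [h3, hap2]
    push_cast
    ring
  have e2 : |(q + τ ^ 2) * S X - q ^ 2 * S (p * X)| ≤ 2 * (C * (X ^ k)⁻¹) := by
    rw [← Real.norm_eq_abs, ← Complex.norm_real, e1]
    refine (norm_sub_le _ _).trans ?_
    rw [norm_mul, Complex.norm_real, Real.norm_of_nonneg (by linarith : 0 ≤ q), RCLike.norm_conj]
    have h1 := hV₂ X hX0 hXδ
    have h2 := mul_le_mul_of_nonneg_left (hV₂ (p * X) hpX0 hpX) (by linarith : 0 ≤ q)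
    have h3 := alg_pow hk hp hX0 hC
    rw [← hq] at h3
    simp only [hE]
    linarith
  have e3 : q * p * S (p * X) ≤ S X := by
    rw [← hpk]
    simp only [hS]
    have h1 := hm X hX0
    have h2 := mul_le_mul_of_nonneg_left (hm' X hX0) hc
    nlinarith
  have e4 : 4 * C + 1 ≤ X ^ k * S X := by
    refine (hB X hX0 hX1).trans ?_
    have h1 := mul_nonneg hc (hT₂' X hX0)
    exact mul_le_mul_of_nonneg_left (by simp only [hS]; linarith) hXk.le
  have e5 : 0 < S X := by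
    by_contra h
    have h2 : X ^ k * S X ≤ 0 := mul_nonpos_of_nonneg_of_nonpos hXk.le (not_lt.1 h)
    linarith
  have e6 : q ^ 2 * S (p * X) ≤ q / 2 * S X := by
    have h1 : q * S (p * X) ≤ S X / p := by
      rw [le_div_iff₀ hp0]
      linarith
    have h2 : S X / p ≤ S X / 2 := by gcongr
    calc q ^ 2 * S (p * X) = q * (q * S (p * X)) := by ring
      _ ≤ q * (S X / 2) := by
          refine mul_le_mul_of_nonneg_left (h1.trans h2) (by linarith)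
      _ = q / 2 * S X := by ring
  have e7 : q / 2 * S X ≤ 2 * (C * (X ^ k)⁻¹) := by
    have h1 := (abs_le.1 e2).2
    have h2 : 0 ≤ τ ^ 2 * S X := by positivity
    nlinarith
  have e8 : 1 / 2 * S X ≤ 2 * (C * (X ^ k)⁻¹) := by
    refine le_trans ?_ e7
    gcongr
  have e9 : X ^ k * S X ≤ 4 * C := by
    calc X ^ k * S X = 2 * X ^ k * (1 / 2 * S X) := by ring
      _ ≤ 2 * X ^ k * (2 * (C * (X ^ k)⁻¹)) := by gcongr
      _ = 4 * C := by field_simp; ring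
  linarith


alias f3_alg := f3_alg_pr

end Pool.Agent.JOF
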