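import Pool.Agent.Lib_helper42.JO.FHDefs

/-!
# Project JO, part FH, block CJF: the conjugate form
-/

namespace Pool.Agent.JOF

open Pool.Agent.JO Complex MeasureTheory Filter Topology Set
open scoped ComplexConjugate ContDiff

variable {k N : ℕ}

section cjf

open UpperHalfPlane hiding I
open scoped MatrixGroups Manifold ModularForm

/-- `J (A B; C D) J⁻¹ = (A -B; -C D)` -/
def cjf_star (γ : SL(2, ℤ)) : SL(2, ℤ) :=
  ⟨!![γ 0 0, -γ 0 1; -γ 1 0, γ 1 1], by
    have := Matrix.det_fin_two γ.1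
    rw [γ.2] at this
    rw [Matrix.det_fin_two_of]
    linarith⟩

theorem cjf_conj (γ : SL(2, ℤ)) :
    J * (Matrix.SpecialLinearGroup.mapGL ℝ γ) * J⁻¹ =
      Matrix.SpecialLinearGroup.mapGL ℝ (cjf_star γ) := by
  rw [mul_inv_eq_iff_eq_mul]
  ext i j
  fin_cases i <;> fin_cases j <;> simp [J, cjf_star, Matrix.mul_apply, Fin.sum_univ_two]

theorem cjf_mem (γ : SL(2, ℤ)) (h : γ ∈ CongruenceSubgroup.Gamma1 N) :
    cjf_star γ ∈ CongruenceSubgroup.Gamma1 N := by
  rw [CongruenceSubgroup.Gamma1_mem] at h ⊢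
  simp only [cjf_star]
  simpa using h

theorem cjf_star_star (γ : SL(2, ℤ)) : cjf_star (cjf_star γ) = γ := by
  ext i j
  fin_cases i <;> fin_cases j <;> simp [cjf_star]

open ConjAct Pointwise in
theorem cjf_level : toConjAct (J : GL (Fin 2) ℝ)⁻¹ •
      (Subgroup.map (Matrix.SpecialLinearGroup.mapGL ℝ) (CongruenceSubgroup.Gamma1 N)) =
    Subgroup.map (Matrix.SpecialLinearGroup.mapGL ℝ) (CongruenceSubgroup.Gamma1 N) := by
  have key : ∀ x : GL (Fin 2) ℝ,
      x ∈ Subgroup.map (Matrix.SpecialLinearGroup.mapGL ℝ) (CongruenceSubgroup.Gamma1 N) →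
      J * x * J⁻¹ ∈
        Subgroup.map (Matrix.SpecialLinearGroup.mapGL ℝ) (CongruenceSubgroup.Gamma1 N) := by
    rintro x ⟨γ, hγ, rfl⟩
    rw [cjf_conj]
    exact ⟨_, cjf_mem γ hγ, rfl⟩
  have hJ : (J : GL (Fin 2) ℝ)⁻¹ = J := by
    rw [inv_eq_iff_mul_eq_one, ← sq, J_sq]
  ext x
  rw [map_inv, Subgroup.mem_inv_pointwise_smul_iff, toConjAct_smul]
  constructor
  · intro h
    have := key _ h
    rw [hJ] at this
    have e : J * (J * x * J) * J = x := by
      have h2 : (J : GL (Fin 2) ℝ) * J = 1 := by rw [← sq, J_sq]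
      calc J * (J * x * J) * J = (J * J) * x * (J * J) := by group
        _ = x := by rw [h2]; simp
    rwa [e] at this
  · exact key x

/-- the conjugate form -/
noncomputable def cjf_form (F : CuspForm (CongruenceSubgroup.Gamma1 N) (k : ℤ)) :
    CuspForm (CongruenceSubgroup.Gamma1 N) (k : ℤ) where
  toFun := CuspForm.translate F J
  slash_action_eq' γ hγ := (CuspForm.translate F J).slash_action_eq' γ (by rwa [cjf_level])
  holo' := (CuspForm.translate F J).holo'
  zero_at_cusps' hc := (CuspForm.translate F J).zero_at_cusps' (by rwa [cjf_level])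

theorem cjf_form_apply (F : CuspForm (CongruenceSubgroup.Gamma1 N) (k : ℤ)) (τ : ℍ) :
    cjf_form F τ = conj (F (J • τ)) := by
  have : cjf_form F τ = ((F : ℍ → ℂ) ∣[(k : ℤ)] J) τ := rfl
  rw [this, ModularForm.slash_apply]
  simp

theorem cjf_fc (F : CuspForm (CongruenceSubgroup.Gamma1 N) (k : ℤ)) {z : ℂ} (hz : 0 < z.im) :
    fc (cjf_form F) z = conj (fc F (-conj z)) := by
  have h1 : 0 < (-conj z).im := by simpa using hz
  unfold fc
  rw [ofComplex_apply_of_im_pos hz, ofComplex_apply_of_im_pos h1, cjf_form_apply]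
  congr 2
  ext
  rw [coe_J_smul]

end cjf

variable {a b : ℕ → ℂ} {f g : ℂ → ℂ} {c : ℂ} {M : ℝ}

/-- block CJF: `f'(z) = conj f(-conj z)`, the translate by `diag(-1, 1)` -/
theorem conj_form_pr [NeZero N] {χ : DirichletCharacter ℂ N}
    {F : CuspForm (CongruenceSubgroup.Gamma1 N) (k : ℤ)} {lam : ℕ → ℂ}
    (h : IsHolEigenform N k χ F lam) :
    ∃ (χ' : DirichletCharacter ℂ N) (F' : CuspForm (CongruenceSubgroup.Gamma1 N) (k : ℤ)),
      IsHolEigenform N k χ' F' (fun n => conj (lam n)) ∧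
      ∀ z : ℂ, 0 < z.im → fc F' z = conj (fc F (-conj z)) := by
  refine ⟨χ.ringHomComp (starRingEnd ℂ), cjf_form F, ⟨?_, ?_, ?_⟩, fun z hz => cjf_fc F hz⟩
  · intro τ
    rw [cjf_form_apply]
    have h1 := h.expansion (UpperHalfPlane.J • τ)
    have h2 := (Complex.hasSum_conj'.2 h1)
    refine h2.congr_fun ?_
    intro n
    rw [map_mul, map_mul, Complex.conj_ofReal, ← Complex.exp_conj, UpperHalfPlane.coe_J_smul]
    congr 2
    simp only [map_mul, map_add, map_neg, Complex.conj_I, Complex.conj_ofReal, map_natCast,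
      map_one, map_ofNat, Complex.conj_conj]
    ring
  · intro γ hγ τ
    rw [cjf_form_apply, cjf_form_apply]
    have e : UpperHalfPlane.J • (γ • τ) = (cjf_star γ) • (UpperHalfPlane.J • τ) := by
      have h1 := cjf_conj γ
      rw [mul_inv_eq_iff_eq_mul] at h1
      have h2 : γ • τ = (Matrix.SpecialLinearGroup.mapGL ℝ γ : GL (Fin 2) ℝ) • τ := rfl
      have h3 : (cjf_star γ) • (UpperHalfPlane.J • τ) =
        (Matrix.SpecialLinearGroup.mapGL ℝ (cjf_star γ) : GL (Fin 2) ℝ) •
          (UpperHalfPlane.J • τ) := rfl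
      rw [h2, h3, ← mul_smul, ← mul_smul, h1]
    rw [e, h.nebentypus (cjf_star γ) (by simpa [cjf_star] using hγ)]
    rw [map_mul, map_mul, map_pow, MulChar.ringHomComp_apply]
    have e2 : (cjf_star γ) 1 1 = γ 1 1 := by simp [cjf_star]
    have e3 : (cjf_star γ) 1 0 = -γ 1 0 := by simp [cjf_star]
    rw [e2]
    congr 3
    rw [ModularGroup.denom_apply, ModularGroup.denom_apply, e2, e3, UpperHalfPlane.coe_J_smul]
    simp
  · refine ⟨?_, ?_⟩
    · simp [h.hecke.one]
    · intro p hp hpN n hn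
      have h1 := congrArg conj (h.hecke.mul p hp hpN n hn)
      rw [map_mul, map_add] at h1
      rw [h1, MulChar.ringHomComp_apply]
      split_ifs <;> simp

alias conj_form := conj_form_pr

end Pool.Agent.JOF
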