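import Pool.Agent.Lib_helper42.JO.FHDefs

set_option autoImplicit false

namespace Pool.Agent.JOF

open Pool.Agent.JO Complex MeasureTheory Filter Topology Set
open scoped ComplexConjugate ContDiff

variable {k N : ℕ} {a b : ℕ → ℂ} {f g : ℂ → ℂ} {c : ℂ} {M : ℝ}

theorem par_norm (n : ℕ) (x y : ℝ) :
    ‖a n * cexp (2 * Real.pi * I * n * (x + y * I))‖ = ‖a n‖ * Real.exp (-(2 * Real.pi * n * y)) := by
  rw [norm_mul, Complex.norm_exp]
  congr 2
  simp [Complex.mul_re, Complex.mul_im]

theorem par_int (m n : ℕ) :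
    ∫ x in (0 : ℝ)..1, cexp (2 * Real.pi * I * ((m : ℂ) - n) * x) = if m = n then 1 else 0 := by
  by_cases h : m = n
  · subst h
    simp
  · rw [if_neg h]
    have hc : 2 * Real.pi * I * ((m : ℂ) - n) ≠ 0 := by
      apply mul_ne_zero
      · simp [Real.pi_ne_zero, Complex.I_ne_zero]
      · rw [sub_ne_zero]
        exact_mod_cast h
    rw [integral_exp_mul_complex hc]
    have h1 : cexp (2 * Real.pi * I * ((m : ℂ) - n) * (1 : ℝ)) = 1 := by
      rw [Complex.exp_eq_one_iff]
      refine ⟨(m : ℤ) - n, ?_⟩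
      push_cast
      ring
    rw [h1]
    simp

/-- block PAR -/
theorem par_pr (h : Half k a f M) {y : ℝ} (hy : 0 < y) :
    HasSum (fun n : ℕ => ‖a n‖ ^ 2 * Real.exp (-(4 * Real.pi * n * y)))
      (∫ x in (0 : ℝ)..1, ‖f (x + y * I)‖ ^ 2) := by
  have him : ∀ x : ℝ, 0 < ((x : ℂ) + y * I).im := by
    intro x
    simpa using hy
  have hsum : Summable (fun n : ℕ => ‖a n‖ * Real.exp (-(2 * Real.pi * n * y))) := by
    have h1 := (h.exp _ (him 0)).summable.norm
    refine h1.congr ?_
    intro n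
    exact par_norm n 0 y
  set T : ℕ → ℝ → ℂ := fun n x => a n * cexp (2 * Real.pi * I * n * (x + y * I)) with hT
  have hTn : ∀ n x, ‖T n x‖ = ‖a n‖ * Real.exp (-(2 * Real.pi * n * y)) := fun n x => par_norm n x y
  have hTs : ∀ x : ℝ, HasSum (fun n => T n x) (f (x + y * I)) := fun x => h.exp _ (him x)
  have hTc : ∀ n, Continuous (T n) := by
    intro n
    rw [hT]
    fun_prop
  set F : ℕ × ℕ → ℝ → ℂ := fun p x => T p.1 x * conj (T p.2 x) with hF
  have hprod : Summable (fun p : ℕ × ℕ => (‖a p.1‖ * Real.exp (-(2 * Real.pi * p.1 * y)))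
      * (‖a p.2‖ * Real.exp (-(2 * Real.pi * p.2 * y)))) :=
    Summable.mul_of_nonneg hsum hsum (fun n => by positivity) (fun n => by positivity)
  have hFs : ∀ x : ℝ, HasSum (fun p => F p x) (((‖f (x + y * I)‖ ^ 2 : ℝ)) : ℂ) := by
    intro x
    have h1 : HasSum (fun n => conj (T n x)) (conj (f (x + y * I))) :=
      Complex.hasSum_conj'.2 (by simpa using hTs x)
    have h2 : Summable (fun p : ℕ × ℕ => T p.1 x * conj (T p.2 x)) := by
      apply Summable.of_norm
      refine hprod.congr ?_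
      intro p
      rw [norm_mul, RCLike.norm_conj, hTn, hTn]
    have h3 := (hTs x).mul h1 h2
    rw [Complex.mul_conj, Complex.normSq_eq_norm_sq] at h3
    exact h3
  have hInt := intervalIntegral.hasSum_integral_of_dominated_convergence (μ := volume) (a := (0 : ℝ)) (b := 1)
    (F := F) (f := fun x : ℝ => (((‖f (x + y * I)‖ ^ 2 : ℝ)) : ℂ))
    (fun p _ => (‖a p.1‖ * Real.exp (-(2 * Real.pi * p.1 * y)))
      * (‖a p.2‖ * Real.exp (-(2 * Real.pi * p.2 * y))))
    (by
      intro p
      apply Continuous.aestronglyMeasurable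
      rw [hF]
      exact (hTc _).mul (Complex.continuous_conj.comp (hTc _)))
    (by
      intro p
      refine Filter.Eventually.of_forall (fun x _ => ?_)
      rw [hF]
      simp only
      rw [norm_mul, RCLike.norm_conj, hTn, hTn])
    (Filter.Eventually.of_forall (fun x _ => hprod))
    (by exact intervalIntegrable_const)
    (Filter.Eventually.of_forall (fun x _ => hFs x))
  have hFi : ∀ p : ℕ × ℕ, ∫ x in (0 : ℝ)..1, F p x
      = if p.1 = p.2 then ((‖a p.1‖ ^ 2 * Real.exp (-(4 * Real.pi * p.1 * y)) : ℝ) : ℂ) else 0 := by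
    intro p
    obtain ⟨m, n⟩ := p
    have h1 : ∀ x : ℝ, F (m, n) x = (a m * cexp (-(2 * Real.pi * m * y)) * conj (a n * cexp (-(2 * Real.pi * n * y))))
        * cexp (2 * Real.pi * I * ((m : ℂ) - n) * x) := by
      intro x
      simp only [hF, hT]
      rw [map_mul, map_mul, ← Complex.exp_conj, ← Complex.exp_conj]
      have e1 : cexp (2 * Real.pi * I * m * (x + y * I)) = cexp (-(2 * Real.pi * m * y)) * cexp (2 * Real.pi * I * m * x) := by
        rw [← Complex.exp_add]
        congr 1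
        have := Complex.I_mul_I
        linear_combination (2 * Real.pi * m * y : ℂ) * this
      have e2 : cexp (conj (2 * Real.pi * I * n * (x + y * I)))
          = cexp (conj (-(2 * Real.pi * n * y))) * cexp (-(2 * Real.pi * I * n * x)) := by
        rw [← Complex.exp_add]
        congr 1
        simp only [map_mul, map_add, map_neg, Complex.conj_ofReal, Complex.conj_I, map_ofNat, map_natCast]
        have := Complex.I_mul_I
        linear_combination (2 * Real.pi * n * y : ℂ) * this
      have e3 : cexp (2 * Real.pi * I * ((m : ℂ) - n) * x) = cexp (2 * Real.pi * I * m * x) * cexp (-(2 * Real.pi * I * n * x)) := by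
        rw [← Complex.exp_add]
        congr 1
        ring
      rw [e1, e2, e3]
      ring
    simp only [h1]
    rw [intervalIntegral.integral_const_mul, par_int]
    by_cases hmn : m = n
    · subst hmn
      simp only [if_true, mul_one]
      rw [Complex.mul_conj, Complex.normSq_eq_norm_sq, norm_mul, Complex.norm_exp, mul_pow, ← Real.exp_nat_mul]
      congr 2
      simp [Complex.mul_re, Complex.mul_im]
      ring
    · simp [hmn]
  simp only [hFi] at hInt
  have hdiag := (Function.Injective.hasSum_iff (g := fun n : ℕ => (n, n)) (f := fun p : ℕ × ℕ =>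
    if p.1 = p.2 then ((‖a p.1‖ ^ 2 * Real.exp (-(4 * Real.pi * p.1 * y)) : ℝ) : ℂ) else 0)
    (a := ∫ x in (0 : ℝ)..1, (((‖f (x + y * I)‖ ^ 2 : ℝ)) : ℂ))
    (by
      intro m n hmn
      exact (Prod.mk.inj hmn).1)
    (by
      intro p hp
      rw [if_neg]
      intro hpp
      exact hp ⟨p.1, by ext <;> simp [hpp]⟩)).2 hInt
  rw [intervalIntegral.integral_ofReal] at hdiag
  have h4 : HasSum (fun n : ℕ => ((‖a n‖ ^ 2 * Real.exp (-(4 * Real.pi * n * y)) : ℝ) : ℂ))
      ((∫ x in (0 : ℝ)..1, ‖f (x + y * I)‖ ^ 2 : ℝ) : ℂ) := by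
    simp only [Function.comp_def, if_true] at hdiag
    exact hdiag
  exact Complex.hasSum_ofReal.1 h4

/-- block PAR -/
theorem cbs_pr (h : Half k a f M) {y : ℝ} (hy : 0 < y) :
    Summable (fun n : ℕ => ‖a n‖ ^ 2 * Real.exp (-(4 * Real.pi * n * y))) ∧
      ∑' n : ℕ, ‖a n‖ ^ 2 * Real.exp (-(4 * Real.pi * n * y)) ≤ M ^ 2 * (y ^ k)⁻¹ := by
  have h1 := par_pr h hy
  refine ⟨h1.summable, ?_⟩
  rw [h1.tsum_eq]
  have him : ∀ x : ℝ, ((x : ℂ) + y * I).im = y := by
    intro x
    simp
  have hM : ∀ x : ℝ, ‖f (x + y * I)‖ ^ 2 ≤ M ^ 2 * (y ^ k)⁻¹ := by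
    intro x
    have h2 := h.bd (x + y * I) (by rw [him]; exact hy)
    rw [him] at h2
    have h3 : ‖f (x + y * I)‖ ^ 2 ≤ (M * y ^ (-((k : ℝ) / 2))) ^ 2 := by
      apply pow_le_pow_left₀ (norm_nonneg _) h2
    refine h3.trans (le_of_eq ?_)
    rw [mul_pow, ← Real.rpow_natCast (y ^ (-((k : ℝ) / 2))) 2, ← Real.rpow_mul hy.le, ← Real.rpow_natCast y k,
      ← Real.rpow_neg hy.le]
    congr 2
    push_cast
    ring
  have hc : Continuous (fun x : ℝ => f (x + y * I)) := by
    have : ContinuousOn f {z : ℂ | 0 < z.im} := h.hol.continuousOn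
    refine this.comp_continuous (by fun_prop) ?_
    intro x
    change 0 < ((x : ℂ) + y * I).im
    rw [him]
    exact hy
  have h5 : ∫ x in (0 : ℝ)..1, ‖f (x + y * I)‖ ^ 2 ≤ ∫ x in (0 : ℝ)..1, M ^ 2 * (y ^ k)⁻¹ := by
    apply intervalIntegral.integral_mono_on (by norm_num)
    · exact (hc.norm.pow 2).intervalIntegrable _ _
    · exact intervalIntegrable_const
    · intro x _
      exact hM x
  refine h5.trans (le_of_eq ?_)
  simp


alias par := par_pr

alias cbs := cbs_pr

end Pool.Agent.JOF
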