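import Pool.Agent.Lib_helper42.JO.FHDefs
import Pool.Agent.Lib_helper42.JOF.PAR

/-!
# Block DVG: divergence of `∑ |a(n)|² n^{-k}`
-/

namespace Pool.Agent.JOF

open Pool.Agent.JO Complex MeasureTheory Filter Topology Set
open scoped ComplexConjugate ContDiff ENNReal

variable {k N : ℕ} {a b : ℕ → ℂ} {f g : ℂ → ℂ} {c : ℂ} {M : ℝ}

/-- the invariant function -/
noncomputable def dvg_phi (k : ℕ) (f : ℂ → ℂ) (z : ℂ) : ℝ := z.im ^ k * ‖f z‖ ^ 2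

theorem dvg_im {A B C D : ℤ} (hdet : A * D - B * C = 1) (z : ℂ) :
    (((A : ℂ) * z + B) / (C * z + D)).im = z.im / ‖(C : ℂ) * z + D‖ ^ 2 := by
  have hdet' : (A : ℝ) * D - B * C = 1 := by exact_mod_cast hdet
  rw [← Complex.normSq_eq_norm_sq, Complex.div_im]
  have e1 : ((C : ℂ) * z + D).re = C * z.re + D := by simp
  have e2 : ((C : ℂ) * z + D).im = C * z.im := by simp
  have e3 : ((A : ℂ) * z + B).re = A * z.re + B := by simp
  have e4 : ((A : ℂ) * z + B).im = A * z.im := by simp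
  rw [e1, e2, e3, e4, ← sub_div]
  congr 1
  linear_combination z.im * hdet'

theorem dvg_inv (h : Frame k N a b f g c M) {A B C D : ℤ} (hdet : A * D - B * C = 1)
    (hC : (N : ℤ) ∣ C) (hD : (N : ℤ) ∣ D - 1) {z : ℂ} (hz : 0 < z.im) :
    dvg_phi k f (((A : ℂ) * z + B) / (C * z + D)) = dvg_phi k f z := by
  have hw : (C : ℂ) * z + D ≠ 0 := by
    intro h0
    have e2 : ((C : ℂ) * z + D).im = C * z.im := by simp
    have e1 : ((C : ℂ) * z + D).re = C * z.re + D := by simp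
    rw [h0] at e1 e2
    simp only [zero_im, zero_re] at e1 e2
    have hC0 : (C : ℝ) = 0 := by
      rcases mul_eq_zero.1 e2.symm with h1 | h1
      · exact h1
      · exact absurd h1 hz.ne'
    rw [hC0] at e1
    have hD0 : (D : ℝ) = 0 := by linarith
    have hdet' : (A : ℝ) * D - B * C = 1 := by exact_mod_cast hdet
    rw [hD0, hC0] at hdet'
    simp at hdet'
  have hn : (0 : ℝ) < ‖(C : ℂ) * z + D‖ := norm_pos_iff.2 hw
  unfold dvg_phi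
  rw [dvg_im hdet z, h.modular A B C D hdet hC hD z hz, norm_mul, norm_pow, div_pow, mul_pow]
  field_simp
  rw [← pow_mul, ← pow_mul, mul_comm k 2]

theorem dvg_shift (h : Frame k N a b f g c M) (m : ℤ) {z : ℂ} (hz : 0 < z.im) :
    f (z + m) = f z := by
  have h1 := h.modular 1 m 0 1 (by ring) (by simp) (by simp) z hz
  simpa using h1

/-- a good point -/
theorem dvg_point (h : Frame k N a b f g c M) :
    ∃ δ x₁ y₀ ρ : ℝ, 0 < δ ∧ 0 < ρ ∧ 0 < x₁ - ρ ∧ x₁ + ρ < 1 ∧ ρ < y₀ ∧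
      ∀ z : ℂ, |z.re + x₁| ≤ ρ → |z.im - y₀| ≤ ρ → δ ≤ dvg_phi k f z := by
  obtain ⟨z, hz, hfz⟩ := h.nonzero
  have hopen : IsOpen {z : ℂ | 0 < z.im} := isOpen_lt continuous_const Complex.continuous_im
  have hcont : ContinuousOn f {z : ℂ | 0 < z.im} := h.fh.hol.continuousOn
  -- move slightly to have a non-integral real part
  have hca : ContinuousAt f z := hcont.continuousAt (hopen.mem_nhds hz)
  have hev : ∀ᶠ s : ℝ in 𝓝 0, f (z + s) ≠ 0 := by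
    have h1 : Tendsto (fun s : ℝ => z + (s : ℂ)) (𝓝 0) (𝓝 z) := by
      have : Continuous (fun s : ℝ => z + (s : ℂ)) := by fun_prop
      simpa using this.tendsto 0
    exact (hca.tendsto.comp h1).eventually_ne hfz
  obtain ⟨s₀, hs₀, hs⟩ := Metric.eventually_nhds_iff.1 hev
  obtain ⟨s, hs1, hs2⟩ : ∃ s : ℝ, |s| < s₀ ∧ ∀ m : ℤ, (m : ℝ) ≠ z.re + s := by
    by_cases h1 : ∃ m : ℤ, (m : ℝ) = z.re
    · obtain ⟨m, hm⟩ := h1
      refine ⟨min (s₀ / 2) (1 / 2), ?_, ?_⟩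
      · rw [abs_of_pos (by positivity)]
        exact (min_le_left _ _).trans_lt (by linarith)
      · intro m' hm'
        rw [← hm] at hm'
        have h2 : (0 : ℝ) < min (s₀ / 2) (1 / 2) := by positivity
        have h3 : min (s₀ / 2) (1 / 2 : ℝ) ≤ 1 / 2 := min_le_right _ _
        have h4 : (m : ℝ) < m' := by linarith
        have h5 : (m' : ℝ) < m + 1 := by linarith
        have h6 : m < m' := by exact_mod_cast h4
        have h7 : m' < m + 1 := by exact_mod_cast h5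
        omega
    · refine ⟨0, by simpa using hs₀, ?_⟩
      intro m hm
      exact h1 ⟨m, by simpa using hm⟩
  set w : ℂ := z + s - (⌈z.re + s⌉ : ℤ) with hw
  have hwim : w.im = z.im := by simp [hw]
  have hwre : w.re = z.re + s - ⌈z.re + s⌉ := by simp [hw]
  have hfw : f w ≠ 0 := by
    have h1 : f (w + (⌈z.re + s⌉ : ℤ)) = f w := dvg_shift h _ (by rw [hwim]; exact hz)
    have h2 : w + (⌈z.re + s⌉ : ℤ) = z + s := by rw [hw]; ring
    rw [h2] at h1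
    rw [← h1]
    exact hs (by simpa [Real.dist_eq] using hs1)
  set x₁ : ℝ := ⌈z.re + s⌉ - (z.re + s) with hx₁
  have hx1 : 0 < x₁ := by
    have h1 : z.re + s ≤ ⌈z.re + s⌉ := Int.le_ceil _
    have h2 := hs2 ⌈z.re + s⌉
    rcases lt_or_eq_of_le h1 with h3 | h3
    · rw [hx₁]; linarith
    · exact absurd h3.symm h2
  have hx2 : x₁ < 1 := by
    have h1 := Int.ceil_lt_add_one (z.re + s)
    rw [hx₁]; linarith
  have hphi : 0 < dvg_phi k f w := by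
    unfold dvg_phi
    rw [hwim]
    have : 0 < ‖f w‖ := norm_pos_iff.2 hfw
    positivity
  have hcw : ContinuousAt (dvg_phi k f) w := by
    have h1 : ContinuousAt f w := hcont.continuousAt (hopen.mem_nhds (by
      show 0 < w.im
      rw [hwim]; exact hz))
    unfold dvg_phi
    exact (Complex.continuous_im.continuousAt.pow k).mul (h1.norm.pow 2)
  have hev2 : ∀ᶠ v in 𝓝 w, dvg_phi k f w / 2 < dvg_phi k f v :=
    hcw.tendsto.eventually (lt_mem_nhds (by linarith))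
  obtain ⟨r, hr, hr2⟩ := Metric.eventually_nhds_iff.1 hev2
  refine ⟨dvg_phi k f w / 2, x₁, z.im, min (min (r / 4) (z.im / 2)) (min (x₁ / 2) ((1 - x₁) / 2)),
    by positivity, ?_, ?_, ?_, ?_, ?_⟩
  · have : 0 < 1 - x₁ := by linarith
    positivity
  · have : min (min (r / 4) (z.im / 2)) (min (x₁ / 2) ((1 - x₁) / 2)) ≤ x₁ / 2 :=
      (min_le_right _ _).trans (min_le_left _ _)
    linarith
  · have : min (min (r / 4) (z.im / 2)) (min (x₁ / 2) ((1 - x₁) / 2)) ≤ (1 - x₁) / 2 :=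
      (min_le_right _ _).trans (min_le_right _ _)
    linarith
  · have : min (min (r / 4) (z.im / 2)) (min (x₁ / 2) ((1 - x₁) / 2)) ≤ z.im / 2 :=
      (min_le_left _ _).trans (min_le_right _ _)
    linarith
  · intro v hv1 hv2
    have h0 : min (min (r / 4) (z.im / 2)) (min (x₁ / 2) ((1 - x₁) / 2)) ≤ r / 4 :=
      (min_le_left _ _).trans (min_le_left _ _)
    refine (hr2 ?_).le
    rw [Complex.dist_eq]
    have h1 := Complex.norm_le_abs_re_add_abs_im (v - w)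
    have h2 : (v - w).re = v.re + x₁ := by
      rw [Complex.sub_re, hwre, hx₁]; ring
    have h3 : (v - w).im = v.im - z.im := by rw [Complex.sub_im, hwim]
    rw [h2, h3] at h1
    linarith

/-- a good box around `i/y₀` -/
theorem dvg_box {y₀ ρ : ℝ} (hy : 0 < y₀) (hρ : 0 < ρ) :
    ∃ κ : ℝ, 0 < κ ∧ κ ≤ 1 / (2 * y₀) ∧ κ < 1 / 3 ∧ ∀ ξ : ℂ, |ξ.re| ≤ κ → |ξ.im - 1 / y₀| ≤ κ →
      |(-1 / ξ).re| ≤ ρ / 2 ∧ |(-1 / ξ).im - y₀| ≤ ρ := by
  set ξ₀ : ℂ := (1 / y₀ : ℝ) * I with hξ₀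
  have hξ₀' : ξ₀ ≠ 0 := by
    rw [hξ₀]
    refine mul_ne_zero ?_ I_ne_zero
    rw [Ne, Complex.ofReal_eq_zero]
    positivity
  have hval : -1 / ξ₀ = (y₀ : ℂ) * I := by
    rw [hξ₀]
    have : (y₀ : ℂ) ≠ 0 := by
      rw [Ne, Complex.ofReal_eq_zero]
      exact hy.ne'
    push_cast
    field_simp
    rw [Complex.I_sq]
  have hcont : ContinuousAt (fun ξ : ℂ => -1 / ξ) ξ₀ := by
    exact continuousAt_const.div continuousAt_id hξ₀'
  have hev : ∀ᶠ ξ in 𝓝 ξ₀, dist (-1 / ξ) (-1 / ξ₀) < ρ / 2 :=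
    Metric.tendsto_nhds.1 hcont.tendsto (ρ / 2) (by linarith)
  obtain ⟨r, hr, hr2⟩ := Metric.eventually_nhds_iff.1 hev
  refine ⟨min (r / 4) (min (1 / (2 * y₀)) (1 / 4)), by positivity,
    (min_le_right _ _).trans (min_le_left _ _),
    ((min_le_right _ _).trans (min_le_right _ _)).trans_lt (by norm_num), ?_⟩
  intro ξ h1 h2
  have h0 : min (r / 4) (min (1 / (2 * y₀)) (1 / 4)) ≤ r / 4 := min_le_left _ _
  have hd : dist ξ ξ₀ < r := by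
    rw [Complex.dist_eq]
    have h3 := Complex.norm_le_abs_re_add_abs_im (ξ - ξ₀)
    have h4 : (ξ - ξ₀).re = ξ.re := by simp [hξ₀]
    have h5 : (ξ - ξ₀).im = ξ.im - 1 / y₀ := by
      rw [Complex.sub_im, hξ₀]
      simp
    rw [h4, h5] at h3
    linarith
  have h3 := hr2 hd
  rw [hval, Complex.dist_eq] at h3
  have h4 := Complex.abs_re_le_norm (-1 / ξ - (y₀ : ℂ) * I)
  have h5 := Complex.abs_im_le_norm (-1 / ξ - (y₀ : ℂ) * I)
  have h6 : (-1 / ξ - (y₀ : ℂ) * I).re = (-1 / ξ).re := by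
    rw [Complex.sub_re]; simp
  have h7 : (-1 / ξ - (y₀ : ℂ) * I).im = (-1 / ξ).im - y₀ := by
    rw [Complex.sub_im]; simp
  rw [h6] at h4
  rw [h7] at h5
  constructor
  · linarith
  · linarith

theorem dvg_moebius {A B : ℤ} {c d : ℕ} (hc : 0 < c) (hdet : A * d - B * c = 1) {ξ : ℂ}
    (hξ : ξ ≠ 0) :
    ((A : ℂ) * (-(d : ℂ) / c - 1 / ξ) + B) / ((c : ℂ) * (-(d : ℂ) / c - 1 / ξ) + d) =
      A / c + ξ / c ^ 2 := by
  have hc' : (c : ℂ) ≠ 0 := by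
    exact_mod_cast hc.ne'
  have hdet' : (A : ℂ) * d - B * c = 1 := by exact_mod_cast hdet
  have e1 : (c : ℂ) * (-(d : ℂ) / c - 1 / ξ) + d = -c / ξ := by
    field_simp
    ring
  have e2 : (A : ℂ) * (-(d : ℂ) / c - 1 / ξ) + B = -1 / c - A / ξ := by
    field_simp
    linear_combination (-ξ) * hdet'
  rw [e1, e2]
  field_simp
  ring

/-- the lower bound on a box around `A/c` -/
theorem dvg_lower (h : Frame k N a b f g c M) {δ x₁ y₀ ρ κ : ℝ} (hρy : ρ < y₀) (hρ : 0 < ρ)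
    (hpt : ∀ z : ℂ, |z.re + x₁| ≤ ρ → |z.im - y₀| ≤ ρ → δ ≤ dvg_phi k f z)
    (hκ : 0 < κ) (hκ2 : κ ≤ 1 / (2 * y₀))
    (hbox : ∀ ξ : ℂ, |ξ.re| ≤ κ → |ξ.im - 1 / y₀| ≤ κ →
      |(-1 / ξ).re| ≤ ρ / 2 ∧ |(-1 / ξ).im - y₀| ≤ ρ)
    {e d : ℕ} (he : 2 ≤ e) (hNe : N ∣ e) (hNd : (N : ℤ) ∣ (d : ℤ) - 1) (hde : Nat.Coprime d e)
    (hdx : |(d : ℝ) / e - x₁| ≤ ρ / 2) :
    ∃ A : ℤ, 0 < A ∧ A < e ∧ (e : ℤ) ∣ A * d - 1 ∧ ∀ x y : ℝ, |x - A / e| ≤ κ / e ^ 2 →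
      |(e : ℝ) ^ 2 * y - 1 / y₀| ≤ κ → δ ≤ dvg_phi k f (x + y * I) := by
  have hy₀ : 0 < y₀ := by linarith
  have he0 : (0 : ℤ) < e := by exact_mod_cast (by omega : 0 < e)
  obtain ⟨u, v, huv⟩ : ∃ u v : ℤ, u * d + v * e = 1 := by
    have h1 : IsCoprime (d : ℤ) (e : ℤ) := Nat.isCoprime_iff_coprime.2 hde
    obtain ⟨u, v, huv⟩ := h1
    exact ⟨u, v, huv⟩
  have hA1 : (e : ℤ) ∣ (u % e) * d - 1 := by
    have h1 : (e : ℤ) ∣ u % e - u := by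
      have h2 := Int.emod_add_mul_ediv u e
      exact ⟨-(u / e), by linarith⟩
    obtain ⟨t, ht⟩ := h1
    refine ⟨t * d - v, ?_⟩
    have h2 : u % e = u + e * t := by linarith
    rw [h2]
    linear_combination huv
  have hA0 : 0 ≤ u % e := Int.emod_nonneg _ he0.ne'
  have hA2 : u % e < e := Int.emod_lt_of_pos _ he0
  have hA3 : u % e ≠ 0 := by
    intro h0
    rw [h0] at hA1
    have h2 : (e : ℤ) ∣ 1 := by simpa using hA1
    have h3 := Int.le_of_dvd one_pos h2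
    omega
  refine ⟨u % e, lt_of_le_of_ne hA0 (Ne.symm hA3), hA2, hA1, ?_⟩
  intro x y hx hy
  obtain ⟨B, hB⟩ := hA1
  set A : ℤ := u % e with hAdef
  have hdet : A * (d : ℤ) - B * (e : ℤ) = 1 := by linarith
  have heR : (0 : ℝ) < e := by exact_mod_cast (by omega : 0 < e)
  set ξ : ℂ := (e : ℂ) ^ 2 * ((x : ℂ) + y * I - A / e) with hξ
  have heC : (e : ℂ) ≠ 0 := by
    exact_mod_cast (by omega : e ≠ 0)
  have hξ' : ξ = (((e : ℝ) ^ 2 * (x - A / e) : ℝ) : ℂ) + (((e : ℝ) ^ 2 * y : ℝ) : ℂ) * I := by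
    rw [hξ]; push_cast; ring
  have hre : ξ.re = (e : ℝ) ^ 2 * (x - A / e) := by
    rw [hξ', Complex.add_re, Complex.re_ofReal_mul, Complex.ofReal_re]
    simp
  have him : ξ.im = (e : ℝ) ^ 2 * y := by
    rw [hξ', Complex.add_im, Complex.im_ofReal_mul, Complex.ofReal_im]
    simp
  have h1 : |ξ.re| ≤ κ := by
    rw [hre, abs_mul, abs_of_pos (by positivity : (0 : ℝ) < (e : ℝ) ^ 2)]
    calc (e : ℝ) ^ 2 * |x - A / e| ≤ (e : ℝ) ^ 2 * (κ / e ^ 2) := by gcongr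
      _ = κ := by field_simp
  have h2 : |ξ.im - 1 / y₀| ≤ κ := by rw [him]; exact hy
  have hpos : 0 < ξ.im := by
    have h3 := (abs_le.1 h2).1
    have h4 : 1 / (2 * y₀) = 1 / y₀ / 2 := by field_simp
    have h5 : 0 < 1 / y₀ := by positivity
    rw [h4] at hκ2
    linarith
  have hξ0 : ξ ≠ 0 := by
    intro h0
    rw [h0] at hpos
    simp at hpos
  obtain ⟨h3, h4⟩ := hbox ξ h1 h2
  set z : ℂ := -(d : ℂ) / e - 1 / ξ with hz
  have hzre : z.re = -((d : ℝ) / e) + (-1 / ξ).re := by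
    have : z = ((-((d : ℝ) / e) : ℝ) : ℂ) + (-1 / ξ) := by rw [hz]; push_cast; ring
    rw [this, Complex.add_re, Complex.ofReal_re]
  have hzim : z.im = (-1 / ξ).im := by
    have : z = ((-((d : ℝ) / e) : ℝ) : ℂ) + (-1 / ξ) := by rw [hz]; push_cast; ring
    rw [this, Complex.add_im, Complex.ofReal_im, zero_add]
  have h5 : |z.re + x₁| ≤ ρ := by
    rw [hzre]
    have : -((d : ℝ) / e) + (-1 / ξ).re + x₁ = (-1 / ξ).re - ((d : ℝ) / e - x₁) := by ring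
    rw [this]
    refine (abs_sub _ _).trans ?_
    linarith
  have h6 : |z.im - y₀| ≤ ρ := by rw [hzim]; exact h4
  have hzpos : 0 < z.im := by
    have := (abs_le.1 h6).1
    linarith
  have h7 := hpt z h5 h6
  have h8 := dvg_inv h (A := A) (B := B) (C := (e : ℤ)) (D := (d : ℤ)) hdet
    (by exact_mod_cast hNe) hNd hzpos
  have h9 : ((A : ℂ) * z + B) / (((e : ℕ) : ℤ) * z + ((d : ℕ) : ℤ)) = (x : ℂ) + y * I := by
    have h10 := dvg_moebius (A := A) (B := B) (c := e) (d := d) (by omega) hdet hξ0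
    push_cast
    rw [hz, h10, hξ]
    field_simp
    ring
  rw [h9] at h8
  rw [h8]
  exact h7

/-- two boxes are disjoint -/
theorem dvg_disj {κ y₀ : ℝ} (hy₀ : 0 < y₀) (hκ : 0 < κ) (hκ2 : κ ≤ 1 / (2 * y₀)) (hκ3 : κ < 1 / 3)
    {e e' : ℕ} {A A' : ℤ} (he : 0 < e) (he' : 0 < e') (hee : e ≤ e')
    (hne : A * e' ≠ A' * e) {x y : ℝ}
    (h1 : |x - A / e| ≤ κ / e ^ 2) (h2 : |x - A' / e'| ≤ κ / e' ^ 2)
    (h3 : |(e : ℝ) ^ 2 * y - 1 / y₀| ≤ κ) (h4 : |(e' : ℝ) ^ 2 * y - 1 / y₀| ≤ κ) : False := by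
  have heR : (0 : ℝ) < e := by exact_mod_cast he
  have heR' : (0 : ℝ) < e' := by exact_mod_cast he'
  have hee' : (e : ℝ) ≤ e' := by exact_mod_cast hee
  have hk4 : 1 / (2 * y₀) = 1 / y₀ / 2 := by field_simp
  rw [hk4] at hκ2
  have hy1 : 0 < 1 / y₀ := by positivity
  -- the ratio
  have hr : (e' : ℝ) ≤ 2 * e := by
    have h5 := (abs_le.1 h3).1
    have h6 := (abs_le.1 h4).2
    have hypos : 0 < y := by
      by_contra hcon
      push Not at hcon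
      have : (e : ℝ) ^ 2 * y ≤ 0 := mul_nonpos_of_nonneg_of_nonpos (by positivity) hcon
      linarith
    by_contra hcon
    push Not at hcon
    have h7 : 4 * (e : ℝ) ^ 2 ≤ (e' : ℝ) ^ 2 := by nlinarith
    have h8 : 4 * ((e : ℝ) ^ 2 * y) ≤ (e' : ℝ) ^ 2 * y := by nlinarith
    nlinarith
  -- the distance
  have hd : 1 / ((e : ℝ) * e') ≤ |(A : ℝ) / e - A' / e'| := by
    have h5 : (A : ℝ) / e - A' / e' = (A * e' - A' * e) / (e * e') := by field_simp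
    rw [h5, abs_div, abs_of_pos (by positivity : (0 : ℝ) < e * e')]
    gcongr
    have h6 : (1 : ℤ) ≤ |A * e' - A' * e| := Int.one_le_abs (sub_ne_zero.2 hne)
    exact_mod_cast h6
  have ht : |(A : ℝ) / e - A' / e'| ≤ κ / e ^ 2 + κ / e' ^ 2 := by
    have h5 : (A : ℝ) / e - A' / e' = (x - A' / e') - (x - A / e) := by ring
    rw [h5]
    refine (abs_sub _ _).trans ?_
    linarith
  have h5 : 1 / ((e : ℝ) * e') ≤ κ / e ^ 2 + κ / e' ^ 2 := hd.trans ht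
  have h6 : κ / (e : ℝ) ^ 2 + κ / e' ^ 2 = κ * (e' / e + e / e') / (e * e') := by
    field_simp
  rw [h6, div_le_div_iff_of_pos_right (by positivity)] at h5
  have h7 : (e' : ℝ) / e ≤ 2 := by
    rw [div_le_iff₀ heR]; exact hr
  have h8 : (e : ℝ) / e' ≤ 1 := by
    rw [div_le_one heR']; exact hee'
  nlinarith

/-- the good residues -/
noncomputable def dvg_G (N : ℕ) (x₁ ρ : ℝ) (ℓ : ℕ) : Finset ℕ :=
  (Finset.range ℓ).filter fun j =>
    |((1 + N * j : ℕ) : ℝ) / ((N * ℓ : ℕ) : ℝ) - x₁| ≤ ρ / 2 ∧ ¬ ℓ ∣ 1 + N * j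

theorem dvg_card {x₁ ρ : ℝ} (hN : 1 ≤ N) (hρ : 0 < ρ) (h0 : 0 < x₁ - ρ) (h1 : x₁ + ρ < 1)
    {ℓ : ℕ} (hℓ : ℓ.Prime) (hℓN : ¬ ℓ ∣ N) (hbig : 4 / ρ ≤ ℓ) :
    ρ / 4 * ℓ ≤ ((dvg_G N x₁ ρ ℓ).card : ℝ) := by
  have hℓ0 : (0 : ℝ) < ℓ := by exact_mod_cast hℓ.pos
  have hN0 : (0 : ℝ) < N := by exact_mod_cast hN
  have hN1 : (1 : ℝ) ≤ N := by exact_mod_cast hN
  have hbig' : 4 ≤ ρ * ℓ := by
    rw [div_le_iff₀ hρ] at hbig
    linarith
  set u : ℝ := ℓ * (x₁ - ρ / 2) - 1 / N with hu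
  set v : ℝ := ℓ * (x₁ + ρ / 2) - 1 / N with hv
  have h1N : 1 / (N : ℝ) ≤ 1 := by
    rw [div_le_one hN0]; exact hN1
  have h1N' : 0 < 1 / (N : ℝ) := by positivity
  have hu0 : 0 ≤ u := by
    rw [hu]
    have : ℓ * (x₁ - ρ / 2) = ℓ * (x₁ - ρ) + ρ * ℓ / 2 := by ring
    have h2 : 0 < ℓ * (x₁ - ρ) := mul_pos hℓ0 h0
    nlinarith
  have hv0 : 0 ≤ v := by
    rw [hv, hu] at *
    nlinarith
  have hsub : (Finset.Icc ⌈u⌉₊ ⌊v⌋₊) \ ((Finset.range ℓ).filter fun j => ℓ ∣ 1 + N * j) ⊆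
      dvg_G N x₁ ρ ℓ := by
    intro j hj
    rw [Finset.mem_sdiff, Finset.mem_Icc, Finset.mem_filter, Finset.mem_range] at hj
    obtain ⟨⟨hj1, hj2⟩, hj3⟩ := hj
    have hj1' : u ≤ j := Nat.ceil_le.1 hj1
    have hj2' : (j : ℝ) ≤ v := (Nat.le_floor_iff hv0).1 hj2
    have hjl : j < ℓ := by
      have : (j : ℝ) < ℓ := by
        refine hj2'.trans_lt ?_
        rw [hv]
        nlinarith
      exact_mod_cast this
    unfold dvg_G
    rw [Finset.mem_filter, Finset.mem_range]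
    refine ⟨hjl, ?_, fun h2 => hj3 ⟨hjl, h2⟩⟩
    have e1 : ((1 + N * j : ℕ) : ℝ) / ((N * ℓ : ℕ) : ℝ) = (1 / N + j) / ℓ := by
      push_cast
      field_simp
    rw [e1, abs_le]
    constructor
    · have : x₁ - ρ / 2 ≤ (1 / N + j) / ℓ := by
        rw [le_div_iff₀ hℓ0]
        rw [hu] at hj1'
        linarith
      linarith
    · have : (1 / N + j) / ℓ ≤ x₁ + ρ / 2 := by
        rw [div_le_iff₀ hℓ0]
        rw [hv] at hj2'
        linarith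
      linarith
  have hcard1 : ((Finset.range ℓ).filter fun j => ℓ ∣ 1 + N * j).card ≤ 1 := by
    rw [Finset.card_le_one]
    intro i hi j hj
    rw [Finset.mem_filter, Finset.mem_range] at hi hj
    have hcop : Nat.Coprime ℓ N := (Nat.Prime.coprime_iff_not_dvd hℓ).2 hℓN
    have h2 : (ℓ : ℤ) ∣ (N : ℤ) * ((i : ℤ) - j) := by
      have h3 : (ℓ : ℤ) ∣ ((1 + N * i : ℕ) : ℤ) := by exact_mod_cast hi.2
      have h4 : (ℓ : ℤ) ∣ ((1 + N * j : ℕ) : ℤ) := by exact_mod_cast hj.2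
      have h5 := dvd_sub h3 h4
      have h6 : ((1 + N * i : ℕ) : ℤ) - ((1 + N * j : ℕ) : ℤ) = (N : ℤ) * ((i : ℤ) - j) := by
        push_cast; ring
      rwa [h6] at h5
    have h3 : (ℓ : ℤ) ∣ (i : ℤ) - j := by
      refine IsCoprime.dvd_of_dvd_mul_left ?_ h2
      exact Nat.isCoprime_iff_coprime.2 hcop
    obtain ⟨t, ht⟩ := h3
    have hi1 : (i : ℤ) < ℓ := by exact_mod_cast hi.1
    have hj1 : (j : ℤ) < ℓ := by exact_mod_cast hj.1
    have ht0 : t = 0 := by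
      have hl : (0 : ℤ) < ℓ := by exact_mod_cast hℓ.pos
      have h4 : (ℓ : ℤ) * t < ℓ * 1 := by linarith
      have h5 : (ℓ : ℤ) * (-1) < ℓ * t := by linarith
      have h6 := lt_of_mul_lt_mul_left h4 hl.le
      have h7 := lt_of_mul_lt_mul_left h5 hl.le
      omega
    rw [ht0] at ht
    omega
  have h2 := Finset.card_le_card hsub
  have h3 := Finset.le_card_sdiff ((Finset.range ℓ).filter fun j => ℓ ∣ 1 + N * j)
    (Finset.Icc ⌈u⌉₊ ⌊v⌋₊)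
  have h4 : v - u - 1 ≤ ((Finset.Icc ⌈u⌉₊ ⌊v⌋₊).card : ℝ) := by
    rw [Nat.card_Icc]
    have h5 : v < ⌊v⌋₊ + 1 := Nat.lt_floor_add_one v
    have h6 : (⌈u⌉₊ : ℝ) < u + 1 := Nat.ceil_lt_add_one hu0
    have h7 : ((⌊v⌋₊ : ℝ) + 1) - ⌈u⌉₊ ≤ ((⌊v⌋₊ + 1 - ⌈u⌉₊ : ℕ) : ℝ) := by
      have := Nat.sub_le_iff_le_add.1 (le_refl (⌊v⌋₊ + 1 - ⌈u⌉₊))
      have h8 : ((⌊v⌋₊ + 1 : ℕ) : ℝ) ≤ ((⌊v⌋₊ + 1 - ⌈u⌉₊ + ⌈u⌉₊ : ℕ) : ℝ) := by exact_mod_cast this
      push_cast at h8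
      linarith
    linarith
  have h5 : ((Finset.Icc ⌈u⌉₊ ⌊v⌋₊).card : ℝ) - 1 ≤ ((dvg_G N x₁ ρ ℓ).card : ℝ) := by
    have h6 : (Finset.Icc ⌈u⌉₊ ⌊v⌋₊).card ≤ (dvg_G N x₁ ρ ℓ).card + 1 := by omega
    have h7 : ((Finset.Icc ⌈u⌉₊ ⌊v⌋₊).card : ℝ) ≤ ((dvg_G N x₁ ρ ℓ).card : ℝ) + 1 := by
      exact_mod_cast h6
    linarith
  have h6 : v - u = ρ * ℓ := by rw [hu, hv]; ring
  linarith

/-- the integrand `φ(x+iy)/y` -/
noncomputable def dvg_F (k : ℕ) (f : ℂ → ℂ) (p : ℝ × ℝ) : ℝ≥0∞ :=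
  ENNReal.ofReal (p.2 ^ (k - 1) * ‖f (p.1 + p.2 * I)‖ ^ 2)

theorem dvg_lint_exp {k : ℕ} (hk : 1 ≤ k) {b : ℝ} (hb : 0 < b) :
    ∫⁻ y in Ioi (0 : ℝ), ENNReal.ofReal (y ^ (k - 1) * Real.exp (-(b * y))) =
      ENNReal.ofReal (Real.Gamma k / b ^ k) := by
  have hk' : (0 : ℝ) < k := by exact_mod_cast hk
  have h1 := Real.integral_rpow_mul_exp_neg_mul_Ioi hk' hb
  have hfun : ∀ y ∈ Ioi (0 : ℝ), y ^ ((k : ℝ) - 1) * Real.exp (-(b * y)) =
      y ^ (k - 1) * Real.exp (-(b * y)) := by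
    intro y hy
    congr 1
    rw [← Real.rpow_natCast y (k - 1)]
    congr 1
    push_cast [Nat.cast_sub hk]
    ring
  have hint : IntegrableOn (fun y : ℝ => y ^ (k - 1) * Real.exp (-(b * y))) (Ioi 0) := by
    by_contra hcon
    have h2 : ∫ y in Ioi (0 : ℝ), y ^ ((k : ℝ) - 1) * Real.exp (-(b * y)) = 0 := by
      rw [setIntegral_congr_fun measurableSet_Ioi hfun]
      exact integral_undef hcon
    rw [h2] at h1
    have h3 : 0 < (1 / b) ^ (k : ℝ) * Real.Gamma k :=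
      mul_pos (Real.rpow_pos_of_pos (by positivity) _) (Real.Gamma_pos_of_pos hk')
    linarith
  rw [← ofReal_integral_eq_lintegral_ofReal hint]
  · rw [← setIntegral_congr_fun measurableSet_Ioi hfun, h1]
    congr 1
    rw [Real.rpow_natCast, one_div, inv_pow]
    field_simp
  · refine (ae_restrict_iff' measurableSet_Ioi).2 (Eventually.of_forall ?_)
    intro y hy
    have : (0 : ℝ) < y := hy
    show 0 ≤ y ^ (k - 1) * Real.exp (-(b * y))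
    positivity

theorem dvg_upper (h : Frame k N a b f g c M)
    (hs : Summable (fun n : ℕ => ‖a n‖ ^ 2 / (n : ℝ) ^ k)) :
    ∫⁻ p in Ioc (0 : ℝ) 1 ×ˢ Ioi (0 : ℝ), dvg_F k f p < ⊤ := by
  have hk := h.fh.hk
  have hcont : ContinuousOn f {z : ℂ | 0 < z.im} := h.fh.hol.continuousOn
  have hmaps : ∀ p : ℝ × ℝ, p ∈ Ioc (0 : ℝ) 1 ×ˢ Ioi (0 : ℝ) →
      (p.1 : ℂ) + p.2 * I ∈ {z : ℂ | 0 < z.im} := by
    intro p hp
    have h1 : (0 : ℝ) < p.2 := hp.2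
    simpa using h1
  have hmeas : MeasurableSet (Ioc (0 : ℝ) 1 ×ˢ Ioi (0 : ℝ)) :=
    measurableSet_Ioc.prod measurableSet_Ioi
  have hF : ContinuousOn (dvg_F k f) (Ioc (0 : ℝ) 1 ×ˢ Ioi (0 : ℝ)) := by
    unfold dvg_F
    refine ENNReal.continuous_ofReal.comp_continuousOn ?_
    refine (Continuous.continuousOn (by fun_prop)).mul ((ContinuousOn.norm ?_).pow 2)
    exact hcont.comp (Continuous.continuousOn (by fun_prop)) hmaps
  have hae : AEMeasurable (dvg_F k f)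
      ((volume.restrict (Ioc (0 : ℝ) 1)).prod (volume.restrict (Ioi (0 : ℝ)))) := by
    rw [Measure.prod_restrict]
    exact hF.aemeasurable hmeas
  have e1 : ∫⁻ p in Ioc (0 : ℝ) 1 ×ˢ Ioi (0 : ℝ), dvg_F k f p =
      ∫⁻ y in Ioi (0 : ℝ), ∫⁻ x in Ioc (0 : ℝ) 1, dvg_F k f (x, y) := by
    rw [Measure.volume_eq_prod, ← Measure.prod_restrict, lintegral_prod_symm _ hae]
  rw [e1]
  have e2 : ∀ y ∈ Ioi (0 : ℝ), ∫⁻ x in Ioc (0 : ℝ) 1, dvg_F k f (x, y) =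
      ∑' n : ℕ, ENNReal.ofReal (‖a n‖ ^ 2) *
        ENNReal.ofReal (y ^ (k - 1) * Real.exp (-(4 * Real.pi * n * y))) := by
    intro y hy
    have hy0 : (0 : ℝ) < y := hy
    have hp := par h.fh hy0
    have hc1 : Continuous fun x : ℝ => ‖f (x + y * I)‖ ^ 2 := by
      refine (Continuous.norm ?_).pow 2
      rw [← continuousOn_univ]
      exact hcont.comp (Continuous.continuousOn (by fun_prop)) (fun x _ => by simpa using hy0)
    have e3 : ∫⁻ x in Ioc (0 : ℝ) 1, dvg_F k f (x, y) =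
        ENNReal.ofReal (∫ x in Ioc (0 : ℝ) 1, y ^ (k - 1) * ‖f (x + y * I)‖ ^ 2) := by
      rw [ofReal_integral_eq_lintegral_ofReal]
      · rfl
      · exact ((continuous_const.mul hc1).integrableOn_Icc (a := 0) (b := 1)).mono_set
          Ioc_subset_Icc_self
      · exact Eventually.of_forall (fun x => by positivity)
    rw [e3, integral_const_mul, ← intervalIntegral.integral_of_le zero_le_one, ← hp.tsum_eq,
      ← tsum_mul_left, ENNReal.ofReal_tsum_of_nonneg]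
    · refine tsum_congr fun n => ?_
      rw [← ENNReal.ofReal_mul (by positivity)]
      congr 1
      ring
    · intro n; positivity
    · exact hp.summable.mul_left _
  rw [setLIntegral_congr_fun measurableSet_Ioi e2, lintegral_tsum]
  swap
  · intro n
    exact (Measurable.aemeasurable (by fun_prop))
  have e4 : ∀ n : ℕ, ∫⁻ y in Ioi (0 : ℝ), ENNReal.ofReal (‖a n‖ ^ 2) *
      ENNReal.ofReal (y ^ (k - 1) * Real.exp (-(4 * Real.pi * n * y))) =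
      ENNReal.ofReal ((Real.Gamma k / (4 * Real.pi) ^ k) * (‖a n‖ ^ 2 / (n : ℝ) ^ k)) := by
    intro n
    rw [lintegral_const_mul' _ _ ENNReal.ofReal_ne_top]
    rcases Nat.eq_zero_or_pos n with rfl | hn
    · simp [h.fh.a0]
    · have hn' : (0 : ℝ) < n := by exact_mod_cast hn
      rw [dvg_lint_exp hk (by positivity), ← ENNReal.ofReal_mul (by positivity)]
      congr 1
      rw [mul_pow]
      field_simp
  simp_rw [e4]
  rw [← ENNReal.ofReal_tsum_of_nonneg]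
  · exact ENNReal.ofReal_lt_top
  · intro n
    have : 0 < Real.Gamma k := Real.Gamma_pos_of_pos (by exact_mod_cast hk)
    positivity
  · exact hs.mul_left _

/-- the box -/
def dvg_R (κ y₀ : ℝ) (e : ℕ) (A : ℤ) : Set (ℝ × ℝ) :=
  Icc ((A : ℝ) / e - κ / e ^ 2) (A / e + κ / e ^ 2) ×ˢ
    Icc ((1 / y₀ - κ) / e ^ 2) ((1 / y₀ + κ) / e ^ 2)

theorem dvg_R_mem {κ y₀ : ℝ} {e : ℕ} (he : 0 < e) {A : ℤ} {p : ℝ × ℝ} (hp : p ∈ dvg_R κ y₀ e A) :
    |p.1 - A / e| ≤ κ / e ^ 2 ∧ |(e : ℝ) ^ 2 * p.2 - 1 / y₀| ≤ κ := by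
  have heR : (0 : ℝ) < e := by exact_mod_cast he
  obtain ⟨⟨h1, h2⟩, h3, h4⟩ := hp
  rw [div_le_iff₀ (by positivity)] at h3
  rw [le_div_iff₀ (by positivity)] at h4
  constructor
  · rw [abs_le]; constructor <;> linarith
  · rw [abs_le]; constructor <;> linarith

/-- the contribution of one box -/
theorem dvg_R_int (h : Frame k N a b f g c M) {δ κ y₀ : ℝ} (hy₀ : 0 < y₀) (hκ : 0 < κ)
    (hκ2 : κ ≤ 1 / (2 * y₀)) {e : ℕ} (he : 0 < e) {A : ℤ} (hδ : 0 < δ)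
    (hA : ∀ x y : ℝ, |x - A / e| ≤ κ / e ^ 2 →
      |(e : ℝ) ^ 2 * y - 1 / y₀| ≤ κ → δ ≤ dvg_phi k f (x + y * I)) :
    ENNReal.ofReal (4 * κ ^ 2 * δ / (1 / y₀ + κ) / e ^ 2) ≤
      ∫⁻ p in dvg_R κ y₀ e A, dvg_F k f p := by
  have heR : (0 : ℝ) < e := by exact_mod_cast he
  have hk := h.fh.hk
  have hy1 : 0 < 1 / y₀ := by positivity
  have hk4 : 1 / (2 * y₀) = 1 / y₀ / 2 := by field_simp
  rw [hk4] at hκ2
  have hmeas : MeasurableSet (dvg_R κ y₀ e A) := measurableSet_Icc.prod measurableSet_Icc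
  have hlow : ∀ p ∈ dvg_R κ y₀ e A,
      ENNReal.ofReal (δ * e ^ 2 / (1 / y₀ + κ)) ≤ dvg_F k f p := by
    intro p hp
    obtain ⟨h1, h2⟩ := dvg_R_mem he hp
    have h3 := hA p.1 p.2 h1 h2
    obtain ⟨_, h4, h5⟩ := hp
    have hp2 : 0 < p.2 := by
      refine lt_of_lt_of_le ?_ h4
      have : 0 < 1 / y₀ - κ := by linarith
      positivity
    unfold dvg_F
    apply ENNReal.ofReal_le_ofReal
    have h6 : dvg_phi k f ((p.1 : ℂ) + p.2 * I) =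
        p.2 * (p.2 ^ (k - 1) * ‖f (p.1 + p.2 * I)‖ ^ 2) := by
      unfold dvg_phi
      have h7 : ((p.1 : ℂ) + p.2 * I).im = p.2 := by simp
      rw [h7, ← mul_assoc, ← pow_succ']
      congr 2
      omega
    rw [h6] at h3
    have h8 : p.2 * e ^ 2 ≤ 1 / y₀ + κ := by
      rwa [le_div_iff₀ (by positivity)] at h5
    rw [div_le_iff₀ (by positivity)]
    have h9 : 0 ≤ p.2 ^ (k - 1) * ‖f (p.1 + p.2 * I)‖ ^ 2 := by positivity
    calc δ * (e : ℝ) ^ 2 ≤ p.2 * (p.2 ^ (k - 1) * ‖f (p.1 + p.2 * I)‖ ^ 2) * (e : ℝ) ^ 2 := by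
          gcongr
      _ = (p.2 ^ (k - 1) * ‖f (p.1 + p.2 * I)‖ ^ 2) * (p.2 * e ^ 2) := by ring
      _ ≤ _ := by gcongr
  have hvol : volume (dvg_R κ y₀ e A) = ENNReal.ofReal ((2 * κ / e ^ 2) * (2 * κ / e ^ 2)) := by
    unfold dvg_R
    rw [Measure.volume_eq_prod, Measure.prod_prod, Real.volume_Icc, Real.volume_Icc,
      ← ENNReal.ofReal_mul]
    · congr 1
      ring
    · have : 0 ≤ κ / (e : ℝ) ^ 2 := by positivity
      linarith
  calc ENNReal.ofReal (4 * κ ^ 2 * δ / (1 / y₀ + κ) / e ^ 2)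
      = ENNReal.ofReal (δ * e ^ 2 / (1 / y₀ + κ)) * volume (dvg_R κ y₀ e A) := by
        rw [hvol, ← ENNReal.ofReal_mul (by positivity)]
        congr 1
        field_simp
        ring
    _ = ∫⁻ p in dvg_R κ y₀ e A, ENNReal.ofReal (δ * e ^ 2 / (1 / y₀ + κ)) := by
        rw [setLIntegral_const]
    _ ≤ _ := setLIntegral_mono' hmeas hlow

theorem dvg_lowsum (h : Frame k N a b f g c M) :
    ∃ K L : ℝ, 0 < K ∧ ∀ S : Finset ℕ, (∀ ℓ ∈ S, ℓ.Prime ∧ L ≤ ℓ) →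
      ENNReal.ofReal (K * ∑ ℓ ∈ S, (1 / (ℓ : ℝ))) ≤
        ∫⁻ p in Ioc (0 : ℝ) 1 ×ˢ Ioi (0 : ℝ), dvg_F k f p := by
  obtain ⟨δ, x₁, y₀, ρ, hδ, hρ, hx1, hx2, hρy, hpt⟩ := dvg_point h
  have hy₀ : 0 < y₀ := by linarith
  obtain ⟨κ, hκ, hκ2, hκ3, hbox⟩ := dvg_box hy₀ hρ
  have hN := h.hN
  have hNR : (0 : ℝ) < N := by exact_mod_cast hN
  have hch : ∀ ℓ j : ℕ, ∃ A : ℤ, ℓ.Prime → ¬ ℓ ∣ N → j ∈ dvg_G N x₁ ρ ℓ →
      (0 < A ∧ A < (N * ℓ : ℕ) ∧ ((N * ℓ : ℕ) : ℤ) ∣ A * (1 + N * j : ℕ) - 1 ∧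
        ∀ x y : ℝ, |x - A / (N * ℓ : ℕ)| ≤ κ / ((N * ℓ : ℕ) : ℝ) ^ 2 →
          |((N * ℓ : ℕ) : ℝ) ^ 2 * y - 1 / y₀| ≤ κ → δ ≤ dvg_phi k f (x + y * I)) := by
    intro ℓ j
    by_cases hc : ℓ.Prime ∧ ¬ ℓ ∣ N ∧ j ∈ dvg_G N x₁ ρ ℓ
    · obtain ⟨h1, h2, h3⟩ := hc
      unfold dvg_G at h3
      rw [Finset.mem_filter] at h3
      have hcop : Nat.Coprime (1 + N * j) (N * ℓ) := by
        refine Nat.Coprime.mul_right ?_ ?_
        · rw [Nat.coprime_add_mul_left_left]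
          exact Nat.coprime_one_left N
        · exact (Nat.Coprime.symm ((Nat.Prime.coprime_iff_not_dvd h1).2 h3.2.2))
      obtain ⟨A, hA⟩ := dvg_lower h (e := N * ℓ) (d := 1 + N * j) hρy hρ hpt hκ hκ2 hbox
        (by nlinarith [h1.two_le]) (Dvd.intro ℓ rfl) (by push_cast; simp) hcop h3.2.1
      exact ⟨A, fun _ _ _ => hA⟩
    · exact ⟨0, fun h1 h2 h3 => absurd ⟨h1, h2, h3⟩ hc⟩
  choose A hA using hch
  refine ⟨4 * κ ^ 2 * δ / (1 / y₀ + κ) / N ^ 2 * (ρ / 4), max (4 / ρ) (N + 1), by positivity, ?_⟩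
  intro S hS
  have hprime : ∀ ℓ ∈ S, ℓ.Prime := fun ℓ hℓ => (hS ℓ hℓ).1
  have hndvd : ∀ ℓ ∈ S, ¬ ℓ ∣ N := by
    intro ℓ hℓ hd
    have h1 : (N : ℝ) + 1 ≤ ℓ := (le_max_right _ _).trans (hS ℓ hℓ).2
    have h2 : N + 1 ≤ ℓ := by exact_mod_cast h1
    have h3 := Nat.le_of_dvd (by omega) hd
    omega
  have hbig : ∀ ℓ ∈ S, 4 / ρ ≤ (ℓ : ℝ) := fun ℓ hℓ => (le_max_left _ _).trans (hS ℓ hℓ).2
  set I₀ : Finset (Σ _ : ℕ, ℕ) := S.sigma (fun ℓ => dvg_G N x₁ ρ ℓ) with hI₀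
  set R : (Σ _ : ℕ, ℕ) → Set (ℝ × ℝ) := fun i => dvg_R κ y₀ (N * i.1) (A i.1 i.2) with hR
  have hy1 : 0 < 1 / y₀ := by positivity
  have hk4 : 1 / (2 * y₀) = 1 / y₀ / 2 := by field_simp
  have hsub : (⋃ i ∈ I₀, R i) ⊆ Ioc (0 : ℝ) 1 ×ˢ Ioi (0 : ℝ) := by
    intro p hp
    simp only [mem_iUnion] at hp
    obtain ⟨i, hi, hpi⟩ := hp
    rw [hI₀, Finset.mem_sigma] at hi
    obtain ⟨hA1, hA2, _, _⟩ := hA i.1 i.2 (hprime _ hi.1) (hndvd _ hi.1) hi.2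
    have hℓ := hprime _ hi.1
    have he : 0 < N * i.1 := by
      have := hℓ.pos
      positivity
    have heR : (0 : ℝ) < (N * i.1 : ℕ) := by exact_mod_cast he
    have heR1 : (1 : ℝ) ≤ (N * i.1 : ℕ) := by exact_mod_cast he
    obtain ⟨h1, h2⟩ := dvg_R_mem he hpi
    have hA1' : (1 : ℝ) ≤ A i.1 i.2 := by exact_mod_cast hA1
    have hA2' : (A i.1 i.2 : ℝ) ≤ (N * i.1 : ℕ) - 1 := by
      have : A i.1 i.2 ≤ ((N * i.1 : ℕ) : ℤ) - 1 := by omega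
      exact_mod_cast this
    have h3 : 1 / ((N * i.1 : ℕ) : ℝ) ≤ (A i.1 i.2 : ℝ) / (N * i.1 : ℕ) := by gcongr
    have h4 : (A i.1 i.2 : ℝ) / (N * i.1 : ℕ) ≤ 1 - 1 / ((N * i.1 : ℕ) : ℝ) := by
      rw [div_le_iff₀ heR]
      have : (1 - 1 / ((N * i.1 : ℕ) : ℝ)) * (N * i.1 : ℕ) = (N * i.1 : ℕ) - 1 := by
        field_simp
      rw [this]
      exact hA2'
    have h5 : κ / ((N * i.1 : ℕ) : ℝ) ^ 2 < 1 / ((N * i.1 : ℕ) : ℝ) := by
      rw [div_lt_div_iff₀ (by positivity) heR]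
      nlinarith
    have h6 := abs_le.1 h1
    refine ⟨⟨by linarith, by linarith⟩, ?_⟩
    obtain ⟨_, h7, _⟩ := hpi
    show 0 < p.2
    refine lt_of_lt_of_le ?_ h7
    rw [hk4] at hκ2
    have : 0 < 1 / y₀ - κ := by linarith
    positivity
  have hdisj : Set.Pairwise (↑I₀ : Set (Σ _ : ℕ, ℕ)) (Function.onFun Disjoint R) := by
    intro i hi i' hi' hne
    rw [Finset.mem_coe, hI₀, Finset.mem_sigma] at hi hi'
    obtain ⟨hA1, hA2, hA3, _⟩ := hA i.1 i.2 (hprime _ hi.1) (hndvd _ hi.1) hi.2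
    obtain ⟨hB1, hB2, hB3, _⟩ := hA i'.1 i'.2 (hprime _ hi'.1) (hndvd _ hi'.1) hi'.2
    have he : 0 < N * i.1 := by
      have := (hprime _ hi.1).pos
      positivity
    have he' : 0 < N * i'.1 := by
      have := (hprime _ hi'.1).pos
      positivity
    have hcr : A i.1 i.2 * ((N * i'.1 : ℕ) : ℤ) ≠ A i'.1 i'.2 * ((N * i.1 : ℕ) : ℤ) := by
      intro heq
      have hc1 : IsCoprime ((N * i.1 : ℕ) : ℤ) (A i.1 i.2) := by
        obtain ⟨t, ht⟩ := hA3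
        exact ⟨-t, (1 + N * i.2 : ℕ), by linear_combination ht⟩
      have hc2 : IsCoprime ((N * i'.1 : ℕ) : ℤ) (A i'.1 i'.2) := by
        obtain ⟨t, ht⟩ := hB3
        exact ⟨-t, (1 + N * i'.2 : ℕ), by linear_combination ht⟩
      have hd1 : ((N * i.1 : ℕ) : ℤ) ∣ ((N * i'.1 : ℕ) : ℤ) :=
        hc1.dvd_of_dvd_mul_left (by rw [heq]; exact Dvd.intro_left _ rfl)
      have hd2 : ((N * i'.1 : ℕ) : ℤ) ∣ ((N * i.1 : ℕ) : ℤ) :=
        hc2.dvd_of_dvd_mul_left (by rw [← heq]; exact Dvd.intro_left _ rfl)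
      have hd3 : N * i.1 = N * i'.1 :=
        Nat.dvd_antisymm (by exact_mod_cast hd1) (by exact_mod_cast hd2)
      have hl : i.1 = i'.1 := Nat.eq_of_mul_eq_mul_left (by omega) hd3
      have hAA : A i.1 i.2 = A i'.1 i'.2 := by
        rw [hd3] at heq
        exact mul_right_cancel₀ (by exact_mod_cast he'.ne') heq
      -- compare the residues
      have h3 : ((N * i.1 : ℕ) : ℤ) ∣ A i.1 i.2 * (((1 + N * i.2 : ℕ) : ℤ) - (1 + N * i'.2 : ℕ)) := by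
        rw [← hd3, ← hAA] at hB3
        have := dvd_sub hA3 hB3
        have h4 : A i.1 i.2 * ((1 + N * i.2 : ℕ) : ℤ) - 1 -
            (A i.1 i.2 * ((1 + N * i'.2 : ℕ) : ℤ) - 1) =
            A i.1 i.2 * (((1 + N * i.2 : ℕ) : ℤ) - (1 + N * i'.2 : ℕ)) := by ring
        rwa [h4] at this
      have h4 : ((N * i.1 : ℕ) : ℤ) ∣ (((1 + N * i.2 : ℕ) : ℤ) - (1 + N * i'.2 : ℕ)) :=
        hc1.dvd_of_dvd_mul_left h3
      have h5 : (((1 + N * i.2 : ℕ) : ℤ) - (1 + N * i'.2 : ℕ)) = (N : ℤ) * ((i.2 : ℤ) - i'.2) := by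
        push_cast; ring
      rw [h5, Nat.cast_mul] at h4
      have h6 : (i.1 : ℤ) ∣ (i.2 : ℤ) - i'.2 :=
        (mul_dvd_mul_iff_left (by exact_mod_cast (by omega : N ≠ 0))).1 h4
      have hj1 : i.2 < i.1 := by
        have := hi.2
        unfold dvg_G at this
        exact Finset.mem_range.1 (Finset.mem_filter.1 this).1
      have hj2 : i'.2 < i.1 := by
        have := hi'.2
        unfold dvg_G at this
        rw [hl]
        exact Finset.mem_range.1 (Finset.mem_filter.1 this).1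
      have h7 : i.2 = i'.2 := by
        have h9 : (i.2 : ℤ) % i.1 = (i'.2 : ℤ) % i.1 := (Int.emod_eq_emod_iff_emod_sub_eq_zero.2 (Int.emod_eq_zero_of_dvd h6))
        rw [Int.emod_eq_of_lt (by positivity) (by exact_mod_cast hj1),
          Int.emod_eq_of_lt (by positivity) (by exact_mod_cast hj2)] at h9
        exact_mod_cast h9
      exact hne (Sigma.ext hl (heq_of_eq h7))
    rw [Function.onFun, Set.disjoint_left]
    intro p hp hp'
    obtain ⟨h1, h2⟩ := dvg_R_mem he hp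
    obtain ⟨h3, h4⟩ := dvg_R_mem he' hp'
    rcases le_total (N * i.1) (N * i'.1) with hle | hle
    · exact dvg_disj hy₀ hκ hκ2 hκ3 he he' hle hcr h1 h3 h2 h4
    · exact dvg_disj hy₀ hκ hκ2 hκ3 he' he hle hcr.symm h3 h1 h4 h2
  have hRm : ∀ i ∈ I₀, MeasurableSet (R i) := fun i _ =>
    measurableSet_Icc.prod measurableSet_Icc
  calc ENNReal.ofReal (4 * κ ^ 2 * δ / (1 / y₀ + κ) / N ^ 2 * (ρ / 4) * ∑ ℓ ∈ S, (1 / (ℓ : ℝ)))
      ≤ ENNReal.ofReal (∑ i ∈ I₀, 4 * κ ^ 2 * δ / (1 / y₀ + κ) / ((N * i.1 : ℕ) : ℝ) ^ 2) := by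
        apply ENNReal.ofReal_le_ofReal
        rw [hI₀, Finset.sum_sigma, Finset.mul_sum]
        apply Finset.sum_le_sum
        intro ℓ hℓ
        show _ ≤ ∑ _x ∈ dvg_G N x₁ ρ ℓ, 4 * κ ^ 2 * δ / (1 / y₀ + κ) / ((N * ℓ : ℕ) : ℝ) ^ 2
        rw [Finset.sum_const, nsmul_eq_mul]
        have hcard := dvg_card hN hρ hx1 hx2 (hprime ℓ hℓ) (hndvd ℓ hℓ) (hbig ℓ hℓ)
        have hℓR : (0 : ℝ) < ℓ := by exact_mod_cast (hprime ℓ hℓ).pos
        have e1 : 4 * κ ^ 2 * δ / (1 / y₀ + κ) / (N : ℝ) ^ 2 * (ρ / 4) * (1 / (ℓ : ℝ)) =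
            (ρ / 4 * ℓ) * (4 * κ ^ 2 * δ / (1 / y₀ + κ) / ((N * ℓ : ℕ) : ℝ) ^ 2) := by
          push_cast
          field_simp
        rw [e1]
        gcongr
    _ = ∑ i ∈ I₀, ENNReal.ofReal (4 * κ ^ 2 * δ / (1 / y₀ + κ) / ((N * i.1 : ℕ) : ℝ) ^ 2) := by
        rw [ENNReal.ofReal_sum_of_nonneg]
        intro i _
        positivity
    _ ≤ ∑ i ∈ I₀, ∫⁻ p in R i, dvg_F k f p := by
        apply Finset.sum_le_sum
        intro i hi
        rw [hI₀, Finset.mem_sigma] at hi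
        obtain ⟨_, _, _, hA4⟩ := hA i.1 i.2 (hprime _ hi.1) (hndvd _ hi.1) hi.2
        have he : 0 < N * i.1 := by
          have := (hprime _ hi.1).pos
          positivity
        exact dvg_R_int h hy₀ hκ hκ2 he hδ hA4
    _ = ∫⁻ p in ⋃ i ∈ I₀, R i, dvg_F k f p := by
        rw [lintegral_biUnion_finset hdisj hRm]
    _ ≤ _ := lintegral_mono_set hsub

theorem rs_div_pr (h : Frame k N a b f g c M) :
    ¬ Summable (fun n : ℕ => ‖a n‖ ^ 2 / (n : ℝ) ^ k) := by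
  intro hs
  have hfin := dvg_upper h hs
  obtain ⟨K, L, hK, hlow⟩ := dvg_lowsum h
  set J : ℝ := (∫⁻ p in Ioc (0 : ℝ) 1 ×ˢ Ioi (0 : ℝ), dvg_F k f p).toReal with hJ
  have hb : ∀ S : Finset ℕ, (∀ ℓ ∈ S, ℓ.Prime ∧ L ≤ ℓ) → ∑ ℓ ∈ S, (1 / (ℓ : ℝ)) ≤ J / K := by
    intro S hS
    have h1 := hlow S hS
    rw [le_div_iff₀ hK, mul_comm]
    have h2 := ENNReal.toReal_mono hfin.ne h1
    rwa [ENNReal.toReal_ofReal (by positivity)] at h2
  apply Nat.Primes.not_summable_one_div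
  have hsum : Summable (fun p : Nat.Primes => if L ≤ (p : ℝ) then 1 / (p : ℝ) else 0) := by
    refine summable_of_sum_le (c := J / K) (fun p => by split_ifs <;> positivity) ?_
    intro S
    rw [← Finset.sum_filter]
    have e1 : ∑ p ∈ S.filter (fun p : Nat.Primes => L ≤ (p : ℝ)), 1 / ((p : ℕ) : ℝ) =
        ∑ ℓ ∈ (S.filter (fun p : Nat.Primes => L ≤ (p : ℝ))).map
          ⟨fun p : Nat.Primes => (p : ℕ), Subtype.val_injective⟩, (1 / (ℓ : ℝ)) := by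
      rw [Finset.sum_map]
      rfl
    rw [e1]
    apply hb
    intro ℓ hℓ
    rw [Finset.mem_map] at hℓ
    obtain ⟨p, hp, rfl⟩ := hℓ
    rw [Finset.mem_filter] at hp
    exact ⟨p.2, hp.2⟩
  refine (summable_congr_cofinite ?_).1 hsum
  rw [Filter.eventuallyEq_iff_exists_mem]
  refine ⟨{p : Nat.Primes | L ≤ (p : ℝ)}, ?_, fun p hp => if_pos hp⟩
  rw [Filter.mem_cofinite]
  have h1 : {p : Nat.Primes | L ≤ (p : ℝ)}ᶜ ⊆ (fun p : Nat.Primes => (p : ℕ)) ⁻¹' (Set.Iio ⌈L⌉₊) := by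
    intro p hp
    have hp' : ¬ L ≤ (p : ℝ) := hp
    have hp := not_le.1 hp'
    show (p : ℕ) < ⌈L⌉₊
    exact Nat.lt_ceil.2 hp
  exact ((Set.finite_Iio _).preimage Subtype.val_injective.injOn).subset h1

alias rs_div := rs_div_pr

end Pool.Agent.JOF
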