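import Pool.Agent.Lib_helper42.JO.FHDefs
import Pool.Agent.Lib_helper42.JOF.PAR

set_option autoImplicit false

namespace Pool.Agent.JOF

open Pool.Agent.JO Complex MeasureTheory Filter Topology Set
open scoped ComplexConjugate ContDiff

variable {k N : ℕ} {a b : ℕ → ℂ} {f g : ℂ → ℂ} {c : ℂ} {M : ℝ}

theorem rss_int {s r : ℝ} (hs : 0 < s) (hr : 0 < r) :
    IntegrableOn (fun t : ℝ => t ^ (s - 1) * Real.exp (-(r * t))) (Ioi 0) := by
  have h := Real.integral_rpow_mul_exp_neg_mul_Ioi hs hr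
  apply MeasureTheory.Integrable.of_integral_ne_zero
  rw [h]
  have h1 : 0 < (1 / r) ^ s := Real.rpow_pos_of_pos (by positivity) _
  have h2 := Real.Gamma_pos_of_pos hs
  positivity

/-- block RSS: from `cbs` and `(1+εn)^{-σ} = Γ(σ)⁻¹ ∫ t^{σ-1} e^{-t(1+εn)} dt` -/
theorem rs_sum_pr (h : Half k a f M) {σ : ℝ} (hσ : (k : ℝ) < σ) :
    ∃ C : ℝ, 0 ≤ C ∧ ∀ ε : ℝ, 0 < ε →
      Summable (fun n : ℕ => ‖a n‖ ^ 2 * (1 + ε * n) ^ (-σ)) ∧
      ∑' n : ℕ, ‖a n‖ ^ 2 * (1 + ε * n) ^ (-σ) ≤ C * (ε ^ k)⁻¹ := by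
  have hk0 : (0 : ℝ) ≤ k := by positivity
  have hσ0 : 0 < σ := by linarith
  have hσk : 0 < σ - k := by linarith
  have hG := Real.Gamma_pos_of_pos hσ0
  have hGk := Real.Gamma_pos_of_pos hσk
  refine ⟨M ^ 2 * (4 * Real.pi) ^ k * Real.Gamma (σ - k) / Real.Gamma σ, by positivity, ?_⟩
  intro ε hε
  have hkey : ∀ S : Finset ℕ, ∑ n ∈ S, ‖a n‖ ^ 2 * (1 + ε * n) ^ (-σ)
      ≤ M ^ 2 * (4 * Real.pi) ^ k * Real.Gamma (σ - k) / Real.Gamma σ * (ε ^ k)⁻¹ := by
    intro S
    have h1 : ∀ n : ℕ, (1 + ε * n) ^ (-σ) = (Real.Gamma σ)⁻¹ *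
        ∫ t in Ioi (0 : ℝ), t ^ (σ - 1) * Real.exp (-((1 + ε * n) * t)) := by
      intro n
      have hr : 0 < 1 + ε * n := by positivity
      rw [Real.integral_rpow_mul_exp_neg_mul_Ioi hσ0 hr, one_div, Real.inv_rpow hr.le, Real.rpow_neg hr.le]
      field_simp
    have h2 : ∑ n ∈ S, ‖a n‖ ^ 2 * (1 + ε * n) ^ (-σ) = (Real.Gamma σ)⁻¹ *
        ∫ t in Ioi (0 : ℝ), ∑ n ∈ S, ‖a n‖ ^ 2 * (t ^ (σ - 1) * Real.exp (-((1 + ε * n) * t))) := by
      rw [integral_finset_sum, Finset.mul_sum]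
      · apply Finset.sum_congr rfl
        intro n _
        rw [h1, integral_const_mul]
        ring
      · intro n _
        apply Integrable.const_mul
        exact rss_int hσ0 (by positivity)
    have h3 : ∫ t in Ioi (0 : ℝ), ∑ n ∈ S, ‖a n‖ ^ 2 * (t ^ (σ - 1) * Real.exp (-((1 + ε * n) * t)))
        ≤ ∫ t in Ioi (0 : ℝ), (M ^ 2 * (4 * Real.pi) ^ k * (ε ^ k)⁻¹) *
          (t ^ ((σ - k) - 1) * Real.exp (-(1 * t))) := by
      apply setIntegral_mono_on
      · apply integrable_finset_sum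
        intro n _
        apply Integrable.const_mul
        exact rss_int hσ0 (by positivity)
      · apply Integrable.const_mul
        exact rss_int hσk (by norm_num)
      · exact measurableSet_Ioi
      · intro t ht
        rw [mem_Ioi] at ht
        have hy : 0 < t * ε / (4 * Real.pi) := by positivity
        obtain ⟨h4, h5⟩ := cbs h hy
        have h6 : ∑ n ∈ S, ‖a n‖ ^ 2 * Real.exp (-(4 * Real.pi * n * (t * ε / (4 * Real.pi))))
            ≤ M ^ 2 * ((t * ε / (4 * Real.pi)) ^ k)⁻¹ :=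
          (h4.sum_le_tsum S (fun n _ => by positivity)).trans h5
        have h7 : ∑ n ∈ S, ‖a n‖ ^ 2 * (t ^ (σ - 1) * Real.exp (-((1 + ε * n) * t)))
            = t ^ (σ - 1) * Real.exp (-(1 * t)) *
              ∑ n ∈ S, ‖a n‖ ^ 2 * Real.exp (-(4 * Real.pi * n * (t * ε / (4 * Real.pi)))) := by
          rw [Finset.mul_sum]
          apply Finset.sum_congr rfl
          intro n _
          have h8 : Real.exp (-((1 + ε * n) * t)) = Real.exp (-(1 * t)) *
              Real.exp (-(4 * Real.pi * n * (t * ε / (4 * Real.pi)))) := by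
            rw [← Real.exp_add]
            congr 1
            have := Real.pi_pos
            field_simp
            ring
          rw [h8]
          ring
        rw [h7]
        have h8 : 0 ≤ t ^ (σ - 1) * Real.exp (-(1 * t)) := by positivity
        refine (mul_le_mul_of_nonneg_left h6 h8).trans (le_of_eq ?_)
        have h9 : t ^ ((σ - k) - 1) = t ^ (σ - 1) * (t ^ k)⁻¹ := by
          rw [show (σ - k) - 1 = (σ - 1) + (-(k : ℝ)) by ring, Real.rpow_add ht, Real.rpow_neg ht.le,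
            Real.rpow_natCast]
        rw [h9, div_pow, mul_pow]
        have := Real.pi_pos
        field_simp
    rw [integral_const_mul, Real.integral_rpow_mul_exp_neg_mul_Ioi hσk (by norm_num)] at h3
    rw [h2]
    have h10 : 0 ≤ (Real.Gamma σ)⁻¹ := by positivity
    refine (mul_le_mul_of_nonneg_left h3 h10).trans (le_of_eq ?_)
    rw [div_one, Real.one_rpow]
    field_simp
  have hnn : ∀ n : ℕ, 0 ≤ ‖a n‖ ^ 2 * (1 + ε * n) ^ (-σ) := by
    intro n
    have : 0 < 1 + ε * n := by positivity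
    positivity
  exact ⟨summable_of_sum_le hnn hkey, Real.tsum_le_of_sum_le hnn hkey⟩


alias rs_sum := rs_sum_pr

end Pool.Agent.JOF
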