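import Pool.Agent.Lib_helper42.JO.FHDefs
import Pool.Agent.Lib_helper42.JOF.RSS

/-! Project JO, part FH, block MLB. -/

namespace Pool.Agent.JOF

open Pool.Agent.JO Complex MeasureTheory Filter Topology Set
open scoped ComplexConjugate ContDiff

variable {k N : ℕ} {a b : ℕ → ℂ} {f g : ℂ → ℂ} {c : ℂ} {M : ℝ}

/-- absolute convergence -/
theorem mlb_summable (h : Half k a f M) {σ : ℝ} (hσ : 1 < σ) :
    Summable (fun n : ℕ => ‖a n‖ / (n : ℝ) ^ (σ + ((k : ℝ) - 1) / 2)) := by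
  obtain ⟨C, _, hC⟩ := rs_sum h (σ := (k : ℝ) + (σ - 1)) (by linarith)
  have h1 := (hC 1 one_pos).1
  have hk1 : (1 : ℝ) ≤ k := by exact_mod_cast h.hk
  have h2 : Summable (fun n : ℕ => (2 : ℝ) ^ ((k : ℝ) + (σ - 1)) * (n : ℝ) ^ (-σ)) :=
    (Real.summable_nat_rpow.mpr (by linarith)).mul_left _
  have h3 := (h1.add h2).mul_left (1 / 2)
  apply Summable.of_nonneg_of_le _ _ h3
  · intro n
    positivity
  · intro n
    rcases Nat.eq_zero_or_pos n with rfl | hn
    · rw [h.a0, norm_zero, zero_div]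
      positivity
    · have hn1 : (1 : ℝ) ≤ n := by exact_mod_cast hn
      have hn0 : (0 : ℝ) < n := by linarith
      obtain ⟨u, hu⟩ : ∃ u : ℝ, u = (k : ℝ) + (σ - 1) := ⟨_, rfl⟩
      have hu0 : 0 < u := by rw [hu]; linarith
      obtain ⟨w, hw⟩ : ∃ w : ℝ, w = σ + ((k : ℝ) - 1) / 2 := ⟨_, rfl⟩
      rw [← hu, ← hw, one_mul]
      have hP : 0 < (1 + (n : ℝ)) ^ (-(u / 2)) := by positivity
      have hQ : 0 < (1 + (n : ℝ)) ^ (u / 2) := by positivity
      have hPQ : (1 + (n : ℝ)) ^ (-(u / 2)) * (1 + (n : ℝ)) ^ (u / 2) = 1 := by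
        rw [← Real.rpow_add (by positivity), neg_add_cancel, Real.rpow_zero]
      have hPP : ((1 + (n : ℝ)) ^ (-(u / 2))) ^ 2 = (1 + (n : ℝ)) ^ (-u) := by
        rw [← Real.rpow_natCast, ← Real.rpow_mul (by positivity)]
        congr 1
        push_cast
        ring
      have hQQ : ((1 + (n : ℝ)) ^ (u / 2)) ^ 2 ≤ (2 : ℝ) ^ u * (n : ℝ) ^ u := by
        rw [← Real.rpow_natCast, ← Real.rpow_mul (by positivity),
          ← Real.mul_rpow (by norm_num) hn0.le]
        have e1 : u / 2 * ((2 : ℕ) : ℝ) = u := by push_cast; ring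
        rw [e1]
        apply Real.rpow_le_rpow (by positivity) (by linarith) hu0.le
      have hW : ((n : ℝ) ^ (-w)) ^ 2 = (n : ℝ) ^ (-(2 * w)) := by
        rw [← Real.rpow_natCast, ← Real.rpow_mul hn0.le]
        congr 1
        push_cast
        ring
      have hWU : (n : ℝ) ^ u * (n : ℝ) ^ (-(2 * w)) = (n : ℝ) ^ (-σ) := by
        rw [← Real.rpow_add hn0]
        congr 1
        rw [hu, hw]
        ring
      have hdiv : ‖a n‖ / (n : ℝ) ^ w = ‖a n‖ * (n : ℝ) ^ (-w) := by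
        rw [Real.rpow_neg hn0.le, div_eq_mul_inv]
      rw [hdiv]
      have key : 2 * ((‖a n‖ * (1 + (n : ℝ)) ^ (-(u / 2))) *
          ((1 + (n : ℝ)) ^ (u / 2) * (n : ℝ) ^ (-w))) ≤
          (‖a n‖ * (1 + (n : ℝ)) ^ (-(u / 2))) ^ 2 +
          ((1 + (n : ℝ)) ^ (u / 2) * (n : ℝ) ^ (-w)) ^ 2 := by
        have := two_mul_le_add_sq (‖a n‖ * (1 + (n : ℝ)) ^ (-(u / 2)))
          ((1 + (n : ℝ)) ^ (u / 2) * (n : ℝ) ^ (-w))
        linarith
      have e2 : (‖a n‖ * (1 + (n : ℝ)) ^ (-(u / 2))) *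
          ((1 + (n : ℝ)) ^ (u / 2) * (n : ℝ) ^ (-w)) = ‖a n‖ * (n : ℝ) ^ (-w) := by
        calc _ = ‖a n‖ * (n : ℝ) ^ (-w) *
              ((1 + (n : ℝ)) ^ (-(u / 2)) * (1 + (n : ℝ)) ^ (u / 2)) := by ring
          _ = _ := by rw [hPQ, mul_one]
      rw [e2, mul_pow, mul_pow, hPP, hW] at key
      have e3 : ((1 + (n : ℝ)) ^ (u / 2)) ^ 2 * (n : ℝ) ^ (-(2 * w)) ≤
          (2 : ℝ) ^ u * (n : ℝ) ^ (-σ) := by
        calc ((1 + (n : ℝ)) ^ (u / 2)) ^ 2 * (n : ℝ) ^ (-(2 * w)) ≤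
              ((2 : ℝ) ^ u * (n : ℝ) ^ u) * (n : ℝ) ^ (-(2 * w)) :=
              mul_le_mul_of_nonneg_right hQQ (by positivity)
          _ = (2 : ℝ) ^ u * ((n : ℝ) ^ u * (n : ℝ) ^ (-(2 * w))) := by ring
          _ = _ := by rw [hWU]
      linarith

theorem ll_series_pr (h : Half k a f M) {lam : ℕ → ℂ}
    (hl : ∀ n : ℕ, 1 ≤ n → a n = lam n * (((n : ℝ) ^ (((k : ℝ) - 1) / 2) : ℝ) : ℂ))
    {s : ℂ} (hs : 1 < s.re) :
    LSeriesSummable lam s ∧ LL k f s = LSeries lam s := by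
  have hk1 : (1 : ℝ) ≤ k := by exact_mod_cast h.hk
  obtain ⟨w, hw⟩ : ∃ w : ℂ, w = s + ((k : ℂ) - 1) / 2 := ⟨_, rfl⟩
  have hwre : w.re = s.re + ((k : ℝ) - 1) / 2 := by
    rw [hw, Complex.add_re]
    congr 1
    have : ((k : ℂ) - 1) / 2 = ((((k : ℝ) - 1) / 2 : ℝ) : ℂ) := by push_cast; ring
    rw [this, Complex.ofReal_re]
  have hw0 : 0 < w.re := by rw [hwre]; linarith
  have hsum := mlb_summable h hs
  rw [← hwre] at hsum
  -- the terms
  have hterm : ∀ n : ℕ, LSeries.term lam s n = a n / (n : ℂ) ^ w := by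
    intro n
    rw [LSeries.term_def]
    split_ifs with hn
    · rw [hn, h.a0, zero_div]
    · have hn1 : 1 ≤ n := Nat.one_le_iff_ne_zero.mpr hn
      have hn0 : (0 : ℝ) < n := by exact_mod_cast hn1
      have hnc : (n : ℂ) ≠ 0 := by exact_mod_cast hn
      have e1 : (((n : ℝ) ^ (((k : ℝ) - 1) / 2) : ℝ) : ℂ) = (n : ℂ) ^ (((k : ℂ) - 1) / 2) := by
        rw [Complex.ofReal_cpow hn0.le]
        push_cast
        rfl
      rw [hl n hn1, e1, hw, Complex.cpow_add _ _ hnc]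
      have e2 : (n : ℂ) ^ (((k : ℂ) - 1) / 2) ≠ 0 := by
        rw [Ne, Complex.cpow_eq_zero_iff]
        intro h4
        exact hnc h4.1
      rw [mul_div_mul_right _ _ e2]
  have hLS : LSeriesSummable lam s := by
    have e : LSeries.term lam s = fun n : ℕ => a n / (n : ℂ) ^ w := funext hterm
    rw [LSeriesSummable, e]
    apply Summable.of_norm
    refine hsum.congr (fun n => ?_)
    rw [norm_div]
    rcases Nat.eq_zero_or_pos n with rfl | hn
    · rw [h.a0, norm_zero, zero_div, zero_div]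
    · congr 1
      have hn0 : (0 : ℝ) < n := by exact_mod_cast hn
      rw [← Complex.ofReal_natCast, Complex.norm_cpow_eq_rpow_re_of_pos hn0]
  refine ⟨hLS, ?_⟩
  -- the Mellin transform
  have hM := hasSum_mellin_pi_mul₀ (a := a) (p := fun n : ℕ => 2 * (n : ℝ))
    (F := fun y : ℝ => f (I * y)) (s := w) (fun n => by positivity) hw0 (by
      intro t ht
      have ht0 : 0 < t := ht
      have hz : 0 < (I * (t : ℂ)).im := by
        simpa using ht0
      have hx := h.exp (I * t) hz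
      have e : (fun n : ℕ => a n * cexp (2 * Real.pi * I * n * (I * t))) =
          (fun n : ℕ => if 2 * (n : ℝ) = 0 then 0 else
            a n * ((Real.exp (-Real.pi * (2 * (n : ℝ)) * t) : ℝ) : ℂ)) := by
        funext n
        rcases Nat.eq_zero_or_pos n with rfl | hn
        · simp [h.a0]
        · have hn0 : (2 * (n : ℝ)) ≠ 0 := by positivity
          rw [if_neg hn0, Complex.ofReal_exp]
          congr 2
          push_cast
          calc 2 * (Real.pi : ℂ) * I * n * (I * t) = (I * I) * (2 * Real.pi * n * t) := by ring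
            _ = _ := by rw [Complex.I_mul_I]; ring
      rw [e] at hx
      exact hx) (by
      refine (hsum.mul_left ((2 : ℝ) ^ w.re)⁻¹).congr (fun n => ?_)
      rw [Real.mul_rpow (by norm_num) (Nat.cast_nonneg n)]
      field_simp)
  have hG : Complex.Gamma w ≠ 0 := Complex.Gamma_ne_zero_of_re_pos hw0
  have hpi : (Real.pi : ℂ) ≠ 0 := by exact_mod_cast Real.pi_ne_zero
  have h2 : HasSum (LSeries.term lam s) (LL k f s) := by
    have h3 := hM.mul_right (2 / Complex.Gammaℂ w)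
    rw [LL, ← hw]
    have e : LSeries.term lam s = fun n : ℕ => (Real.pi : ℂ) ^ (-w) * Complex.Gamma w * a n /
        (((2 * (n : ℝ) : ℝ)) : ℂ) ^ w * (2 / Complex.Gammaℂ w) := by
      funext n
      rw [hterm n, Complex.Gammaℂ_def]
      rcases Nat.eq_zero_or_pos n with rfl | hn
      · rw [h.a0]
        simp
      · have hn0 : (0 : ℝ) < n := by exact_mod_cast hn
        have hnc : (n : ℂ) ≠ 0 := by exact_mod_cast hn.ne'
        have e1 : (((2 * (n : ℝ) : ℝ)) : ℂ) ^ w = (2 : ℂ) ^ w * (n : ℂ) ^ w := by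
          have := Complex.mul_cpow_ofReal_nonneg (show (0 : ℝ) ≤ 2 by norm_num) hn0.le w
          push_cast at this ⊢
          exact this
        have e2 : (2 * (Real.pi : ℂ)) ^ (-w) = ((2 : ℂ) ^ w)⁻¹ * (Real.pi : ℂ) ^ (-w) := by
          have := Complex.mul_cpow_ofReal_nonneg (show (0 : ℝ) ≤ 2 by norm_num)
            Real.pi_pos.le (-w)
          push_cast at this
          rw [this, Complex.cpow_neg 2 w]
        have e3 : (2 : ℂ) ^ w ≠ 0 := by
          rw [Ne, Complex.cpow_eq_zero_iff]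
          rintro ⟨h5, _⟩
          exact two_ne_zero h5
        have e4 : (n : ℂ) ^ w ≠ 0 := by
          rw [Ne, Complex.cpow_eq_zero_iff]
          rintro ⟨h5, _⟩
          exact hnc h5
        have e5 : (Real.pi : ℂ) ^ (-w) ≠ 0 := by
          rw [Ne, Complex.cpow_eq_zero_iff]
          rintro ⟨h5, _⟩
          exact hpi h5
        rw [e1, e2]
        field_simp
    rw [e]
    exact h3
  rw [LSeries]
  exact h2.tsum_eq.symm

alias ll_series := ll_series_pr

end Pool.Agent.JOF
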