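import Pool.Agent.Lib_helper42.JO.FHDefs

namespace Pool.Agent.JOF

open Pool.Agent.JO Complex MeasureTheory Filter Topology Set
open scoped ComplexConjugate ContDiff

variable {k N : ℕ} {a b : ℕ → ℂ} {f g : ℂ → ℂ} {c : ℂ} {M : ℝ}

theorem gdd_norm_e (n : ℕ) (z : ℂ) :
    ‖cexp (2 * Real.pi * I * n * z)‖ = Real.exp (-(2 * Real.pi * n * z.im)) := by
  rw [Complex.norm_exp]
  congr 1
  have : (2 * Real.pi * I * n * z : ℂ) = ((2 * Real.pi * n : ℝ) : ℂ) * z * I := by
    push_cast
    ring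
  rw [this]
  simp only [Complex.mul_re, Complex.mul_im, Complex.I_re, Complex.I_im, Complex.ofReal_re,
    Complex.ofReal_im]
  ring

theorem gdd_summable (h : Half k a f M) {y : ℝ} (hy : 0 < y) :
    Summable (fun n : ℕ => ‖a n‖ * Real.exp (-(2 * Real.pi * n * y))) := by
  have hz : 0 < ((y : ℂ) * I).im := by simpa using hy
  have h1 := (h.exp _ hz).summable.norm
  refine h1.congr (fun n => ?_)
  rw [norm_mul, gdd_norm_e]
  simp

theorem gdd_pow_le (k : ℕ) {y : ℝ} (hy : 1 ≤ y) :
    y ^ ((k : ℝ) / 2) ≤ (k.factorial : ℝ) * Real.exp y := by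
  have h1 : y ^ ((k : ℝ) / 2) ≤ y ^ (k : ℝ) :=
    Real.rpow_le_rpow_of_exponent_le hy (by have : (0 : ℝ) ≤ k := by positivity
                                            linarith)
  rw [Real.rpow_natCast] at h1
  have h2 := Real.pow_div_factorial_le_exp y (by linarith) k
  have h3 : (0 : ℝ) < (k.factorial : ℝ) := by exact_mod_cast k.factorial_pos
  rw [div_le_iff₀ h3] at h2
  linarith

theorem half_decay_pr (h : Half k a f M) :
    ∃ C : ℝ, 0 ≤ C ∧ ∀ z : ℂ, 0 < z.im →
      ‖f z‖ ≤ C * z.im ^ (-((k : ℝ) / 2)) * Real.exp (-z.im) := by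
  set S : ℝ := ∑' n : ℕ, ‖a n‖ * Real.exp (-(2 * Real.pi * n * (1 / 2))) with hS
  have hSum := gdd_summable h (y := 1 / 2) (by norm_num)
  have hS0 : 0 ≤ S := tsum_nonneg (fun n => by positivity)
  refine ⟨|M| * Real.exp 1 + S * Real.exp Real.pi * k.factorial, by positivity, ?_⟩
  intro z hz
  have hpw : 0 < z.im ^ (-((k : ℝ) / 2)) := Real.rpow_pos_of_pos hz _
  rcases le_total z.im 1 with h1 | h1
  · have h2 : ‖f z‖ ≤ |M| * z.im ^ (-((k : ℝ) / 2)) :=
      (h.bd z hz).trans (mul_le_mul_of_nonneg_right (le_abs_self M) hpw.le)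
    have h3 : (1 : ℝ) ≤ Real.exp 1 * Real.exp (-z.im) := by
      rw [← Real.exp_add]
      exact Real.one_le_exp (by linarith)
    calc ‖f z‖ ≤ |M| * z.im ^ (-((k : ℝ) / 2)) * 1 := by rw [mul_one]; exact h2
      _ ≤ |M| * z.im ^ (-((k : ℝ) / 2)) * (Real.exp 1 * Real.exp (-z.im)) :=
          mul_le_mul_of_nonneg_left h3 (by positivity)
      _ = (|M| * Real.exp 1) * z.im ^ (-((k : ℝ) / 2)) * Real.exp (-z.im) := by ring
      _ ≤ (|M| * Real.exp 1 + S * Real.exp Real.pi * k.factorial) * z.im ^ (-((k : ℝ) / 2)) *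
          Real.exp (-z.im) := by
          apply mul_le_mul_of_nonneg_right _ (Real.exp_pos _).le
          apply mul_le_mul_of_nonneg_right _ hpw.le
          have : 0 ≤ S * Real.exp Real.pi * k.factorial := by positivity
          linarith
  · have hE := h.exp z hz
    have h2 : ‖f z‖ ≤ S * Real.exp (-(2 * Real.pi * (z.im - 1 / 2))) := by
      rw [← hE.tsum_eq, hS, ← tsum_mul_right]
      have hle : ∀ n : ℕ, ‖a n * cexp (2 * Real.pi * I * n * z)‖ ≤
          ‖a n‖ * Real.exp (-(2 * Real.pi * n * (1 / 2))) *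
            Real.exp (-(2 * Real.pi * (z.im - 1 / 2))) := by
        intro n
        rcases Nat.eq_zero_or_pos n with rfl | hn
        · rw [h.a0]
          simp
        · have e0 : ‖a n‖ * Real.exp (-(2 * Real.pi * n * (1 / 2))) *
              Real.exp (-(2 * Real.pi * (z.im - 1 / 2))) = ‖a n‖ *
              (Real.exp (-(2 * Real.pi * n * (1 / 2))) * Real.exp (-(2 * Real.pi * (z.im - 1 / 2)))) := by
            ring
          rw [norm_mul, gdd_norm_e, e0, ← Real.exp_add]
          apply mul_le_mul_of_nonneg_left _ (norm_nonneg _)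
          apply Real.exp_le_exp.mpr
          have hn1 : (1 : ℝ) ≤ n := by exact_mod_cast hn
          have hpi := Real.pi_pos
          nlinarith [mul_nonneg (mul_nonneg hpi.le (sub_nonneg.mpr hn1)) (by linarith : 0 ≤ z.im - 1 / 2)]
      exact tsum_of_norm_bounded (hSum.mul_right _).hasSum hle
    have hpi := Real.pi_gt_three
    have h3 : Real.exp (-(2 * Real.pi * (z.im - 1 / 2))) ≤
        Real.exp Real.pi * k.factorial * z.im ^ (-((k : ℝ) / 2)) * Real.exp (-z.im) := by
      have h4 := gdd_pow_le k h1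
      have h5 : z.im ^ (-((k : ℝ) / 2)) = (z.im ^ ((k : ℝ) / 2))⁻¹ := Real.rpow_neg hz.le _
      have h6 : 0 < z.im ^ ((k : ℝ) / 2) := Real.rpow_pos_of_pos hz _
      rw [h5]
      have h7 : Real.exp (-(2 * Real.pi * (z.im - 1 / 2))) * z.im ^ ((k : ℝ) / 2) ≤
          Real.exp Real.pi * k.factorial * Real.exp (-z.im) := by
        calc Real.exp (-(2 * Real.pi * (z.im - 1 / 2))) * z.im ^ ((k : ℝ) / 2)
            ≤ Real.exp (-(2 * Real.pi * (z.im - 1 / 2))) * ((k.factorial : ℝ) * Real.exp z.im) :=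
              mul_le_mul_of_nonneg_left h4 (Real.exp_pos _).le
          _ = (k.factorial : ℝ) * Real.exp (-(2 * Real.pi * (z.im - 1 / 2)) + z.im) := by
              rw [Real.exp_add]; ring
          _ ≤ (k.factorial : ℝ) * Real.exp (Real.pi + -z.im) := by
              apply mul_le_mul_of_nonneg_left _ (by positivity)
              apply Real.exp_le_exp.mpr
              nlinarith
          _ = Real.exp Real.pi * k.factorial * Real.exp (-z.im) := by
              rw [Real.exp_add]; ring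
      calc Real.exp (-(2 * Real.pi * (z.im - 1 / 2)))
          = (Real.exp (-(2 * Real.pi * (z.im - 1 / 2))) * z.im ^ ((k : ℝ) / 2)) *
            (z.im ^ ((k : ℝ) / 2))⁻¹ := by
            rw [mul_inv_cancel_right₀ h6.ne']
        _ ≤ (Real.exp Real.pi * k.factorial * Real.exp (-z.im)) * (z.im ^ ((k : ℝ) / 2))⁻¹ :=
            mul_le_mul_of_nonneg_right h7 (by positivity)
        _ = _ := by ring
    calc ‖f z‖ ≤ S * Real.exp (-(2 * Real.pi * (z.im - 1 / 2))) := h2
      _ ≤ S * (Real.exp Real.pi * k.factorial * z.im ^ (-((k : ℝ) / 2)) * Real.exp (-z.im)) :=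
          mul_le_mul_of_nonneg_left h3 hS0
      _ = (S * Real.exp Real.pi * k.factorial) * z.im ^ (-((k : ℝ) / 2)) * Real.exp (-z.im) := by
          ring
      _ ≤ (|M| * Real.exp 1 + S * Real.exp Real.pi * k.factorial) * z.im ^ (-((k : ℝ) / 2)) *
          Real.exp (-z.im) := by
          apply mul_le_mul_of_nonneg_right _ (Real.exp_pos _).le
          apply mul_le_mul_of_nonneg_right _ hpw.le
          have : 0 ≤ |M| * Real.exp 1 := by positivity
          linarith

theorem gdd_im (x α : ℝ) : (cexp (x + α * I)).im = Real.exp x * Real.sin α := by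
  rw [Complex.exp_im]
  simp

theorem gdd_norm_half (k : ℕ) (x α : ℝ) :
    ‖cexp (((k : ℂ) / 2) * (x + α * I))‖ = Real.exp ((k : ℝ) / 2 * x) := by
  rw [Complex.norm_exp]
  congr 1
  have : (((k : ℂ) / 2) * (x + α * I)) = (((k : ℝ) / 2 : ℝ) : ℂ) * (x + α * I) := by
    push_cast
    ring
  rw [this, Complex.re_ofReal_mul]
  simp

theorem gdd_rpow (k : ℕ) {s : ℝ} (hs : 0 < s) (x : ℝ) :
    (Real.exp x * s) ^ (-((k : ℝ) / 2)) = Real.exp (-((k : ℝ) / 2 * x)) * s ^ (-((k : ℝ) / 2)) := by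
  rw [Real.mul_rpow (Real.exp_pos _).le hs.le, ← Real.exp_mul]
  congr 2
  ring

theorem gg_decay_pr (h : Frame k N a b f g c M) :
    ∃ C : ℝ, 0 ≤ C ∧ ∀ x α : ℝ, 0 < α → α < Real.pi →
      ‖GG k f (x + α * I)‖ ≤
        C * Real.sin α ^ (-((k : ℝ) / 2)) * Real.exp (-(Real.sin α / N * Real.cosh x)) := by
  obtain ⟨C1, hC1, h1⟩ := half_decay_pr h.fh
  obtain ⟨C2, hC2, h2⟩ := half_decay_pr h.gh
  have hN1 : (1 : ℝ) ≤ (N : ℝ) := by exact_mod_cast h.hN
  have hN0 : (0 : ℝ) < (N : ℝ) := by linarith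
  refine ⟨C1 + ‖c‖ * C2 * (N : ℝ) ^ ((k : ℝ) / 2), by positivity, ?_⟩
  intro x α ha0 ha1
  have hs : 0 < Real.sin α := Real.sin_pos_of_pos_of_lt_pi ha0 ha1
  have hsp : 0 < Real.sin α ^ (-((k : ℝ) / 2)) := Real.rpow_pos_of_pos hs _
  have hy : 0 < (cexp (x + α * I)).im := by
    rw [gdd_im]
    positivity
  have hcosh : Real.cosh x = (Real.exp x + Real.exp (-x)) / 2 := Real.cosh_eq x
  unfold GG
  rw [norm_mul, gdd_norm_half]
  rcases le_total 0 x with hx | hx
  · have h3 := h1 _ hy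
    rw [gdd_im, gdd_rpow k hs] at h3
    have hch : Real.cosh x ≤ Real.exp x := by
      rw [hcosh]
      have : Real.exp (-x) ≤ Real.exp x := Real.exp_le_exp.mpr (by linarith)
      linarith
    have h4 : Real.exp (-(Real.exp x * Real.sin α)) ≤
        Real.exp (-(Real.sin α / N * Real.cosh x)) := by
      apply Real.exp_le_exp.mpr
      apply neg_le_neg
      have h5 : Real.sin α / N ≤ Real.sin α := div_le_self hs.le hN1
      have h6 : 0 < Real.cosh x := Real.cosh_pos x
      calc Real.sin α / N * Real.cosh x ≤ Real.sin α * Real.cosh x :=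
            mul_le_mul_of_nonneg_right h5 h6.le
        _ ≤ Real.sin α * Real.exp x := mul_le_mul_of_nonneg_left hch hs.le
        _ = Real.exp x * Real.sin α := mul_comm _ _
    calc ‖f (cexp (x + α * I))‖ * Real.exp ((k : ℝ) / 2 * x)
        ≤ (C1 * (Real.exp (-((k : ℝ) / 2 * x)) * Real.sin α ^ (-((k : ℝ) / 2))) *
            Real.exp (-(Real.exp x * Real.sin α))) * Real.exp ((k : ℝ) / 2 * x) :=
          mul_le_mul_of_nonneg_right h3 (Real.exp_pos _).le
      _ = C1 * Real.sin α ^ (-((k : ℝ) / 2)) * Real.exp (-(Real.exp x * Real.sin α)) *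
          (Real.exp (-((k : ℝ) / 2 * x)) * Real.exp ((k : ℝ) / 2 * x)) := by ring
      _ = C1 * Real.sin α ^ (-((k : ℝ) / 2)) * Real.exp (-(Real.exp x * Real.sin α)) := by
          rw [← Real.exp_add, neg_add_cancel, Real.exp_zero, mul_one]
      _ ≤ C1 * Real.sin α ^ (-((k : ℝ) / 2)) * Real.exp (-(Real.sin α / N * Real.cosh x)) :=
          mul_le_mul_of_nonneg_left h4 (by positivity)
      _ ≤ _ := by
          apply mul_le_mul_of_nonneg_right _ (Real.exp_pos _).le
          apply mul_le_mul_of_nonneg_right _ hsp.le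
          have : 0 ≤ ‖c‖ * C2 * (N : ℝ) ^ ((k : ℝ) / 2) := by positivity
          linarith
  · rw [h.fricke _ hy, norm_mul, norm_mul, norm_inv, norm_pow]
    have hnorm : ‖cexp (x + α * I)‖ = Real.exp x := by
      rw [Complex.norm_exp]
      simp
    rw [hnorm]
    have him : (-1 / (N * cexp (x + α * I))).im = Real.exp (-x) * (Real.sin α / N) := by
      have e1 : (-1 / (N * cexp (x + α * I)) : ℂ) = ((-(1 / (N : ℝ)) : ℝ) : ℂ) * cexp ((-x : ℝ) + (-α : ℝ) * I) := by
        have : ((-x : ℝ) + (-α : ℝ) * I : ℂ) = -(x + α * I) := by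
          push_cast
          ring
        rw [this, Complex.exp_neg]
        push_cast
        have hN' : (N : ℂ) ≠ 0 := by exact_mod_cast hN0.ne'
        have he := Complex.exp_ne_zero (x + α * I)
        field_simp
      rw [e1, Complex.im_ofReal_mul, gdd_im, Real.sin_neg]
      ring
    have hy' : 0 < (-1 / (N * cexp (x + α * I))).im := by
      rw [him]
      positivity
    have h3 := h2 _ hy'
    rw [him, gdd_rpow k (by positivity : 0 < Real.sin α / N)] at h3
    have hch : Real.cosh x ≤ Real.exp (-x) := by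
      rw [hcosh]
      have : Real.exp x ≤ Real.exp (-x) := Real.exp_le_exp.mpr (by linarith)
      linarith
    have h4 : Real.exp (-(Real.exp (-x) * (Real.sin α / N))) ≤
        Real.exp (-(Real.sin α / N * Real.cosh x)) := by
      apply Real.exp_le_exp.mpr
      apply neg_le_neg
      rw [mul_comm (Real.exp (-x))]
      exact mul_le_mul_of_nonneg_left hch (by positivity)
    have h5 : (Real.sin α / N) ^ (-((k : ℝ) / 2)) =
        Real.sin α ^ (-((k : ℝ) / 2)) * (N : ℝ) ^ ((k : ℝ) / 2) := by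
      rw [Real.div_rpow hs.le hN0.le, Real.rpow_neg hN0.le, div_inv_eq_mul]
    rw [h5] at h3
    have h6 : (Real.exp x ^ k)⁻¹ * Real.exp (-((k : ℝ) / 2 * -x)) * Real.exp ((k : ℝ) / 2 * x) = 1 := by
      rw [← Real.exp_nat_mul, ← Real.exp_neg, ← Real.exp_add, ← Real.exp_add]
      rw [show -((k : ℝ) * x) + -((k : ℝ) / 2 * -x) + (k : ℝ) / 2 * x = 0 by ring, Real.exp_zero]
    calc ‖c‖ * (Real.exp x ^ k)⁻¹ * ‖g (-1 / (N * cexp (x + α * I)))‖ * Real.exp ((k : ℝ) / 2 * x)
        ≤ ‖c‖ * (Real.exp x ^ k)⁻¹ * (C2 * (Real.exp (-((k : ℝ) / 2 * -x)) *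
            (Real.sin α ^ (-((k : ℝ) / 2)) * (N : ℝ) ^ ((k : ℝ) / 2))) *
            Real.exp (-(Real.exp (-x) * (Real.sin α / N)))) * Real.exp ((k : ℝ) / 2 * x) := by
          apply mul_le_mul_of_nonneg_right _ (Real.exp_pos _).le
          exact mul_le_mul_of_nonneg_left h3 (by positivity)
      _ = ‖c‖ * C2 * (N : ℝ) ^ ((k : ℝ) / 2) * Real.sin α ^ (-((k : ℝ) / 2)) *
            Real.exp (-(Real.exp (-x) * (Real.sin α / N))) *
          ((Real.exp x ^ k)⁻¹ * Real.exp (-((k : ℝ) / 2 * -x)) * Real.exp ((k : ℝ) / 2 * x)) := by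
          ring
      _ = ‖c‖ * C2 * (N : ℝ) ^ ((k : ℝ) / 2) * Real.sin α ^ (-((k : ℝ) / 2)) *
            Real.exp (-(Real.exp (-x) * (Real.sin α / N))) := by rw [h6, mul_one]
      _ ≤ ‖c‖ * C2 * (N : ℝ) ^ ((k : ℝ) / 2) * Real.sin α ^ (-((k : ℝ) / 2)) *
            Real.exp (-(Real.sin α / N * Real.cosh x)) :=
          mul_le_mul_of_nonneg_left h4 (by positivity)
      _ ≤ _ := by
          apply mul_le_mul_of_nonneg_right _ (Real.exp_pos _).le
          apply mul_le_mul_of_nonneg_right _ hsp.le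
          linarith

theorem gg_hol_pr (h : Half k a f M) :
    DifferentiableOn ℂ (GG k f) {w : ℂ | 0 < w.im ∧ w.im < Real.pi} := by
  unfold GG
  apply DifferentiableOn.mul
  · apply h.hol.comp Complex.differentiable_exp.differentiableOn
    intro w hw
    have : w = (w.re : ℂ) + (w.im : ℂ) * I := (Complex.re_add_im w).symm
    show 0 < (cexp w).im
    rw [this, gdd_im]
    exact mul_pos (Real.exp_pos _) (Real.sin_pos_of_pos_of_lt_pi hw.1 hw.2)
  · exact (Complex.differentiable_exp.comp (differentiable_id.const_mul _)).differentiableOn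

alias half_decay := half_decay_pr

alias gg_decay := gg_decay_pr

alias gg_hol := gg_hol_pr

end Pool.Agent.JOF
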