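import Pool.Agent.Lib_helper42.JO.FHDefs
import Pool.Agent.Lib_helper42.JOF.GDD

/-! Project JO, part FH, block LAM. -/

namespace Pool.Agent.JOF

open Pool.Agent.JO Complex MeasureTheory Filter Topology Set
open scoped ComplexConjugate ContDiff

variable {k N : ℕ} {a b : ℕ → ℂ} {f g : ℂ → ℂ} {c : ℂ} {M : ℝ}

theorem lam_aux_cosh (x : ℝ) : x ^ 2 / 4 ≤ Real.cosh x := by
  have h := Real.quadratic_le_exp_of_nonneg (abs_nonneg x)
  rw [← Real.cosh_abs, Real.cosh_eq]
  have h2 := Real.exp_pos (-|x|)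
  have h3 : |x| ^ 2 = x ^ 2 := sq_abs x
  have h4 := abs_nonneg x
  linarith

theorem lam_aux_expint {δ : ℝ} (hδ : 0 < δ) :
    Integrable (fun x : ℝ => Real.exp (-(δ * Real.cosh x))) := by
  apply Integrable.mono' (integrable_exp_neg_mul_sq (b := δ / 4) (by positivity))
  · have : Continuous (fun x : ℝ => Real.exp (-(δ * Real.cosh x))) := by
      have := Real.continuous_cosh
      fun_prop
    exact this.aestronglyMeasurable
  · refine Eventually.of_forall (fun x => ?_)
    rw [Real.norm_eq_abs, abs_of_pos (Real.exp_pos _)]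
    apply Real.exp_le_exp.mpr
    have := lam_aux_cosh x
    nlinarith

theorem lam_aux_cont (h : Frame k N a b f g c M) {α : ℝ} (h0 : 0 < α) (h1 : α < Real.pi) :
    Continuous (fun x : ℝ => GG k f (x + α * I)) := by
  have hd := (gg_hol h.fh).continuousOn
  apply hd.comp_continuous (by fun_prop)
  intro x
  have e : ((x : ℂ) + α * I).im = α := by simp
  exact ⟨by rw [e]; exact h0, by rw [e]; exact h1⟩

theorem lam_aux_int (h : Frame k N a b f g c M) {α : ℝ} (h0 : 0 < α) (h1 : α < Real.pi) :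
    Integrable (fun x : ℝ => GG k f (x + α * I)) := by
  obtain ⟨C, hC, hb⟩ := gg_decay h
  have hs : 0 < Real.sin α := Real.sin_pos_of_pos_of_lt_pi h0 h1
  have hN : (0 : ℝ) < N := by exact_mod_cast h.hN
  apply Integrable.mono' ((lam_aux_expint (div_pos hs hN)).const_mul
    (C * Real.sin α ^ (-((k : ℝ) / 2))))
  · exact (lam_aux_cont h h0 h1).aestronglyMeasurable
  · exact Eventually.of_forall (fun x => hb x α h0 h1)

theorem lam_aux_norm (t x y : ℝ) :
    ‖cexp (I * t * (x + y * I))‖ = Real.exp (-(y * t)) := by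
  rw [Complex.norm_exp]
  congr 1
  simp
  ring

theorem lam_aux_int2 (h : Frame k N a b f g c M) {α : ℝ} (h0 : 0 < α) (h1 : α < Real.pi)
    (t : ℝ) : Integrable (fun x : ℝ => GG k f (x + α * I) * cexp (I * t * (x + α * I))) := by
  apply Integrable.mul_bdd (c := Real.exp (-(α * t))) (lam_aux_int h h0 h1)
  · have : Continuous (fun x : ℝ => cexp (I * t * (x + α * I))) := by fun_prop
    exact this.aestronglyMeasurable
  · exact Eventually.of_forall (fun x => le_of_eq (lam_aux_norm t x α))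

/-- the vertical sides -/
theorem lam_aux_vert (h : Frame k N a b f g c M) {α : ℝ} (h0 : 0 < α) (h1 : α < Real.pi)
    (t : ℝ) (u : ℝ → ℝ) (hu : Tendsto (fun R => Real.cosh (u R)) atTop atTop) :
    Tendsto (fun R : ℝ => ∫ y in α..(Real.pi / 2), GG k f ((u R : ℝ) + y * I) *
      cexp (I * t * ((u R : ℝ) + y * I))) atTop (𝓝 0) := by
  obtain ⟨C, hC, hb⟩ := gg_decay h
  have hN : (0 : ℝ) < N := by exact_mod_cast h.hN
  have hpi := Real.pi_pos
  have hmem : ∀ y ∈ uIcc α (Real.pi / 2), 0 < y ∧ y < Real.pi := by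
    intro y hy
    rw [uIcc, mem_Icc] at hy
    constructor
    · exact lt_of_lt_of_le (lt_min h0 (by positivity)) hy.1
    · exact lt_of_le_of_lt hy.2 (max_lt h1 (by linarith))
  obtain ⟨y₀, hy₀, hmin⟩ := (isCompact_uIcc (a := α) (b := Real.pi / 2)).exists_isMinOn
    ⟨α, left_mem_uIcc⟩ (Real.continuous_sin.continuousOn)
  obtain ⟨s, hs⟩ : ∃ s : ℝ, s = Real.sin y₀ := ⟨_, rfl⟩
  have hs0 : 0 < s := by
    rw [hs]
    exact Real.sin_pos_of_pos_of_lt_pi (hmem y₀ hy₀).1 (hmem y₀ hy₀).2
  have hsy : ∀ y ∈ uIcc α (Real.pi / 2), s ≤ Real.sin y := by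
    intro y hy
    rw [hs]
    exact hmin hy
  obtain ⟨D, hD⟩ : ∃ D : ℝ, D = C * s ^ (-((k : ℝ) / 2)) * Real.exp (Real.pi * |t|) := ⟨_, rfl⟩
  have hbound : ∀ R : ℝ, ‖∫ y in α..(Real.pi / 2), GG k f ((u R : ℝ) + y * I) *
      cexp (I * t * ((u R : ℝ) + y * I))‖ ≤
      (D * Real.exp (-(s / N * Real.cosh (u R)))) * |Real.pi / 2 - α| := by
    intro R
    apply intervalIntegral.norm_integral_le_of_norm_le_const
    intro y hy
    have hy2 : y ∈ uIcc α (Real.pi / 2) := uIoc_subset_uIcc hy
    obtain ⟨hy0, hy1⟩ := hmem y hy2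
    have hsy2 := hsy y hy2
    rw [norm_mul, lam_aux_norm]
    have e1 : Real.sin y ^ (-((k : ℝ) / 2)) ≤ s ^ (-((k : ℝ) / 2)) :=
      Real.rpow_le_rpow_of_nonpos hs0 hsy2 (by
        have : (0 : ℝ) ≤ k := Nat.cast_nonneg k
        linarith)
    have hcosh : 0 < Real.cosh (u R) := Real.cosh_pos _
    have e2 : Real.exp (-(Real.sin y / N * Real.cosh (u R))) ≤
        Real.exp (-(s / N * Real.cosh (u R))) := by
      apply Real.exp_le_exp.mpr
      apply neg_le_neg
      apply mul_le_mul_of_nonneg_right _ hcosh.le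
      exact div_le_div_of_nonneg_right hsy2 hN.le
    have e3 : Real.exp (-(y * t)) ≤ Real.exp (Real.pi * |t|) := by
      apply Real.exp_le_exp.mpr
      have h3 : -t ≤ |t| := neg_le_abs t
      have h4 : 0 ≤ |t| := abs_nonneg t
      nlinarith
    calc ‖GG k f ((u R : ℝ) + y * I)‖ * Real.exp (-(y * t)) ≤
        (C * Real.sin y ^ (-((k : ℝ) / 2)) * Real.exp (-(Real.sin y / N * Real.cosh (u R)))) *
          Real.exp (-(y * t)) :=
          mul_le_mul_of_nonneg_right (hb (u R) y hy0 hy1) (Real.exp_pos _).le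
      _ ≤ (C * s ^ (-((k : ℝ) / 2)) * Real.exp (-(s / N * Real.cosh (u R)))) *
          Real.exp (Real.pi * |t|) := by
          apply mul_le_mul _ e3 (Real.exp_pos _).le
          · exact mul_nonneg (mul_nonneg hC (Real.rpow_nonneg hs0.le _)) (Real.exp_pos _).le
          · apply mul_le_mul _ e2 (Real.exp_pos _).le
            · exact mul_nonneg hC (Real.rpow_nonneg hs0.le _)
            · exact mul_le_mul_of_nonneg_left e1 hC
      _ = D * Real.exp (-(s / N * Real.cosh (u R))) := by rw [hD]; ring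
  apply squeeze_zero_norm hbound
  have h3 : Tendsto (fun R : ℝ => s / N * Real.cosh (u R)) atTop atTop :=
    hu.const_mul_atTop (div_pos hs0 hN)
  have h4 : Tendsto (fun R : ℝ => Real.exp (-(s / N * Real.cosh (u R)))) atTop (𝓝 0) :=
    Real.tendsto_exp_neg_atTop_nhds_zero.comp h3
  have h5 := (h4.const_mul D).mul_const (|Real.pi / 2 - α|)
  simpa using h5

theorem lam_line_pr (h : Frame k N a b f g c M) {α : ℝ} (h0 : 0 < α) (h1 : α < Real.pi) (t : ℝ) :
    ∫ x : ℝ, GG k f (x + α * I) * cexp (I * t * (x + α * I)) = Lam k f t := by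
  have hpi := Real.pi_pos
  have hcosh : Tendsto Real.cosh atTop atTop := by
    apply tendsto_atTop_mono lam_aux_cosh
    exact (tendsto_pow_atTop two_ne_zero).atTop_div_const (by norm_num)
  have hhalf0 : 0 < Real.pi / 2 := by positivity
  have hhalf1 : Real.pi / 2 < Real.pi := by linarith
  -- the holomorphic function
  have hrect : ∀ R : ℝ,
      (∫ x in (-R)..R, GG k f (x + α * I) * cexp (I * t * (x + α * I))) -
      (∫ x in (-R)..R, GG k f (x + (Real.pi / 2 : ℝ) * I) *
        cexp (I * t * (x + (Real.pi / 2 : ℝ) * I))) +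
      I • (∫ y in α..(Real.pi / 2), GG k f ((R : ℝ) + y * I) *
        cexp (I * t * ((R : ℝ) + y * I))) -
      I • (∫ y in α..(Real.pi / 2), GG k f ((-R : ℝ) + y * I) *
        cexp (I * t * ((-R : ℝ) + y * I))) = 0 := by
    intro R
    have hd : DifferentiableOn ℂ (fun w : ℂ => GG k f w * cexp (I * t * w))
        {w : ℂ | 0 < w.im ∧ w.im < Real.pi} := by
      apply (gg_hol h.fh).mul
      exact (by fun_prop : Differentiable ℂ (fun w : ℂ => cexp (I * t * w))).differentiableOn
    have key := Complex.integral_boundary_rect_eq_zero_of_differentiableOn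
      (fun w : ℂ => GG k f w * cexp (I * t * w)) (⟨-R, α⟩ : ℂ) (⟨R, Real.pi / 2⟩ : ℂ)
      (hd.mono (by
        intro w hw
        rw [mem_reProdIm] at hw
        have h2 := hw.2
        simp only at h2
        rw [uIcc, mem_Icc] at h2
        exact ⟨lt_of_lt_of_le (lt_min h0 hhalf0) h2.1,
          lt_of_le_of_lt h2.2 (max_lt h1 hhalf1)⟩))
    exact key
  have t1 := intervalIntegral_tendsto_integral (lam_aux_int2 h h0 h1 t)
    tendsto_neg_atTop_atBot tendsto_id
  have t2 := intervalIntegral_tendsto_integral (lam_aux_int2 h hhalf0 hhalf1 t)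
    tendsto_neg_atTop_atBot tendsto_id
  have t3 := (lam_aux_vert h h0 h1 t (fun R => R) hcosh).const_smul I
  have t4 := (lam_aux_vert h h0 h1 t (fun R => -R) (by
    simpa only [Real.cosh_neg] using hcosh)).const_smul I
  have t5 := ((t1.sub t2).add t3).sub t4
  have t6 : Tendsto (fun _ : ℝ => (0 : ℂ)) atTop (𝓝 0) := tendsto_const_nhds
  have t7 := tendsto_nhds_unique (t5.congr (fun R => hrect R)) t6
  rw [smul_zero, add_zero, sub_zero, sub_eq_zero] at t7
  rw [t7, Lam]

theorem lam_bound_pr (h : Frame k N a b f g c M) {α : ℝ} (h0 : 0 < α) (h1 : α < Real.pi) :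
    ∃ C : ℝ, ∀ t : ℝ, ‖Lam k f t‖ ≤ C * Real.exp (-(α * t)) := by
  refine ⟨∫ x : ℝ, ‖GG k f (x + α * I)‖, ?_⟩
  intro t
  rw [← lam_line_pr h h0 h1 t]
  refine le_trans (norm_integral_le_integral_norm _) ?_
  rw [← integral_mul_const]
  apply le_of_eq
  apply integral_congr_ae
  refine Eventually.of_forall (fun x => ?_)
  simp only
  rw [norm_mul, lam_aux_norm]

theorem lam_cont_pr (h : Frame k N a b f g c M) : Continuous (Lam k f) := by
  have hpi := Real.pi_pos
  have hhalf0 : 0 < Real.pi / 2 := by positivity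
  have hhalf1 : Real.pi / 2 < Real.pi := by linarith
  have e : Lam k f = fun t : ℝ => cexp (I * t * ((Real.pi / 2 : ℝ) * I)) *
      ∫ x : ℝ, GG k f (x + (Real.pi / 2 : ℝ) * I) * cexp (I * t * x) := by
    funext t
    rw [Lam, ← integral_const_mul]
    apply integral_congr_ae
    refine Eventually.of_forall (fun x => ?_)
    simp only
    rw [mul_add, Complex.exp_add]
    ring
  rw [e]
  apply Continuous.mul (by fun_prop)
  apply continuous_of_dominated (bound := fun x : ℝ => ‖GG k f (x + (Real.pi / 2 : ℝ) * I)‖)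
  · intro t
    have h2 : Continuous (fun x : ℝ => GG k f (x + (Real.pi / 2 : ℝ) * I) * cexp (I * t * x)) :=
      (lam_aux_cont h hhalf0 hhalf1).mul (by fun_prop)
    exact h2.aestronglyMeasurable
  · intro t
    refine Eventually.of_forall (fun x => ?_)
    rw [norm_mul]
    have h3 : ‖cexp (I * t * x)‖ = 1 := by
      rw [Complex.norm_exp]
      simp
    rw [h3, mul_one]
  · exact (lam_aux_int h hhalf0 hhalf1).norm
  · refine Eventually.of_forall (fun x => ?_)
    fun_prop

alias lam_line := lam_line_pr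

alias lam_bound := lam_bound_pr

alias lam_cont := lam_cont_pr

end Pool.Agent.JOF
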