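import Pool.Agent.Lib_helper42.JO.FHDefs
import Pool.Agent.Lib_helper42.JOF.GDD
import Pool.Agent.Lib_helper42.JOF.LAM

/-!
# Project JO, part FH, block QFF: Parseval on rays
-/

namespace Pool.Agent.JOF

open Pool.Agent.JO Complex MeasureTheory Filter Topology Set
open scoped ComplexConjugate ContDiff

variable {k N : ℕ} {a b : ℕ → ℂ} {f g : ℂ → ℂ} {c : ℂ} {M : ℝ}

open scoped FourierTransform in
theorem qff_parseval {F G : ℝ → ℂ} (hF : Integrable F) (hG : Integrable G)
    (hGc : Continuous G) (hG' : Integrable (𝓕 G)) :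
    ∫ w : ℝ, 𝓕 G w * conj (𝓕 F w) = ∫ x : ℝ, G x * conj (F x) := by
  have h1 : ∫ w : ℝ, (innerSL ℂ) (𝓕 F w) (𝓕 G w) = ∫ x : ℝ, (innerSL ℂ) (F x) (𝓕⁻ (𝓕 G) x) := by
    simpa using! VectorFourier.integral_sesq_fourierIntegral_eq_neg_flip
      (μ := (volume : Measure ℝ)) (ν := (volume : Measure ℝ)) (L := innerₗ ℝ)
      (f := F) (g := 𝓕 G) (innerSL ℂ) Real.continuous_fourierChar continuous_inner hF hG'
  rw [hGc.fourierInv_fourier_eq hG hG'] at h1
  simpa [innerSL_apply_apply, RCLike.inner_apply] using h1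

theorem qff_int_abs {δ : ℝ} (hδ : 0 < δ) : Integrable (fun t : ℝ => Real.exp (-(δ * |t|))) := by
  have h1 : IntegrableOn (fun t : ℝ => Real.exp (-(δ * |t|))) (Iic 0) := by
    refine (integrableOn_exp_mul_Iic hδ 0).congr_fun (fun x hx => ?_) measurableSet_Iic
    have hx' : x ≤ 0 := hx
    show Real.exp (δ * x) = Real.exp (-(δ * |x|))
    rw [abs_of_nonpos hx']
    ring_nf
  have h2 : IntegrableOn (fun t : ℝ => Real.exp (-(δ * |t|))) (Ioi 0) := by
    refine (exp_neg_integrableOn_Ioi 0 hδ).congr_fun (fun x hx => ?_) measurableSet_Ioi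
    have hx' : 0 < x := hx
    show Real.exp (-δ * x) = Real.exp (-(δ * |x|))
    rw [abs_of_pos hx']
    ring_nf
  have h3 := h1.union h2
  rw [Iic_union_Ioi] at h3
  exact integrableOn_univ.1 h3

/-- the function on the line -/
theorem qff_cont (h : Half k a f M) {α : ℝ} (h0 : 0 < α) (h1 : α < Real.pi) :
    Continuous (fun x : ℝ => GG k f (x + α * I)) := by
  have h2 : ContinuousOn (GG k f) {w : ℂ | 0 < w.im ∧ w.im < Real.pi} := (gg_hol h).continuousOn
  refine h2.comp_continuous (by fun_prop) (fun x => ?_)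
  simp [h0, h1]

theorem qff_integrable (h : Frame k N a b f g c M) {α : ℝ} (h0 : 0 < α) (h1 : α < Real.pi) :
    Integrable (fun x : ℝ => GG k f (x + α * I)) := by
  obtain ⟨C, hC, hb⟩ := gg_decay h
  have hs : 0 < Real.sin α := Real.sin_pos_of_pos_of_lt_pi h0 h1
  have hN : (0 : ℝ) < N := by exact_mod_cast h.hN
  set κ : ℝ := Real.sin α / N with hκ
  have hκ0 : 0 < κ := div_pos hs hN
  have hint : Integrable (fun x : ℝ => C * Real.sin α ^ (-((k : ℝ) / 2)) *
      Real.exp (-(κ / 2 * |x|))) := (qff_int_abs (by positivity)).const_mul _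
  refine hint.mono' (qff_cont h.fh h0 h1).aestronglyMeasurable (ae_of_all _ fun x => ?_)
  refine (hb x α h0 h1).trans ?_
  have hc : |x| / 2 ≤ Real.cosh x := by
    rw [← Real.cosh_abs, Real.cosh_eq]
    have e1 := Real.add_one_le_exp |x|
    have e2 := Real.exp_pos (-|x|)
    linarith
  have hA : 0 ≤ C * Real.sin α ^ (-((k : ℝ) / 2)) := mul_nonneg hC (Real.rpow_nonneg hs.le _)
  refine mul_le_mul_of_nonneg_left (Real.exp_le_exp.2 ?_) hA
  have := mul_le_mul_of_nonneg_left hc hκ0.le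
  linarith

/-- exponential decay of the Fourier transform on the line -/
theorem qff_lam_decay (h : Frame k N a b f g c M) {α : ℝ} (h0 : 0 < α) (h1 : α < Real.pi) :
    ∃ C δ : ℝ, 0 < δ ∧ 0 ≤ C ∧ ∀ t : ℝ,
      Real.exp (α * t) * ‖Lam k f t‖ ≤ C * Real.exp (-(δ * |t|)) := by
  set δ : ℝ := min (α / 2) ((Real.pi - α) / 2) with hδ
  have hδ0 : 0 < δ := lt_min (by linarith) (by linarith)
  have hδ1 : δ ≤ α / 2 := min_le_left _ _
  have hδ2 : δ ≤ (Real.pi - α) / 2 := min_le_right _ _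
  obtain ⟨C1, hC1⟩ := lam_bound h (α := α + δ) (by linarith) (by linarith)
  obtain ⟨C2, hC2⟩ := lam_bound h (α := α - δ) (by linarith) (by linarith)
  refine ⟨max (max C1 C2) 0, δ, hδ0, le_max_right _ _, fun t => ?_⟩
  have hm1 : C1 ≤ max (max C1 C2) 0 := (le_max_left _ _).trans (le_max_left _ _)
  have hm2 : C2 ≤ max (max C1 C2) 0 := (le_max_right _ _).trans (le_max_left _ _)
  rcases le_total 0 t with ht | ht
  · rw [abs_of_nonneg ht]
    calc Real.exp (α * t) * ‖Lam k f t‖ ≤ Real.exp (α * t) * (C1 * Real.exp (-((α + δ) * t))) :=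
          mul_le_mul_of_nonneg_left (hC1 t) (Real.exp_pos _).le
      _ = C1 * Real.exp (-(δ * t)) := by
          rw [mul_left_comm, ← Real.exp_add]; congr 2; ring
      _ ≤ _ := mul_le_mul_of_nonneg_right hm1 (Real.exp_pos _).le
  · rw [abs_of_nonpos ht]
    calc Real.exp (α * t) * ‖Lam k f t‖ ≤ Real.exp (α * t) * (C2 * Real.exp (-((α - δ) * t))) :=
          mul_le_mul_of_nonneg_left (hC2 t) (Real.exp_pos _).le
      _ = C2 * Real.exp (-(δ * -t)) := by
          rw [mul_left_comm, ← Real.exp_add]; congr 2; ring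
      _ ≤ _ := mul_le_mul_of_nonneg_right hm2 (Real.exp_pos _).le

open scoped FourierTransform in
/-- the Fourier transform of the shifted function -/
theorem qff_fourier (h : Frame k N a b f g c M) {α : ℝ} (h0 : 0 < α) (h1 : α < Real.pi)
    (η w : ℝ) :
    𝓕 (fun x : ℝ => GG k f ((x - η : ℝ) + α * I)) w =
      cexp (-(2 * Real.pi * w * (α + η * I))) * Lam k f (-(2 * Real.pi * w)) := by
  rw [Real.fourier_real_eq_integral_exp_smul]
  have hl := lam_line h h0 h1 (-(2 * Real.pi * w))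
  rw [← hl]
  rw [← integral_const_mul, ← integral_sub_right_eq_self (fun x : ℝ =>
    cexp (-(2 * Real.pi * w * (α + η * I))) * (GG k f (x + α * I) *
      cexp (I * ((-(2 * Real.pi * w) : ℝ) : ℂ) * (x + α * I)))) η]
  congr 1
  ext x
  rw [smul_eq_mul, mul_left_comm, ← Complex.exp_add, mul_comm]
  congr 2
  push_cast
  linear_combination (2 * Real.pi * w * α : ℂ) * I_sq

open scoped FourierTransform in
theorem qff_fourier_integrable (h : Frame k N a b f g c M) {α : ℝ} (h0 : 0 < α)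
    (h1 : α < Real.pi) (η : ℝ) :
    Integrable (𝓕 (fun x : ℝ => GG k f ((x - η : ℝ) + α * I))) := by
  obtain ⟨C, δ, hδ, hC, hd⟩ := qff_lam_decay h h0 h1
  have hL := lam_cont h
  have hc : Continuous (𝓕 (fun x : ℝ => GG k f ((x - η : ℝ) + α * I))) := by
    have he : 𝓕 (fun x : ℝ => GG k f ((x - η : ℝ) + α * I)) =
        fun w : ℝ => cexp (-(2 * Real.pi * w * (α + η * I))) * Lam k f (-(2 * Real.pi * w)) :=
      funext (qff_fourier h h0 h1 η)
    rw [he]
    fun_prop
  have hint : Integrable (fun w : ℝ => C * Real.exp (-((δ * (2 * Real.pi)) * |w|))) :=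
    (qff_int_abs (by positivity)).const_mul _
  refine hint.mono' hc.aestronglyMeasurable (ae_of_all _ fun w => ?_)
  rw [qff_fourier h h0 h1 η w, norm_mul, Complex.norm_exp]
  have hd' := hd (-(2 * Real.pi * w))
  have e1 : (-(2 * Real.pi * w * (α + η * I) : ℂ)).re = α * (-(2 * Real.pi * w)) := by
    simp
    ring
  have e2 : |(-(2 * Real.pi * w))| = 2 * Real.pi * |w| := by
    rw [abs_neg, abs_mul, abs_of_pos (by positivity : (0 : ℝ) < 2 * Real.pi)]
  rw [e1]
  rw [e2, ← mul_assoc] at hd'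
  exact hd'

/-- block QFF: with `θ = α + iη`: `GG(x + iθ) = GG(x - η + iα)`, `GG(x + i conj θ) = GG(x+η+iα)`,
polarised Parseval -/
theorem qq_formula_pr (h : Frame k N a b f g c M) {θ : ℂ} (h0 : 0 < θ.re) (h1 : θ.re < Real.pi) :
    Integrable (fun t : ℝ => ((‖Lam k f t‖ ^ 2 : ℝ) : ℂ) * cexp (2 * θ * t)) ∧
    QQ k f θ = ((1 / (2 * Real.pi) : ℝ) : ℂ) *
      ∫ t : ℝ, ((‖Lam k f t‖ ^ 2 : ℝ) : ℂ) * cexp (2 * θ * t) := by
  constructor
  · obtain ⟨C, δ, hδ, hC, hd⟩ := qff_lam_decay h h0 h1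
    have hL := lam_cont h
    have hint : Integrable (fun t : ℝ => C ^ 2 * Real.exp (-((2 * δ) * |t|))) :=
      (qff_int_abs (by positivity)).const_mul _
    refine hint.mono' (Continuous.aestronglyMeasurable (by fun_prop)) (ae_of_all _ fun t => ?_)
    rw [norm_mul, Complex.norm_exp, Complex.norm_real, Real.norm_eq_abs,
      abs_of_nonneg (by positivity : 0 ≤ ‖Lam k f t‖ ^ 2)]
    have e1 : (2 * θ * t : ℂ).re = θ.re * t + θ.re * t := by
      simp
      ring
    have e2 : -((2 * δ) * |t|) = -(δ * |t|) + -(δ * |t|) := by ring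
    rw [e1, e2, Real.exp_add, Real.exp_add]
    have h3 := mul_le_mul (hd t) (hd t) (by positivity) (by positivity)
    calc ‖Lam k f t‖ ^ 2 * (Real.exp (θ.re * t) * Real.exp (θ.re * t))
        = Real.exp (θ.re * t) * ‖Lam k f t‖ * (Real.exp (θ.re * t) * ‖Lam k f t‖) := by ring
      _ ≤ C * Real.exp (-(δ * |t|)) * (C * Real.exp (-(δ * |t|))) := h3
      _ = _ := by ring
  · have hP := qff_parseval (F := fun x : ℝ => GG k f ((x - -θ.im : ℝ) + θ.re * I))
      (G := fun x : ℝ => GG k f ((x - θ.im : ℝ) + θ.re * I))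
      ((qff_integrable h h0 h1).comp_sub_right (-θ.im))
      ((qff_integrable h h0 h1).comp_sub_right θ.im)
      ((qff_cont h.fh h0 h1).comp (continuous_sub_right θ.im))
      (qff_fourier_integrable h h0 h1 θ.im)
    have hQ : QQ k f θ = ∫ x : ℝ, GG k f ((x - θ.im : ℝ) + θ.re * I) *
        conj (GG k f ((x - -θ.im : ℝ) + θ.re * I)) := by
      unfold QQ
      congr 1
      ext x
      have e1 : (x : ℂ) + I * θ = ((x - θ.im : ℝ) : ℂ) + θ.re * I := by
        apply Complex.ext <;> simp [sub_eq_add_neg]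
      have e2 : (x : ℂ) + I * conj θ = ((x - -θ.im : ℝ) : ℂ) + θ.re * I := by
        apply Complex.ext <;> simp
      rw [e1, e2]
    rw [hQ, ← hP]
    have hs := Measure.integral_comp_mul_left
      (fun t : ℝ => ((‖Lam k f t‖ ^ 2 : ℝ) : ℂ) * cexp (2 * θ * t)) (-(2 * Real.pi))
    have hpi : |(-(2 * Real.pi))⁻¹| = 1 / (2 * Real.pi) := by
      rw [abs_inv, abs_neg, abs_of_pos (by positivity : (0 : ℝ) < 2 * Real.pi), one_div]
    rw [hpi, Complex.real_smul] at hs
    rw [← hs]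
    congr 1
    ext w
    rw [qff_fourier h h0 h1 θ.im w, qff_fourier h h0 h1 (-θ.im) w, map_mul, ← Complex.exp_conj]
    have e3 : conj (-(2 * Real.pi * w * (θ.re + ((-θ.im : ℝ) : ℂ) * I)) : ℂ) =
        -(2 * Real.pi * w * θ) := by
      apply Complex.ext <;> simp
    have e4 : (-(2 * Real.pi * w * (θ.re + θ.im * I)) : ℂ) = -(2 * Real.pi * w * θ) := by
      rw [Complex.re_add_im θ]
    have e5 : -(2 * Real.pi * w) = -(2 * Real.pi) * w := by ring
    rw [e3, e4, e5, mul_mul_mul_comm, ← Complex.exp_add, Complex.mul_conj, Complex.normSq_eq_norm_sq,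
      mul_comm]
    congr 2
    push_cast
    ring

alias qq_formula := qq_formula_pr

end Pool.Agent.JOF
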