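import Pool.Agent.Lib_helper42.JO.FHDefs
import Pool.Agent.Lib_helper42.JOF.GDD
import Pool.Agent.Lib_helper42.JOF.LAM
import Pool.Agent.Lib_helper42.JOF.QFF

namespace Pool.Agent.JOF

open Pool.Agent.JO Complex MeasureTheory Filter Topology Set
open scoped ComplexConjugate ContDiff

variable {k N : ℕ} {a b : ℕ → ℂ} {f g : ℂ → ℂ} {c : ℂ} {M : ℝ}

theorem qho_int_exp {δ : ℝ} (hδ : 0 < δ) : Integrable (fun t : ℝ => Real.exp (-(δ * |t|))) := by
  rw [← integrableOn_univ, ← Iic_union_Ioi (a := (0 : ℝ)), integrableOn_union]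
  constructor
  · have h1 := integrableOn_exp_mul_Iic hδ 0
    refine h1.congr_fun (fun t ht => ?_) measurableSet_Iic
    simp only [mem_Iic] at ht
    simp only [abs_of_nonpos ht]
    congr 1
    ring
  · have h1 := integrableOn_exp_mul_Ioi (a := -δ) (by linarith) 0
    refine h1.congr_fun (fun t ht => ?_) measurableSet_Ioi
    simp only [mem_Ioi] at ht
    simp only [abs_of_pos ht]
    congr 1
    ring

theorem qho_int_abs {δ : ℝ} (hδ : 0 < δ) :
    Integrable (fun t : ℝ => |t| * Real.exp (-(2 * δ * |t|))) := by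
  have h1 := (qho_int_exp hδ).const_mul (1 / δ)
  refine h1.mono' (by fun_prop) (Eventually.of_forall fun t => ?_)
  have h2 : δ * |t| ≤ Real.exp (δ * |t|) := by
    have := Real.add_one_le_exp (δ * |t|)
    linarith
  have h3 : |t| ≤ 1 / δ * Real.exp (δ * |t|) := by
    rw [div_mul_eq_mul_div, one_mul, le_div_iff₀ hδ]
    linarith
  rw [Real.norm_eq_abs, abs_of_nonneg (by positivity)]
  calc |t| * Real.exp (-(2 * δ * |t|)) ≤
        1 / δ * Real.exp (δ * |t|) * Real.exp (-(2 * δ * |t|)) :=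
        mul_le_mul_of_nonneg_right h3 (Real.exp_pos _).le
    _ = 1 / δ * Real.exp (-(δ * |t|)) := by
        rw [mul_assoc, ← Real.exp_add]
        congr 2
        ring

theorem qq_hol_pr (h : Frame k N a b f g c M) :
    DifferentiableOn ℂ (QQ k f) {θ : ℂ | 0 < θ.re ∧ θ.re < Real.pi} := by
  intro θ₀ hθ₀
  obtain ⟨h0, h1⟩ := hθ₀
  set δ : ℝ := min θ₀.re (Real.pi - θ₀.re) / 4 with hδ
  have hm1 : min θ₀.re (Real.pi - θ₀.re) ≤ θ₀.re := min_le_left _ _
  have hm2 : min θ₀.re (Real.pi - θ₀.re) ≤ Real.pi - θ₀.re := min_le_right _ _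
  have hδ0 : 0 < δ := by
    have : 0 < min θ₀.re (Real.pi - θ₀.re) := lt_min h0 (by linarith)
    positivity
  have hα1 : θ₀.re + 2 * δ < Real.pi := by linarith
  have hα2 : 0 < θ₀.re - 2 * δ := by linarith
  obtain ⟨C₁, hC₁⟩ := lam_bound h (α := θ₀.re + 2 * δ) (by linarith) hα1
  obtain ⟨C₂, hC₂⟩ := lam_bound h (α := θ₀.re - 2 * δ) hα2 (by linarith)
  have hball : ∀ θ ∈ Metric.ball θ₀ δ, θ₀.re - δ < θ.re ∧ θ.re < θ₀.re + δ := by
    intro θ hθ
    rw [Metric.mem_ball, dist_eq_norm] at hθ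
    have h2 := (Complex.abs_re_le_norm (θ - θ₀)).trans_lt hθ
    rw [Complex.sub_re, abs_lt] at h2
    constructor <;> linarith [h2.1, h2.2]
  have hcont : Continuous (Lam k f) := lam_cont h
  have hder := hasDerivAt_integral_of_dominated_loc_of_deriv_le
    (μ := (volume : Measure ℝ)) (x₀ := θ₀) (s := Metric.ball θ₀ δ)
    (F := fun (θ : ℂ) (t : ℝ) => ((‖Lam k f t‖ ^ 2 : ℝ) : ℂ) * cexp (2 * θ * t))
    (F' := fun (θ : ℂ) (t : ℝ) => ((‖Lam k f t‖ ^ 2 : ℝ) : ℂ) * (cexp (2 * θ * t) * (2 * 1 * t)))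
    (bound := fun t : ℝ => (2 * (C₁ ^ 2 + C₂ ^ 2)) * (|t| * Real.exp (-(2 * δ * |t|))))
    (Metric.ball_mem_nhds _ hδ0)
    (Eventually.of_forall fun θ => by
      apply Continuous.aestronglyMeasurable
      fun_prop)
    (qq_formula h h0 h1).1
    (by
      apply Continuous.aestronglyMeasurable
      fun_prop)
    (Eventually.of_forall fun t θ hθ => by
      obtain ⟨hb1, hb2⟩ := hball θ hθ
      have hn : ‖((‖Lam k f t‖ ^ 2 : ℝ) : ℂ) * (cexp (2 * θ * t) * (2 * 1 * t))‖ =
          2 * |t| * (‖Lam k f t‖ ^ 2 * Real.exp (2 * θ.re * t)) := by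
        rw [norm_mul, norm_mul, norm_mul, norm_mul, Complex.norm_real, Complex.norm_real,
          Complex.norm_exp]
        have : (2 * θ * (t : ℂ)).re = 2 * θ.re * t := by
          simp
        rw [this, Real.norm_eq_abs, Real.norm_eq_abs, abs_of_nonneg (sq_nonneg _)]
        simp
        ring
      rw [hn]
      have key : ‖Lam k f t‖ ^ 2 * Real.exp (2 * θ.re * t) ≤
          (C₁ ^ 2 + C₂ ^ 2) * Real.exp (-(2 * δ * |t|)) := by
        rcases le_total 0 t with ht | ht
        · have e1 := pow_le_pow_left₀ (norm_nonneg _) (hC₁ t) 2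
          rw [mul_pow, ← Real.exp_nat_mul] at e1
          calc ‖Lam k f t‖ ^ 2 * Real.exp (2 * θ.re * t) ≤
              C₁ ^ 2 * Real.exp ((2 : ℕ) * -((θ₀.re + 2 * δ) * t)) * Real.exp (2 * θ.re * t) :=
                mul_le_mul_of_nonneg_right e1 (Real.exp_pos _).le
            _ = C₁ ^ 2 * Real.exp ((2 : ℕ) * -((θ₀.re + 2 * δ) * t) + 2 * θ.re * t) := by
                rw [mul_assoc, ← Real.exp_add]
            _ ≤ C₁ ^ 2 * Real.exp (-(2 * δ * |t|)) := by
                apply mul_le_mul_of_nonneg_left _ (sq_nonneg _)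
                apply Real.exp_le_exp.mpr
                rw [abs_of_nonneg ht]
                push_cast
                nlinarith
            _ ≤ (C₁ ^ 2 + C₂ ^ 2) * Real.exp (-(2 * δ * |t|)) := by
                apply mul_le_mul_of_nonneg_right _ (Real.exp_pos _).le
                linarith [sq_nonneg C₂]
        · have e1 := pow_le_pow_left₀ (norm_nonneg _) (hC₂ t) 2
          rw [mul_pow, ← Real.exp_nat_mul] at e1
          calc ‖Lam k f t‖ ^ 2 * Real.exp (2 * θ.re * t) ≤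
              C₂ ^ 2 * Real.exp ((2 : ℕ) * -((θ₀.re - 2 * δ) * t)) * Real.exp (2 * θ.re * t) :=
                mul_le_mul_of_nonneg_right e1 (Real.exp_pos _).le
            _ = C₂ ^ 2 * Real.exp ((2 : ℕ) * -((θ₀.re - 2 * δ) * t) + 2 * θ.re * t) := by
                rw [mul_assoc, ← Real.exp_add]
            _ ≤ C₂ ^ 2 * Real.exp (-(2 * δ * |t|)) := by
                apply mul_le_mul_of_nonneg_left _ (sq_nonneg _)
                apply Real.exp_le_exp.mpr
                rw [abs_of_nonpos ht]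
                push_cast
                nlinarith
            _ ≤ (C₁ ^ 2 + C₂ ^ 2) * Real.exp (-(2 * δ * |t|)) := by
                apply mul_le_mul_of_nonneg_right _ (Real.exp_pos _).le
                linarith [sq_nonneg C₁]
      calc 2 * |t| * (‖Lam k f t‖ ^ 2 * Real.exp (2 * θ.re * t)) ≤
          2 * |t| * ((C₁ ^ 2 + C₂ ^ 2) * Real.exp (-(2 * δ * |t|))) :=
            mul_le_mul_of_nonneg_left key (by positivity)
        _ = (2 * (C₁ ^ 2 + C₂ ^ 2)) * (|t| * Real.exp (-(2 * δ * |t|))) := by ring)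
    ((qho_int_abs hδ0).const_mul _)
    (Eventually.of_forall fun t θ _ => by
      apply HasDerivAt.const_mul
      apply HasDerivAt.cexp
      exact ((hasDerivAt_id θ).const_mul 2).mul_const (t : ℂ))
  have h3 : DifferentiableAt ℂ (fun θ : ℂ => ((1 / (2 * Real.pi) : ℝ) : ℂ) *
      ∫ t : ℝ, ((‖Lam k f t‖ ^ 2 : ℝ) : ℂ) * cexp (2 * θ * t)) θ₀ :=
    hder.2.differentiableAt.const_mul _
  have h4 : QQ k f =ᶠ[𝓝 θ₀] (fun θ : ℂ => ((1 / (2 * Real.pi) : ℝ) : ℂ) *
      ∫ t : ℝ, ((‖Lam k f t‖ ^ 2 : ℝ) : ℂ) * cexp (2 * θ * t)) := by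
    filter_upwards [Metric.ball_mem_nhds θ₀ hδ0] with θ hθ
    obtain ⟨hb1, hb2⟩ := hball θ hθ
    exact (qq_formula h (by linarith) (by linarith)).2
  exact (h3.congr_of_eventuallyEq h4).differentiableWithinAt

theorem qho_norm_sq (k : ℕ) (f : ℂ → ℂ) (x θ : ℝ) :
    ‖GG k f (x + θ * I)‖ ^ 2 =
      Real.exp x ^ k * ‖f ((Real.exp x : ℝ) * cexp (θ * I))‖ ^ 2 := by
  unfold GG
  rw [norm_mul, Complex.exp_add, mul_pow, Complex.norm_exp, ← Real.exp_nat_mul,
    ← Real.exp_nat_mul, Complex.ofReal_exp, mul_comm]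
  congr 2
  have : (((k : ℂ) / 2) * (x + θ * I)) = (((k : ℝ) / 2 : ℝ) : ℂ) * (x + θ * I) := by
    push_cast
    ring
  rw [this, Complex.re_ofReal_mul]
  simp
  ring

theorem qho_abs_le_cosh (x : ℝ) : |x| / 2 ≤ Real.cosh x := by
  rw [Real.cosh_eq]
  have h1 := Real.add_one_le_exp x
  have h2 := Real.add_one_le_exp (-x)
  have h3 := Real.exp_pos x
  have h4 := Real.exp_pos (-x)
  rcases le_total 0 x with hx | hx
  · rw [abs_of_nonneg hx]
    linarith
  · rw [abs_of_nonpos hx]
    linarith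

theorem qho_int_gg (h : Frame k N a b f g c M) {θ : ℝ} (h0 : 0 < θ) (h1 : θ < Real.pi) :
    Integrable (fun x : ℝ => ‖GG k f (x + θ * I)‖ ^ 2) := by
  obtain ⟨C, hC0, hC⟩ := gg_decay h
  have hs : 0 < Real.sin θ := Real.sin_pos_of_pos_of_lt_pi h0 h1
  have hN : (0 : ℝ) < N := by exact_mod_cast h.hN
  have hc : 0 < Real.sin θ / N := by positivity
  have hI := (qho_int_exp hc).const_mul ((C * Real.sin θ ^ (-((k : ℝ) / 2))) ^ 2)
  have hcont : Continuous (fun x : ℝ => GG k f (x + θ * I)) := by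
    have h2 := (gg_hol h.fh).continuousOn
    refine h2.comp_continuous (by fun_prop) (fun x => ?_)
    simp only [mem_ofPred_eq, Complex.add_im, Complex.ofReal_im, Complex.mul_im,
      Complex.ofReal_re, Complex.I_im, Complex.I_re]
    constructor
    · linarith
    · linarith
  refine hI.mono' (hcont.norm.pow 2).aestronglyMeasurable (Eventually.of_forall fun x => ?_)
  rw [Real.norm_eq_abs, abs_of_nonneg (sq_nonneg _)]
  have h3 := pow_le_pow_left₀ (norm_nonneg _) (hC x θ h0 h1) 2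
  refine h3.trans ?_
  rw [mul_pow, ← Real.exp_nat_mul]
  apply mul_le_mul_of_nonneg_left _ (sq_nonneg _)
  apply Real.exp_le_exp.mpr
  have h4 := mul_le_mul_of_nonneg_left (qho_abs_le_cosh x) hc.le
  push_cast
  linarith

theorem ff_real_pr (h : Frame k N a b f g c M) {θ : ℝ} (h0 : 0 < θ) (h1 : θ < Real.pi) :
    IntegrableOn (fun r : ℝ => (r * Real.sin θ) ^ k * ‖f (r * cexp (θ * I))‖ ^ 2 / r)
      (Ioi 0) ∧
    FF k f θ = ((∫ r in Ioi (0 : ℝ),
      (r * Real.sin θ) ^ k * ‖f (r * cexp (θ * I))‖ ^ 2 / r : ℝ) : ℂ) := by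
  have him : Real.exp '' univ = Ioi 0 := by rw [image_univ, Real.range_exp]
  have hinj : InjOn Real.exp univ := Real.exp_injective.injOn
  have hder : ∀ x ∈ (univ : Set ℝ), HasDerivWithinAt Real.exp (Real.exp x) univ x :=
    fun x _ => (Real.hasDerivAt_exp x).hasDerivWithinAt
  have heq : ∀ x : ℝ, |Real.exp x| • ((Real.exp x * Real.sin θ) ^ k *
      ‖f ((Real.exp x : ℝ) * cexp (θ * I))‖ ^ 2 / Real.exp x) =
      Real.sin θ ^ k * ‖GG k f (x + θ * I)‖ ^ 2 := by
    intro x
    rw [qho_norm_sq, abs_of_pos (Real.exp_pos x), smul_eq_mul, mul_pow]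
    have := (Real.exp_pos x).ne'
    field_simp
  constructor
  · rw [← him, integrableOn_image_iff_integrableOn_abs_deriv_smul MeasurableSet.univ hder hinj,
      integrableOn_univ]
    have h2 := (qho_int_gg h h0 h1).const_mul (Real.sin θ ^ k)
    exact h2.congr (Eventually.of_forall fun x => (heq x).symm)
  · rw [← him, integral_image_eq_integral_abs_deriv_smul MeasurableSet.univ hder hinj,
      setIntegral_univ]
    simp_rw [heq]
    rw [integral_const_mul]
    unfold FF QQ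
    rw [Complex.ofReal_mul, ← integral_complex_ofReal]
    push_cast
    congr 1
    apply integral_congr_ae
    refine Eventually.of_forall fun x => ?_
    simp only [Complex.conj_ofReal]
    rw [Complex.mul_conj, Complex.normSq_eq_norm_sq, mul_comm I]
    push_cast
    rfl

alias qq_hol := qq_hol_pr

alias ff_real := ff_real_pr

end Pool.Agent.JOF
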