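import Pool.Agent.Lib_helper42.JOF.RED
import Pool.Agent.Lib_helper42.JOF.QHO
import Pool.Agent.Lib_helper42.JOF.RSS
import Pool.Agent.Lib_helper42.JOF.MLB

/-!
# Project JO, part FH: the holomorphic frame, all statements proved

The statements proved in the files of this folder: `par`, `cbs`,
`rs_sum`, `half_decay`, `gg_decay`, `gg_hol`, `lam_line`, `lam_bound`, `lam_cont`, `qq_formula`,
`qq_hol`, `ff_real`, `ll_diff`, `ll_lam`, `ll_series`, `gamma_sq`, `pp_poly`, `pp_nonneg`, `abel`,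
`f2`, `hh_*`, `LT_bound`, `LT_real`, `lt_pos`, `lt_anti`, `off_diag`, `jj_expand`, `jj_diag`,
`qq_split`, `uu_*`, `f3_alg`, `rs_div`, `tt_unbounded`, `f3`, `fh_frame`, `fh_hecke_a`,
`fh_hecke_b`, `conj_form`, `hol_reduction`.
-/
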