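import Pool.Agent.Lib_helper42.JO.FHDefs

/-! Project JO, part FH, block FRH. -/

namespace Pool.Agent.JOF

open Pool.Agent.JO Complex MeasureTheory Filter Topology Set
open scoped ComplexConjugate ContDiff

variable {k N : ℕ} {a b : ℕ → ℂ} {f g : ℂ → ℂ} {c : ℂ} {M : ℝ}

theorem fh_hecke_a_pr [NeZero N] {χ : DirichletCharacter ℂ N}
    {F : CuspForm (CongruenceSubgroup.Gamma1 N) (k : ℤ)} {lam : ℕ → ℂ} (hk : 1 ≤ k)
    (h : IsHolEigenform N k χ F lam) {p : ℕ} (hp : p.Prime) (hpN : (p : ZMod N) = 1)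
    (hpN' : ¬ p ∣ N) :
    HeckeAt k p (ac k lam p) (ac k lam) := by
  intro n
  have hp0 : p ≠ 0 := hp.ne_zero
  have hpr : (0 : ℝ) < p := by exact_mod_cast hp.pos
  rcases Nat.eq_zero_or_pos n with rfl | hn
  · simp [ac]
  · have hm := h.hecke.mul p hp hpN' n hn
    rw [hpN, map_one] at hm
    have hnr : (0 : ℝ) < n := by exact_mod_cast hn
    have e1 : (((p * n : ℕ) : ℝ) ^ (((k : ℝ) - 1) / 2) : ℝ) =
        (p : ℝ) ^ (((k : ℝ) - 1) / 2) * (n : ℝ) ^ (((k : ℝ) - 1) / 2) := by
      rw [Nat.cast_mul, Real.mul_rpow hpr.le hnr.le]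
    have e2 : lam (p * n) = lam p * lam n - (if p ∣ n then 1 * lam (n / p) else 0) := by
      rw [hm, mul_comm n p]
      ring
    rw [ac, if_neg (by positivity), ac, if_neg hp0, ac, if_neg hn.ne', e1, e2]
    split_ifs with hd
    · obtain ⟨m, rfl⟩ := hd
      have hm0 : m ≠ 0 := by
        rintro rfl
        simp at hn
      have hmr : (0 : ℝ) < m := by
        exact_mod_cast Nat.pos_of_ne_zero hm0
      rw [Nat.mul_div_cancel_left _ hp.pos, ac, if_neg hm0]
      have e3 : (((p * m : ℕ) : ℝ) ^ (((k : ℝ) - 1) / 2) : ℝ) =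
          (p : ℝ) ^ (((k : ℝ) - 1) / 2) * (m : ℝ) ^ (((k : ℝ) - 1) / 2) := by
        rw [Nat.cast_mul, Real.mul_rpow hpr.le hmr.le]
      have e4 : ((p : ℝ) ^ (((k : ℝ) - 1) / 2) : ℝ) * (p : ℝ) ^ (((k : ℝ) - 1) / 2) =
          (p : ℝ) ^ (k - 1) := by
        rw [← Real.rpow_add hpr, ← Real.rpow_natCast]
        congr 1
        rw [Nat.cast_sub hk]
        push_cast
        ring
      have e5 : ((((p : ℝ) ^ (((k : ℝ) - 1) / 2) : ℝ)) : ℂ) *
          ((((p : ℝ) ^ (((k : ℝ) - 1) / 2) : ℝ)) : ℂ) = (p : ℂ) ^ (k - 1) := by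
        rw [← Complex.ofReal_mul, e4]
        push_cast
        rfl
      rw [e3, ← e5]
      push_cast
      ring
    · push_cast
      ring

/-- the sum over the `p`-th roots of unity -/
theorem frh_roots {p : ℕ} (hp : 0 < p) (n : ℕ) :
    ∑ j ∈ Finset.range p, cexp (2 * Real.pi * I * n * j / p) = if p ∣ n then (p : ℂ) else 0 := by
  have hpc : (p : ℂ) ≠ 0 := by exact_mod_cast hp.ne'
  have h1 : ∀ j : ℕ, cexp (2 * Real.pi * I * n * j / p) = (cexp (2 * Real.pi * I * n / p)) ^ j := by
    intro j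
    rw [← Complex.exp_nat_mul]
    congr 1
    ring
  simp only [h1]
  have h2 : cexp (2 * Real.pi * I * n / p) = 1 ↔ p ∣ n := by
    rw [Complex.exp_eq_one_iff]
    constructor
    · rintro ⟨m, hm⟩
      have h3 : (n : ℂ) = m * p := by
        have h4 : (2 * (Real.pi : ℂ) * I) ≠ 0 := Complex.two_pi_I_ne_zero
        have h5 : 2 * (Real.pi : ℂ) * I * n = 2 * (Real.pi : ℂ) * I * (m * p) := by
          field_simp at hm
          linear_combination (2 * (Real.pi : ℂ) * I) * hm
        exact mul_left_cancel₀ h4 h5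
      have h6 : (n : ℤ) = m * p := by exact_mod_cast h3
      have h7 : (p : ℤ) ∣ (n : ℤ) := ⟨m, by rw [h6]; ring⟩
      exact_mod_cast h7
    · rintro ⟨m, rfl⟩
      refine ⟨m, ?_⟩
      push_cast
      field_simp
  split_ifs with hd
  · rw [h2.mpr hd]
    simp
  · have h3 : cexp (2 * Real.pi * I * n / p) ≠ 1 := fun h => hd (h2.mp h)
    have h4 := geom_sum_eq h3 p
    rw [h4]
    have h5 : cexp (2 * Real.pi * I * n / p) ^ p = 1 := by
      rw [← Complex.exp_nat_mul, Complex.exp_eq_one_iff]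
      refine ⟨n, ?_⟩
      push_cast
      field_simp
    rw [h5, sub_self, zero_div]

/-- the expansion of `T_p f` -/
theorem frh_expand (h : Half k a f M) {p : ℕ} (hp : 0 < p) {z : ℂ} (hz : 0 < z.im) :
    HasSum (fun n : ℕ => (a (p * n) + (p : ℂ) ^ (k - 1) * (if p ∣ n then a (n / p) else 0)) *
      cexp (2 * Real.pi * I * n * z))
      (∑ j ∈ Finset.range p, f ((z + j) / p) / p + (p : ℂ) ^ (k - 1) * f (p * z)) := by
  have hpc : (p : ℂ) ≠ 0 := by exact_mod_cast hp.ne'
  have hpr : (0 : ℝ) < p := by exact_mod_cast hp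
  have hinj : Function.Injective (fun m : ℕ => p * m) := fun x y hxy =>
    Nat.eq_of_mul_eq_mul_left hp hxy
  -- first part
  have h1 : HasSum (fun n : ℕ => a (p * n) * cexp (2 * Real.pi * I * n * z))
      (∑ j ∈ Finset.range p, f ((z + j) / p) / p) := by
    have h2 : HasSum (fun n : ℕ => ∑ j ∈ Finset.range p,
        a n * cexp (2 * Real.pi * I * n * ((z + j) / p)) / p)
        (∑ j ∈ Finset.range p, f ((z + j) / p) / p) := by
      apply hasSum_sum
      intro j _
      have h3 : 0 < ((z + j) / p).im := by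
        rw [Complex.div_natCast_im]
        apply div_pos _ hpr
        simpa using hz
      exact (h.exp _ h3).div_const _
    have h4 : (fun n : ℕ => ∑ j ∈ Finset.range p,
        a n * cexp (2 * Real.pi * I * n * ((z + j) / p)) / p) =
        fun n : ℕ => if p ∣ n then a n * cexp (2 * Real.pi * I * n * (z / p)) else 0 := by
      funext n
      have h5 : ∀ j : ℕ, a n * cexp (2 * Real.pi * I * n * ((z + j) / p)) / p =
          (a n * cexp (2 * Real.pi * I * n * (z / p)) / p) *
            cexp (2 * Real.pi * I * n * j / p) := by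
        intro j
        have : cexp (2 * Real.pi * I * n * ((z + j) / p)) =
            cexp (2 * Real.pi * I * n * (z / p)) * cexp (2 * Real.pi * I * n * j / p) := by
          rw [← Complex.exp_add]
          congr 1
          ring
        rw [this]
        ring
      simp only [h5]
      rw [← Finset.mul_sum, frh_roots hp]
      split_ifs
      · field_simp
      · rw [mul_zero]
    rw [h4] at h2
    have h6 := (hinj.hasSum_iff (f := fun n : ℕ => if p ∣ n then
      a n * cexp (2 * Real.pi * I * n * (z / p)) else 0) (by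
        intro x hx
        rw [if_neg]
        rintro ⟨m, rfl⟩
        exact hx ⟨m, rfl⟩)).mpr h2
    have e : ((fun n : ℕ => if p ∣ n then a n * cexp (2 * Real.pi * I * n * (z / p)) else 0) ∘
        fun m : ℕ => p * m) = fun n : ℕ => a (p * n) * cexp (2 * Real.pi * I * n * z) := by
      funext n
      simp only [Function.comp]
      rw [if_pos (dvd_mul_right p n)]
      congr 2
      push_cast
      field_simp
    rw [e] at h6
    exact h6
  -- second part
  have h2 : HasSum (fun n : ℕ => (p : ℂ) ^ (k - 1) * (if p ∣ n then a (n / p) else 0) *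
      cexp (2 * Real.pi * I * n * z)) ((p : ℂ) ^ (k - 1) * f (p * z)) := by
    have h3 : 0 < ((p : ℂ) * z).im := by
      rw [Complex.mul_im]
      simp only [Complex.natCast_re, Complex.natCast_im, zero_mul, add_zero]
      exact mul_pos hpr hz
    have h4 := (h.exp _ h3).mul_left ((p : ℂ) ^ (k - 1))
    refine (hinj.hasSum_iff (f := fun n : ℕ => (p : ℂ) ^ (k - 1) *
      (if p ∣ n then a (n / p) else 0) * cexp (2 * Real.pi * I * n * z)) (by
        intro x hx
        rw [if_neg, mul_zero, zero_mul]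
        rintro ⟨m, rfl⟩
        exact hx ⟨m, rfl⟩)).mp ?_
    have e : ((fun n : ℕ => (p : ℂ) ^ (k - 1) * (if p ∣ n then a (n / p) else 0) *
        cexp (2 * Real.pi * I * n * z)) ∘ fun m : ℕ => p * m) =
        fun n : ℕ => (p : ℂ) ^ (k - 1) * (a n * cexp (2 * Real.pi * I * n * (p * z))) := by
      funext n
      simp only [Function.comp]
      rw [if_pos (dvd_mul_right p n), Nat.mul_div_cancel_left _ hp, mul_assoc]
      congr 3
      push_cast
      ring
    rw [e]
    exact h4
  have h3 := h1.add h2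
  have e : (fun n : ℕ => (a (p * n) + (p : ℂ) ^ (k - 1) * (if p ∣ n then a (n / p) else 0)) *
      cexp (2 * Real.pi * I * n * z)) = fun n : ℕ => a (p * n) * cexp (2 * Real.pi * I * n * z) +
      (p : ℂ) ^ (k - 1) * (if p ∣ n then a (n / p) else 0) *
      cexp (2 * Real.pi * I * n * z) := by
    funext n
    ring
  rw [e]
  exact h3

/-- uniqueness of the coefficients -/
theorem frh_unique {D : ℕ → ℂ} (h0 : D 0 = 0)
    (h : ∀ z : ℂ, 0 < z.im → HasSum (fun n : ℕ => D n * cexp (2 * Real.pi * I * n * z)) 0) :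
    ∀ n, D n = 0 := by
  obtain ⟨P, hP⟩ : ∃ P : FormalMultilinearSeries ℂ ℂ ℂ,
      P = FormalMultilinearSeries.ofScalars ℂ D := ⟨_, rfl⟩
  have hcoeff : ∀ n, P.coeff n = D n := by
    intro n
    rw [hP, FormalMultilinearSeries.coeff_ofScalars]
  have hps : HasFPowerSeriesAt (0 : ℂ → ℂ) P 0 := by
    rw [hasFPowerSeriesAt_iff]
    filter_upwards [Metric.ball_mem_nhds (0 : ℂ) one_pos] with q hq
    rw [Pi.zero_apply]
    simp only [hcoeff, smul_eq_mul]
    rcases eq_or_ne q 0 with rfl | hq0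
    · have e : (fun n : ℕ => (0 : ℂ) ^ n * D n) = fun _ => 0 := by
        funext n
        rcases Nat.eq_zero_or_pos n with rfl | hn
        · rw [h0, mul_zero]
        · rw [zero_pow hn.ne', zero_mul]
      rw [e]
      exact hasSum_zero
    · obtain ⟨z, hz⟩ : ∃ z : ℂ, z = Complex.log q / (2 * Real.pi * I) := ⟨_, rfl⟩
      have hzq : cexp (2 * Real.pi * I * z) = q := by
        rw [hz, mul_div_cancel₀ _ Complex.two_pi_I_ne_zero, Complex.exp_log hq0]
      have him : 0 < z.im := by
        have hnorm : ‖q‖ = Real.exp (-(2 * Real.pi * z.im)) := by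
          rw [← hzq, Complex.norm_exp]
          congr 1
          simp
        have hq1 : ‖q‖ < 1 := by simpa using hq
        rw [hnorm, Real.exp_lt_one_iff] at hq1
        have := Real.pi_pos
        nlinarith
      have h2 := h z him
      have e : (fun n : ℕ => D n * cexp (2 * Real.pi * I * n * z)) = fun n : ℕ => q ^ n * D n := by
        funext n
        rw [← hzq, ← Complex.exp_nat_mul, mul_comm]
        congr 2
        ring
      rw [e] at h2
      exact h2
  have hz := hps.eq_zero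
  intro n
  rw [← hcoeff n, hz]
  rfl

/-- `T_p f = ap f` -/
theorem frh_Tp (h : Half k a f M) {p : ℕ} (hp : 0 < p) {ap : ℂ} (ha : HeckeAt k p ap a) {z : ℂ}
    (hz : 0 < z.im) :
    ∑ j ∈ Finset.range p, f ((z + j) / p) / p + (p : ℂ) ^ (k - 1) * f (p * z) = ap * f z := by
  have h1 := frh_expand h hp hz
  have h2 := (h.exp z hz).mul_left ap
  have e : (fun n : ℕ => (a (p * n) + (p : ℂ) ^ (k - 1) * (if p ∣ n then a (n / p) else 0)) *
      cexp (2 * Real.pi * I * n * z)) = fun n : ℕ => ap * (a n * cexp (2 * Real.pi * I * n * z)) := by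
    funext n
    rw [ha n]
    ring
  rw [e] at h1
  exact h1.unique h2

/-- the involution on the residues -/
noncomputable def frh_tau (p N j : ℕ) : ℕ := (-(((N * j : ℕ) : ZMod p))⁻¹ : ZMod p).val

theorem frh_tau_mem {p : ℕ} (hp : p.Prime) (hpN' : ¬ p ∣ N) {j : ℕ} (hj : j ∈ Finset.Ico 1 p) :
    frh_tau p N j ∈ Finset.Ico 1 p := by
  have : Fact p.Prime := ⟨hp⟩
  rw [Finset.mem_Ico] at hj ⊢
  constructor
  · rw [Nat.one_le_iff_ne_zero, frh_tau, Ne, ZMod.val_eq_zero, neg_eq_zero, inv_eq_zero,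
      ZMod.natCast_eq_zero_iff, hp.dvd_mul]
    rintro (h | h)
    · exact hpN' h
    · have := Nat.le_of_dvd (by omega) h
      omega
  · exact ZMod.val_lt _

theorem frh_tau_mul {p : ℕ} (hp : p.Prime) (hpN' : ¬ p ∣ N) {j : ℕ} (hj : j ∈ Finset.Ico 1 p) :
    p ∣ N * j * frh_tau p N j + 1 := by
  have : Fact p.Prime := ⟨hp⟩
  rw [Finset.mem_Ico] at hj
  rw [← ZMod.natCast_eq_zero_iff]
  have hne : ((N * j : ℕ) : ZMod p) ≠ 0 := by
    rw [Ne, ZMod.natCast_eq_zero_iff, hp.dvd_mul]
    rintro (h | h)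
    · exact hpN' h
    · have := Nat.le_of_dvd (by omega) h
      omega
  rw [Nat.cast_add, Nat.cast_mul, frh_tau, ZMod.natCast_zmod_val, Nat.cast_one, mul_neg,
    mul_inv_cancel₀ hne]
  ring

theorem frh_tau_tau {p : ℕ} (hp : p.Prime) (hpN' : ¬ p ∣ N) {j : ℕ} (hj : j ∈ Finset.Ico 1 p) :
    frh_tau p N (frh_tau p N j) = j := by
  have : Fact p.Prime := ⟨hp⟩
  have hN : ((N : ℕ) : ZMod p) ≠ 0 := by
    rw [Ne, ZMod.natCast_eq_zero_iff]
    exact hpN'
  have hjj := hj
  rw [Finset.mem_Ico] at hj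
  have hj0 : ((j : ℕ) : ZMod p) ≠ 0 := by
    rw [Ne, ZMod.natCast_eq_zero_iff]
    intro h
    have := Nat.le_of_dvd (by omega) h
    omega
  have h1 : (((frh_tau p N (frh_tau p N j) : ℕ)) : ZMod p) = j := by
    rw [frh_tau, ZMod.natCast_zmod_val, Nat.cast_mul, frh_tau, ZMod.natCast_zmod_val,
      Nat.cast_mul]
    field_simp
  have h2 := congrArg ZMod.val h1
  rw [ZMod.val_natCast_of_lt (Finset.mem_Ico.mp (frh_tau_mem hp hpN'
    (frh_tau_mem hp hpN' hjj))).2, ZMod.val_natCast_of_lt hj.2] at h2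
  exact h2

theorem fh_hecke_b_pr (h : Frame k N a b f g c M) {p : ℕ} (hp : p.Prime) (hpN : (p : ZMod N) = 1)
    (hpN' : ¬ p ∣ N) {ap : ℂ} (ha : HeckeAt k p ap a) :
    HeckeAt k p ap b := by
  have hpc : (p : ℂ) ≠ 0 := by exact_mod_cast hp.ne_zero
  have hpr : (0 : ℝ) < p := by exact_mod_cast hp.pos
  have hNc : (N : ℂ) ≠ 0 := by
    have := h.hN
    exact_mod_cast (by omega : N ≠ 0)
  have hNr : (0 : ℝ) < N := by exact_mod_cast h.hN
  have hc : c ≠ 0 := by
    rintro rfl
    obtain ⟨z, hz, hfz⟩ := h.nonzero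
    apply hfz
    rw [h.fricke z hz]
    ring
  have hNp : (N : ℤ) ∣ (p : ℤ) - 1 := by
    rw [← CharP.intCast_eq_zero_iff (ZMod N) N]
    push_cast
    rw [hpN, sub_self]
  -- `g` in terms of `f`
  have hgf : ∀ z : ℂ, 0 < z.im → g (-1 / (N * z)) = c⁻¹ * z ^ k * f z := by
    intro z hz
    have hz0 : z ≠ 0 := by
      rintro rfl
      simp at hz
    rw [h.fricke z hz]
    field_simp
  -- imaginary parts
  have him : ∀ z : ℂ, 0 < z.im → 0 < (-1 / (N * z)).im := by
    intro z hz
    have hz0 : z ≠ 0 := by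
      rintro rfl
      simp at hz
    have e : -1 / ((N : ℂ) * z) = -((N : ℂ) * z)⁻¹ := by
      rw [neg_div, one_div]
    have hNz : (N : ℂ) * z ≠ 0 := mul_ne_zero hNc hz0
    have e2 : ((N : ℂ) * z).im = N * z.im := by
      rw [Complex.mul_im]
      simp
    rw [e, Complex.neg_im, Complex.inv_im, e2, neg_div, neg_neg]
    exact div_pos (mul_pos hNr hz) (Complex.normSq_pos.mpr hNz)
  have key : ∀ w : ℂ, 0 < w.im →
      ∑ j ∈ Finset.range p, g ((w + j) / p) / p + (p : ℂ) ^ (k - 1) * g (p * w) = ap * g w := by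
    intro w hw
    have hw0 : w ≠ 0 := by
      rintro rfl
      simp at hw
    obtain ⟨z, hzdef⟩ : ∃ z : ℂ, z = -1 / (N * w) := ⟨_, rfl⟩
    have hz : 0 < z.im := by
      rw [hzdef]
      exact him w hw
    have hz0 : z ≠ 0 := by
      rintro rfl
      simp at hz
    have hwz : (N : ℂ) * w * z = -1 := by
      rw [hzdef]
      field_simp
    have hwz2 : w = -1 / (N * z) := by
      field_simp
      linear_combination hwz
    have g0 : g ((w + (0 : ℕ)) / p) = c⁻¹ * (p * z) ^ k * f (p * z) := by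
      rw [← hgf (p * z) (by
        rw [Complex.mul_im]
        simp only [Complex.natCast_re, Complex.natCast_im, zero_mul, add_zero]
        exact mul_pos hpr hz)]
      congr 1
      rw [hwz2]
      push_cast
      field_simp
      ring
    have gp : g (p * w) = c⁻¹ * (z / p) ^ k * f (z / p) := by
      rw [← hgf (z / p) (by
        rw [Complex.div_natCast_im]
        exact div_pos hz hpr)]
      congr 1
      rw [hwz2]
      field_simp
    have gj : ∀ j ∈ Finset.Ico 1 p, g ((w + (j : ℕ)) / p) =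
        c⁻¹ * z ^ k * f ((z + (frh_tau p N j : ℕ)) / p) := by
      intro j hj
      have hwj : 0 < ((w + (j : ℕ)) / p).im := by
        rw [Complex.div_natCast_im]
        apply div_pos _ hpr
        simpa using hw
      have hwj0 : w + (j : ℕ) ≠ 0 := by
        intro h0
        rw [h0] at hwj
        simp at hwj
      have hne : (1 : ℂ) - N * j * z ≠ 0 := by
        have : (1 : ℂ) - N * j * z = -(N * z * (w + (j : ℕ))) := by
          linear_combination hwz
        rw [this]
        exact neg_ne_zero.mpr (mul_ne_zero (mul_ne_zero hNc hz0) hwj0)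
      obtain ⟨z', hz'⟩ : ∃ z' : ℂ, z' = -1 / (N * ((w + (j : ℕ)) / p)) := ⟨_, rfl⟩
      have hz'im : 0 < z'.im := by
        rw [hz']
        exact him _ hwj
      have hz'2 : z' = p * z / (1 - N * j * z) := by
        rw [hz', div_eq_div_iff _ hne]
        · field_simp
          linear_combination (-1 : ℂ) * hwz
        · exact mul_ne_zero hNc (div_ne_zero hwj0 hpc)
      have hgz' : g ((w + (j : ℕ)) / p) = c⁻¹ * z' ^ k * f z' := by
        rw [← hgf z' hz'im]
        congr 1
        rw [hz']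
        field_simp
      -- the matrix
      obtain ⟨D, hD⟩ := frh_tau_mul hp hpN' hj
      have hDz : (N : ℤ) * j * (frh_tau p N j : ℕ) + 1 = p * D := by exact_mod_cast hD
      have hND : (N : ℤ) ∣ (D : ℤ) - 1 := by
        obtain ⟨e, he⟩ := hNp
        refine ⟨(j : ℤ) * (frh_tau p N j : ℕ) - e * D, ?_⟩
        linear_combination (-(D : ℤ)) * he - hDz
      have hmod := h.modular p (-(frh_tau p N j : ℕ)) (-(N * j)) D
        (by linear_combination -hDz) ⟨-j, by ring⟩ hND
        ((z + (frh_tau p N j : ℕ)) / p) (by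
          rw [Complex.div_natCast_im]
          apply div_pos _ hpr
          simpa using hz)
      have hDc : (N : ℂ) * j * (frh_tau p N j : ℕ) + 1 = p * D := by exact_mod_cast hD
      have hden : (((-(N * j : ℤ) : ℤ)) : ℂ) * ((z + (frh_tau p N j : ℕ)) / p) + ((D : ℤ) : ℂ) =
          (1 - N * j * z) / p := by
        push_cast
        field_simp
        linear_combination -hDc
      have hnum : (((p : ℤ)) : ℂ) * ((z + (frh_tau p N j : ℕ)) / p) +
          (((-(frh_tau p N j : ℕ) : ℤ)) : ℂ) = z := by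
        push_cast
        field_simp
        ring
      rw [hden, hnum] at hmod
      have harg : z / ((1 - N * j * z) / p) = z' := by
        rw [hz'2]
        field_simp
      rw [harg] at hmod
      rw [hgz', hmod, hz'2]
      have haux : ∀ X : ℂ, X ≠ 0 → p * z / X * (X / p) = z := by
        intro X hX
        field_simp
      have : (p * z / (1 - N * j * z)) ^ k * ((1 - N * j * z) / p) ^ k = z ^ k := by
        rw [← mul_pow, haux _ hne]
      calc c⁻¹ * (p * z / (1 - N * j * z)) ^ k * (((1 - N * j * z) / p) ^ k *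
            f ((z + (frh_tau p N j : ℕ)) / p)) =
          c⁻¹ * ((p * z / (1 - N * j * z)) ^ k * ((1 - N * j * z) / p) ^ k) *
            f ((z + (frh_tau p N j : ℕ)) / p) := by ring
        _ = _ := by rw [this]
    -- the sums
    have hS : ∀ F : ℕ → ℂ, ∑ j ∈ Finset.range p, F j = F 0 + ∑ j ∈ Finset.Ico 1 p, F j := by
      intro F
      rw [Finset.range_eq_Ico, Finset.sum_eq_sum_Ico_succ_bot hp.pos]
    have hperm : ∑ j ∈ Finset.Ico 1 p, g ((w + (j : ℕ)) / p) / p =
        ∑ j ∈ Finset.Ico 1 p, c⁻¹ * z ^ k * f ((z + (j : ℕ)) / p) / p := by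
      apply Finset.sum_nbij' (frh_tau p N) (frh_tau p N)
      · exact fun j hj => frh_tau_mem hp hpN' hj
      · exact fun j hj => frh_tau_mem hp hpN' hj
      · exact fun j hj => frh_tau_tau hp hpN' hj
      · exact fun j hj => frh_tau_tau hp hpN' hj
      · intro j hj
        rw [gj j hj]
    have hTf := frh_Tp h.fh hp.pos ha hz
    rw [hS] at hTf
    rw [hS, hperm, g0, gp]
    have hgw : g w = c⁻¹ * z ^ k * f z := by
      rw [← hgf z hz, ← hwz2]
    rw [hgw]
    have e1 : ∑ j ∈ Finset.Ico 1 p, c⁻¹ * z ^ k * f ((z + (j : ℕ)) / p) / p =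
        c⁻¹ * z ^ k * ∑ j ∈ Finset.Ico 1 p, f ((z + (j : ℕ)) / p) / p := by
      rw [Finset.mul_sum]
      apply Finset.sum_congr rfl
      intro j _
      ring
    rw [e1]
    obtain ⟨k', rfl⟩ : ∃ k' : ℕ, k = k' + 1 := ⟨k - 1, by
      have := h.fh.hk
      omega⟩
    simp only [Nat.add_sub_cancel, Nat.cast_zero, add_zero] at hTf ⊢
    have e2 : c⁻¹ * (p * z) ^ (k' + 1) * f (p * z) / p =
        c⁻¹ * z ^ (k' + 1) * ((p : ℂ) ^ k' * f (p * z)) := by
      rw [mul_pow, pow_succ (p : ℂ)]
      field_simp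
    have e3 : (p : ℂ) ^ k' * (c⁻¹ * (z / p) ^ (k' + 1) * f (z / p)) =
        c⁻¹ * z ^ (k' + 1) * (f (z / p) / p) := by
      rw [div_pow, pow_succ (p : ℂ)]
      field_simp
    rw [e2, e3]
    linear_combination (c⁻¹ * z ^ (k' + 1)) * hTf
  have hD : ∀ n : ℕ, (b (p * n) + (p : ℂ) ^ (k - 1) * (if p ∣ n then b (n / p) else 0)) -
      ap * b n = 0 := by
    apply frh_unique (D := fun n : ℕ =>
      (b (p * n) + (p : ℂ) ^ (k - 1) * (if p ∣ n then b (n / p) else 0)) - ap * b n)
    · simp [h.gh.a0]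
    · intro z hz
      have h1 := frh_expand h.gh hp.pos hz
      have h2 := (h.gh.exp z hz).mul_left ap
      rw [key z hz] at h1
      have h3 := h1.sub h2
      rw [sub_self] at h3
      have e : (fun n : ℕ => ((b (p * n) + (p : ℂ) ^ (k - 1) *
          (if p ∣ n then b (n / p) else 0)) - ap * b n) * cexp (2 * Real.pi * I * n * z)) =
          fun n : ℕ => (b (p * n) + (p : ℂ) ^ (k - 1) * (if p ∣ n then b (n / p) else 0)) *
            cexp (2 * Real.pi * I * n * z) - ap * (b n * cexp (2 * Real.pi * I * n * z)) := by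
        funext n
        ring
      rw [e]
      exact h3
  intro n
  have := hD n
  linear_combination this

alias fh_hecke_a := fh_hecke_a_pr

alias fh_hecke_b := fh_hecke_b_pr

end Pool.Agent.JOF
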