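import Pool.Agent.Lib_helper42.JO.FHDefs

/-!
# Project JO, part FH, block FRM: from Mathlib cusp forms to frames
-/

namespace Pool.Agent.JOF

open Pool.Agent.JO Complex MeasureTheory Filter Topology Set
open scoped ComplexConjugate ContDiff

variable {k N : ℕ}

section frm

open UpperHalfPlane hiding I
open scoped MatrixGroups Manifold

theorem frm_of {F : ℍ → ℂ} {z : ℂ} (hz : 0 < z.im) : fc F z = F ⟨z, hz⟩ := by
  unfold fc
  rw [ofComplex_apply_of_im_pos hz]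

theorem frm_coe {F : ℍ → ℂ} (τ : ℍ) : fc F (τ : ℂ) = F τ := by
  unfold fc
  rw [ofComplex_apply]

theorem frm_modular [NeZero N] {χ : DirichletCharacter ℂ N}
    {F : CuspForm (CongruenceSubgroup.Gamma1 N) (k : ℤ)} {lam : ℕ → ℂ}
    (h : IsHolEigenform N k χ F lam) (A B C D : ℤ) (hdet : A * D - B * C = 1)
    (hC : (N : ℤ) ∣ C) (hD : (N : ℤ) ∣ D - 1) (z : ℂ) (hz : 0 < z.im) :
    fc F ((A * z + B) / (C * z + D)) = (C * z + D) ^ k * fc F z := by
  set γ : SL(2, ℤ) := ⟨!![A, B; C, D], by rw [Matrix.det_fin_two_of, hdet]⟩ with hγ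
  have h1 := h.nebentypus γ (by simpa [hγ] using hC) ⟨z, hz⟩
  have e10 : γ 1 0 = C := by simp [hγ]
  have e11 : γ 1 1 = D := by simp [hγ]
  have e00 : γ 0 0 = A := by simp [hγ]
  have e01 : γ 0 1 = B := by simp [hγ]
  have hχ : ((γ 1 1 : ℤ) : ZMod N) = 1 := by
    rw [e11]
    have := (ZMod.intCast_eq_intCast_iff_dvd_sub 1 D N).2 hD
    rw [← this]
    simp
  have hden : denom γ (⟨z, hz⟩ : ℍ) = C * z + D := by
    rw [ModularGroup.denom_apply, e10, e11]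
  rw [hχ, map_one, one_mul, hden] at h1
  have hcoe : ((γ • (⟨z, hz⟩ : ℍ) : ℍ) : ℂ) = (A * z + B) / (C * z + D) := by
    rw [UpperHalfPlane.coe_specialLinearGroup_apply]
    simp [e00, e01, e10, e11]
  rw [← hcoe, frm_coe, h1, frm_of hz]

theorem frm_hol (F : CuspForm (CongruenceSubgroup.Gamma1 N) (k : ℤ)) :
    DifferentiableOn ℂ (fc F) {z : ℂ | 0 < z.im} :=
  UpperHalfPlane.mdifferentiable_iff.mp F.holo'

theorem frm_im {z : ℂ} (hN : 1 ≤ N) :
    (-1 / ((N : ℂ) * z)).im = z.im / (N * ‖z‖ ^ 2) := by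
  have hN' : (0 : ℝ) < N := by exact_mod_cast hN
  have hN2 : (N : ℂ) ≠ 0 := by exact_mod_cast hN'.ne'
  have e : (-1 / ((N : ℂ) * z)) = (((N : ℝ)⁻¹ : ℝ) : ℂ) * (-z⁻¹) := by
    push_cast
    rw [neg_div, one_div, mul_inv]
    ring
  rw [e, Complex.im_ofReal_mul, Complex.neg_im, Complex.inv_im, Complex.normSq_eq_norm_sq]
  field_simp

theorem frm_im_pos {z : ℂ} (hz : 0 < z.im) (hN : 1 ≤ N) : 0 < (-1 / ((N : ℂ) * z)).im := by
  rw [frm_im hN]
  have hN' : (0 : ℝ) < N := by exact_mod_cast hN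
  have hz0 : z ≠ 0 := by
    rintro rfl
    simp at hz
  have := norm_pos_iff.2 hz0
  positivity

/-- the Fricke image -/
noncomputable def frm_g (k N : ℕ) (F : ℍ → ℂ) (z : ℂ) : ℂ :=
  (((N : ℂ) * z) ^ k)⁻¹ * fc F (-1 / (N * z))

theorem frm_g_hol (F : CuspForm (CongruenceSubgroup.Gamma1 N) (k : ℤ)) (hN : 1 ≤ N) :
    DifferentiableOn ℂ (frm_g k N F) {z : ℂ | 0 < z.im} := by
  have hN2 : (N : ℂ) ≠ 0 := by exact_mod_cast (by omega : N ≠ 0)
  have hz0 : ∀ z ∈ {z : ℂ | 0 < z.im}, (N : ℂ) * z ≠ 0 := by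
    intro z hz
    refine mul_ne_zero hN2 ?_
    rintro rfl
    simp at hz
  unfold frm_g
  refine DifferentiableOn.mul ?_ ?_
  · refine DifferentiableOn.inv (by fun_prop) ?_
    intro z hz
    exact pow_ne_zero _ (hz0 z hz)
  · refine (frm_hol F).comp ?_ ?_
    · refine DifferentiableOn.div (by fun_prop) (by fun_prop) hz0
    · intro z hz
      exact frm_im_pos hz hN

theorem frm_bd (F : CuspForm (CongruenceSubgroup.Gamma1 N) (k : ℤ)) [NeZero N] :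
    ∃ M : ℝ, 0 ≤ M ∧ ∀ z : ℂ, 0 < z.im → ‖fc F z‖ ≤ M * z.im ^ (-((k : ℝ) / 2)) := by
  obtain ⟨C, hC⟩ := CuspFormClass.exists_bound F
  refine ⟨|C|, abs_nonneg _, ?_⟩
  intro z hz
  have h1 := hC ⟨z, hz⟩
  rw [frm_of hz, Real.rpow_neg hz.le, ← div_eq_mul_inv]
  refine h1.trans ?_
  have h2 : (UpperHalfPlane.im ⟨z, hz⟩) = z.im := rfl
  rw [h2]
  have h3 : (((k : ℤ) : ℝ) / 2) = (k : ℝ) / 2 := by push_cast; rfl
  rw [h3]
  gcongr
  exact le_abs_self C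

theorem frm_g_bd (F : CuspForm (CongruenceSubgroup.Gamma1 N) (k : ℤ)) [NeZero N] :
    ∃ M : ℝ, 0 ≤ M ∧ ∀ z : ℂ, 0 < z.im → ‖frm_g k N F z‖ ≤ M * z.im ^ (-((k : ℝ) / 2)) := by
  obtain ⟨M, hM0, hM⟩ := frm_bd F
  have hN : 1 ≤ N := Nat.one_le_iff_ne_zero.2 (NeZero.ne N)
  have hN' : (0 : ℝ) < N := by exact_mod_cast hN
  refine ⟨M * (N : ℝ) ^ (-((k : ℝ) / 2)), by positivity, ?_⟩
  intro z hz
  have hz0 : z ≠ 0 := by
    rintro rfl
    simp at hz
  have hzn : 0 < ‖z‖ := norm_pos_iff.2 hz0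
  have h1 := hM _ (frm_im_pos hz hN)
  unfold frm_g
  rw [norm_mul, norm_inv, norm_pow, norm_mul, Complex.norm_natCast]
  rw [frm_im hN] at h1
  have h2 : (z.im / (N * ‖z‖ ^ 2)) ^ (-((k : ℝ) / 2)) =
      z.im ^ (-((k : ℝ) / 2)) * (N : ℝ) ^ ((k : ℝ) / 2) * ‖z‖ ^ k := by
    rw [Real.div_rpow hz.le (by positivity), Real.mul_rpow hN'.le (by positivity),
      Real.rpow_neg (by positivity : (0:ℝ) ≤ N), Real.rpow_neg (by positivity : (0:ℝ) ≤ ‖z‖ ^ 2),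
      ← Real.rpow_natCast ‖z‖ 2, ← Real.rpow_mul hzn.le, ← Real.rpow_natCast ‖z‖ k]
    have : ((2 : ℕ) : ℝ) * ((k : ℝ) / 2) = k := by push_cast; ring
    rw [this]
    rw [div_eq_mul_inv, mul_inv, inv_inv, inv_inv]
    ring
  rw [h2] at h1
  calc ((N * ‖z‖) ^ k)⁻¹ * ‖fc F (-1 / (N * z))‖
      ≤ ((N * ‖z‖) ^ k)⁻¹ * (M * (z.im ^ (-((k : ℝ) / 2)) * (N : ℝ) ^ ((k : ℝ) / 2) * ‖z‖ ^ k)) := by
        gcongr
    _ = M * (N : ℝ) ^ (-((k : ℝ) / 2)) * z.im ^ (-((k : ℝ) / 2)) := by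
        have h3 : (N : ℝ) ^ (-((k : ℝ) / 2)) = ((N : ℝ) ^ k)⁻¹ * (N : ℝ) ^ ((k : ℝ) / 2) := by
          rw [← Real.rpow_natCast (N : ℝ) k, ← Real.rpow_neg hN'.le, ← Real.rpow_add hN']
          congr 1
          ring
        rw [h3, mul_pow]
        field_simp

theorem frm_g_per [NeZero N] {χ : DirichletCharacter ℂ N}
    {F : CuspForm (CongruenceSubgroup.Gamma1 N) (k : ℤ)} {lam : ℕ → ℂ}
    (h : IsHolEigenform N k χ F lam) {z : ℂ} (hz : 0 < z.im) :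
    frm_g k N F (z + 1) = frm_g k N F z := by
  have hN : 1 ≤ N := Nat.one_le_iff_ne_zero.2 (NeZero.ne N)
  have hN2 : (N : ℂ) ≠ 0 := by exact_mod_cast (by omega : N ≠ 0)
  have hz0 : z ≠ 0 := by
    rintro rfl
    simp at hz
  have hz1 : z + 1 ≠ 0 := by
    intro h0
    have : (z + 1).im = 0 := by rw [h0]; simp
    simp at this
    linarith
  have h1 := frm_modular h 1 0 (-N) 1 (by ring) (by simp) (by simp)
    (-1 / (N * z)) (frm_im_pos hz hN)
  push_cast at h1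
  have h2 : -(N : ℂ) * (-1 / (N * z)) + 1 = (z + 1) / z := by
    field_simp
    ring
  have h3 : (1 * (-1 / (N * z)) + 0) / ((z + 1) / z) = -1 / ((N : ℂ) * (z + 1)) := by
    field_simp
    ring
  rw [h2, h3] at h1
  unfold frm_g
  rw [h1, div_pow, mul_pow, mul_pow]
  field_simp

theorem frm_q (n : ℕ) (τ : ℂ) :
    Function.Periodic.qParam 1 τ ^ n = cexp (2 * Real.pi * I * n * τ) := by
  unfold Function.Periodic.qParam
  rw [← Complex.exp_nat_mul]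
  congr 1
  push_cast
  ring

theorem frm_g_exp [NeZero N] {χ : DirichletCharacter ℂ N}
    {F : CuspForm (CongruenceSubgroup.Gamma1 N) (k : ℤ)} {lam : ℕ → ℂ} (hk : 1 ≤ k)
    (h : IsHolEigenform N k χ F lam) :
    ∃ b : ℕ → ℂ, b 0 = 0 ∧ ∀ z : ℂ, 0 < z.im →
      HasSum (fun n : ℕ => b n * cexp (2 * Real.pi * I * n * z)) (frm_g k N F z) := by
  have hN : 1 ≤ N := Nat.one_le_iff_ne_zero.2 (NeZero.ne N)
  set G : ℍ → ℂ := fun τ => frm_g k N F τ with hG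
  have hGof : ∀ z : ℂ, 0 < z.im → (G ∘ ofComplex) z = frm_g k N F z := by
    intro z hz
    simp only [Function.comp_apply, hG]
    rw [ofComplex_apply_of_im_pos hz]
  have hper : Function.Periodic (G ∘ ofComplex) ((1 : ℝ) : ℂ) := by
    intro w
    by_cases hw : 0 < w.im
    · have h2 : 0 < (w + ((1 : ℝ) : ℂ)).im := by simpa using hw
      rw [hGof _ h2, hGof _ hw]
      push_cast
      exact frm_g_per h hw
    · have h2 : (w + ((1 : ℝ) : ℂ)).im ≤ 0 := by simpa using hw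
      have h3 : w.im ≤ 0 := not_lt.1 hw
      simp only [Function.comp_apply]
      rw [ofComplex_apply_of_im_nonpos h2, ofComplex_apply_of_im_nonpos h3]
  have hhol : MDiff G := by
    rw [UpperHalfPlane.mdifferentiable_iff]
    refine (frm_g_hol F hN).congr ?_
    intro z hz
    exact hGof z hz
  have hzero : IsZeroAtImInfty G := by
    rw [UpperHalfPlane.isZeroAtImInfty_iff]
    intro ε hε
    obtain ⟨M, hM0, hM⟩ := frm_g_bd F (N := N)
    have hk' : (0 : ℝ) < (k : ℝ) / 2 := by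
      have : (1 : ℝ) ≤ k := by exact_mod_cast hk
      linarith
    have ht : Tendsto (fun x : ℝ => M * x ^ (-((k : ℝ) / 2))) atTop (𝓝 0) := by
      simpa using (tendsto_rpow_neg_atTop hk').const_mul M
    obtain ⟨A, hA⟩ := Filter.eventually_atTop.1 (ht.eventually (ge_mem_nhds hε))
    refine ⟨A, fun τ hτ => ?_⟩
    exact (hM τ τ.im_pos).trans (hA _ hτ)
  have hbdd : IsBoundedAtImInfty G := hzero.isBoundedAtImInfty
  refine ⟨fun n => (qExpansion 1 G).coeff n, ?_, ?_⟩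
  · have h1 := qExpansion_coeff_zero (h := 1) one_pos
      (analyticAt_cuspFunction_zero one_pos hper hhol hbdd) hper
    have h2 := hzero.valueAtInfty_eq_zero
    show (qExpansion 1 G).coeff 0 = 0
    rw [h1, h2]
  · intro z hz
    have h1 := hasSum_qExpansion one_pos hper hhol hbdd ⟨z, hz⟩
    have h2 : G ⟨z, hz⟩ = frm_g k N F z := rfl
    rw [h2] at h1
    refine h1.congr_fun ?_
    intro n
    rw [frm_q, smul_eq_mul]

theorem frm_f_exp [NeZero N] {χ : DirichletCharacter ℂ N}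
    {F : CuspForm (CongruenceSubgroup.Gamma1 N) (k : ℤ)} {lam : ℕ → ℂ}
    (h : IsHolEigenform N k χ F lam) (z : ℂ) (hz : 0 < z.im) :
    HasSum (fun n : ℕ => ac k lam n * cexp (2 * Real.pi * I * n * z)) (fc F z) := by
  have h1 := h.expansion ⟨z, hz⟩
  rw [frm_of hz]
  rw [← hasSum_nat_add_iff' 1]
  have h0 : ac k lam 0 = 0 := by simp [ac]
  simp only [Finset.range_one, Finset.sum_singleton, h0, zero_mul, sub_zero]
  refine h1.congr_fun ?_
  intro n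
  unfold ac
  rw [if_neg (Nat.succ_ne_zero n)]
  push_cast
  rfl

theorem frm_nonzero [NeZero N] {χ : DirichletCharacter ℂ N}
    {F : CuspForm (CongruenceSubgroup.Gamma1 N) (k : ℤ)} {lam : ℕ → ℂ}
    (h : IsHolEigenform N k χ F lam) : ∃ z : ℂ, 0 < z.im ∧ fc F z ≠ 0 := by
  by_contra hcon
  push Not at hcon
  have hΓ : (1 : ℝ) ∈ (Subgroup.map (Matrix.SpecialLinearGroup.mapGL ℝ)
      (CongruenceSubgroup.Gamma1 N)).strictPeriods := by
    rw [CongruenceSubgroup.strictPeriods_Gamma1]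
    exact AddSubgroup.mem_zmultiples 1
  have h1 : ∀ τ : ℍ, HasSum (fun m => ac k lam m • Function.Periodic.qParam 1 τ ^ m) (F τ) := by
    intro τ
    have := frm_f_exp h τ τ.im_pos
    rw [frm_coe] at this
    refine this.congr_fun ?_
    intro n
    rw [frm_q, smul_eq_mul]
  have h2 : ∀ τ : ℍ, HasSum (fun m => (fun _ : ℕ => (0 : ℂ)) m •
      Function.Periodic.qParam 1 τ ^ m) (F τ) := by
    intro τ
    have h3 := hcon τ τ.im_pos
    rw [frm_coe] at h3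
    rw [h3]
    simp
  have e1 := ModularFormClass.qExpansion_coeff_unique one_pos hΓ h1 1
  have e2 := ModularFormClass.qExpansion_coeff_unique one_pos hΓ h2 1
  rw [← e2] at e1
  unfold ac at e1
  simp [h.hecke.one] at e1

end frm

variable {a b : ℕ → ℂ} {f g : ℂ → ℂ} {c : ℂ} {M : ℝ}

/-- block FRM: `g z = (N z)^{-k} f(-1/(N z))`, `c = (-1)^k` -/
theorem fh_frame_pr [NeZero N] {χ : DirichletCharacter ℂ N}
    {F : CuspForm (CongruenceSubgroup.Gamma1 N) (k : ℤ)} {lam : ℕ → ℂ} (hk : 1 ≤ k)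
    (h : IsHolEigenform N k χ F lam) :
    ∃ (b : ℕ → ℂ) (g : ℂ → ℂ) (M : ℝ),
      (∀ z : ℂ, 0 < z.im → g z = ((N * z) ^ k)⁻¹ * fc F (-1 / (N * z))) ∧
      Frame k N (ac k lam) b (fc F) g ((-1) ^ k) M := by
  have hN : 1 ≤ N := Nat.one_le_iff_ne_zero.2 (NeZero.ne N)
  have hN2 : (N : ℂ) ≠ 0 := by exact_mod_cast (by omega : N ≠ 0)
  obtain ⟨b, hb0, hb⟩ := frm_g_exp hk h
  obtain ⟨M₁, hM₁0, hM₁⟩ := frm_bd F (N := N)
  obtain ⟨M₂, hM₂0, hM₂⟩ := frm_g_bd F (N := N)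
  refine ⟨b, frm_g k N F, max M₁ M₂, fun z _ => rfl, ?_⟩
  have hbd : ∀ M : ℝ, M ≤ max M₁ M₂ → ∀ u : ℂ → ℂ,
      (∀ z : ℂ, 0 < z.im → ‖u z‖ ≤ M * z.im ^ (-((k : ℝ) / 2))) →
      ∀ z : ℂ, 0 < z.im → ‖u z‖ ≤ max M₁ M₂ * z.im ^ (-((k : ℝ) / 2)) := by
    intro M hM u hu z hz
    refine (hu z hz).trans ?_
    have : 0 ≤ z.im ^ (-((k : ℝ) / 2)) := Real.rpow_nonneg hz.le _
    gcongr
  refine ⟨hN, ⟨hk, ?_, frm_hol F, frm_f_exp h, hbd M₁ (le_max_left _ _) _ hM₁⟩,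
    ⟨hk, hb0, frm_g_hol F hN, hb, hbd M₂ (le_max_right _ _) _ hM₂⟩, ?_, frm_modular h,
    frm_nonzero h⟩
  · simp [ac]
  · intro z hz
    have hz0 : z ≠ 0 := by
      rintro rfl
      simp at hz
    unfold frm_g
    have e1 : (N : ℂ) * (-1 / (N * z)) = -1 / z := by
      field_simp
    have e2 : -1 / (-1 / z) = z := by
      field_simp
    rw [e1, e2, div_pow, inv_div]
    have e3 : ((-1 : ℂ) ^ k) ≠ 0 := pow_ne_zero _ (by norm_num)
    field_simp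

alias fh_frame := fh_frame_pr

end Pool.Agent.JOF
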