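import Pool.Agent.Lib_helper42.JO.FHDefs
import Pool.Agent.Lib_helper42.JOF.RSS

namespace Pool.Agent.JOF

open Pool.Agent.JO Complex MeasureTheory Filter Topology Set

open scoped ComplexConjugate

variable {k N : ℕ} {a b : ℕ → ℂ} {f g : ℂ → ℂ} {c : ℂ} {M : ℝ}

theorem huu_s (h : Half k a f M) : Summable (fun n : ℕ => ‖a n‖ ^ 2 * ((1 + (n : ℝ)) ^ (k + 1))⁻¹) := by
  obtain ⟨C, -, hC⟩ := rs_sum h (σ := ((k + 1 : ℕ) : ℝ)) (by push_cast; linarith)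
  have h1 := (hC 1 one_pos).1
  refine h1.congr fun n => ?_
  rw [one_mul, Real.rpow_neg (by positivity), Real.rpow_natCast]

theorem huu_sq (h : Half k a f M) {q : ℕ} (hq : 1 ≤ q) :
    Summable (fun n : ℕ => ‖a (q * n)‖ ^ 2 * ((1 + ((q * n : ℕ) : ℝ)) ^ (k + 1))⁻¹) := by
  have hinj : Function.Injective (fun n : ℕ => q * n) := fun x y hxy => Nat.eq_of_mul_eq_mul_left (by omega) hxy
  exact (huu_s h).comp_injective hinj

theorem huu_pow {n : ℕ} (hn : 1 ≤ n) (k : ℕ) : (((n : ℝ)) ^ (k + 1))⁻¹ ≤ 2 ^ (k + 1) * ((1 + (n : ℝ)) ^ (k + 1))⁻¹ := by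
  have hn1 : (1 : ℝ) ≤ n := by exact_mod_cast hn
  have h1 : (1 + (n : ℝ)) ^ (k + 1) ≤ 2 ^ (k + 1) * (n : ℝ) ^ (k + 1) := by
    rw [← mul_pow]
    exact pow_le_pow_left₀ (by linarith) (by linarith) _
  have h2 : 0 < (1 + (n : ℝ)) ^ (k + 1) := by positivity
  have h3 : 0 < (n : ℝ) ^ (k + 1) := by positivity
  rw [← div_eq_mul_inv, inv_eq_one_div, div_le_div_iff₀ h3 h2]
  linarith

theorem huu_L {L : ℝ → ℝ} {C : ℝ} (hC : ∀ X : ℝ, 0 < X → |L X| ≤ C * (X ^ (k + 1))⁻¹) {X : ℝ} (hX : 0 < X)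
    {n : ℕ} (hn : 1 ≤ n) : |L (n * X)| ≤ |C| * (X ^ (k + 1))⁻¹ * ((n : ℝ) ^ (k + 1))⁻¹ := by
  have hn1 : (0 : ℝ) < n := by exact_mod_cast hn
  refine (hC _ (mul_pos hn1 hX)).trans ?_
  rw [mul_pow, mul_inv]
  have h1 : 0 < (X ^ (k + 1))⁻¹ := by positivity
  have h2 : 0 < ((n : ℝ) ^ (k + 1))⁻¹ := by positivity
  calc C * (((n : ℝ) ^ (k + 1))⁻¹ * (X ^ (k + 1))⁻¹) ≤ |C| * (((n : ℝ) ^ (k + 1))⁻¹ * (X ^ (k + 1))⁻¹) :=
        mul_le_mul_of_nonneg_right (le_abs_self C) (by positivity)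
    _ = _ := by ring

/-- block HUU -/
theorem uu_summable_pr (h : Half k a f M) {L : ℝ → ℝ}
    (hL : ∃ C : ℝ, ∀ X : ℝ, 0 < X → |L X| ≤ C * (X ^ (k + 1))⁻¹) {q : ℕ} (hq : 1 ≤ q)
    {X : ℝ} (hX : 0 < X) :
    Summable (fun n : ℕ => ‖a n‖ ^ 2 * L (n * X)) ∧
      Summable (fun n : ℕ => a (q * n) * conj (a n) * (L (n * X) : ℂ)) := by
  obtain ⟨C, hC⟩ := hL
  set D : ℝ := |C| * (X ^ (k + 1))⁻¹ with hD
  have hD0 : 0 ≤ D := by rw [hD]; positivity
  constructor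
  · refine Summable.of_norm_bounded ((huu_s h).mul_left (D * 2 ^ (k + 1))) fun n => ?_
    rcases Nat.eq_zero_or_pos n with hn | hn
    · subst hn
      rw [h.a0]
      simp
    · rw [norm_mul, Real.norm_of_nonneg (by positivity), Real.norm_eq_abs]
      have h1 := huu_L (k := k) hC hX hn
      have h2 := huu_pow hn k
      calc ‖a n‖ ^ 2 * |L (n * X)| ≤ ‖a n‖ ^ 2 * (D * (2 ^ (k + 1) * ((1 + (n : ℝ)) ^ (k + 1))⁻¹)) :=
            mul_le_mul_of_nonneg_left (h1.trans (mul_le_mul_of_nonneg_left h2 hD0)) (by positivity)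
        _ = _ := by ring
  · have hs := ((huu_s h).mul_left (D * 2 ^ (k + 1))).add
      (((huu_sq h hq).mul_left ((q : ℝ) ^ (k + 1))).mul_left (D * 2 ^ (k + 1)))
    refine Summable.of_norm_bounded hs fun n => ?_
    rcases Nat.eq_zero_or_pos n with hn | hn
    · subst hn
      rw [h.a0]
      simp
      positivity
    · rw [norm_mul, norm_mul, Complex.norm_conj, Complex.norm_real, Real.norm_eq_abs]
      have h1 := huu_L (k := k) hC hX hn
      have h2 := huu_pow hn k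
      have hqn : 1 ≤ q * n := Nat.mul_pos hq hn
      have h3 := huu_pow hqn k
      have h4 : ((n : ℝ) ^ (k + 1))⁻¹ = (q : ℝ) ^ (k + 1) * (((q * n : ℕ) : ℝ) ^ (k + 1))⁻¹ := by
        have hq0 : (q : ℝ) ≠ 0 := by positivity
        have hn0 : (n : ℝ) ≠ 0 := by positivity
        push_cast
        rw [mul_pow]
        field_simp
      have h5 : ‖a (q * n)‖ * ‖a n‖ ≤ ‖a n‖ ^ 2 + ‖a (q * n)‖ ^ 2 := by
        nlinarith [sq_nonneg (‖a (q * n)‖ - ‖a n‖), sq_nonneg (‖a (q * n)‖), sq_nonneg (‖a n‖)]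
      calc ‖a (q * n)‖ * ‖a n‖ * |L (n * X)|
          ≤ (‖a n‖ ^ 2 + ‖a (q * n)‖ ^ 2) * (D * ((n : ℝ) ^ (k + 1))⁻¹) :=
            mul_le_mul h5 h1 (abs_nonneg _) (by positivity)
        _ = ‖a n‖ ^ 2 * (D * ((n : ℝ) ^ (k + 1))⁻¹) + ‖a (q * n)‖ ^ 2 * (D * ((q : ℝ) ^ (k + 1) * (((q * n : ℕ) : ℝ) ^ (k + 1))⁻¹)) := by
            rw [add_mul, ← h4]
        _ ≤ ‖a n‖ ^ 2 * (D * (2 ^ (k + 1) * ((1 + (n : ℝ)) ^ (k + 1))⁻¹)) + ‖a (q * n)‖ ^ 2 * (D * ((q : ℝ) ^ (k + 1) *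
            (2 ^ (k + 1) * ((1 + ((q * n : ℕ) : ℝ)) ^ (k + 1))⁻¹))) := by
            refine add_le_add ?_ ?_
            · exact mul_le_mul_of_nonneg_left (mul_le_mul_of_nonneg_left h2 hD0) (by positivity)
            · exact mul_le_mul_of_nonneg_left (mul_le_mul_of_nonneg_left
                (mul_le_mul_of_nonneg_left h3 (by positivity)) hD0) (by positivity)
        _ = _ := by ring

/-- block HUU -/
theorem uu_hecke_pr (h : Half k a f M) {p : ℕ} (hp : 1 ≤ p) {ap : ℂ} (ha : HeckeAt k p ap a)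
    {L : ℝ → ℝ} (hL : ∃ C : ℝ, ∀ X : ℝ, 0 < X → |L X| ≤ C * (X ^ (k + 1))⁻¹)
    {X : ℝ} (hX : 0 < X) :
    UU L p a X = ap * TT L a X - (p : ℂ) ^ (k - 1) * conj (UU L p a (p * X)) := by
  have hp0 : (0 : ℝ) < p := by exact_mod_cast hp
  have h1 := (uu_summable_pr h hL hp hX).1
  have h2 := (uu_summable_pr h hL hp (mul_pos hp0 hX)).2
  have hinj : Function.Injective (fun n : ℕ => p * n) := fun x y hxy => Nat.eq_of_mul_eq_mul_left (by omega) hxy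
  set F : ℕ → ℂ := fun n => (if p ∣ n then a (n / p) else 0) * conj (a n) * (L (n * X) : ℂ) with hF
  have hFc : ∀ n, F (p * n) = conj (a (p * n) * conj (a n) * (L (n * (p * X)) : ℂ)) := by
    intro n
    simp only [hF]
    rw [if_pos (dvd_mul_right p n), Nat.mul_div_cancel_left n (by omega)]
    rw [map_mul, map_mul, Complex.conj_conj, Complex.conj_ofReal]
    have : ((p * n : ℕ) : ℝ) * X = n * (p * X) := by push_cast; ring
    rw [this]
    ring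
  have hFr : Function.support F ⊆ Set.range (fun n : ℕ => p * n) := by
    intro n hn
    rw [Function.mem_support] at hn
    by_contra hc
    apply hn
    simp only [hF]
    rw [if_neg, zero_mul, zero_mul]
    rintro ⟨m, hm⟩
    exact hc ⟨m, hm.symm⟩
  have hFs : Summable F := by
    rw [← hinj.summable_iff (fun n hn => by
      by_contra hc
      exact hn (hFr hc))]
    have := (Complex.conjCLE.summable).2 h2
    refine this.congr fun n => ?_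
    rw [Function.comp_apply, hFc]
    rfl
  have hFt : ∑' n, F n = conj (UU L p a (p * X)) := by
    rw [← hinj.tsum_eq hFr]
    unfold UU
    rw [Complex.conj_tsum]
    exact tsum_congr fun n => hFc n
  have h3 : Summable (fun n : ℕ => ((‖a n‖ ^ 2 * L (n * X) : ℝ) : ℂ)) := Complex.ofRealCLM.summable h1
  have h4 : ((TT L a X : ℝ) : ℂ) = ∑' n : ℕ, ((‖a n‖ ^ 2 * L (n * X) : ℝ) : ℂ) := by
    unfold TT
    rw [Complex.ofReal_tsum]
  rw [h4, ← hFt, ← tsum_mul_left, ← tsum_mul_left, ← (h3.mul_left ap).tsum_sub (hFs.mul_left _)]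
  unfold UU
  refine tsum_congr fun n => ?_
  rw [ha n]
  simp only [hF]
  have h5 : a n * conj (a n) = ((‖a n‖ ^ 2 : ℝ) : ℂ) := by
    rw [Complex.mul_conj, Complex.normSq_eq_norm_sq]
  have h6 : ((‖a n‖ ^ 2 * L (n * X) : ℝ) : ℂ) = a n * conj (a n) * (L (n * X) : ℂ) := by
    rw [h5]; push_cast; ring
  rw [h6]
  ring

/-- block HUU -/
theorem uu_hecke2_pr (h : Half k a f M) {p : ℕ} (hp : 1 ≤ p) {ap : ℂ} (ha : HeckeAt k p ap a)
    {L : ℝ → ℝ} (hL : ∃ C : ℝ, ∀ X : ℝ, 0 < X → |L X| ≤ C * (X ^ (k + 1))⁻¹)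
    {X : ℝ} (hX : 0 < X) :
    UU L (p ^ 2) a X = ap * UU L p a X - (p : ℂ) ^ (k - 1) * TT L a X := by
  have h1 := uu_summable_pr h hL hp hX
  have h3 : Summable (fun n : ℕ => ((‖a n‖ ^ 2 * L (n * X) : ℝ) : ℂ)) := Complex.ofRealCLM.summable h1.1
  have h4 : ((TT L a X : ℝ) : ℂ) = ∑' n : ℕ, ((‖a n‖ ^ 2 * L (n * X) : ℝ) : ℂ) := by
    unfold TT
    rw [Complex.ofReal_tsum]
  rw [h4]
  unfold UU
  rw [← tsum_mul_left, ← tsum_mul_left, ← (h1.2.mul_left ap).tsum_sub (h3.mul_left _)]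
  refine tsum_congr fun n => ?_
  have e : p ^ 2 * n = p * (p * n) := by ring
  rw [e, ha (p * n), if_pos (dvd_mul_right p n), Nat.mul_div_cancel_left n (by omega)]
  have h5 : a n * conj (a n) = ((‖a n‖ ^ 2 : ℝ) : ℂ) := by
    rw [Complex.mul_conj, Complex.normSq_eq_norm_sq]
  have h6 : ((‖a n‖ ^ 2 * L (n * X) : ℝ) : ℂ) = a n * conj (a n) * (L (n * X) : ℂ) := by
    rw [h5]; push_cast; ring
  rw [h6]
  ring

alias uu_summable := uu_summable_pr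

alias uu_hecke := uu_hecke_pr

alias uu_hecke2 := uu_hecke2_pr

end Pool.Agent.JOF
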