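import Pool.Agent.Lib_helper42.JO.FHDefs

/-! JO, part FH, block HHK: the kernel -/

namespace Pool.Agent.JOF

open Pool.Agent.JO Complex MeasureTheory Filter Topology Set
open scoped ComplexConjugate ContDiff

theorem hhk_symm (x : ℝ) : Real.smoothTransition x + Real.smoothTransition (1 - x) = 1 := by
  have h := Real.smoothTransition.pos_denom x
  unfold Real.smoothTransition
  have h1 : 1 - (1 - x) = x := by ring
  rw [h1, add_comm (expNegInvGlue (1 - x)) (expNegInvGlue x), ← add_div]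
  exact div_self h.ne'

theorem hh_symm_pr {κ r : ℝ} (hκ : 0 < κ) (hr : 0 < r) : hh κ r + hh κ (1 / (κ * r)) = 1 := by
  unfold hh
  have h1 : (1 + (Real.log (1 / (κ * r)) + Real.log κ / 2)) / 2 =
      1 - (1 + (Real.log r + Real.log κ / 2)) / 2 := by
    rw [one_div, Real.log_inv, Real.log_mul hκ.ne' hr.ne']
    ring
  rw [h1]
  exact hhk_symm _

theorem hh_mem_pr (κ r : ℝ) : 0 ≤ hh κ r ∧ hh κ r ≤ 1 :=
  ⟨Real.smoothTransition.nonneg _, Real.smoothTransition.le_one _⟩

theorem hh_mono_pr {κ r s : ℝ} (hr : 0 < r) (hrs : r ≤ s) : hh κ r ≤ hh κ s := by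
  unfold hh
  apply Real.smoothTransition.monotone
  have := Real.log_le_log hr hrs
  linarith

theorem hhk_log {κ : ℝ} (hκ : 0 < κ) (c : ℝ) :
    Real.log (Real.exp c / √κ) = c - Real.log κ / 2 := by
  rw [Real.log_div (Real.exp_pos _).ne' (Real.sqrt_pos.2 hκ).ne', Real.log_exp,
    Real.log_sqrt hκ.le]

theorem hh_zero_pr {κ r : ℝ} (hκ : 0 < κ) (hr : 0 < r) (h : r ≤ Real.exp (-1) / √κ) :
    hh κ r = 0 := by
  unfold hh
  apply Real.smoothTransition.zero_of_nonpos
  have h1 := Real.log_le_log hr h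
  rw [hhk_log hκ] at h1
  linarith

theorem hh_one_pr {κ r : ℝ} (hκ : 0 < κ) (h : Real.exp 1 / √κ ≤ r) : hh κ r = 1 := by
  unfold hh
  apply Real.smoothTransition.one_of_one_le
  have h0 : 0 < Real.exp 1 / √κ := div_pos (Real.exp_pos _) (Real.sqrt_pos.2 hκ)
  have h1 := Real.log_le_log h0 h
  rw [hhk_log hκ] at h1
  linarith

theorem hh_meas_pr (κ : ℝ) : Measurable (hh κ) := by
  unfold hh
  refine Real.smoothTransition.continuous.measurable.comp ?_
  exact ((Real.measurable_log.add_const _).const_add 1).div_const 2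

theorem hh_smooth_pr {κ : ℝ} (hκ : 0 < κ) (k : ℕ) :
    ∃ u : ℝ → ℝ, ContDiff ℝ ∞ u ∧ (∀ r : ℝ, 0 < r → u r = r ^ (k - 1) * hh κ r) ∧
      (∀ r : ℝ, r ≤ Real.exp (-1) / √κ → u r = 0) ∧
      (∀ r : ℝ, Real.exp 1 / √κ ≤ r → u r = r ^ (k - 1)) := by
  have hr0 : 0 < Real.exp (-1) / √κ := div_pos (Real.exp_pos _) (Real.sqrt_pos.2 hκ)
  have hr1 : 0 < Real.exp 1 / √κ := div_pos (Real.exp_pos _) (Real.sqrt_pos.2 hκ)
  set u : ℝ → ℝ := fun r => if 0 < r then r ^ (k - 1) * hh κ r else 0 with hu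
  have hpos : ∀ r : ℝ, 0 < r → u r = r ^ (k - 1) * hh κ r := fun r hr => if_pos hr
  have hzero : ∀ r : ℝ, r ≤ Real.exp (-1) / √κ → u r = 0 := by
    intro r hr
    by_cases h0 : 0 < r
    · rw [hpos r h0, hh_zero_pr hκ h0 hr, mul_zero]
    · exact if_neg h0
  refine ⟨u, ?_, hpos, hzero, ?_⟩
  · rw [contDiff_iff_contDiffAt]
    intro x
    by_cases hx : x < Real.exp (-1) / √κ
    · have : u =ᶠ[𝓝 x] fun _ => 0 := by
        filter_upwards [Iio_mem_nhds hx] with y hy
        exact hzero y (le_of_lt hy)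
      exact contDiffAt_const.congr_of_eventuallyEq this
    · have hx0 : 0 < x := lt_of_lt_of_le hr0 (not_lt.1 hx)
      have : u =ᶠ[𝓝 x] fun r => r ^ (k - 1) *
          Real.smoothTransition ((1 + (Real.log r + Real.log κ / 2)) / 2) := by
        filter_upwards [Ioi_mem_nhds hx0] with y hy
        exact hpos y hy
      refine ContDiffAt.congr_of_eventuallyEq ?_ this
      refine (contDiffAt_id.pow (k - 1)).mul ?_
      refine (Real.smoothTransition.contDiffAt).comp x ?_
      exact ((contDiffAt_const.add ((Real.contDiffAt_log.2 hx0.ne').add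
        contDiffAt_const)).div_const 2)
  · intro r hr
    have h0 : 0 < r := lt_of_lt_of_le hr1 hr
    rw [hpos r h0, hh_one_pr hκ hr, mul_one]

alias hh_symm := hh_symm_pr

alias hh_mem := hh_mem_pr

alias hh_mono := hh_mono_pr

alias hh_zero := hh_zero_pr

alias hh_one := hh_one_pr

alias hh_meas := hh_meas_pr

alias hh_smooth := hh_smooth_pr

end Pool.Agent.JOF
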