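import Pool.Agent.Lib_helper42.JO.FHDefs
import Pool.Agent.Lib_helper42.JOF.GDD
import Pool.Agent.Lib_helper42.JOF.HHK

/-! Project JO, part FH, block IJS: the split of the shifted ray integral -/

namespace Pool.Agent.JOF

open Pool.Agent.JO Complex MeasureTheory Filter Topology Set
open scoped ComplexConjugate ContDiff

variable {k N : ℕ} {a b : ℕ → ℂ} {f g : ℂ → ℂ} {c : ℂ} {M : ℝ}

theorem ijs_exp (F : ℝ → ℂ) :
    ∫ r in Ioi (0 : ℝ), F r = ∫ x : ℝ, (Real.exp x : ℂ) * F (Real.exp x) := by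
  have h := integral_image_eq_integral_abs_deriv_smul (s := univ) MeasurableSet.univ
    (fun x _ => (Real.hasDerivAt_exp x).hasDerivWithinAt) (Real.exp_injective.injOn) F
  rw [image_univ, Real.range_exp, setIntegral_univ] at h
  rw [h]
  congr 1
  funext x
  rw [abs_of_pos (Real.exp_pos x), Complex.real_smul]

/-- the function on the line -/
noncomputable def ijs_Phi (k q : ℕ) (f : ℂ → ℂ) (ε x : ℝ) : ℂ :=
  (Real.exp x : ℂ) ^ k *
    (f (Real.exp x * cexp (ε * I)) * conj (f (q * Real.exp x * cexp (ε * I))))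

theorem ijs_JJ (hk : 1 ≤ k) (q : ℕ) (κ : ℝ) (f : ℂ → ℂ) (ε : ℝ) :
    JJ k q κ f ε = ∫ x : ℝ, (hh κ (Real.exp x) : ℂ) * ijs_Phi k q f ε x := by
  unfold JJ
  rw [ijs_exp]
  congr 1
  funext x
  obtain ⟨i, rfl⟩ : ∃ i, k = i + 1 := ⟨k - 1, by omega⟩
  unfold ijs_Phi
  rw [Nat.add_sub_cancel]
  push_cast
  ring

theorem ijs_GG {q : ℕ} (hq : 1 ≤ q) (ε x : ℝ) :
    GG k f (x + ε * I) * conj (GG k f ((x + Real.log q : ℝ) + ε * I)) =
      (((q : ℝ) ^ ((k : ℝ) / 2) : ℝ) : ℂ) * ijs_Phi k q f ε x := by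
  have hq0 : (0 : ℝ) < q := by exact_mod_cast hq
  have hqe : cexp ((Real.log q : ℝ) : ℂ) = q := by
    rw [← Complex.ofReal_exp, Real.exp_log hq0]
    simp
  have h1 : cexp ((x : ℂ) + ε * I) = Real.exp x * cexp (ε * I) := by
    rw [Complex.exp_add, Complex.ofReal_exp]
  have h2 : cexp (((x + Real.log q : ℝ) : ℂ) + ε * I) = q * Real.exp x * cexp (ε * I) := by
    rw [Complex.exp_add, Complex.ofReal_add, Complex.exp_add, hqe, Complex.ofReal_exp]
    ring
  have h3 : cexp ((k : ℂ) / 2 * ((x : ℂ) + ε * I)) *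
      conj (cexp ((k : ℂ) / 2 * (((x + Real.log q : ℝ) : ℂ) + ε * I))) =
      (((q : ℝ) ^ ((k : ℝ) / 2) : ℝ) : ℂ) * (Real.exp x : ℂ) ^ k := by
    rw [← Complex.exp_conj, ← Complex.exp_add, Real.rpow_def_of_pos hq0, Complex.ofReal_exp,
      Complex.ofReal_exp, ← Complex.exp_nat_mul, ← Complex.exp_add]
    congr 1
    simp only [map_mul, map_add, map_div₀, Complex.conj_ofReal, Complex.conj_I, map_natCast,
      map_ofNat]
    push_cast
    ring
  unfold GG ijs_Phi
  rw [h1, h2, map_mul]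
  calc f (Real.exp x * cexp (ε * I)) * cexp ((k : ℂ) / 2 * ((x : ℂ) + ε * I)) *
        (conj (f (q * Real.exp x * cexp (ε * I))) *
          conj (cexp ((k : ℂ) / 2 * (((x + Real.log q : ℝ) : ℂ) + ε * I))))
      = (cexp ((k : ℂ) / 2 * ((x : ℂ) + ε * I)) *
          conj (cexp ((k : ℂ) / 2 * (((x + Real.log q : ℝ) : ℂ) + ε * I)))) *
        (f (Real.exp x * cexp (ε * I)) * conj (f (q * Real.exp x * cexp (ε * I)))) := by ring
    _ = _ := by rw [h3]; ring

theorem ijs_cosh (x : ℝ) : x ^ 2 / 4 ≤ Real.cosh x := by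
  rw [← Real.cosh_abs, Real.cosh_eq]
  have h1 := Real.quadratic_le_exp_of_nonneg (abs_nonneg x)
  have h2 := Real.exp_pos (-|x|)
  have h3 : |x| ^ 2 = x ^ 2 := sq_abs x
  have h4 := abs_nonneg x
  nlinarith

theorem ijs_integrable (h : Frame k N a b f g c M) {q : ℕ} (hq : 1 ≤ q) {ε : ℝ} (h0 : 0 < ε)
    (h1 : ε < Real.pi) : Integrable (ijs_Phi k q f ε) := by
  have hq0 : (0 : ℝ) < q := by exact_mod_cast hq
  have hqk : (0 : ℝ) < (q : ℝ) ^ ((k : ℝ) / 2) := Real.rpow_pos_of_pos hq0 _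
  obtain ⟨C, hC, hb⟩ := gg_decay h
  have hN : (0 : ℝ) < N := by exact_mod_cast h.hN
  have hs : 0 < Real.sin ε := Real.sin_pos_of_pos_of_lt_pi h0 h1
  have hcont : ContinuousOn (GG k f) {w : ℂ | 0 < w.im ∧ w.im < Real.pi} :=
    (gg_hol h.fh).continuousOn
  have hc1 : Continuous (fun x : ℝ => GG k f (x + ε * I)) := by
    apply hcont.comp_continuous (by fun_prop)
    intro x
    simp [h0, h1]
  have hc2 : Continuous (fun x : ℝ => GG k f ((x + Real.log q : ℝ) + ε * I)) :=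
    hc1.comp (continuous_id.add continuous_const)
  set s : ℝ := C * Real.sin ε ^ (-((k : ℝ) / 2)) with hsdef
  have hs0 : 0 ≤ s := by positivity
  have hG : Integrable (fun x : ℝ => s * s * Real.exp (-(Real.sin ε / N / 4) * x ^ 2)) :=
    (integrable_exp_neg_mul_sq (by positivity)).const_mul _
  have hI : Integrable (fun x : ℝ => GG k f (x + ε * I) *
      conj (GG k f ((x + Real.log q : ℝ) + ε * I))) := by
    refine hG.mono' ?_ (Eventually.of_forall fun x : ℝ => ?_)
    · exact (hc1.mul (Complex.continuous_conj.comp hc2)).aestronglyMeasurable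
    · rw [norm_mul, Complex.norm_conj]
      have e1 := hb x ε h0 h1
      have e2 := hb (x + Real.log q) ε h0 h1
      have e3 : Real.exp (-(Real.sin ε / N * Real.cosh x)) ≤
          Real.exp (-(Real.sin ε / N / 4) * x ^ 2) := by
        apply Real.exp_le_exp.mpr
        have := ijs_cosh x
        have h5 : 0 ≤ Real.sin ε / N := by positivity
        nlinarith
      have e4 : Real.exp (-(Real.sin ε / N * Real.cosh (x + Real.log q))) ≤ 1 := by
        apply Real.exp_le_one_iff.mpr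
        have := Real.cosh_pos (x + Real.log q)
        have h5 : 0 ≤ Real.sin ε / N := by positivity
        nlinarith [mul_nonneg h5 this.le]
      calc ‖GG k f (x + ε * I)‖ * ‖GG k f ((x + Real.log q : ℝ) + ε * I)‖
          ≤ (s * Real.exp (-(Real.sin ε / N * Real.cosh x))) *
            (s * Real.exp (-(Real.sin ε / N * Real.cosh (x + Real.log q)))) := by
              gcongr
        _ ≤ (s * Real.exp (-(Real.sin ε / N / 4) * x ^ 2)) * (s * 1) := by gcongr
        _ = _ := by ring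
  have h2 : ijs_Phi k q f ε = fun x : ℝ => (((q : ℝ) ^ ((k : ℝ) / 2) : ℝ) : ℂ)⁻¹ *
      (GG k f (x + ε * I) * conj (GG k f ((x + Real.log q : ℝ) + ε * I))) := by
    funext x
    rw [ijs_GG hq, ← mul_assoc, inv_mul_cancel₀, one_mul]
    exact_mod_cast hqk.ne'
  rw [h2]
  exact hI.const_mul _

/-- the reflected part -/
theorem ijs_reflect (h : Frame k N a b f g c M) {q : ℕ} (hq : 1 ≤ q) {ε : ℝ} (h0 : 0 < ε)
    (h1 : ε < Real.pi) (x : ℝ) :
    ijs_Phi k q f ε (-Real.log (q * N) - x) =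
      ((‖c‖ ^ 2 * N ^ k : ℝ) : ℂ) * conj (ijs_Phi k q g (Real.pi - ε) x) := by
  have hq0 : (0 : ℝ) < q := by exact_mod_cast hq
  have hN : (0 : ℝ) < N := by exact_mod_cast h.hN
  have hs : 0 < Real.sin ε := Real.sin_pos_of_pos_of_lt_pi h0 h1
  have hqC : (q : ℂ) ≠ 0 := by exact_mod_cast hq0.ne'
  have hNC : (N : ℂ) ≠ 0 := by exact_mod_cast hN.ne'
  have hex : Real.exp (-Real.log (q * N) - x) = ((q * N) * Real.exp x)⁻¹ := by
    rw [sub_eq_add_neg, ← neg_add, Real.exp_neg, Real.exp_add, Real.exp_log (by positivity)]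
  set r : ℝ := Real.exp x with hr
  have hr0 : 0 < r := Real.exp_pos x
  have hrC : (r : ℂ) ≠ 0 := by exact_mod_cast hr0.ne'
  set e : ℂ := cexp (ε * I) with he
  have he0 : e ≠ 0 := Complex.exp_ne_zero _
  have him : e.im = Real.sin ε := Complex.exp_ofReal_mul_I_im ε
  have hee : e * conj e = 1 := by
    rw [he, ← Complex.exp_conj, ← Complex.exp_add]
    simp
  have hpe : cexp (((Real.pi - ε : ℝ) : ℂ) * I) = -e⁻¹ := by
    rw [Complex.ofReal_sub, sub_mul, Complex.exp_sub, Complex.exp_pi_mul_I, ← he]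
    ring
  -- the two values
  have hv1 : f ((((q * N) * r)⁻¹ : ℝ) * e) =
      c * (((((q * N) * r)⁻¹ : ℝ) * e) ^ k)⁻¹ * g (q * r * (-e⁻¹)) := by
    have h2 : 0 < ((((q * N) * r)⁻¹ : ℝ) * e).im := by
      rw [Complex.im_ofReal_mul, him]
      positivity
    rw [h.fricke _ h2]
    congr 2
    push_cast
    field_simp
  have hv2 : f (q * (((q * N) * r)⁻¹ : ℝ) * e) =
      c * ((q * (((q * N) * r)⁻¹ : ℝ) * e) ^ k)⁻¹ * g (r * (-e⁻¹)) := by
    have h2 : 0 < (q * (((q * N) * r)⁻¹ : ℝ) * e).im := by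
      have : (q : ℂ) * (((q * N) * r)⁻¹ : ℝ) = ((q * ((q * N) * r)⁻¹ : ℝ) : ℂ) := by
        push_cast; ring
      rw [this, Complex.im_ofReal_mul, him]
      positivity
    rw [h.fricke _ h2]
    congr 2
    push_cast
    field_simp
  unfold ijs_Phi
  rw [hex, hpe, hv1, hv2, ← hr]
  simp only [map_mul, map_pow, map_inv₀, Complex.conj_ofReal, Complex.conj_conj,
    map_natCast]
  have hcc : c * conj c = ((‖c‖ ^ 2 : ℝ) : ℂ) := by
    rw [Complex.mul_conj, Complex.normSq_eq_norm_sq]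
  have hce0 : conj e ≠ 0 := by
    intro h9
    rw [h9, mul_zero] at hee
    exact zero_ne_one hee
  have hcon : conj e = e⁻¹ := by
    rw [mul_comm] at hee
    exact eq_inv_of_mul_eq_one_left hee
  have hreg : ((((q * N) * r)⁻¹ : ℝ) : ℂ) = ((q : ℂ) * N * r)⁻¹ := by push_cast; rfl
  have hNk : ((‖c‖ ^ 2 * N ^ k : ℝ) : ℂ) = c * conj c * (N : ℂ) ^ k := by
    rw [hcc]
    push_cast
    ring
  rw [hNk, hreg, hcon]
  simp only [mul_pow, inv_pow, mul_inv, inv_inv]
  field_simp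

/-- block IJS -/
theorem qq_split_pr (h : Frame k N a b f g c M) {q : ℕ} (hq : 1 ≤ q) {ε : ℝ} (h0 : 0 < ε)
    (h1 : ε < Real.pi) :
    QQ k f (ε + (Real.log q / 2 : ℝ) * I) = (((q : ℝ) ^ ((k : ℝ) / 2) : ℝ) : ℂ) *
      (JJ k q (q * N) f ε + ((‖c‖ ^ 2 * N ^ k : ℝ) : ℂ) * conj (JJ k q (q * N) g (Real.pi - ε))) := by
  have hq0 : (0 : ℝ) < q := by exact_mod_cast hq
  have hN : (0 : ℝ) < N := by exact_mod_cast h.hN
  have hk : 1 ≤ k := h.fh.hk
  have hκ : (0 : ℝ) < q * N := by positivity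
  have hA : QQ k f (ε + (Real.log q / 2 : ℝ) * I) =
      (((q : ℝ) ^ ((k : ℝ) / 2) : ℝ) : ℂ) * ∫ x : ℝ, ijs_Phi k q f ε x := by
    unfold QQ
    rw [← integral_const_mul, ← integral_sub_right_eq_self
      (fun x : ℝ => (((q : ℝ) ^ ((k : ℝ) / 2) : ℝ) : ℂ) * ijs_Phi k q f ε x) (Real.log q / 2)]
    congr 1
    funext x
    rw [← ijs_GG hq]
    congr 2
    · rw [Complex.ofReal_sub]
      linear_combination ((Real.log q / 2 : ℝ) : ℂ) * Complex.I_mul_I
    · congr 1
      simp only [map_add, map_mul, Complex.conj_ofReal, Complex.conj_I]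
      have h5 : ((x - Real.log q / 2 + Real.log q : ℝ) : ℂ) = x + ((Real.log q / 2 : ℝ) : ℂ) := by
        rw [← Complex.ofReal_add]
        congr 1
        ring
      rw [h5]
      linear_combination -((Real.log q / 2 : ℝ) : ℂ) * Complex.I_mul_I
  rw [hA]
  congr 1
  rw [ijs_JJ hk, ijs_JJ hk]
  have hint := ijs_integrable h hq h0 h1
  have hmeas : Measurable (fun x : ℝ => (hh (q * N) (Real.exp x) : ℂ)) :=
    Complex.measurable_ofReal.comp ((hh_meas _).comp Real.measurable_exp)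
  have hint1 : Integrable (fun x : ℝ => (hh (q * N) (Real.exp x) : ℂ) * ijs_Phi k q f ε x) := by
    refine hint.bdd_mul (c := 1) hmeas.aestronglyMeasurable (Eventually.of_forall fun x => ?_)
    rw [Complex.norm_real, Real.norm_eq_abs, abs_of_nonneg (hh_mem _ _).1]
    exact (hh_mem _ _).2
  have hsplit : ∫ x : ℝ, ijs_Phi k q f ε x =
      (∫ x : ℝ, (hh (q * N) (Real.exp x) : ℂ) * ijs_Phi k q f ε x) +
        ∫ x : ℝ, (ijs_Phi k q f ε x - (hh (q * N) (Real.exp x) : ℂ) * ijs_Phi k q f ε x) := by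
    rw [integral_sub hint hint1]
    ring
  rw [hsplit]
  congr 1
  rw [← integral_sub_left_eq_self _ volume (-Real.log (q * N)), ← integral_conj,
    ← integral_const_mul]
  congr 1
  funext x
  have h2 := ijs_reflect h hq h0 h1 x
  have h3 : hh (q * N) (Real.exp (-Real.log (q * N) - x)) = 1 - hh (q * N) (Real.exp x) := by
    have h4 := hh_symm (κ := q * N) (r := Real.exp x) hκ (Real.exp_pos x)
    have hex : Real.exp (-Real.log (q * N) - x) = 1 / ((q * N) * Real.exp x) := by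
      rw [sub_eq_add_neg, ← neg_add, Real.exp_neg, Real.exp_add, Real.exp_log (by positivity),
        one_div]
    rw [hex]
    linarith
  rw [h3, h2, map_mul, Complex.conj_ofReal]
  push_cast
  ring

alias qq_split := qq_split_pr

end Pool.Agent.JOF
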