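import Pool.Agent.Lib_helper42.JO.FHDefs
import Pool.Agent.Lib_helper42.JOF.HHK

namespace Pool.Agent.JOF

open Pool.Agent.JO Complex MeasureTheory Filter Topology Set
open scoped ComplexConjugate ContDiff

variable {k N : ℕ} {a b : ℕ → ℂ} {f g : ℂ → ℂ} {c : ℂ} {M : ℝ}

theorem jxp_summable (h : Half k a f M) {y : ℝ} (hy : 0 < y) :
    Summable (fun n : ℕ => ‖a n‖ * Real.exp (-(2 * Real.pi * n * y))) := by
  have h1 := (h.exp (y * I) (by simpa using hy)).summable.norm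
  refine h1.congr fun n => ?_
  rw [norm_mul, Complex.norm_exp]
  congr 2
  simp

theorem jxp_exp1 (θ r : ℝ) (m : ℕ) : cexp (2 * Real.pi * I * m * (r * cexp (θ * I)))
    = cexp (-(r * (2 * Real.pi * m * (Real.sin θ - Real.cos θ * I)))) := by
  congr 1
  rw [Complex.exp_mul_I, ← Complex.ofReal_cos, ← Complex.ofReal_sin]
  linear_combination (2 * (Real.pi : ℂ) * m * r * (Real.sin θ : ℂ)) * I_sq

theorem jxp_exp2 (θ r : ℝ) (q n : ℕ) : conj (cexp (2 * Real.pi * I * n * (q * r * cexp (θ * I))))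
    = cexp (-(r * (2 * Real.pi * (q * n) * (Real.sin θ + Real.cos θ * I)))) := by
  rw [← Complex.exp_conj]
  congr 1
  rw [Complex.exp_mul_I, ← Complex.ofReal_cos, ← Complex.ofReal_sin]
  simp only [map_mul, map_add, conj_I, conj_ofReal, map_natCast, map_ofNat]
  linear_combination (2 * (Real.pi : ℂ) * n * q * r * (Real.sin θ : ℂ)) * I_sq

/-- the exponent -/
noncomputable def jxp_s (q : ℕ) (θ : ℝ) (x : ℕ × ℕ) : ℂ :=
  2 * Real.pi * (((x.1 : ℂ) + q * x.2) * Real.sin θ - ((x.1 : ℂ) - q * x.2) * Real.cos θ * I)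

theorem jxp_s_re (q : ℕ) (θ : ℝ) (x : ℕ × ℕ) :
    (jxp_s q θ x).re = 2 * Real.pi * ((x.1 + q * x.2) * Real.sin θ) := by
  unfold jxp_s
  rw [show (2 : ℂ) * Real.pi * (((x.1 : ℂ) + q * x.2) * Real.sin θ - ((x.1 : ℂ) - q * x.2) * Real.cos θ * I)
    = ((2 * Real.pi * ((x.1 + q * x.2) * Real.sin θ) : ℝ) : ℂ)
      + ((-(2 * Real.pi * ((x.1 - q * x.2) * Real.cos θ)) : ℝ) : ℂ) * I by push_cast; ring]
  rw [Complex.add_re, Complex.ofReal_re, Complex.re_ofReal_mul, Complex.I_re, mul_zero, add_zero]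

/-- the terms -/
noncomputable def jxp_F (k q : ℕ) (κ : ℝ) (a : ℕ → ℂ) (θ : ℝ) (x : ℕ × ℕ) (r : ℝ) : ℂ :=
  a x.1 * conj (a x.2) * (((r ^ (k - 1) * hh κ r : ℝ) : ℂ) * cexp (-(r * jxp_s q θ x)))

/-- the two factors -/
noncomputable def jxp_u (a : ℕ → ℂ) (θ r : ℝ) (m : ℕ) : ℂ :=
  a m * cexp (2 * Real.pi * I * m * (r * cexp (θ * I)))

noncomputable def jxp_v (a : ℕ → ℂ) (q : ℕ) (θ r : ℝ) (n : ℕ) : ℂ :=
  a n * cexp (2 * Real.pi * I * n * (q * r * cexp (θ * I)))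

theorem jxp_term (k q : ℕ) (κ : ℝ) (a : ℕ → ℂ) (θ : ℝ) (x : ℕ × ℕ) (r : ℝ) :
    jxp_F k q κ a θ x r = ((r ^ (k - 1) * hh κ r : ℝ) : ℂ) *
      (jxp_u a θ r x.1 * conj (jxp_v a q θ r x.2)) := by
  unfold jxp_u jxp_v
  rw [map_mul, jxp_exp1, jxp_exp2]
  unfold jxp_F jxp_s
  have e5 : cexp (-(r * (2 * Real.pi * (((x.1 : ℂ) + q * x.2) * Real.sin θ - ((x.1 : ℂ) - q * x.2) * Real.cos θ * I))))
      = cexp (-(r * (2 * Real.pi * x.1 * (Real.sin θ - Real.cos θ * I))))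
        * cexp (-(r * (2 * Real.pi * (q * x.2) * (Real.sin θ + Real.cos θ * I)))) := by
    rw [← Complex.exp_add]
    congr 1
    ring
  rw [e5]
  ring

theorem jxp_mul1 {v : ℕ → ℂ} {V : ℂ} (hv : HasSum v V) : HasSum (fun n => conj (v n)) (conj V) :=
  Complex.hasSum_conj'.2 hv

theorem jxp_mul2 {u v : ℕ → ℂ} (hu : Summable u) (hv : Summable v) :
    Summable (fun x : ℕ × ℕ => u x.1 * v x.2) :=
  summable_mul_of_summable_norm hu.norm hv.norm

theorem jxp_mul3 {u v : ℕ → ℂ} {U V : ℂ} (hu : HasSum u U) (hv : HasSum v V) :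
    HasSum (fun x : ℕ × ℕ => u x.1 * v x.2) (U * V) :=
  hu.mul hv (jxp_mul2 hu.summable hv.summable)

theorem jxp_mul {u v : ℕ → ℂ} {U V : ℂ} (hu : HasSum u U) (hv : HasSum v V) (c : ℂ) :
    HasSum (fun x : ℕ × ℕ => c * (u x.1 * conj (v x.2))) (c * (U * conj V)) :=
  (jxp_mul3 hu (jxp_mul1 hv)).mul_left c

theorem jxp_hasSum (h : Half k a f M) {q : ℕ} (hq : 1 ≤ q) {κ : ℝ} {θ : ℝ}
    (h0 : 0 < θ) (h1 : θ < Real.pi) {r : ℝ} (hr : 0 < r) :
    HasSum (fun x : ℕ × ℕ => jxp_F k q κ a θ x r)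
      (((r ^ (k - 1) * hh κ r : ℝ) : ℂ) * (f (r * cexp (θ * I)) * conj (f (q * r * cexp (θ * I))))) := by
  have hs : 0 < Real.sin θ := Real.sin_pos_of_pos_of_lt_pi h0 h1
  have hq' : (0 : ℝ) < q := by exact_mod_cast hq
  have him0 : (cexp (θ * I)).im = Real.sin θ := Complex.exp_ofReal_mul_I_im θ
  have him1 : (r * cexp (θ * I)).im = r * Real.sin θ := by
    rw [Complex.im_ofReal_mul, him0]
  have him2 : (q * r * cexp (θ * I)).im = q * r * Real.sin θ := by
    rw [show (q * r * cexp (θ * I) : ℂ) = ((q * r : ℝ) : ℂ) * cexp (θ * I) by push_cast; ring]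
    rw [Complex.im_ofReal_mul, him0]
  have e1 : HasSum (jxp_u a θ r) (f (r * cexp (θ * I))) := h.exp (r * cexp (θ * I)) (by rw [him1]; positivity)
  have e2 : HasSum (jxp_v a q θ r) (f (q * r * cexp (θ * I))) :=
    h.exp (q * r * cexp (θ * I)) (by rw [him2]; positivity)
  have e4 := jxp_mul e1 e2 (((r ^ (k - 1) * hh κ r : ℝ) : ℂ))
  have e6 : (fun x : ℕ × ℕ => jxp_F k q κ a θ x r) = fun x : ℕ × ℕ => ((r ^ (k - 1) * hh κ r : ℝ) : ℂ) *
      (jxp_u a θ r x.1 * conj (jxp_v a q θ r x.2)) := by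
    funext x
    exact jxp_term k q κ a θ x r
  rw [e6]
  exact e4

theorem jxp_norm {q : ℕ} {κ : ℝ} (hκ : 0 < κ) {θ : ℝ} (h0 : 0 < θ) (h1 : θ < Real.pi) (a0 : a 0 = 0) (hq : 1 ≤ q)
    (x : ℕ × ℕ) {r : ℝ} (hr : 0 < r) :
    ‖jxp_F k q κ a θ x r‖ ≤ (‖a x.1‖ * Real.exp (-(2 * Real.pi * x.1 * (Real.exp (-1) / √κ / 2 * Real.sin θ))))
      * (‖a x.2‖ * Real.exp (-(2 * Real.pi * x.2 * (Real.exp (-1) / √κ / 2 * Real.sin θ))))
      * (r ^ (k - 1) * Real.exp (-(Real.pi * Real.sin θ) * r)) := by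
  have hs : 0 < Real.sin θ := Real.sin_pos_of_pos_of_lt_pi h0 h1
  have hq' : (1 : ℝ) ≤ q := by exact_mod_cast hq
  have hpi := Real.pi_pos
  have hsq : 0 < √κ := Real.sqrt_pos.2 hκ
  unfold jxp_F
  rw [norm_mul, norm_mul, norm_mul, RCLike.norm_conj, Complex.norm_exp, Complex.norm_real, Real.norm_eq_abs,
    abs_of_nonneg (mul_nonneg (pow_nonneg hr.le _) (hh_mem κ r).1)]
  have hre : (-(r * jxp_s q θ x)).re = -(r * (2 * Real.pi * ((x.1 + q * x.2) * Real.sin θ))) := by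
    rw [Complex.neg_re, Complex.re_ofReal_mul, jxp_s_re]
  rw [hre]
  by_cases hx1 : x.1 = 0
  · rw [hx1, a0]
    simp
  by_cases hx2 : x.2 = 0
  · rw [hx2, a0]
    simp
  rcases le_or_gt r (Real.exp (-1) / √κ) with hr0 | hr0
  · rw [hh_zero hκ hr hr0]
    simp only [mul_zero, zero_mul]
    positivity
  · have hx1' : (1 : ℝ) ≤ x.1 := by exact_mod_cast Nat.one_le_iff_ne_zero.2 hx1
    have hx2' : (1 : ℝ) ≤ x.2 := by exact_mod_cast Nat.one_le_iff_ne_zero.2 hx2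
    have hh1 := (hh_mem κ r).2
    have key : Real.exp (-(r * (2 * Real.pi * ((x.1 + q * x.2) * Real.sin θ))))
        ≤ Real.exp (-(2 * Real.pi * x.1 * (Real.exp (-1) / √κ / 2 * Real.sin θ)))
          * Real.exp (-(2 * Real.pi * x.2 * (Real.exp (-1) / √κ / 2 * Real.sin θ)))
          * Real.exp (-(Real.pi * Real.sin θ) * r) := by
      rw [← Real.exp_add, ← Real.exp_add]
      apply Real.exp_le_exp.2
      set r0 : ℝ := Real.exp (-1) / √κ with hr0d
      have hps : 0 < Real.pi * Real.sin θ := by positivity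
      have g1 : (x.1 : ℝ) + q * x.2 ≥ x.1 + x.2 := by nlinarith
      have g2 : Real.pi * Real.sin θ * r * (x.1 + q * x.2) ≥ Real.pi * Real.sin θ * r * 1 := by
        apply mul_le_mul_of_nonneg_left _ (by positivity)
        nlinarith
      have g3 : Real.pi * Real.sin θ * r * (x.1 + q * x.2) ≥ Real.pi * Real.sin θ * r0 * (x.1 + x.2) := by
        have g4 : Real.pi * Real.sin θ * r0 ≤ Real.pi * Real.sin θ * r := mul_le_mul_of_nonneg_left hr0.le hps.le
        have g5 : 0 ≤ Real.pi * Real.sin θ * r := by positivity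
        calc Real.pi * Real.sin θ * r0 * (x.1 + x.2) ≤ Real.pi * Real.sin θ * r * (x.1 + x.2) :=
              mul_le_mul_of_nonneg_right g4 (by positivity)
          _ ≤ Real.pi * Real.sin θ * r * (x.1 + q * x.2) := mul_le_mul_of_nonneg_left g1 g5
      nlinarith
    have hrk : 0 ≤ r ^ (k - 1) := by positivity
    calc ‖a x.1‖ * ‖a x.2‖ * (r ^ (k - 1) * hh κ r * Real.exp (-(r * (2 * Real.pi * ((x.1 + q * x.2) * Real.sin θ)))))
        ≤ ‖a x.1‖ * ‖a x.2‖ * (r ^ (k - 1) * 1 * (Real.exp (-(2 * Real.pi * x.1 * (Real.exp (-1) / √κ / 2 * Real.sin θ)))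
          * Real.exp (-(2 * Real.pi * x.2 * (Real.exp (-1) / √κ / 2 * Real.sin θ)))
          * Real.exp (-(Real.pi * Real.sin θ) * r))) := by
          apply mul_le_mul_of_nonneg_left _ (by positivity)
          apply mul_le_mul _ key (by positivity) (by positivity)
          exact mul_le_mul_of_nonneg_left hh1 hrk
      _ = _ := by ring

theorem jxp_integrable (k : ℕ) {c : ℝ} (hc : 0 < c) :
    IntegrableOn (fun r : ℝ => r ^ (k - 1) * Real.exp (-c * r)) (Ioi 0) := by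
  have h := integrableOn_rpow_mul_exp_neg_mul_rpow (p := 1) (s := ((k - 1 : ℕ) : ℝ)) (b := c)
    (by have : (0 : ℝ) ≤ ((k - 1 : ℕ) : ℝ) := Nat.cast_nonneg _
        linarith) one_pos hc
  refine h.congr_fun (fun x hx => ?_) measurableSet_Ioi
  simp only [Real.rpow_natCast, Real.rpow_one]

/-- block JXP: expand both factors -/
theorem jj_expand_pr (h : Half k a f M) {q : ℕ} (hq : 1 ≤ q) {κ : ℝ} (hκ : 0 < κ) {θ : ℝ}
    (h0 : 0 < θ) (h1 : θ < Real.pi) :
    HasSum (fun x : ℕ × ℕ => a x.1 * conj (a x.2) *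
      LT k κ (2 * Real.pi * (((x.1 : ℂ) + q * x.2) * Real.sin θ -
        ((x.1 : ℂ) - q * x.2) * Real.cos θ * I))) (JJ k q κ f θ) := by
  have hs : 0 < Real.sin θ := Real.sin_pos_of_pos_of_lt_pi h0 h1
  have hsq : 0 < √κ := Real.sqrt_pos.2 hκ
  set y : ℝ := Real.exp (-1) / √κ / 2 * Real.sin θ with hy
  have hy0 : 0 < y := by
    rw [hy]
    positivity
  set c : ℝ := Real.pi * Real.sin θ with hc
  have hc0 : 0 < c := by
    rw [hc]
    positivity
  set A : ℕ × ℕ → ℝ := fun x => (‖a x.1‖ * Real.exp (-(2 * Real.pi * x.1 * y)))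
      * (‖a x.2‖ * Real.exp (-(2 * Real.pi * x.2 * y))) with hA
  have hA0 : ∀ x, 0 ≤ A x := fun x => by positivity
  have hAs : Summable A := (jxp_summable h hy0).mul_of_nonneg (jxp_summable h hy0)
    (fun n => by positivity) (fun n => by positivity)
  have hI := jxp_integrable k hc0
  have hbd : ∀ (x : ℕ × ℕ) (r : ℝ), 0 < r → ‖jxp_F k q κ a θ x r‖ ≤ A x * (r ^ (k - 1) * Real.exp (-c * r)) :=
    fun x r hr => jxp_norm hκ h0 h1 h.a0 hq x hr
  have hmeas : ∀ x : ℕ × ℕ, Measurable (jxp_F k q κ a θ x) := by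
    intro x
    unfold jxp_F
    have := hh_meas κ
    fun_prop
  have hint : ∀ x : ℕ × ℕ, Integrable (jxp_F k q κ a θ x) (volume.restrict (Ioi 0)) := by
    intro x
    refine Integrable.mono' (hI.const_mul (A x)) (hmeas x).aestronglyMeasurable ?_
    rw [ae_restrict_iff' measurableSet_Ioi]
    exact Eventually.of_forall fun r hr => hbd x r hr
  have hsum : Summable (fun x : ℕ × ℕ => ∫ r in Ioi (0 : ℝ), ‖jxp_F k q κ a θ x r‖) := by
    refine Summable.of_nonneg_of_le (fun x => integral_nonneg fun r => norm_nonneg _) (fun x => ?_)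
      (hAs.mul_right (∫ r in Ioi (0 : ℝ), r ^ (k - 1) * Real.exp (-c * r)))
    rw [← integral_const_mul]
    refine integral_mono_ae (hint x).norm (hI.const_mul (A x)) ?_
    rw [EventuallyLE, ae_restrict_iff' measurableSet_Ioi]
    exact Eventually.of_forall fun r hr => hbd x r hr
  have key := hasSum_integral_of_summable_integral_norm hint hsum
  have e1 : ∫ r in Ioi (0 : ℝ), ∑' x, jxp_F k q κ a θ x r = JJ k q κ f θ := by
    unfold JJ
    refine setIntegral_congr_fun measurableSet_Ioi fun r hr => ?_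
    exact (jxp_hasSum h hq h0 h1 hr).tsum_eq
  rw [e1] at key
  have e7 : (fun x : ℕ × ℕ => a x.1 * conj (a x.2) *
      LT k κ (2 * Real.pi * (((x.1 : ℂ) + q * x.2) * Real.sin θ -
        ((x.1 : ℂ) - q * x.2) * Real.cos θ * I))) = fun x : ℕ × ℕ => ∫ r in Ioi (0 : ℝ), jxp_F k q κ a θ x r := by
    funext x
    unfold LT jxp_F jxp_s
    rw [integral_const_mul]
  rw [e7]
  exact key

alias jj_expand := jj_expand_pr

end Pool.Agent.JOF
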