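import Pool.Agent.Lib_helper42.JO.FHDefs
import Pool.Agent.Lib_helper42.JOF.HHK

/-! Project JO, part FH, block LTB (helper47): decay of the Laplace transform. -/

set_option autoImplicit false

namespace Pool.Agent.JOF

open Pool.Agent.JO Complex MeasureTheory Filter Topology Set
open scoped ComplexConjugate ContDiff

variable {k : ℕ}

section

variable {u : ℝ → ℝ} {r₀ r₁ : ℝ} {n : ℕ}

theorem ltb_hasDeriv (hu : ContDiff ℝ ∞ u) (j : ℕ) (r : ℝ) :
    HasDerivAt (iteratedDeriv j u) (iteratedDeriv (j + 1) u r) r := by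
  rw [iteratedDeriv_succ]
  have h : Differentiable ℝ (iteratedDeriv j u) :=
    hu.differentiable_iteratedDeriv j (by exact_mod_cast WithTop.coe_lt_top _)
  exact (h r).hasDerivAt

theorem ltb_cont (hu : ContDiff ℝ ∞ u) (j : ℕ) : Continuous (iteratedDeriv j u) := by
  have h : Differentiable ℝ (iteratedDeriv j u) :=
    hu.differentiable_iteratedDeriv j (by exact_mod_cast WithTop.coe_lt_top _)
  exact h.continuous

theorem ltb_left (h0 : ∀ r, r ≤ r₀ → u r = 0) (j : ℕ) {r : ℝ} (hr : r < r₀) :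
    iteratedDeriv j u r = 0 := by
  have h : u =ᶠ[𝓝 r] fun _ => (0 : ℝ) := by
    filter_upwards [Iio_mem_nhds hr] with x hx
    exact h0 x (le_of_lt hx)
  rw [h.iteratedDeriv_eq]
  simp

theorem ltb_right (h1 : ∀ r, r₁ ≤ r → u r = r ^ n) (j : ℕ) : ∃ D : ℝ, (n < j → D = 0) ∧
    ∀ r, r₁ < r → iteratedDeriv j u r = D * r ^ (n - j) := by
  refine ⟨∏ i ∈ Finset.range j, ((n : ℝ) - i), ?_, fun r hr => ?_⟩
  · intro hj
    apply Finset.prod_eq_zero (Finset.mem_range.2 hj)
    ring
  · have h : u =ᶠ[𝓝 r] fun x => x ^ n := by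
      filter_upwards [Ioi_mem_nhds hr] with x hx
      exact h1 x (le_of_lt hx)
    rw [h.iteratedDeriv_eq, iteratedDeriv_eq_iterate, iter_deriv_pow]

theorem ltb_int (hu : ContDiff ℝ ∞ u) (h0 : ∀ r, r ≤ r₀ → u r = 0)
    (h1 : ∀ r, r₁ ≤ r → u r = r ^ n) (j : ℕ) {s : ℂ} (hs : 0 < s.re) :
    Integrable (fun r : ℝ => cexp (-(r * s)) * ((iteratedDeriv j u r : ℝ) : ℂ)) := by
  have hc := ltb_cont hu j
  have hcF : Continuous (fun r : ℝ => cexp (-(r * s)) * ((iteratedDeriv j u r : ℝ) : ℂ)) := by fun_prop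
  rw [← integrable_norm_iff hcF.aestronglyMeasurable]
  have hn : ∀ r : ℝ, ‖cexp (-(r * s)) * ((iteratedDeriv j u r : ℝ) : ℂ)‖ =
      Real.exp (-s.re * r) * |iteratedDeriv j u r| := by
    intro r
    rw [norm_mul, Complex.norm_exp, Complex.norm_real, Real.norm_eq_abs]
    congr 2
    simp
    ring
  simp_rw [hn]
  have hcφ : Continuous (fun r : ℝ => Real.exp (-s.re * r) * |iteratedDeriv j u r|) := by fun_prop
  rw [← integrableOn_univ, ← Iic_union_Ioi (a := r₁)]
  refine IntegrableOn.union ?_ ?_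
  · have hsub : Iic r₁ ⊆ Iio r₀ ∪ Icc r₀ r₁ := by
      intro x hx
      rcases lt_or_ge x r₀ with h | h
      · exact Or.inl h
      · exact Or.inr ⟨h, hx⟩
    refine IntegrableOn.mono_set ?_ hsub
    refine IntegrableOn.union ?_ (hcφ.continuousOn.integrableOn_compact isCompact_Icc)
    have hz : IntegrableOn (fun _ : ℝ => (0 : ℝ)) (Iio r₀) := by simp
    refine hz.congr_fun ?_ measurableSet_Iio
    intro x hx
    simp only
    rw [ltb_left h0 j hx, abs_zero, mul_zero]
  · obtain ⟨D, -, hD⟩ := ltb_right h1 j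
    refine integrable_of_isBigO_exp_neg (b := s.re / 2) (by linarith) hcφ.continuousOn ?_
    have e1 : (fun r : ℝ => r ^ (n - j)) =O[atTop] fun r => Real.exp (s.re / 2 * r) :=
      (isLittleO_pow_exp_pos_mul_atTop (n - j) (by linarith)).isBigO
    have e2 : (fun r : ℝ => Real.exp (-s.re * r) * |iteratedDeriv j u r|) =O[atTop]
        fun r => Real.exp (-s.re * r) * r ^ (n - j) := by
      apply Asymptotics.IsBigO.of_bound |D|
      filter_upwards [eventually_gt_atTop r₁, eventually_gt_atTop 0] with r hr hr0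
      rw [hD r hr, abs_mul, Real.norm_of_nonneg (by positivity),
        Real.norm_of_nonneg (by positivity), abs_of_nonneg (show 0 ≤ r ^ (n - j) by positivity)]
      apply le_of_eq
      ring
    refine e2.trans (((Asymptotics.isBigO_refl (fun r : ℝ => Real.exp (-s.re * r)) _).mul e1).trans ?_)
    apply Asymptotics.IsBigO.of_bound 1
    refine Eventually.of_forall fun r => ?_
    rw [← Real.exp_add, one_mul]
    apply le_of_eq
    congr 2
    ring

theorem ltb_step (hu : ContDiff ℝ ∞ u) (h0 : ∀ r, r ≤ r₀ → u r = 0)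
    (h1 : ∀ r, r₁ ≤ r → u r = r ^ n) (j : ℕ) {s : ℂ} (hs : 0 < s.re) :
    ∫ r : ℝ, cexp (-(r * s)) * ((iteratedDeriv (j + 1) u r : ℝ) : ℂ) =
      s * ∫ r : ℝ, cexp (-(r * s)) * ((iteratedDeriv j u r : ℝ) : ℂ) := by
  have hd : ∀ r : ℝ, HasDerivAt (fun r : ℝ => cexp (-(r * s))) (-s * cexp (-(r * s))) r := by
    intro r
    have e1 : HasDerivAt (fun r : ℝ => -((r : ℂ) * s)) (-s) r := by
      have e0 : HasDerivAt (fun r : ℝ => (r : ℂ) * s) (1 * s) r := by
        have := (hasDerivAt_id r).ofReal_comp.mul_const s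
        simpa using this
      have := e0.neg
      rw [one_mul] at this
      exact this
    have := e1.cexp
    rwa [mul_comm] at this
  have h := integral_mul_deriv_eq_deriv_mul_of_integrable
    (u := fun r : ℝ => cexp (-(r * s))) (v := fun r : ℝ => ((iteratedDeriv j u r : ℝ) : ℂ))
    (u' := fun r : ℝ => -s * cexp (-(r * s))) (v' := fun r : ℝ => ((iteratedDeriv (j + 1) u r : ℝ) : ℂ))
    (fun r _ => hd r) (fun r _ => (ltb_hasDeriv hu j r).ofReal_comp)
    (ltb_int hu h0 h1 (j + 1) hs) ?_ (ltb_int hu h0 h1 j hs)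
  · rw [h, ← integral_neg, ← integral_const_mul]
    congr 1
    funext r
    ring
  · have := (ltb_int hu h0 h1 j hs).const_mul (-s)
    refine this.congr (Eventually.of_forall fun r => ?_)
    simp only [Pi.mul_apply]
    ring

end

theorem LT_bound_pr (hk : 1 ≤ k) {κ : ℝ} (hκ : 0 < κ) {A : ℕ} (hA : k ≤ A) :
    ∃ C : ℝ, 0 ≤ C ∧ ∀ s : ℂ, 0 < s.re → ‖LT k κ s‖ ≤ C * (‖s‖ ^ A)⁻¹ := by
  obtain ⟨u, hu, hur, hu0, hu1⟩ := hh_smooth hκ k
  have hr0 : 0 < Real.exp (-1) / √κ := by positivity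
  set r₀ := Real.exp (-1) / √κ with hr₀
  set r₁ := Real.exp 1 / √κ with hr₁
  have hcs : HasCompactSupport (iteratedDeriv A u) := by
    apply HasCompactSupport.intro (isCompact_Icc (a := r₀) (b := r₁))
    intro x hx
    rw [mem_Icc, not_and_or, not_le, not_le] at hx
    rcases hx with hx | hx
    · exact ltb_left hu0 A hx
    · obtain ⟨D, hD0, hD⟩ := ltb_right hu1 A
      rw [hD x hx, hD0 (by omega), zero_mul]
  have hint : Integrable (fun r => |iteratedDeriv A u r|) :=
    ((ltb_cont hu A).integrable_of_hasCompactSupport hcs).abs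
  refine ⟨∫ r, |iteratedDeriv A u r|, integral_nonneg fun r => abs_nonneg _, fun s hs => ?_⟩
  have hs0 : s ≠ 0 := by
    intro h
    rw [h] at hs
    simp at hs
  have hLT : LT k κ s = ∫ r : ℝ, cexp (-(r * s)) * ((iteratedDeriv 0 u r : ℝ) : ℂ) := by
    unfold LT
    rw [iteratedDeriv_zero]
    have e : ∫ r : ℝ, cexp (-(r * s)) * ((u r : ℝ) : ℂ) =
        ∫ r in Ioi (0 : ℝ), cexp (-(r * s)) * ((u r : ℝ) : ℂ) := by
      symm
      apply setIntegral_eq_integral_of_forall_compl_eq_zero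
      intro r hr
      rw [mem_Ioi, not_lt] at hr
      rw [hu0 r (by linarith)]
      simp
    rw [e]
    apply setIntegral_congr_fun measurableSet_Ioi
    intro r hr
    simp only
    rw [hur r hr, mul_comm]
  have hpow : ∀ j : ℕ, ∫ r : ℝ, cexp (-(r * s)) * ((iteratedDeriv j u r : ℝ) : ℂ) =
      s ^ j * LT k κ s := by
    intro j
    induction j with
    | zero => rw [hLT, pow_zero, one_mul]
    | succ j ih => rw [ltb_step hu hu0 hu1 j hs, ih, pow_succ]; ring
  have hb : ‖s ^ A * LT k κ s‖ ≤ ∫ r, |iteratedDeriv A u r| := by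
    rw [← hpow A]
    apply norm_integral_le_of_norm_le hint
    refine Eventually.of_forall fun r => ?_
    rw [norm_mul, Complex.norm_real, Real.norm_eq_abs]
    rcases lt_or_ge r r₀ with h | h
    · rw [ltb_left hu0 A h]
      simp
    · have : ‖cexp (-(r * s))‖ ≤ 1 := by
        rw [Complex.norm_exp]
        apply Real.exp_le_one_iff.2
        simp
        have : 0 ≤ r := by linarith
        positivity
      exact mul_le_of_le_one_left (abs_nonneg _) this
  rw [norm_mul, norm_pow] at hb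
  have hsA : 0 < ‖s‖ ^ A := by positivity
  rw [← div_eq_mul_inv, le_div_iff₀ hsA, mul_comm]
  exact hb

alias LT_bound := LT_bound_pr

end Pool.Agent.JOF
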