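import Pool.Agent.Lib_helper42.JO.FHDefs
import Pool.Agent.Lib_helper42.JOF.HHK

/-! JO, part FH, block LTM: positivity and monotonicity of the kernel -/

namespace Pool.Agent.JOF

open Pool.Agent.JO Complex MeasureTheory Filter Topology Set
open scoped ComplexConjugate ContDiff

/-- block LTM -/
theorem LT_real_pr (k : ℕ) (κ X : ℝ) : LT k κ X = (lt k κ X : ℂ) := by
  unfold LT lt
  refine Eq.trans ?_ integral_complex_ofReal
  refine integral_congr_ae (Eventually.of_forall fun r => ?_)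
  simp only []
  push_cast
  ring_nf

theorem ltm_int_gamma (k : ℕ) (hk : 1 ≤ k) {X : ℝ} (hX : 0 < X) :
    IntegrableOn (fun r : ℝ => r ^ (k - 1) * Real.exp (-(r * X))) (Ioi 0) := by
  have hk' : (0 : ℝ) < k := by exact_mod_cast hk
  have h := (Real.GammaIntegral_convergent hk')
  have h2 := (integrableOn_Ioi_comp_mul_left_iff
    (fun x : ℝ => Real.exp (-x) * x ^ ((k : ℝ) - 1)) 0 hX).2 (by simpa using h)
  have h3 := h2.const_mul ((X ^ (k - 1))⁻¹)
  refine IntegrableOn.congr_fun (f := fun r : ℝ => (X ^ (k - 1))⁻¹ *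
    (Real.exp (-(X * r)) * (X * r) ^ ((k : ℝ) - 1))) h3 (fun r hr => ?_) measurableSet_Ioi
  have hr0 : (0 : ℝ) < r := hr
  have e1 : ((k : ℝ) - 1) = ((k - 1 : ℕ) : ℝ) := by
    rw [Nat.cast_sub hk]; simp
  simp only []
  rw [e1, Real.rpow_natCast, mul_pow, mul_comm X r]
  have : X ^ (k - 1) ≠ 0 := by positivity
  field_simp

theorem ltm_integrable (k : ℕ) (hk : 1 ≤ k) {κ X c : ℝ} (hX : 0 < X) :
    IntegrableOn (fun r : ℝ => r ^ (k - 1) * hh κ (r * c) * Real.exp (-(r * X))) (Ioi 0) := by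
  have h := ltm_int_gamma k hk hX
  refine Integrable.mono' h ?_ ?_
  · have h1 : Measurable fun r : ℝ => hh κ (r * c) := (hh_meas κ).comp (by fun_prop)
    have h2 : Measurable fun r : ℝ => r ^ (k - 1) * hh κ (r * c) * Real.exp (-(r * X)) := by
      fun_prop
    exact h2.aestronglyMeasurable
  · refine (ae_restrict_iff' measurableSet_Ioi).2 (Eventually.of_forall fun r hr => ?_)
    have hr0 : (0 : ℝ) < r := hr
    obtain ⟨h0, h1⟩ := hh_mem κ (r * c)
    have hp : (0 : ℝ) ≤ r ^ (k - 1) := by positivity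
    have he := (Real.exp_pos (-(r * X))).le
    rw [Real.norm_of_nonneg (by positivity)]
    exact mul_le_mul_of_nonneg_right (mul_le_of_le_one_right hp h1) he

/-- block LTM -/
theorem lt_pos_pr {k : ℕ} (hk : 1 ≤ k) {κ X : ℝ} (hκ : 0 < κ) (hX : 0 < X) : 0 < lt k κ X := by
  unfold lt
  have hint : IntegrableOn (fun r : ℝ => r ^ (k - 1) * hh κ r * Real.exp (-(r * X))) (Ioi 0) := by
    simpa using ltm_integrable k hk (κ := κ) (c := 1) hX
  have hnn : 0 ≤ᵐ[volume.restrict (Ioi (0 : ℝ))]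
      fun r : ℝ => r ^ (k - 1) * hh κ r * Real.exp (-(r * X)) := by
    refine (ae_restrict_iff' measurableSet_Ioi).2 (Eventually.of_forall fun r hr => ?_)
    have hr0 : (0 : ℝ) < r := hr
    obtain ⟨h0, h1⟩ := hh_mem κ r
    have he := (Real.exp_pos (-(r * X))).le
    positivity
  rw [integral_pos_iff_support_of_nonneg_ae hnn hint]
  set r₁ : ℝ := Real.exp 1 / √κ with hr₁
  have hr₁0 : 0 < r₁ := by
    have := Real.sqrt_pos.2 hκ
    positivity
  have hsub : Ioi r₁ ⊆ Function.support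
      fun r : ℝ => r ^ (k - 1) * hh κ r * Real.exp (-(r * X)) := by
    intro r hr
    have hr0 : (0 : ℝ) < r := hr₁0.trans hr
    rw [Function.mem_support, hh_one hκ (le_of_lt hr)]
    have he := (Real.exp_pos (-(r * X)))
    positivity
  have hlt : (0 : ENNReal) < volume.restrict (Ioi (0 : ℝ)) (Ioi r₁) := by
    rw [Measure.restrict_apply measurableSet_Ioi, Ioi_inter_Ioi, sup_eq_left.2 hr₁0.le]
    simp
  exact hlt.trans_le (measure_mono hsub)

theorem ltm_subst {k : ℕ} (hk : 1 ≤ k) {κ X : ℝ} (hX : 0 < X) :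
    X ^ k * lt k κ X =
      ∫ v in Ioi (0 : ℝ), v ^ (k - 1) * hh κ (v * X⁻¹) * Real.exp (-(v * 1)) := by
  have h := integral_comp_mul_left_Ioi
    (fun v : ℝ => v ^ (k - 1) * hh κ (v * X⁻¹) * Real.exp (-(v * 1))) 0 hX
  rw [mul_zero] at h
  have h2 : ∫ v in Ioi (0 : ℝ), v ^ (k - 1) * hh κ (v * X⁻¹) * Real.exp (-(v * 1)) =
      X * ∫ x in Ioi (0 : ℝ),
        (X * x) ^ (k - 1) * hh κ (X * x * X⁻¹) * Real.exp (-(X * x * 1)) := by
    rw [h, smul_eq_mul, ← mul_assoc, mul_inv_cancel₀ hX.ne', one_mul]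
  rw [h2]
  unfold lt
  rw [← integral_const_mul, ← integral_const_mul]
  refine integral_congr_ae (Eventually.of_forall fun r => ?_)
  simp only []
  have e1 : X * r * X⁻¹ = r := by field_simp
  have e2 : X ^ k = X * X ^ (k - 1) := by
    rw [← pow_succ']; congr 1; omega
  rw [e1, mul_pow, e2, mul_one, mul_comm X r]
  ring

/-- block LTM: `X^k lt(X) = ∫ v^{k-1} e^{-v} hh κ (v/X) dv` and `hh` is monotone -/
theorem lt_anti_pr {k : ℕ} (hk : 1 ≤ k) {κ X Y : ℝ} (hκ : 0 < κ) (hX : 0 < X) (hXY : X ≤ Y) :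
    Y ^ k * lt k κ Y ≤ X ^ k * lt k κ X := by
  have hY : 0 < Y := hX.trans_le hXY
  rw [ltm_subst hk hX, ltm_subst hk hY]
  refine setIntegral_mono_on (ltm_integrable k hk one_pos) (ltm_integrable k hk one_pos)
    measurableSet_Ioi fun v hv => ?_
  have hv0 : (0 : ℝ) < v := hv
  have h1 : v * Y⁻¹ ≤ v * X⁻¹ := mul_le_mul_of_nonneg_left (inv_anti₀ hX hXY) hv0.le
  have h2 := hh_mono (κ := κ) (by positivity : 0 < v * Y⁻¹) h1
  have he := (Real.exp_pos (-(v * 1))).le
  have hp : (0 : ℝ) ≤ v ^ (k - 1) := by positivity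
  exact mul_le_mul_of_nonneg_right (mul_le_mul_of_nonneg_left h2 hp) he

alias LT_real := LT_real_pr

alias lt_pos := lt_pos_pr

alias lt_anti := lt_anti_pr

end Pool.Agent.JOF
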