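import Pool.Agent.Lib_helper42.JO.FHDefs
import Pool.Agent.Lib_helper42.JOF.RSS

/-!
# Project JO, part FH, block ODB
-/

namespace Pool.Agent.JOF

open Pool.Agent.JO Complex MeasureTheory Filter Topology Set
open scoped ComplexConjugate ContDiff

variable {k N : ℕ} {a b : ℕ → ℂ} {f g : ℂ → ℂ} {c : ℂ} {M : ℝ}

/-- the weight `|j|^(-3/2)` -/
noncomputable def odb_phi (j : ℤ) : ℝ := |(j : ℝ)| ^ (-(3 / 2) : ℝ)

theorem odb_phi_summable : Summable odb_phi :=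
  Real.summable_abs_int_rpow (by norm_num)

theorem odb_phi_nonneg (j : ℤ) : 0 ≤ odb_phi j := Real.rpow_nonneg (abs_nonneg _) _

theorem odb_prod (u : ℕ → ℝ) (hu0 : ∀ n, 0 ≤ u n) (hu : Summable u) (θ : ℕ × ℕ → ℤ)
    (hθ : ∀ m, Function.Injective fun n => θ (m, n)) :
    Summable (fun x : ℕ × ℕ => u x.1 * odb_phi (θ x)) ∧
      ∑' x : ℕ × ℕ, u x.1 * odb_phi (θ x) ≤ (∑' j, odb_phi j) * ∑' n, u n := by
  have h1 : ∀ m, Summable fun n => odb_phi (θ (m, n)) := fun m =>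
    odb_phi_summable.comp_injective (hθ m)
  have h2 : ∀ m, ∑' n, odb_phi (θ (m, n)) ≤ ∑' j, odb_phi j := fun m =>
    (h1 m).tsum_le_tsum_of_inj (fun n => θ (m, n)) (hθ m) (fun j _ => odb_phi_nonneg j)
      (fun n => le_rfl) odb_phi_summable
  have h3 : ∀ m, ∑' n, u m * odb_phi (θ (m, n)) ≤ (∑' j, odb_phi j) * u m := fun m => by
    rw [tsum_mul_left, mul_comm]
    exact mul_le_mul_of_nonneg_right (h2 m) (hu0 m)
  have h4 : ∀ m, 0 ≤ ∑' n, u m * odb_phi (θ (m, n)) := fun m =>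
    tsum_nonneg fun n => mul_nonneg (hu0 m) (odb_phi_nonneg _)
  have h5 : Summable fun m => ∑' n, u m * odb_phi (θ (m, n)) :=
    Summable.of_nonneg_of_le h4 h3 (hu.mul_left _)
  have hs : Summable (fun x : ℕ × ℕ => u x.1 * odb_phi (θ x)) := by
    rw [summable_prod_of_nonneg (fun x => mul_nonneg (hu0 _) (odb_phi_nonneg _))]
    exact ⟨fun m => (h1 m).mul_left (u m), h5⟩
  refine ⟨hs, ?_⟩
  rw [hs.tsum_prod' (fun m => (h1 m).mul_left (u m)), ← tsum_mul_left]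
  exact h5.tsum_le_tsum h3 (hu.mul_left _)

theorem odb_term {m n q : ℕ} (hq : 1 ≤ q) (hne : m ≠ q * n) {ε : ℝ} (hε : 0 < ε) (k : ℕ) {X : ℝ}
    (hX0 : 0 ≤ X) (hX : X ≤ m + q * n) :
    ((|(m : ℝ) - q * n| + ε * (m + q * n)) ^ (k + 2))⁻¹ ≤
      (1 + ε * X) ^ (-((k : ℝ) + 1 / 2)) * odb_phi ((m : ℤ) - q * n) := by
  have hz : ((m : ℤ) - q * n) ≠ 0 := by
    intro h
    apply hne
    have : (m : ℤ) = q * n := by linarith
    exact_mod_cast this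
  have hd : (1 : ℝ) ≤ |(m : ℝ) - q * n| := by
    have : (1 : ℤ) ≤ |(m : ℤ) - q * n| := Int.one_le_abs hz
    exact_mod_cast this
  set d : ℝ := |(m : ℝ) - q * n| with hdd
  set A : ℝ := d + ε * (m + q * n) with hA
  have hmn : (0 : ℝ) ≤ m + q * n := by positivity
  have hAd : d ≤ A := by rw [hA]; nlinarith
  have hAX : 1 + ε * X ≤ A := by rw [hA]; nlinarith
  have hA0 : 0 < A := by linarith
  have h1X : 0 < 1 + ε * X := by positivity
  have e1 : A ^ (k + 2) = A ^ ((3 / 2 : ℝ)) * A ^ ((k : ℝ) + 1 / 2) := by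
    rw [← Real.rpow_add hA0, ← Real.rpow_natCast]
    congr 1
    push_cast
    ring
  have e2 : odb_phi ((m : ℤ) - q * n) = (d ^ (3 / 2 : ℝ))⁻¹ := by
    unfold odb_phi
    push_cast
    rw [← hdd, Real.rpow_neg (by linarith)]
  rw [e1, e2, Real.rpow_neg h1X.le, mul_inv, mul_comm]
  have h1 : d ^ (3 / 2 : ℝ) ≤ A ^ (3 / 2 : ℝ) :=
    Real.rpow_le_rpow (by linarith) hAd (by norm_num)
  have h2 : (1 + ε * X) ^ ((k : ℝ) + 1 / 2) ≤ A ^ ((k : ℝ) + 1 / 2) :=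
    Real.rpow_le_rpow h1X.le hAX (by positivity)
  have h3 : 0 < d ^ (3 / 2 : ℝ) := Real.rpow_pos_of_pos (by linarith) _
  have h4 : 0 < (1 + ε * X) ^ ((k : ℝ) + 1 / 2) := Real.rpow_pos_of_pos h1X _
  exact mul_le_mul (inv_anti₀ h4 h2) (inv_anti₀ h3 h1) (by positivity) (by positivity)

theorem off_diag_pr (h : Half k a f M) {q : ℕ} (hq : 1 ≤ q) :
    ∃ C : ℝ, 0 ≤ C ∧ ∀ ε : ℝ, 0 < ε →
      Summable (fun x : ℕ × ℕ => if x.1 = q * x.2 then 0 else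
        ‖a x.1‖ * ‖a x.2‖ *
          ((|(x.1 : ℝ) - q * x.2| + ε * (x.1 + q * x.2)) ^ (k + 2))⁻¹) ∧
      ∑' x : ℕ × ℕ, (if x.1 = q * x.2 then 0 else
        ‖a x.1‖ * ‖a x.2‖ *
          ((|(x.1 : ℝ) - q * x.2| + ε * (x.1 + q * x.2)) ^ (k + 2))⁻¹) ≤ C * (ε ^ k)⁻¹ := by
  obtain ⟨C₀, hC₀, hrs⟩ := rs_sum h (σ := (k : ℝ) + 1 / 2) (by linarith)
  set Z := ∑' j, odb_phi j with hZ
  have hZ0 : 0 ≤ Z := tsum_nonneg odb_phi_nonneg
  refine ⟨Z * C₀, by positivity, fun ε hε => ?_⟩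
  obtain ⟨hs, ht⟩ := hrs ε hε
  set u : ℕ → ℝ := fun n => ‖a n‖ ^ 2 * (1 + ε * n) ^ (-((k : ℝ) + 1 / 2)) with hu
  have hu0 : ∀ n, 0 ≤ u n := fun n => by rw [hu]; positivity
  -- first part
  obtain ⟨hA1, hA2⟩ := odb_prod u hu0 hs (fun x => (x.1 : ℤ) - q * x.2) (fun m n n' hnn => by
    simp only at hnn
    have h1 : (q : ℤ) * n = q * n' := by linarith
    have h2 : (q : ℤ) ≠ 0 := by exact_mod_cast (by omega : q ≠ 0)
    exact_mod_cast mul_left_cancel₀ h2 h1)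
  -- second part
  obtain ⟨hB1, hB2⟩ := odb_prod u hu0 hs (fun x => (x.2 : ℤ) - q * x.1) (fun m n n' hnn => by
    simp only at hnn
    have h1 : (n : ℤ) = n' := by linarith
    exact_mod_cast h1)
  have hB1' : Summable (fun x : ℕ × ℕ => u x.2 * odb_phi ((x.1 : ℤ) - q * x.2)) :=
    (Equiv.prodComm ℕ ℕ).summable_iff.mpr hB1
  have hB2' : ∑' x : ℕ × ℕ, u x.2 * odb_phi ((x.1 : ℤ) - q * x.2) ≤ Z * ∑' n, u n := by
    refine le_trans (le_of_eq ?_) hB2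
    exact ((Equiv.prodComm ℕ ℕ).tsum_eq
      (fun x : ℕ × ℕ => u x.1 * odb_phi ((x.2 : ℤ) - q * x.1)))
  have hle : ∀ x : ℕ × ℕ, (if x.1 = q * x.2 then 0 else
        ‖a x.1‖ * ‖a x.2‖ *
          ((|(x.1 : ℝ) - q * x.2| + ε * (x.1 + q * x.2)) ^ (k + 2))⁻¹) ≤
      1 / 2 * (u x.1 * odb_phi ((x.1 : ℤ) - q * x.2)) +
        1 / 2 * (u x.2 * odb_phi ((x.1 : ℤ) - q * x.2)) := by
    intro x
    have hφ := odb_phi_nonneg ((x.1 : ℤ) - q * x.2)
    split_ifs with hx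
    · have := hu0 x.1
      have := hu0 x.2
      positivity
    · have h1 := odb_term hq hx hε k (X := (x.1 : ℝ)) (by positivity)
        (by have : (0 : ℝ) ≤ q * x.2 := by positivity
            linarith)
      have h2 := odb_term hq hx hε k (X := (x.2 : ℝ)) (by positivity) (by
        have h3 : (1 : ℝ) ≤ q := by exact_mod_cast hq
        have h4 : (0 : ℝ) ≤ x.2 := by positivity
        have h5 : (0 : ℝ) ≤ x.1 := by positivity
        have h6 : 1 * (x.2 : ℝ) ≤ q * x.2 := mul_le_mul_of_nonneg_right h3 h4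
        linarith)
      set D := ((|(x.1 : ℝ) - q * x.2| + ε * (x.1 + q * x.2)) ^ (k + 2))⁻¹ with hD
      have hD0 : 0 ≤ D := by rw [hD]; positivity
      have h3 : ‖a x.1‖ ^ 2 * D ≤ u x.1 * odb_phi ((x.1 : ℤ) - q * x.2) := by
        rw [hu]
        simp only
        rw [mul_assoc]
        exact mul_le_mul_of_nonneg_left h1 (by positivity)
      have h4 : ‖a x.2‖ ^ 2 * D ≤ u x.2 * odb_phi ((x.1 : ℤ) - q * x.2) := by
        rw [hu]
        simp only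
        rw [mul_assoc]
        exact mul_le_mul_of_nonneg_left h2 (by positivity)
      have h5 : ‖a x.1‖ * ‖a x.2‖ * D ≤ 1 / 2 * (‖a x.1‖ ^ 2 * D) + 1 / 2 * (‖a x.2‖ ^ 2 * D) := by
        have h6 := mul_nonneg (sq_nonneg (‖a x.1‖ - ‖a x.2‖)) hD0
        have h7 : (‖a x.1‖ - ‖a x.2‖) ^ 2 * D =
          ‖a x.1‖ ^ 2 * D + ‖a x.2‖ ^ 2 * D - 2 * (‖a x.1‖ * ‖a x.2‖ * D) := by ring
        rw [h7] at h6
        linarith
      linarith
  have h0 : ∀ x : ℕ × ℕ, 0 ≤ (if x.1 = q * x.2 then 0 else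
        ‖a x.1‖ * ‖a x.2‖ *
          ((|(x.1 : ℝ) - q * x.2| + ε * (x.1 + q * x.2)) ^ (k + 2))⁻¹) := by
    intro x
    split_ifs
    · exact le_rfl
    · positivity
  have hsum := (hA1.mul_left (1 / 2)).add (hB1'.mul_left (1 / 2))
  have hs' := Summable.of_nonneg_of_le h0 hle hsum
  refine ⟨hs', (hs'.tsum_le_tsum hle hsum).trans ?_⟩
  rw [(hA1.mul_left (1 / 2)).tsum_add (hB1'.mul_left (1 / 2)), tsum_mul_left, tsum_mul_left]
  have h6 : Z * ∑' n, u n ≤ Z * (C₀ * (ε ^ k)⁻¹) := mul_le_mul_of_nonneg_left ht hZ0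
  calc _ ≤ 1 / 2 * (Z * ∑' n, u n) + 1 / 2 * (Z * ∑' n, u n) := by
        apply add_le_add
        · exact mul_le_mul_of_nonneg_left hA2 (by norm_num)
        · exact mul_le_mul_of_nonneg_left hB2' (by norm_num)
    _ = Z * ∑' n, u n := by ring
    _ ≤ Z * (C₀ * (ε ^ k)⁻¹) := h6
    _ = Z * C₀ * (ε ^ k)⁻¹ := by ring

alias off_diag := off_diag_pr

end Pool.Agent.JOF
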