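import Pool.Agent.Lib_helper42.JO.FHDefs
import Pool.Agent.Lib_helper42.JOF.JXP
import Pool.Agent.Lib_helper42.JOF.LTB
import Pool.Agent.Lib_helper42.JOF.LTM
import Pool.Agent.Lib_helper42.JOF.ODB

/-!
# Block JDI: the diagonal of the shifted integral
-/

namespace Pool.Agent.JOF

open Pool.Agent.JO Complex MeasureTheory Filter Topology Set
open scoped ComplexConjugate ContDiff

variable {k N : ℕ} {a b : ℕ → ℂ} {f g : ℂ → ℂ} {c : ℂ} {M : ℝ}

theorem jdi_norm {ε θ : ℝ} (h0 : 0 < ε) (h1 : ε < 1) (hθ : θ = ε ∨ θ = Real.pi - ε) {u v : ℝ}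
    (hv : 0 ≤ v) :
    |u| + ε * v ≤ ‖(2 * Real.pi * ((v : ℂ) * Real.sin θ - (u : ℂ) * Real.cos θ * I) : ℂ)‖ := by
  have hpi := Real.pi_gt_three
  have hsin : Real.sin θ = Real.sin ε := by
    rcases hθ with rfl | rfl
    · rfl
    · rw [Real.sin_pi_sub]
  have hcos : |Real.cos θ| = Real.cos ε := by
    have h2 : 0 < Real.cos ε := Real.cos_pos_of_mem_Ioo ⟨by linarith, by linarith⟩
    rcases hθ with rfl | rfl
    · exact abs_of_pos h2
    · rw [Real.cos_pi_sub, abs_neg]; exact abs_of_pos h2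
  have h3 : 2 / Real.pi * ε ≤ Real.sin ε := Real.mul_le_sin h0.le (by linarith)
  have h4 : 1 / 2 ≤ Real.cos ε := by
    have := Real.one_sub_sq_div_two_le_cos (x := ε)
    nlinarith
  set s : ℂ := (2 * Real.pi * ((v : ℂ) * Real.sin θ - (u : ℂ) * Real.cos θ * I) : ℂ) with hs
  have hs' : s = ((2 * Real.pi * (v * Real.sin θ) : ℝ) : ℂ) +
      ((-(2 * Real.pi * (u * Real.cos θ)) : ℝ) : ℂ) * I := by
    rw [hs]; push_cast; ring
  have hre : s.re = 2 * Real.pi * (v * Real.sin θ) := by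
    rw [hs', Complex.add_re, Complex.ofReal_re, Complex.re_ofReal_mul, Complex.I_re, mul_zero,
      add_zero]
  have him : s.im = -(2 * Real.pi * (u * Real.cos θ)) := by
    rw [hs', Complex.add_im, Complex.ofReal_im, Complex.im_ofReal_mul, Complex.I_im, mul_one,
      zero_add]
  have h5 := Complex.abs_re_le_norm s
  have h6 := Complex.abs_im_le_norm s
  rw [hre, hsin, abs_of_nonneg] at h5
  swap
  · have : 0 ≤ Real.sin ε := le_trans (by positivity) h3
    positivity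
  rw [him, abs_neg, abs_mul (2 * Real.pi), abs_mul u, hcos,
    abs_of_pos (by positivity : (0 : ℝ) < 2 * Real.pi)] at h6
  have h7 : 4 * (ε * v) ≤ 2 * Real.pi * (v * Real.sin ε) := by
    have h8 : 2 * ε ≤ Real.pi * Real.sin ε := by
      have h9 : Real.pi * (2 / Real.pi * ε) = 2 * ε := by field_simp
      rw [← h9]
      gcongr
    nlinarith
  have h8 : 3 * |u| ≤ 2 * Real.pi * (|u| * Real.cos ε) := by
    have h9 : 0 ≤ |u| := abs_nonneg u
    have h10 : |u| * (1 / 2) ≤ |u| * Real.cos ε := by gcongr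
    nlinarith
  have h9 : 0 ≤ |u| := abs_nonneg u
  have h10 : 0 ≤ ε * v := by positivity
  nlinarith

theorem jj_diag_pr (h : Half k a f M) {q : ℕ} (hq : 1 ≤ q) {κ : ℝ} (hκ : 0 < κ) :
    ∃ C : ℝ, 0 ≤ C ∧ ∀ ε : ℝ, 0 < ε → ε < 1 → ∀ θ : ℝ, (θ = ε ∨ θ = Real.pi - ε) →
      ‖JJ k q κ f θ - UU (lt k κ) q a (4 * Real.pi * q * Real.sin ε)‖ ≤ C * (ε ^ k)⁻¹ := by
  have hk := h.hk
  obtain ⟨C₁, hC₁, hLT⟩ := LT_bound hk hκ (A := k + 2) (by omega)
  obtain ⟨C₂, hC₂, hoff⟩ := off_diag h hq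
  refine ⟨C₁ * C₂, by positivity, ?_⟩
  intro ε h0 h1 θ hθ
  have hpi := Real.pi_gt_three
  have hθ0 : 0 < θ := by rcases hθ with rfl | rfl <;> linarith
  have hθ1 : θ < Real.pi := by rcases hθ with rfl | rfl <;> linarith
  have hsin : Real.sin θ = Real.sin ε := by
    rcases hθ with rfl | rfl
    · rfl
    · rw [Real.sin_pi_sub]
  have hexp := jj_expand h hq hκ hθ0 hθ1
  set s : ℕ × ℕ → ℂ := fun x => 2 * Real.pi * (((x.1 : ℂ) + q * x.2) * Real.sin θ -
        ((x.1 : ℂ) - q * x.2) * Real.cos θ * I) with hs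
  set T : ℕ × ℕ → ℂ := fun x => a x.1 * conj (a x.2) * LT k κ (s x) with hT
  set O : ℕ × ℕ → ℝ := fun x => if x.1 = q * x.2 then 0 else
        ‖a x.1‖ * ‖a x.2‖ *
          ((|(x.1 : ℝ) - q * x.2| + ε * (x.1 + q * x.2)) ^ (k + 2))⁻¹ with hO
  obtain ⟨hO1, hO2⟩ := hoff ε h0
  set To : ℕ × ℕ → ℂ := fun x => if x.1 = q * x.2 then 0 else T x with hTo
  set Td : ℕ × ℕ → ℂ := fun x => if x.1 = q * x.2 then T x else 0 with hTd
  have hsnorm : ∀ x : ℕ × ℕ, |(x.1 : ℝ) - q * x.2| + ε * (x.1 + q * x.2) ≤ ‖s x‖ := by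
    intro x
    have := jdi_norm h0 h1 hθ (u := (x.1 : ℝ) - q * x.2) (v := (x.1 : ℝ) + q * x.2) (by positivity)
    rw [hs]
    push_cast at this ⊢
    exact this
  have hsre : ∀ x : ℕ × ℕ, (s x).re = 2 * Real.pi * (((x.1 : ℝ) + q * x.2) * Real.sin θ) := by
    intro x
    have : s x = ((2 * Real.pi * (((x.1 : ℝ) + q * x.2) * Real.sin θ) : ℝ) : ℂ) +
      ((-(2 * Real.pi * (((x.1 : ℝ) - q * x.2) * Real.cos θ)) : ℝ) : ℂ) * I := by
      rw [hs]; push_cast; ring
    rw [this, Complex.add_re, Complex.ofReal_re, Complex.re_ofReal_mul, Complex.I_re, mul_zero,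
      add_zero]
  have hsinpos : 0 < Real.sin θ := Real.sin_pos_of_pos_of_lt_pi hθ0 hθ1
  have hbound : ∀ x, ‖To x‖ ≤ C₁ * O x := by
    intro x
    rw [hTo, hO]
    by_cases hx : x.1 = q * x.2
    · simp [hx]
    · simp only [hx, if_false]
      have hpos : 0 < (x.1 : ℝ) + q * x.2 := by
        have h2 : 0 < x.1 + q * x.2 := by
          rcases Nat.eq_zero_or_pos (x.1 + q * x.2) with h3 | h3
          · omega
          · exact h3
        exact_mod_cast h2
      have hre : 0 < (s x).re := by rw [hsre]; positivity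
      have h2 := hLT (s x) hre
      have h3 : 0 < |(x.1 : ℝ) - q * x.2| + ε * (x.1 + q * x.2) := by
        have := abs_nonneg ((x.1 : ℝ) - q * x.2)
        positivity
      rw [hT]
      simp only
      rw [norm_mul, norm_mul, Complex.norm_conj]
      calc ‖a x.1‖ * ‖a x.2‖ * ‖LT k κ (s x)‖
          ≤ ‖a x.1‖ * ‖a x.2‖ * (C₁ * (‖s x‖ ^ (k + 2))⁻¹) := by gcongr
        _ ≤ ‖a x.1‖ * ‖a x.2‖ *
            (C₁ * ((|(x.1 : ℝ) - q * x.2| + ε * (x.1 + q * x.2)) ^ (k + 2))⁻¹) := by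
            gcongr
            exact hsnorm x
        _ = _ := by ring
  have hToS : Summable To := Summable.of_norm_bounded (hO1.mul_left C₁) hbound
  have hToB : ‖∑' x, To x‖ ≤ C₁ * (C₂ * (ε ^ k)⁻¹) := by
    refine (tsum_of_norm_bounded (hO1.mul_left C₁).hasSum hbound).trans ?_
    rw [tsum_mul_left]
    gcongr
  have hsum : ∀ x, T x = Td x + To x := by
    intro x
    rw [hTd, hTo]
    by_cases hx : x.1 = q * x.2 <;> simp [hx]
  have hTs : Summable T := hexp.summable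
  have hTdS : Summable Td := by
    have : Td = fun x => T x - To x := by
      funext x; rw [hsum x]; ring
    rw [this]
    exact hTs.sub hToS
  have hJ : JJ k q κ f θ = ∑' x, Td x + ∑' x, To x := by
    rw [← hexp.tsum_eq, ← hTdS.tsum_add hToS]
    exact tsum_congr hsum
  have hdiag : ∑' x, Td x = UU (lt k κ) q a (4 * Real.pi * q * Real.sin ε) := by
    have hinj : Function.Injective (fun n : ℕ => ((q * n, n) : ℕ × ℕ)) := by
      intro m n hmn
      exact (Prod.ext_iff.1 hmn).2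
    rw [← hinj.tsum_eq]
    · unfold UU
      refine tsum_congr fun n => ?_
      rw [hTd]
      simp only [if_true]
      rw [hT]
      simp only
      have e1 : s (q * n, n) = ((n * (4 * Real.pi * q * Real.sin ε) : ℝ) : ℂ) := by
        rw [hs]
        simp only
        rw [hsin]
        push_cast
        ring
      rw [e1, LT_real]
    · intro x hx
      rw [Function.mem_support, hTd] at hx
      simp only [ne_eq, ite_eq_right_iff, Classical.not_imp] at hx
      exact ⟨x.2, Prod.ext hx.1.symm rfl⟩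
  rw [hJ, hdiag, add_sub_cancel_left]
  calc ‖∑' x, To x‖ ≤ C₁ * (C₂ * (ε ^ k)⁻¹) := hToB
    _ = _ := by ring

alias jj_diag := jj_diag_pr

end Pool.Agent.JOF
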