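import Pool.Agent.Lib_helper42.JO.FHDefs
import Pool.Agent.Lib_helper42.JOF.DVG
import Pool.Agent.Lib_helper42.JOF.HHK
import Pool.Agent.Lib_helper42.JOF.LTM
import Pool.Agent.Lib_helper42.JOF.PAR

/-! JO, part FH, block TTU: the weighted sums are unbounded -/

namespace Pool.Agent.JOF

open Pool.Agent.JO Complex MeasureTheory Filter Topology Set
open scoped ComplexConjugate ContDiff

variable {k N : ℕ} {a b : ℕ → ℂ} {f g : ℂ → ℂ} {c : ℂ} {M : ℝ}

theorem ttu_int_gamma (k : ℕ) (hk : 1 ≤ k) {X : ℝ} (hX : 0 < X) :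
    IntegrableOn (fun r : ℝ => r ^ (k - 1) * Real.exp (-(r * X))) (Ioi 0) := by
  have hk' : (0 : ℝ) < k := by exact_mod_cast hk
  have h := (Real.GammaIntegral_convergent hk')
  have h2 := (integrableOn_Ioi_comp_mul_left_iff
    (fun x : ℝ => Real.exp (-x) * x ^ ((k : ℝ) - 1)) 0 hX).2 (by simpa using h)
  have h3 := h2.const_mul ((X ^ (k - 1))⁻¹)
  refine IntegrableOn.congr_fun (f := fun r : ℝ => (X ^ (k - 1))⁻¹ *
    (Real.exp (-(X * r)) * (X * r) ^ ((k : ℝ) - 1))) h3 (fun r hr => ?_) measurableSet_Ioi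
  have hr0 : (0 : ℝ) < r := hr
  have e1 : ((k : ℝ) - 1) = ((k - 1 : ℕ) : ℝ) := by
    rw [Nat.cast_sub hk]; simp
  simp only []
  rw [e1, Real.rpow_natCast, mul_pow, mul_comm X r]
  have : X ^ (k - 1) ≠ 0 := by positivity
  field_simp

/-- exponential decay of the kernel -/
theorem ttu_lt_le (hk : 1 ≤ k) {κ X : ℝ} (hκ : 0 < κ) (hX : 0 < X) {Z : ℝ} (hZ : X ≤ Z) :
    lt k κ Z ≤ (∫ r in Ioi (0 : ℝ), r ^ (k - 1) * Real.exp (-(r * (X / 2)))) *
      Real.exp (-(Real.exp (-1) / √κ / 2 * Z)) := by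
  have hZ0 : 0 < Z := hX.trans_le hZ
  set r₀ : ℝ := Real.exp (-1) / √κ with hr₀
  have hr₀0 : 0 < r₀ := by
    have := Real.sqrt_pos.2 hκ
    positivity
  unfold lt
  rw [← integral_mul_const]
  have hint2 : IntegrableOn (fun r : ℝ => r ^ (k - 1) * Real.exp (-(r * (X / 2))) *
      Real.exp (-(r₀ / 2 * Z))) (Ioi 0) := (ttu_int_gamma k hk (half_pos hX)).mul_const _
  have hint1 : IntegrableOn (fun r : ℝ => r ^ (k - 1) * hh κ r * Real.exp (-(r * Z)))
      (Ioi 0) := by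
    refine Integrable.mono' (ttu_int_gamma k hk hZ0) ?_ ?_
    · have h1 : Measurable fun r : ℝ => hh κ r := hh_meas κ
      have h2 : Measurable fun r : ℝ => r ^ (k - 1) * hh κ r * Real.exp (-(r * Z)) := by
        fun_prop
      exact h2.aestronglyMeasurable
    · refine (ae_restrict_iff' measurableSet_Ioi).2 (Eventually.of_forall fun r hr => ?_)
      have hr0 : (0 : ℝ) < r := hr
      obtain ⟨h0, h1⟩ := hh_mem κ r
      have hp : (0 : ℝ) ≤ r ^ (k - 1) := by positivity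
      have he := (Real.exp_pos (-(r * Z))).le
      rw [Real.norm_of_nonneg (by positivity)]
      exact mul_le_mul_of_nonneg_right (mul_le_of_le_one_right hp h1) he
  refine setIntegral_mono_on hint1 hint2 measurableSet_Ioi fun r hr => ?_
  have hr0 : (0 : ℝ) < r := hr
  have hp : (0 : ℝ) ≤ r ^ (k - 1) := by positivity
  rcases le_total r r₀ with hle | hge
  · rw [hh_zero hκ hr0 hle]
    have := (Real.exp_pos (-(r * (X / 2)))).le
    have := (Real.exp_pos (-(r₀ / 2 * Z))).le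
    rw [mul_zero, zero_mul]
    positivity
  · obtain ⟨h0, h1⟩ := hh_mem κ r
    have he := (Real.exp_pos (-(r * Z))).le
    have h2 : Real.exp (-(r * Z)) ≤ Real.exp (-(r * (X / 2))) * Real.exp (-(r₀ / 2 * Z)) := by
      rw [← Real.exp_add]
      refine Real.exp_le_exp.2 ?_
      have e1 : r₀ * Z ≤ r * Z := mul_le_mul_of_nonneg_right hge hZ0.le
      have e2 : r * X ≤ r * Z := mul_le_mul_of_nonneg_left hZ hr0.le
      linarith
    calc r ^ (k - 1) * hh κ r * Real.exp (-(r * Z)) ≤ r ^ (k - 1) * Real.exp (-(r * Z)) :=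
          mul_le_mul_of_nonneg_right (mul_le_of_le_one_right hp h1) he
      _ ≤ r ^ (k - 1) * (Real.exp (-(r * (X / 2))) * Real.exp (-(r₀ / 2 * Z))) :=
          mul_le_mul_of_nonneg_left h2 hp
      _ = r ^ (k - 1) * Real.exp (-(r * (X / 2))) * Real.exp (-(r₀ / 2 * Z)) := by ring

theorem ttu_summable (h : Half k a f M) {κ X : ℝ} (hκ : 0 < κ) (hX : 0 < X) :
    Summable (fun n : ℕ => ‖a n‖ ^ 2 * lt k κ (n * X)) := by
  set r₀ : ℝ := Real.exp (-1) / √κ with hr₀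
  have hr₀0 : 0 < r₀ := by
    have := Real.sqrt_pos.2 hκ
    positivity
  set I₀ : ℝ := ∫ r in Ioi (0 : ℝ), r ^ (k - 1) * Real.exp (-(r * (X / 2))) with hI₀
  have hy : 0 < r₀ * X / (8 * Real.pi) := by
    have := Real.pi_pos
    positivity
  have hs := ((cbs h hy).1).mul_left I₀
  refine Summable.of_nonneg_of_le (fun n => ?_) (fun n => ?_) hs
  · rcases Nat.eq_zero_or_pos n with rfl | hn
    · simp [h.a0]
    · have hn' : (0 : ℝ) < n := by exact_mod_cast hn
      have := (lt_pos h.hk hκ (by positivity : 0 < (n : ℝ) * X)).le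
      positivity
  · rcases Nat.eq_zero_or_pos n with rfl | hn
    · simp [h.a0]
    · have hn' : (1 : ℝ) ≤ n := by exact_mod_cast hn
      have h1 := ttu_lt_le h.hk hκ hX (Z := (n : ℝ) * X) (by nlinarith)
      have e1 : 4 * Real.pi * n * (r₀ * X / (8 * Real.pi)) = r₀ / 2 * ((n : ℝ) * X) := by
        have := Real.pi_pos
        field_simp
        ring
      rw [e1]
      calc ‖a n‖ ^ 2 * lt k κ (n * X) ≤ ‖a n‖ ^ 2 * (I₀ * Real.exp (-(r₀ / 2 * ((n : ℝ) * X)))) :=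
            mul_le_mul_of_nonneg_left h1 (by positivity)
        _ = I₀ * (‖a n‖ ^ 2 * Real.exp (-(r₀ / 2 * ((n : ℝ) * X)))) := by ring

/-- block TTU -/
theorem tt_unbounded_pr (h : Frame k N a b f g c M) {κ : ℝ} (hκ : 0 < κ) :
    ∀ B : ℝ, ∃ δ : ℝ, 0 < δ ∧ ∀ X : ℝ, 0 < X → X < δ → B ≤ X ^ k * TT (lt k κ) a X := by
  intro B
  have hk := h.fh.hk
  have hl : 0 < lt k κ 1 := lt_pos hk hκ one_pos
  have hdiv := (not_summable_iff_tendsto_nat_atTop_of_nonneg
    (fun n => by positivity : ∀ n : ℕ, 0 ≤ ‖a n‖ ^ 2 / (n : ℝ) ^ k)).1 (rs_div h)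
  obtain ⟨n₀, hn₀⟩ := (hdiv.eventually_ge_atTop (B / lt k κ 1)).exists
  refine ⟨1 / ((n₀ : ℝ) + 1), by positivity, fun X hX hXδ => ?_⟩
  have hX1 : X * ((n₀ : ℝ) + 1) < 1 := by
    rwa [lt_div_iff₀ (by positivity)] at hXδ
  have hsum := (ttu_summable h.fh hκ hX).mul_left (X ^ k)
  have e1 : X ^ k * TT (lt k κ) a X = ∑' n : ℕ, X ^ k * (‖a n‖ ^ 2 * lt k κ (n * X)) := by
    unfold TT
    rw [tsum_mul_left]
  rw [e1]
  have hterm : ∀ n : ℕ, 0 ≤ X ^ k * (‖a n‖ ^ 2 * lt k κ (n * X)) := by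
    intro n
    rcases Nat.eq_zero_or_pos n with rfl | hn
    · simp [h.fh.a0]
    · have hn' : (0 : ℝ) < n := by exact_mod_cast hn
      have := (lt_pos hk hκ (by positivity : 0 < (n : ℝ) * X)).le
      positivity
  refine le_trans ?_ (hsum.sum_le_tsum (Finset.range n₀) fun n _ => hterm n)
  have h1 : B ≤ lt k κ 1 * ∑ n ∈ Finset.range n₀, ‖a n‖ ^ 2 / (n : ℝ) ^ k := by
    rw [div_le_iff₀ hl] at hn₀
    linarith
  refine h1.trans ?_
  rw [Finset.mul_sum]
  refine Finset.sum_le_sum fun n hn => ?_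
  rw [Finset.mem_range] at hn
  rcases Nat.eq_zero_or_pos n with rfl | hnp
  · simp [h.fh.a0]
  · have hn' : (0 : ℝ) < n := by exact_mod_cast hnp
    have hnX : (n : ℝ) * X ≤ 1 := by
      have : (n : ℝ) < n₀ := by exact_mod_cast hn
      nlinarith
    have h2 := lt_anti hk hκ (by positivity : 0 < (n : ℝ) * X) hnX
    rw [one_pow, one_mul] at h2
    have h3 : lt k κ 1 * (‖a n‖ ^ 2 / (n : ℝ) ^ k) ≤
        ((n : ℝ) * X) ^ k * lt k κ (n * X) * (‖a n‖ ^ 2 / (n : ℝ) ^ k) :=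
      mul_le_mul_of_nonneg_right h2 (by positivity)
    refine h3.trans (le_of_eq ?_)
    rw [mul_pow]
    field_simp

alias tt_unbounded := tt_unbounded_pr

end Pool.Agent.JOF
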