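import Pool.Agent.Lib_helper42.JO.FHDefs
import Pool.Agent.Lib_helper42.JOF.ALG
import Pool.Agent.Lib_helper42.JOF.HUU
import Pool.Agent.Lib_helper42.JOF.IJS
import Pool.Agent.Lib_helper42.JOF.JDI
import Pool.Agent.Lib_helper42.JOF.LTB
import Pool.Agent.Lib_helper42.JOF.LTM
import Pool.Agent.Lib_helper42.JOF.TTU

/-!
# Block FTH: the lower bound near `iη`
-/

namespace Pool.Agent.JOF

open Pool.Agent.JO Complex MeasureTheory Filter Topology Set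
open scoped ComplexConjugate ContDiff

variable {k N : ℕ} {a b : ℕ → ℂ} {f g : ℂ → ℂ} {c : ℂ} {M : ℝ}

theorem fth_ltbound (hk : 1 ≤ k) {κ : ℝ} (hκ : 0 < κ) :
    ∃ C : ℝ, ∀ X : ℝ, 0 < X → |lt k κ X| ≤ C * (X ^ (k + 1))⁻¹ := by
  obtain ⟨C, _, hC⟩ := LT_bound hk hκ (A := k + 1) (by omega)
  refine ⟨C, fun X hX => ?_⟩
  have h1 := hC (X : ℂ) (by simpa using hX)
  rw [LT_real, Complex.norm_real, Complex.norm_real, Real.norm_eq_abs, Real.norm_eq_abs,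
    abs_of_pos hX] at h1
  exact h1

theorem fth_TT_nonneg (h : Half k a f M) {κ : ℝ} (hκ : 0 < κ) {X : ℝ} (hX : 0 < X) :
    0 ≤ TT (lt k κ) a X := by
  unfold TT
  refine tsum_nonneg fun n => ?_
  rcases Nat.eq_zero_or_pos n with rfl | hn
  · simp [h.a0]
  · have hn' : (0 : ℝ) < n := by exact_mod_cast hn
    have := lt_pos h.hk hκ (X := n * X) (by positivity)
    positivity

theorem fth_TT_mono (h : Half k a f M) {κ : ℝ} (hκ : 0 < κ) {p : ℕ} (hp : 1 ≤ p) {X : ℝ}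
    (hX : 0 < X) :
    (p : ℝ) ^ k * TT (lt k κ) a (p * X) ≤ TT (lt k κ) a X := by
  have hL := fth_ltbound h.hk hκ
  have hp' : (1 : ℝ) ≤ p := by exact_mod_cast hp
  have h1 := (uu_summable h hL (q := 1) le_rfl hX).1
  have h2 := (uu_summable h hL (q := 1) le_rfl (X := p * X) (by positivity)).1
  unfold TT
  rw [← tsum_mul_left]
  refine Summable.tsum_le_tsum ?_ (h2.mul_left _) h1
  intro n
  rcases Nat.eq_zero_or_pos n with rfl | hn
  · simp [h.a0]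
  · have hn' : (0 : ℝ) < n := by exact_mod_cast hn
    have h3 := lt_anti h.hk hκ (X := n * X) (Y := n * (p * X)) (by positivity) (by
      have : (n : ℝ) * X ≤ n * (p * X) := by
        have : X ≤ p * X := by nlinarith
        gcongr
      exact this)
    have h4 : ((n : ℝ) * (p * X)) ^ k = (n * X) ^ k * (p : ℝ) ^ k := by
      rw [← mul_pow]; congr 1; ring
    rw [h4, mul_assoc] at h3
    have h5 : (0 : ℝ) < (n * X) ^ k := by positivity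
    have h6 := le_of_mul_le_mul_left h3 h5
    calc (p : ℝ) ^ k * (‖a n‖ ^ 2 * lt k κ (n * (p * X)))
        = ‖a n‖ ^ 2 * ((p : ℝ) ^ k * lt k κ (n * (p * X))) := by ring
      _ ≤ ‖a n‖ ^ 2 * lt k κ (n * X) := by gcongr

theorem fth_sin (ε : ℝ) {η : ℝ} (hη : 0 ≤ η) :
    Real.sinh η ≤ ‖Complex.sin ((ε : ℂ) + (η : ℂ) * I)‖ := by
  have h1 : Complex.sin ((ε : ℂ) + (η : ℂ) * I) =
      ((Real.sin ε * Real.cosh η : ℝ) : ℂ) + ((Real.cos ε * Real.sinh η : ℝ) : ℂ) * I := by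
    rw [Complex.sin_add_mul_I]
    push_cast
    ring
  have h2 : ‖Complex.sin ((ε : ℂ) + (η : ℂ) * I)‖ ^ 2 =
      (Real.sin ε * Real.cosh η) ^ 2 + (Real.cos ε * Real.sinh η) ^ 2 := by
    rw [h1, ← Complex.normSq_eq_norm_sq, Complex.normSq_add_mul_I]
  have h3 : Real.sinh η ^ 2 ≤ ‖Complex.sin ((ε : ℂ) + (η : ℂ) * I)‖ ^ 2 := by
    rw [h2]
    have h4 := Real.cosh_sq η
    have h5 := Real.sin_sq_add_cos_sq ε
    have h6 : (Real.sin ε * Real.cosh η) ^ 2 + (Real.cos ε * Real.sinh η) ^ 2 =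
        Real.sinh η ^ 2 * (Real.sin ε ^ 2 + Real.cos ε ^ 2) + Real.sin ε ^ 2 := by
      rw [mul_pow, mul_pow, h4]; ring
    rw [h6, h5]
    nlinarith [sq_nonneg (Real.sin ε)]
  exact le_of_sq_le_sq h3 (norm_nonneg _)

theorem fth_V (h : Frame k N a b f g c M) {q : ℕ} (hq : 2 ≤ q) {C ε₀ : ℝ} (hε₀ : 0 < ε₀)
    (hF : ∀ ε : ℝ, 0 < ε → ε < ε₀ →
      ‖FF k f (ε + (Real.log q / 2 : ℝ) * I)‖ ≤ C * (ε ^ k)⁻¹) :
    ∃ C' δ : ℝ, 0 < δ ∧ ∀ X : ℝ, 0 < X → X < δ →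
      ‖UU (lt k (q * N)) q a X + ((‖c‖ ^ 2 * N ^ k : ℝ) : ℂ) * conj (UU (lt k (q * N)) q b X)‖ ≤
        C' * (X ^ k)⁻¹ := by
  have hk := h.fh.hk
  have hqR : (2 : ℝ) ≤ q := by exact_mod_cast hq
  have hNR : (1 : ℝ) ≤ N := by exact_mod_cast h.hN
  have hκ : (0 : ℝ) < q * N := by positivity
  obtain ⟨C₁, hC₁, h1⟩ := jj_diag h.fh (q := q) (by omega) hκ
  obtain ⟨C₂, hC₂, h2⟩ := jj_diag h.gh (q := q) (by omega) hκ
  set η : ℝ := Real.log q / 2 with hη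
  have hη0 : 0 < η := by
    rw [hη]
    have := Real.log_pos (by linarith : (1 : ℝ) < q)
    positivity
  set S : ℝ := Real.sinh η with hS
  have hS0 : 0 < S := Real.sinh_pos_iff.2 hη0
  set Q : ℝ := (q : ℝ) ^ ((k : ℝ) / 2) with hQ
  have hQ0 : 0 < Q := Real.rpow_pos_of_pos (by positivity) _
  set c' : ℝ := ‖c‖ ^ 2 * N ^ k with hc'
  have hc0 : 0 ≤ c' := by positivity
  have hpi := Real.pi_gt_three
  set δ₀ : ℝ := min (min ε₀ 1) 1 with hδ₀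
  refine ⟨(C / (S ^ k * Q) + C₁ + c' * C₂) * (4 * Real.pi * q) ^ k,
    4 * Real.pi * q * Real.sin (min ε₀ 1), ?_, ?_⟩
  · have h3 : 0 < min ε₀ 1 := lt_min hε₀ one_pos
    have h4 : 0 < Real.sin (min ε₀ 1) := Real.sin_pos_of_pos_of_lt_pi h3
      (by have := min_le_right ε₀ 1; linarith)
    positivity
  · intro X hX hXδ
    -- choose `ε`
    set σ : ℝ := X / (4 * Real.pi * q) with hσ
    have hσ0 : 0 < σ := by positivity
    have hσ1 : σ < Real.sin (min ε₀ 1) := by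
      rw [hσ, div_lt_iff₀ (by positivity)]
      linarith
    set ε : ℝ := Real.arcsin σ with hε
    have hε1 : 0 < ε := Real.arcsin_pos.2 hσ0
    have hm1 : min ε₀ 1 ≤ 1 := min_le_right _ _
    have hm0 : 0 < min ε₀ 1 := lt_min hε₀ one_pos
    have hε2 : ε < min ε₀ 1 := by
      rw [hε, Real.arcsin_lt_iff_lt_sin' ⟨by linarith, by linarith⟩]
      exact hσ1
    have hεε₀ : ε < ε₀ := hε2.trans_le (min_le_left _ _)
    have hε3 : ε < 1 := hε2.trans_le hm1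
    have hsin : Real.sin ε = σ := by
      rw [hε, Real.sin_arcsin (by linarith) (by
        have := Real.sin_le_one (min ε₀ 1)
        linarith)]
    have hXε : 4 * Real.pi * q * Real.sin ε = X := by
      rw [hsin, hσ]
      field_simp
    have hle : σ ≤ ε := by
      rw [← hsin]; exact Real.sin_le hε1.le
    have hεk : (ε ^ k)⁻¹ ≤ (4 * Real.pi * q) ^ k * (X ^ k)⁻¹ := by
      have h3 : (ε ^ k)⁻¹ ≤ (σ ^ k)⁻¹ := by gcongr
      refine h3.trans (le_of_eq ?_)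
      rw [hσ, div_pow, inv_div]
      field_simp
    have h3 := h1 ε hε1 hε3 ε (Or.inl rfl)
    have h4 := h2 ε hε1 hε3 (Real.pi - ε) (Or.inr rfl)
    rw [hXε] at h3 h4
    have h5 := qq_split h (q := q) (by omega) hε1 (by linarith)
    have h6 := hF ε hε1 hεε₀
    rw [← hη] at h5
    set Jf := JJ k q (q * N) f ε with hJf
    set Jg := JJ k q (q * N) g (Real.pi - ε) with hJg
    set Ua := UU (lt k (q * N)) q a X with hUa
    set Ub := UU (lt k (q * N)) q b X with hUb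
    -- the bound for the sum
    have h7 : S ^ k * (Q * ‖Jf + (c' : ℂ) * conj Jg‖) ≤ C * (ε ^ k)⁻¹ := by
      refine le_trans ?_ h6
      unfold FF
      rw [h5, norm_mul, norm_mul, norm_pow, Complex.norm_real, Real.norm_of_nonneg hQ0.le]
      have h8 : S ≤ ‖Complex.sin ((ε : ℂ) + (η : ℂ) * I)‖ := fth_sin ε hη0.le
      gcongr
    have h8 : ‖Jf + (c' : ℂ) * conj Jg‖ ≤ C / (S ^ k * Q) * (ε ^ k)⁻¹ := by
      rw [div_mul_eq_mul_div, le_div_iff₀ (by positivity)]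
      linarith
    have h9 : Ua + (c' : ℂ) * conj Ub = (Jf + (c' : ℂ) * conj Jg) - (Jf - Ua) -
        (c' : ℂ) * conj (Jg - Ub) := by
      rw [map_sub]; ring
    have h10 : ‖(c' : ℂ) * conj (Jg - Ub)‖ ≤ c' * (C₂ * (ε ^ k)⁻¹) := by
      rw [norm_mul, Complex.norm_conj, Complex.norm_real, Real.norm_of_nonneg hc0]
      gcongr
    have hCnn : 0 ≤ C / (S ^ k * Q) := by
      by_contra hcon
      push Not at hcon
      have : C / (S ^ k * Q) * (ε ^ k)⁻¹ < 0 := mul_neg_of_neg_of_pos hcon (by positivity)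
      have := norm_nonneg (Jf + (c' : ℂ) * conj Jg)
      linarith
    calc ‖Ua + (c' : ℂ) * conj Ub‖
        ≤ ‖Jf + (c' : ℂ) * conj Jg‖ + ‖Jf - Ua‖ + ‖(c' : ℂ) * conj (Jg - Ub)‖ := by
          rw [h9]
          exact (norm_sub_le _ _).trans (by gcongr; exact norm_sub_le _ _)
      _ ≤ C / (S ^ k * Q) * (ε ^ k)⁻¹ + C₁ * (ε ^ k)⁻¹ + c' * (C₂ * (ε ^ k)⁻¹) := by gcongr
      _ = (C / (S ^ k * Q) + C₁ + c' * C₂) * (ε ^ k)⁻¹ := by ring
      _ ≤ (C / (S ^ k * Q) + C₁ + c' * C₂) * ((4 * Real.pi * q) ^ k * (X ^ k)⁻¹) := by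
          gcongr
      _ = _ := by ring

theorem f3_pr (h : Frame k N a b f g c M) {p : ℕ} (hp : p.Prime) {ap : ℂ}
    (ha : HeckeAt k p ap a) (hb : HeckeAt k p ap b) :
    ¬ ∃ C ε₀ : ℝ, 0 < ε₀ ∧ ∀ ε : ℝ, 0 < ε → ε < ε₀ →
      ‖FF k f (ε + (Real.log p / 2 : ℝ) * I)‖ ≤ C * (ε ^ k)⁻¹ ∧
      ‖FF k f (ε + (Real.log ((p : ℝ) ^ 2) / 2 : ℝ) * I)‖ ≤ C * (ε ^ k)⁻¹ := by
  rintro ⟨C, ε₀, hε₀, hF⟩
  have hk := h.fh.hk
  have hp2 := hp.two_le
  have hpR : (2 : ℝ) ≤ p := by exact_mod_cast hp2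
  have hNR : (1 : ℝ) ≤ N := by exact_mod_cast h.hN
  have hκ₁ : (0 : ℝ) < p * N := by positivity
  have hκ₂ : (0 : ℝ) < ((p ^ 2 : ℕ) : ℝ) * N := by positivity
  obtain ⟨C₁, δ₁, hδ₁, hV₁⟩ := fth_V h (q := p) hp2 hε₀ (fun ε h1 h2 => (hF ε h1 h2).1)
  obtain ⟨C₂, δ₂, hδ₂, hV₂⟩ := fth_V h (q := p ^ 2) (C := C) (by nlinarith) hε₀
    (fun ε h1 h2 => by
      have := (hF ε h1 h2).2
      push_cast at this ⊢
      exact this)
  have hL₁ := fth_ltbound hk hκ₁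
  have hL₂ := fth_ltbound hk hκ₂
  refine f3_alg (k := k) (p := p) (ap := ap) (c' := ‖c‖ ^ 2 * N ^ k)
    (T₁ := TT (lt k (p * N)) a) (T₁' := TT (lt k (p * N)) b)
    (T₂ := TT (lt k (((p ^ 2 : ℕ) : ℝ) * N)) a) (T₂' := TT (lt k (((p ^ 2 : ℕ) : ℝ) * N)) b)
    (U₁ := UU (lt k (p * N)) p a) (U₁' := UU (lt k (p * N)) p b)
    (U₂ := UU (lt k (((p ^ 2 : ℕ) : ℝ) * N)) p a) (U₂' := UU (lt k (((p ^ 2 : ℕ) : ℝ) * N)) p b)
    (W₂ := UU (lt k (((p ^ 2 : ℕ) : ℝ) * N)) (p ^ 2) a)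
    (W₂' := UU (lt k (((p ^ 2 : ℕ) : ℝ) * N)) (p ^ 2) b)
    (C := max C₁ C₂) (δ := min δ₁ δ₂)
    hk hp2 (by positivity)
    (fun X hX => uu_hecke h.fh (by omega) ha hL₁ hX)
    (fun X hX => uu_hecke h.gh (by omega) hb hL₁ hX)
    (fun X hX => uu_hecke h.fh (by omega) ha hL₂ hX)
    (fun X hX => uu_hecke h.gh (by omega) hb hL₂ hX)
    (fun X hX => uu_hecke2 h.fh (by omega) ha hL₂ hX)
    (fun X hX => uu_hecke2 h.gh (by omega) hb hL₂ hX)
    (fun X hX => fth_TT_nonneg h.gh hκ₁ hX)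
    (fun X hX => fth_TT_nonneg h.gh hκ₂ hX)
    (tt_unbounded h hκ₁) (tt_unbounded h hκ₂)
    (fun X hX => fth_TT_mono h.fh hκ₂ (by omega) hX)
    (fun X hX => fth_TT_mono h.gh hκ₂ (by omega) hX)
    (lt_min hδ₁ hδ₂) ?_ ?_
  · intro X hX hX2
    refine (hV₁ X hX (hX2.trans_le (min_le_left _ _))).trans ?_
    gcongr
    exact le_max_left _ _
  · intro X hX hX2
    refine (hV₂ X hX (hX2.trans_le (min_le_right _ _))).trans ?_
    gcongr
    exact le_max_right _ _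

alias f3 := f3_pr

end Pool.Agent.JOF
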