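import Pool.Agent.Lib_helper42.JO.FHDefs

/-! Project JO, part FH, block GMM. -/

namespace Pool.Agent.JOF

open Pool.Agent.JO Complex MeasureTheory Filter Topology Set
open scoped ComplexConjugate ContDiff

variable {k N : ℕ} {a b : ℕ → ℂ} {f g : ℂ → ℂ} {c : ℂ} {M : ℝ}

theorem gmm_half (t : ℝ) :
    ‖Complex.Gamma (1 / 2 + t * I)‖ ^ 2 * Real.cosh (Real.pi * t) = Real.pi := by
  have h2 : (starRingEnd ℂ) (1 / 2 + (t : ℂ) * I) = 1 - (1 / 2 + (t : ℂ) * I) := by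
    simp only [map_add, map_mul, conj_ofReal, conj_I, map_div₀, map_one, map_ofNat]
    ring
  have h3 : ((‖Complex.Gamma (1 / 2 + (t : ℂ) * I)‖ ^ 2 : ℝ) : ℂ) =
      Complex.Gamma (1 / 2 + (t : ℂ) * I) * Complex.Gamma (1 - (1 / 2 + (t : ℂ) * I)) := by
    rw [← h2, Gamma_conj, mul_conj, normSq_eq_norm_sq]
  have h4 := Complex.Gamma_mul_Gamma_one_sub (1 / 2 + (t : ℂ) * I)
  have h5 : Complex.sin (Real.pi * (1 / 2 + (t : ℂ) * I)) = Complex.cosh (Real.pi * t) := by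
    have : (Real.pi : ℂ) * (1 / 2 + (t : ℂ) * I) = (Real.pi : ℂ) * t * I + Real.pi / 2 := by ring
    rw [this, Complex.sin_add_pi_div_two, Complex.cos_mul_I]
  have h6 : Complex.cosh ((Real.pi : ℂ) * t) = ((Real.cosh (Real.pi * t) : ℝ) : ℂ) := by
    push_cast
    rfl
  have hne : (Real.cosh (Real.pi * t) : ℝ) ≠ 0 := (Real.cosh_pos _).ne'
  have h7 : ((‖Complex.Gamma (1 / 2 + (t : ℂ) * I)‖ ^ 2 * Real.cosh (Real.pi * t) : ℝ) : ℂ) =
      ((Real.pi : ℝ) : ℂ) := by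
    rw [Complex.ofReal_mul, h3, h4, h5, h6, div_mul_cancel₀]
    exact_mod_cast hne
  exact_mod_cast h7

theorem gmm_one {t : ℝ} (ht : t ≠ 0) :
    ‖Complex.Gamma (1 + t * I)‖ ^ 2 * Real.sinh (Real.pi * t) = Real.pi * t := by
  have hI : (t : ℂ) * I ≠ 0 := mul_ne_zero (by exact_mod_cast ht) I_ne_zero
  have h1 : Complex.Gamma (1 + (t : ℂ) * I) = (t : ℂ) * I * Complex.Gamma ((t : ℂ) * I) := by
    rw [add_comm, Gamma_add_one _ hI]
  have h2 : (starRingEnd ℂ) (1 + (t : ℂ) * I) = 1 - (t : ℂ) * I := by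
    simp [sub_eq_add_neg]
  have h3 : ((‖Complex.Gamma (1 + (t : ℂ) * I)‖ ^ 2 : ℝ) : ℂ) =
      Complex.Gamma (1 + (t : ℂ) * I) * Complex.Gamma (1 - (t : ℂ) * I) := by
    rw [← h2, Gamma_conj, mul_conj, normSq_eq_norm_sq]
  have h4 : Complex.Gamma ((t : ℂ) * I) * Complex.Gamma (1 - (t : ℂ) * I) =
      Real.pi / sin (Real.pi * ((t : ℂ) * I)) := Gamma_mul_Gamma_one_sub _
  have h5 : sin (Real.pi * ((t : ℂ) * I)) = sinh (Real.pi * t) * I := by
    rw [← mul_assoc, sin_mul_I]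
  have hne : (Real.sinh (Real.pi * t) : ℝ) ≠ 0 := by
    rw [Ne, Real.sinh_eq_zero]
    exact mul_ne_zero Real.pi_ne_zero ht
  have h6 : sinh ((Real.pi : ℂ) * t) = ((Real.sinh (Real.pi * t) : ℝ) : ℂ) := by
    push_cast
    rfl
  have hnec : ((Real.sinh (Real.pi * t) : ℝ) : ℂ) ≠ 0 := by exact_mod_cast hne
  have h7 : ((‖Complex.Gamma (1 + (t : ℂ) * I)‖ ^ 2 * Real.sinh (Real.pi * t) : ℝ) : ℂ) =
      ((Real.pi * t : ℝ) : ℂ) := by
    have h8 : (t : ℂ) * I * Complex.Gamma ((t : ℂ) * I) * Complex.Gamma (1 - (t : ℂ) * I) =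
        (t : ℂ) * I * (Real.pi / (((Real.sinh (Real.pi * t) : ℝ) : ℂ) * I)) := by
      rw [mul_assoc, h4, h5, h6]
    rw [Complex.ofReal_mul, h3, h1, h8, Complex.ofReal_mul]
    field_simp
  exact_mod_cast h7

theorem gmm_all : ∀ (k : ℕ), 1 ≤ k → ∀ t : ℝ,
    ‖Complex.Gamma ((k : ℂ) / 2 + t * I)‖ ^ 2 *
      (Real.exp (Real.pi * t) * (1 - (-1) ^ k * Real.exp (-(2 * Real.pi * t)))) =
        2 * Real.pi * PP k t
  | 0, h, _ => absurd h (by norm_num)
  | 1, _, t => by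
    have e1 : Real.exp (Real.pi * t) * (1 - (-1) ^ 1 * Real.exp (-(2 * Real.pi * t))) =
        2 * Real.cosh (Real.pi * t) := by
      rw [Real.cosh_eq, pow_one]
      have : Real.exp (Real.pi * t) * Real.exp (-(2 * Real.pi * t)) =
          Real.exp (-(Real.pi * t)) := by
        rw [← Real.exp_add]
        congr 1
        ring
      linarith
    have h := gmm_half t
    have e2 : (((1 : ℕ) : ℂ) / 2 + t * I) = 1 / 2 + t * I := by norm_num
    rw [e1, e2, PP]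
    linarith
  | 2, _, t => by
    have e1 : Real.exp (Real.pi * t) * (1 - (-1) ^ 2 * Real.exp (-(2 * Real.pi * t))) =
        2 * Real.sinh (Real.pi * t) := by
      rw [Real.sinh_eq]
      have : Real.exp (Real.pi * t) * Real.exp (-(2 * Real.pi * t)) =
          Real.exp (-(Real.pi * t)) := by
        rw [← Real.exp_add]
        congr 1
        ring
      linarith
    have e2 : (((2 : ℕ) : ℂ) / 2 + t * I) = 1 + t * I := by norm_num
    rw [e1, e2, PP]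
    rcases eq_or_ne t 0 with rfl | ht
    · simp
    · have h := gmm_one ht
      linarith
  | (k + 3), _, t => by
    have ih := gmm_all (k + 1) (by omega) t
    have hne : ((((k + 1 : ℕ) : ℂ)) / 2 + t * I) ≠ 0 := by
      intro h
      have h2 := congrArg Complex.re h
      have h3 : ((((k + 1 : ℕ) : ℂ)) / 2 + t * I).re = ((k : ℝ) + 1) / 2 := by
        have : ((((k + 1 : ℕ) : ℂ)) / 2) = ((((k : ℝ) + 1) / 2 : ℝ) : ℂ) := by
          push_cast
          ring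
        rw [this]
        simp
      rw [h3, Complex.zero_re] at h2
      have : (0 : ℝ) ≤ k := Nat.cast_nonneg k
      linarith
    have e1 : ((((k + 3 : ℕ) : ℂ)) / 2 + t * I) = ((((k + 1 : ℕ) : ℂ)) / 2 + t * I) + 1 := by
      push_cast
      ring
    have e2 : ‖((((k + 1 : ℕ) : ℂ)) / 2 + t * I)‖ ^ 2 = (((k : ℝ) + 1) / 2) ^ 2 + t ^ 2 := by
      have : ((((k + 1 : ℕ) : ℂ)) / 2 + t * I) = ((((k : ℝ) + 1) / 2 : ℝ) : ℂ) + t * I := by
        push_cast
        ring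
      rw [this, ← Complex.normSq_eq_norm_sq, Complex.normSq_add_mul_I]
    rw [e1, Complex.Gamma_add_one _ hne, norm_mul, mul_pow, e2, PP]
    have e3 : ((-1 : ℝ)) ^ (k + 3) = (-1) ^ (k + 1) := by
      rw [pow_add, pow_add]
      norm_num
    rw [e3]
    calc ((((k : ℝ) + 1) / 2) ^ 2 + t ^ 2) *
          ‖Complex.Gamma ((((k + 1 : ℕ) : ℂ)) / 2 + t * I)‖ ^ 2 *
          (Real.exp (Real.pi * t) * (1 - (-1) ^ (k + 1) * Real.exp (-(2 * Real.pi * t)))) =
        ((((k : ℝ) + 1) / 2) ^ 2 + t ^ 2) *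
          (‖Complex.Gamma ((((k + 1 : ℕ) : ℂ)) / 2 + t * I)‖ ^ 2 *
          (Real.exp (Real.pi * t) * (1 - (-1) ^ (k + 1) * Real.exp (-(2 * Real.pi * t))))) := by
          ring
      _ = ((((k : ℝ) + 1) / 2) ^ 2 + t ^ 2) * (2 * Real.pi * PP (k + 1) t) := by rw [ih]
      _ = _ := by ring

theorem gamma_sq_pr (hk : 1 ≤ k) (t : ℝ) :
    ‖Complex.Gamma ((k : ℂ) / 2 + t * I)‖ ^ 2 *
      (Real.exp (Real.pi * t) * (1 - (-1) ^ k * Real.exp (-(2 * Real.pi * t)))) =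
        2 * Real.pi * PP k t := gmm_all k hk t

theorem gmm_poly : ∀ (k : ℕ), 1 ≤ k →
    ∃ P : Polynomial ℝ, P.natDegree < k ∧ ∀ t : ℝ, PP k t = P.eval t
  | 0, h => absurd h (by norm_num)
  | 1, _ => ⟨1, by simp, fun t => by simp [PP]⟩
  | 2, _ => ⟨Polynomial.X, by simp, fun t => by simp [PP]⟩
  | (k + 3), _ => by
    obtain ⟨P, hP, hP2⟩ := gmm_poly (k + 1) (by omega)
    refine ⟨(Polynomial.C ((((k : ℝ) + 1) / 2) ^ 2) + Polynomial.X ^ 2) * P, ?_, ?_⟩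
    · refine lt_of_le_of_lt Polynomial.natDegree_mul_le ?_
      have h1 : (Polynomial.C ((((k : ℝ) + 1) / 2) ^ 2) + Polynomial.X ^ 2 :
          Polynomial ℝ).natDegree ≤ 2 := by
        refine le_trans (Polynomial.natDegree_add_le _ _) ?_
        rw [Polynomial.natDegree_C, Polynomial.natDegree_X_pow]
        norm_num
      omega
    · intro t
      rw [PP, hP2]
      simp

theorem pp_poly_pr (hk : 1 ≤ k) :
    ∃ P : Polynomial ℝ, P.natDegree < k ∧ ∀ t : ℝ, PP k t = P.eval t := gmm_poly k hk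

theorem gmm_nonneg : ∀ (k : ℕ) {t : ℝ}, 0 ≤ t → 0 ≤ PP k t
  | 0, _, _ => by simp [PP]
  | 1, _, _ => by simp [PP]
  | 2, _, h => by simpa [PP] using h
  | (k + 3), t, h => by
    rw [PP]
    have := gmm_nonneg (k + 1) h
    positivity

theorem pp_nonneg_pr {t : ℝ} (ht : 0 ≤ t) : 0 ≤ PP k t := gmm_nonneg k ht

alias gamma_sq := gamma_sq_pr

alias pp_poly := pp_poly_pr

alias pp_nonneg := pp_nonneg_pr

end Pool.Agent.JOF
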