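import Pool.Agent.Lib_helper42.JO.FHDefs
import Pool.Agent.Lib_helper42.JOF.GDD

/-! Project JO, part FH, block MLA (helper47): the L-function is entire; `Lam` and `LL`. -/

set_option autoImplicit false

namespace Pool.Agent.JOF

open Pool.Agent.JO Complex MeasureTheory Filter Topology Set
open scoped ComplexConjugate ContDiff

variable {k N : ℕ} {a b : ℕ → ℂ} {f g : ℂ → ℂ} {c : ℂ} {M : ℝ}

/-- the pointwise bound on the imaginary axis -/
theorem mla_bound (h : Frame k N a b f g c M) :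
    ∃ C : ℝ, 0 ≤ C ∧ ∀ y : ℝ, 0 < y →
      ‖f (I * y)‖ ≤ C * y ^ (-((k : ℝ) / 2)) * Real.exp (-((y + y⁻¹) / (2 * N))) := by
  obtain ⟨C, hC, hb⟩ := gg_decay h
  refine ⟨C, hC, fun y hy => ?_⟩
  have h1 := hb (Real.log y) (Real.pi / 2) (by positivity) (by linarith [Real.pi_pos])
  rw [Real.sin_pi_div_two, Real.one_rpow, mul_one] at h1
  have he : cexp (((Real.log y : ℝ) : ℂ) + ((Real.pi / 2 : ℝ) : ℂ) * I) = I * y := by
    rw [Complex.exp_add, ← Complex.ofReal_exp, Real.exp_log hy]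
    push_cast
    rw [Complex.exp_pi_div_two_mul_I, mul_comm]
  have hn : ‖cexp (((k : ℂ) / 2) * (((Real.log y : ℝ) : ℂ) + ((Real.pi / 2 : ℝ) : ℂ) * I))‖ =
      y ^ ((k : ℝ) / 2) := by
    rw [Complex.norm_exp, Real.rpow_def_of_pos hy]
    congr 1
    simp [Complex.mul_re, Complex.add_re, Complex.add_im]
    ring
  unfold GG at h1
  rw [he, norm_mul, hn, Real.cosh_log hy] at h1
  have hy2 : 0 < y ^ ((k : ℝ) / 2) := by positivity
  rw [Real.rpow_neg hy.le]
  calc ‖f (I * y)‖ = (‖f (I * y)‖ * y ^ ((k : ℝ) / 2)) * (y ^ ((k : ℝ) / 2))⁻¹ := by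
        field_simp
    _ ≤ (C * Real.exp (-(1 / N * ((y + y⁻¹) / 2)))) * (y ^ ((k : ℝ) / 2))⁻¹ :=
        mul_le_mul_of_nonneg_right h1 (by positivity)
    _ = _ := by
        have : (1 : ℝ) / N * ((y + y⁻¹) / 2) = (y + y⁻¹) / (2 * N) := by
          rw [div_mul_div_comm]; ring
        rw [this]; ring

theorem mla_cont (h : Half k a f M) : ContinuousOn (fun y : ℝ => f (I * y)) (Ioi 0) := by
  have h1 : ContinuousOn f {z : ℂ | 0 < z.im} := h.hol.continuousOn
  refine h1.comp (by fun_prop) ?_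
  intro y hy
  simpa using hy

theorem mla_mellin_diff (h : Frame k N a b f g c M) :
    Differentiable ℂ (mellin (fun y : ℝ => f (I * y))) := by
  obtain ⟨C, hC, hb⟩ := mla_bound h
  have hN : (0 : ℝ) < N := by exact_mod_cast h.hN
  intro s
  refine mellin_differentiableAt_of_isBigO_rpow (a := s.re + 1) (b := s.re - 1)
    ((mla_cont h.fh).locallyIntegrableOn measurableSet_Ioi) ?_ (by linarith) ?_ (by linarith)
  · -- at infinity
    have h1 : (fun y : ℝ => Real.exp (-(1 / (2 * N)) * y)) =O[atTop]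
        (fun y : ℝ => y ^ (-(s.re + 1) + (k : ℝ) / 2)) :=
      (isLittleO_exp_neg_mul_rpow_atTop (by positivity) _).isBigO
    have h2 : (fun y : ℝ => f (I * y)) =O[atTop]
        (fun y : ℝ => y ^ (-((k : ℝ) / 2)) * Real.exp (-(1 / (2 * N)) * y)) := by
      apply Asymptotics.IsBigO.of_bound C
      filter_upwards [eventually_gt_atTop 0] with y hy
      refine (hb y hy).trans ?_
      rw [Real.norm_of_nonneg (by positivity), mul_assoc]
      apply mul_le_mul_of_nonneg_left _ hC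
      apply mul_le_mul_of_nonneg_left _ (by positivity)
      apply Real.exp_le_exp.2
      have : 0 < y⁻¹ := by positivity
      have e : (y + y⁻¹) / (2 * N) = 1 / (2 * N) * y + y⁻¹ / (2 * N) := by ring
      have : 0 < y⁻¹ / (2 * N) := by positivity
      linarith
    refine h2.trans ?_
    have h3 : (fun y : ℝ => y ^ (-((k : ℝ) / 2)) * Real.exp (-(1 / (2 * N)) * y)) =O[atTop]
        (fun y : ℝ => y ^ (-((k : ℝ) / 2)) * y ^ (-(s.re + 1) + (k : ℝ) / 2)) :=
      (Asymptotics.isBigO_refl _ _).mul h1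
    refine h3.trans (Asymptotics.IsBigO.of_bound 1 ?_)
    filter_upwards [eventually_gt_atTop 0] with y hy
    rw [← Real.rpow_add hy, one_mul]
    apply le_of_eq
    congr 2
    ring
  · -- at zero
    have h1 : (fun y : ℝ => Real.exp (-(1 / (2 * N)) * y)) =O[atTop]
        (fun y : ℝ => y ^ ((s.re - 1) - (k : ℝ) / 2)) :=
      (isLittleO_exp_neg_mul_rpow_atTop (by positivity) _).isBigO
    have h1' := h1.comp_tendsto tendsto_inv_nhdsGT_zero
    have h2 : (fun y : ℝ => f (I * y)) =O[𝓝[>] 0]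
        (fun y : ℝ => y ^ (-((k : ℝ) / 2)) * Real.exp (-(1 / (2 * N)) * y⁻¹)) := by
      apply Asymptotics.IsBigO.of_bound C
      filter_upwards [self_mem_nhdsWithin] with y hy
      have hy : 0 < y := hy
      refine (hb y hy).trans ?_
      rw [Real.norm_of_nonneg (by positivity), mul_assoc]
      apply mul_le_mul_of_nonneg_left _ hC
      apply mul_le_mul_of_nonneg_left _ (by positivity)
      apply Real.exp_le_exp.2
      have e : (y + y⁻¹) / (2 * N) = 1 / (2 * N) * y⁻¹ + y / (2 * N) := by ring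
      have : 0 < y / (2 * N) := by positivity
      linarith
    refine h2.trans ?_
    have h3 : (fun y : ℝ => y ^ (-((k : ℝ) / 2)) * Real.exp (-(1 / (2 * N)) * y⁻¹)) =O[𝓝[>] 0]
        (fun y : ℝ => y ^ (-((k : ℝ) / 2)) * (y⁻¹) ^ ((s.re - 1) - (k : ℝ) / 2)) :=
      (Asymptotics.isBigO_refl _ _).mul h1'
    refine h3.trans (Asymptotics.IsBigO.of_bound 1 ?_)
    filter_upwards [self_mem_nhdsWithin] with y hy
    have hy : 0 < y := hy
    rw [Real.inv_rpow hy.le, ← Real.rpow_neg hy.le, ← Real.rpow_add hy, one_mul]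
    apply le_of_eq
    congr 2
    ring

theorem mla_gamma (s : ℂ) : 2 / Complex.Gammaℂ s = (2 * Real.pi : ℂ) ^ s * (Complex.Gamma s)⁻¹ := by
  have h0 : (2 * Real.pi : ℂ) ≠ 0 := by
    simp [Real.pi_ne_zero]
  rw [Complex.Gammaℂ_def, Complex.cpow_neg]
  have h1 : (2 * Real.pi : ℂ) ^ s ≠ 0 := by
    rw [Complex.cpow_def_of_ne_zero h0]
    exact Complex.exp_ne_zero _
  field_simp

theorem ll_diff_pr (h : Frame k N a b f g c M) : Differentiable ℂ (LL k f) := by
  have h0 : (2 * Real.pi : ℂ) ≠ 0 := by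
    simp [Real.pi_ne_zero]
  have h1 : Differentiable ℂ (fun s : ℂ => s + ((k : ℂ) - 1) / 2) := by fun_prop
  have h2 := (mla_mellin_diff h).comp h1
  have h3 : Differentiable ℂ (fun s : ℂ => (2 * Real.pi : ℂ) ^ s * (Complex.Gamma s)⁻¹) :=
    (differentiable_id.const_cpow (Or.inl h0)).mul Complex.differentiable_one_div_Gamma
  have h4 := h3.comp h1
  have e : LL k f = fun s => (mellin (fun y : ℝ => f (I * y)) ∘ fun s : ℂ => s + ((k : ℂ) - 1) / 2) s *
      ((fun s : ℂ => (2 * Real.pi : ℂ) ^ s * (Complex.Gamma s)⁻¹) ∘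
        fun s : ℂ => s + ((k : ℂ) - 1) / 2) s := by
    funext s
    unfold LL
    rw [mla_gamma]
    rfl
  rw [e]
  exact h2.mul h4

/-- `Lam` as a Mellin transform -/
theorem mla_lam (f : ℂ → ℂ) (t : ℝ) :
    Lam k f t = cexp (((k : ℂ) / 2) * ((Real.pi / 2 : ℝ) * I)) * cexp (-(Real.pi * t / 2 : ℝ)) *
      mellin (fun y : ℝ => f (I * y)) ((k : ℂ) / 2 + t * I) := by
  have hm : mellin (fun y : ℝ => f (I * y)) ((k : ℂ) / 2 + t * I) =
      ∫ x : ℝ, cexp (((k : ℂ) / 2 + t * I) * x) * f (I * (Real.exp x : ℝ)) := by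
    rw [mellin_eq_fourier, Real.fourier_eq', ← integral_neg_eq_self]
    apply integral_congr_ae
    refine Eventually.of_forall fun x => ?_
    have hre : ((k : ℂ) / 2 + t * I).re = (k : ℝ) / 2 := by simp
    have him : ((k : ℂ) / 2 + t * I).im = t := by simp
    simp only [smul_eq_mul, Complex.real_smul, hre, him, neg_neg]
    have hin : inner ℝ (-x) (t / (2 * Real.pi)) = -x * (t / (2 * Real.pi)) := by
      simp [mul_comm]
    rw [hin, ← mul_assoc, Complex.ofReal_exp (-((k : ℝ) / 2) * -x), ← Complex.exp_add]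
    congr 2
    have hpi : (Real.pi : ℂ) ≠ 0 := by exact_mod_cast Real.pi_ne_zero
    push_cast
    field_simp
    ring
  rw [hm, ← integral_const_mul]
  unfold Lam GG
  apply integral_congr_ae
  refine Eventually.of_forall fun x => ?_
  simp only
  have he : cexp ((x : ℂ) + ((Real.pi / 2 : ℝ) : ℂ) * I) = I * (Real.exp x : ℝ) := by
    rw [Complex.exp_add, ← Complex.ofReal_exp]
    push_cast
    rw [Complex.exp_pi_div_two_mul_I, mul_comm]
  rw [he]
  have e1 : cexp ((k : ℂ) / 2 * ((x : ℂ) + ((Real.pi / 2 : ℝ) : ℂ) * I)) *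
      cexp (I * t * ((x : ℂ) + ((Real.pi / 2 : ℝ) : ℂ) * I)) =
      cexp (((k : ℂ) / 2) * ((Real.pi / 2 : ℝ) * I)) * cexp (-(Real.pi * t / 2 : ℝ)) *
        cexp (((k : ℂ) / 2 + t * I) * x) := by
    rw [← Complex.exp_add, ← Complex.exp_add, ← Complex.exp_add]
    congr 1
    push_cast
    linear_combination (Real.pi / 2 * t : ℂ) * Complex.I_sq
  linear_combination f (I * (Real.exp x : ℝ)) * e1

theorem ll_lam_pr (h : Frame k N a b f g c M) (t : ℝ) :
    ‖Lam k f t‖ ^ 2 = Real.exp (-(Real.pi * t)) * ((2 * Real.pi) ^ k)⁻¹ *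
      ‖Complex.Gamma ((k : ℂ) / 2 + t * I)‖ ^ 2 * ‖LL k f (1 / 2 + t * I)‖ ^ 2 := by
  have hk : 1 ≤ k := h.fh.hk
  have hk0 : (0 : ℝ) < k := by exact_mod_cast hk
  set S : ℂ := (k : ℂ) / 2 + t * I with hS
  have hS' : (1 / 2 + t * I : ℂ) + ((k : ℂ) - 1) / 2 = S := by rw [hS]; ring
  have hre : S.re = (k : ℝ) / 2 := by simp [hS]
  have hG : Complex.Gamma S ≠ 0 := by
    apply Complex.Gamma_ne_zero_of_re_pos
    rw [hre]
    positivity
  have h1 : ‖Lam k f t‖ = Real.exp (-(Real.pi * t / 2)) *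
      ‖mellin (fun y : ℝ => f (I * y)) S‖ := by
    have e : ‖cexp (((k : ℂ) / 2) * ((Real.pi / 2 : ℝ) * I))‖ = 1 := by
      rw [Complex.norm_exp]
      simp
    have e' : ‖cexp (-(Real.pi * t / 2 : ℝ))‖ = Real.exp (-(Real.pi * t / 2)) := by
      rw [Complex.norm_exp, Complex.neg_re, Complex.ofReal_re]
    rw [mla_lam, norm_mul, norm_mul, e, e', one_mul]
  have h2 : ‖LL k f (1 / 2 + t * I)‖ = ‖mellin (fun y : ℝ => f (I * y)) S‖ *
      ((2 * Real.pi) ^ ((k : ℝ) / 2) * ‖Complex.Gamma S‖⁻¹) := by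
    unfold LL
    rw [hS', mla_gamma, norm_mul, norm_mul, norm_inv]
    have e : ‖(2 * Real.pi : ℂ) ^ S‖ = (2 * Real.pi) ^ ((k : ℝ) / 2) := by
      have : (2 * Real.pi : ℂ) = ((2 * Real.pi : ℝ) : ℂ) := by push_cast; rfl
      rw [this, Complex.norm_cpow_eq_rpow_re_of_pos (by positivity), hre]
    rw [e]
  have e2 : ((2 * Real.pi) ^ ((k : ℝ) / 2)) ^ 2 = (2 * Real.pi) ^ k := by
    rw [← Real.rpow_natCast, ← Real.rpow_mul (by positivity), ← Real.rpow_natCast]
    congr 1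
    push_cast
    ring
  have e3 : Real.exp (-(Real.pi * t / 2)) ^ 2 = Real.exp (-(Real.pi * t)) := by
    rw [← Real.exp_nat_mul]
    congr 1
    push_cast
    ring
  have hG' : ‖Complex.Gamma S‖ ≠ 0 := norm_ne_zero_iff.2 hG
  have hpi : ((2 * Real.pi) ^ ((k : ℝ) / 2)) ≠ 0 := by positivity
  rw [h1, h2, ← e2, ← e3]
  generalize (2 * Real.pi) ^ ((k : ℝ) / 2) = P at *
  generalize ‖Complex.Gamma S‖ = G at *
  field_simp

alias ll_diff := ll_diff_pr

alias ll_lam := ll_lam_pr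

end Pool.Agent.JOF
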