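import Pool.Agent.Lib_helper42.JO.FHDefs
import Pool.Agent.Lib_helper42.JOF.ABE
import Pool.Agent.Lib_helper42.JOF.GMM
import Pool.Agent.Lib_helper42.JOF.LAM
import Pool.Agent.Lib_helper42.JOF.MLA
import Pool.Agent.Lib_helper42.JOF.QFF

/-!
# Block FTW: the hypothesis gives the expansion of `FF` at `0`
-/

namespace Pool.Agent.JOF

open Pool.Agent.JO Complex MeasureTheory Filter Topology Set
open scoped ComplexConjugate ContDiff

variable {k N : ℕ} {a b : ℕ → ℂ} {f g : ℂ → ℂ} {c : ℂ} {M : ℝ}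

theorem ftw_log : (fun θ : ℝ => θ * Real.log θ⁻¹) =o[𝓝[>] 0] fun θ : ℝ => √θ := by
  have h1 : (fun θ : ℝ => Real.log θ) =o[𝓝[>] 0] fun θ : ℝ => θ ^ (-(1 / 2) : ℝ) :=
    isLittleO_log_rpow_nhdsGT_zero (by norm_num)
  have h2 : (fun θ : ℝ => θ * Real.log θ) =o[𝓝[>] 0] fun θ : ℝ => θ * θ ^ (-(1 / 2) : ℝ) :=
    (Asymptotics.isBigO_refl _ _).mul_isLittleO h1
  have h3 : (fun θ : ℝ => θ * θ ^ (-(1 / 2) : ℝ)) =ᶠ[𝓝[>] 0] fun θ : ℝ => √θ := by
    filter_upwards [self_mem_nhdsWithin] with θ hθ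
    have hθ' : (0 : ℝ) < θ := hθ
    rw [Real.sqrt_eq_rpow, ← Real.rpow_one_add' hθ'.le (by norm_num)]
    norm_num
  have h4 := h2.trans_eventuallyEq h3
  have h5 : (fun θ : ℝ => θ * Real.log θ⁻¹) = fun θ : ℝ => -(θ * Real.log θ) := by
    funext θ
    rw [Real.log_inv]; ring
  rw [h5]
  exact h4.neg_left

theorem ftw_id : (fun θ : ℝ => θ) =o[𝓝[>] 0] fun θ : ℝ => √θ := by
  rw [Asymptotics.isLittleO_iff]
  intro C hC
  have h1 : ∀ᶠ θ : ℝ in 𝓝[>] 0, θ < C ^ 2 := by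
    have : Iio (C ^ 2) ∈ 𝓝 (0 : ℝ) := Iio_mem_nhds (by positivity)
    exact mem_nhdsWithin_of_mem_nhds this
  filter_upwards [self_mem_nhdsWithin, h1] with θ hθ h2
  have hθ' : (0 : ℝ) < θ := hθ
  rw [Real.norm_of_nonneg hθ'.le, Real.norm_of_nonneg (Real.sqrt_nonneg θ)]
  have h3 : √θ ≤ C := by
    rw [Real.sqrt_le_left hC.le]; exact h2.le
  calc θ = √θ * √θ := (Real.mul_self_sqrt hθ'.le).symm
    _ ≤ C * √θ := by gcongr

theorem ftw_bigO {α β : ℝ} {X : ℝ → ℝ}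
    (hX : (fun θ : ℝ => X θ - (α * Real.log θ⁻¹ + β)) =o[𝓝[>] 0] fun θ : ℝ => √θ) :
    (fun θ : ℝ => θ * X θ) =o[𝓝[>] 0] fun θ : ℝ => √θ := by
  have h1 : (fun θ : ℝ => θ * (X θ - (α * Real.log θ⁻¹ + β))) =o[𝓝[>] 0] fun θ : ℝ => √θ := by
    have h2 : (fun θ : ℝ => θ) =O[𝓝[>] 0] fun _ : ℝ => (1 : ℝ) := by
      refine Asymptotics.IsBigO.of_bound 1 ?_
      have : Iio (1 : ℝ) ∈ 𝓝 (0 : ℝ) := Iio_mem_nhds (by norm_num)
      filter_upwards [self_mem_nhdsWithin, mem_nhdsWithin_of_mem_nhds this] with θ hθ h2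
      have hθ' : (0 : ℝ) < θ := hθ
      have h3 : θ < 1 := h2
      rw [Real.norm_of_nonneg hθ'.le, norm_one]
      linarith
    simpa using h2.mul_isLittleO hX
  have h2 : (fun θ : ℝ => θ * (α * Real.log θ⁻¹ + β)) =o[𝓝[>] 0] fun θ : ℝ => √θ := by
    have h3 : (fun θ : ℝ => θ * (α * Real.log θ⁻¹ + β)) =
        fun θ : ℝ => α * (θ * Real.log θ⁻¹) + β * θ := by
      funext θ; ring
    rw [h3]
    exact (ftw_log.const_mul_left α).add (ftw_id.const_mul_left β)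
  refine (h1.add h2).congr_left ?_
  intro θ
  ring

/-- one monomial -/
theorem ftw_mono {k j : ℕ} (hj : j < k) {α β : ℝ} {Y : ℝ → ℝ}
    (hY : (fun θ : ℝ => θ ^ (j + 1) * Y θ - (α * Real.log θ⁻¹ + β)) =o[𝓝[>] 0]
      fun θ : ℝ => √θ) :
    ∃ α' β' : ℝ, (fun θ : ℝ => Real.sin θ ^ k * Y θ - (α' * Real.log θ⁻¹ + β')) =o[𝓝[>] 0]
      fun θ : ℝ => √θ := by
  have hX := ftw_bigO hY
  by_cases hjk : j + 1 = k
  · refine ⟨α, β, ?_⟩
    -- `(sin θ/θ)^k - 1 = O(θ)`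
    have h1 : (fun θ : ℝ => (Real.sin θ / θ) ^ k - 1) =O[𝓝[>] 0] fun θ : ℝ => θ := by
      refine Asymptotics.IsBigO.of_bound k ?_
      have : Iio (1 : ℝ) ∈ 𝓝 (0 : ℝ) := Iio_mem_nhds (by norm_num)
      filter_upwards [self_mem_nhdsWithin, mem_nhdsWithin_of_mem_nhds this] with θ hθ h2
      have hθ' : (0 : ℝ) < θ := hθ
      have h3 : θ < 1 := h2
      have h4 : Real.sin θ ≤ θ := Real.sin_le hθ'.le
      have h5 : θ - θ ^ 3 / 6 < Real.sin θ := Real.sin_gt_sub_cube hθ'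
      have h6 : Real.sin θ / θ ≤ 1 := by rw [div_le_one hθ']; exact h4
      have h7 : 1 - θ ≤ Real.sin θ / θ := by
        rw [le_div_iff₀ hθ']
        nlinarith
      have h8 : 0 ≤ Real.sin θ / θ := le_trans (by linarith) h7
      rw [Real.norm_of_nonneg hθ'.le, Real.norm_eq_abs, abs_sub_comm, abs_of_nonneg]
      · have h9 := one_add_mul_le_pow (a := Real.sin θ / θ - 1) (by linarith) k
        have h10 : (1 + (Real.sin θ / θ - 1)) = Real.sin θ / θ := by ring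
        rw [h10] at h9
        have hk0 : (0 : ℝ) ≤ k := Nat.cast_nonneg k
        nlinarith
      · have := pow_le_one₀ (n := k) h8 h6
        linarith
    have h2 : (fun θ : ℝ => ((Real.sin θ / θ) ^ k - 1) * (θ ^ (j + 1) * Y θ)) =o[𝓝[>] 0]
        fun θ : ℝ => √θ := by
      refine Asymptotics.IsBigO.trans_isLittleO ?_ hX
      exact h1.mul (Asymptotics.isBigO_refl _ _)
    refine (h2.add hY).congr' ?_ EventuallyEq.rfl
    filter_upwards [self_mem_nhdsWithin] with θ hθ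
    have hθ' : (0 : ℝ) < θ := hθ
    rw [hjk, div_pow]
    field_simp
    ring
  · refine ⟨0, 0, ?_⟩
    have h1 : (fun θ : ℝ => Real.sin θ ^ k / θ ^ (j + 1)) =O[𝓝[>] 0] fun θ : ℝ => θ := by
      refine Asymptotics.IsBigO.of_bound 1 ?_
      have : Iio (1 : ℝ) ∈ 𝓝 (0 : ℝ) := Iio_mem_nhds (by norm_num)
      filter_upwards [self_mem_nhdsWithin, mem_nhdsWithin_of_mem_nhds this] with θ hθ h2
      have hθ' : (0 : ℝ) < θ := hθ
      have h3 : θ < 1 := h2
      have h4 : Real.sin θ ≤ θ := Real.sin_le hθ'.le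
      have h5 : 0 ≤ Real.sin θ := Real.sin_nonneg_of_nonneg_of_le_pi hθ'.le
        (by linarith [Real.pi_gt_three])
      rw [Real.norm_of_nonneg hθ'.le, one_mul, Real.norm_of_nonneg (by positivity),
        div_le_iff₀ (by positivity)]
      calc Real.sin θ ^ k ≤ θ ^ k := by gcongr
        _ ≤ θ ^ (j + 2) := pow_le_pow_of_le_one hθ'.le h3.le (by omega)
        _ = θ * θ ^ (j + 1) := by ring
    have h2 : (fun θ : ℝ => (Real.sin θ ^ k / θ ^ (j + 1)) * (θ ^ (j + 1) * Y θ)) =o[𝓝[>] 0]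
        fun θ : ℝ => √θ := by
      refine Asymptotics.IsBigO.trans_isLittleO ?_ hX
      exact h1.mul (Asymptotics.isBigO_refl _ _)
    refine h2.congr' ?_ EventuallyEq.rfl
    filter_upwards [self_mem_nhdsWithin] with θ hθ
    have hθ' : (0 : ℝ) < θ := hθ
    field_simp
    ring

/-- a polynomial -/
theorem ftw_poly {k : ℕ} (P : Polynomial ℝ) (hP : P.natDegree < k) {w : ℝ → ℝ}
    (hw : Continuous w) (h0 : ∀ t, 0 ≤ t → 0 ≤ w t) {A B : ℝ}
    (hE : (fun T : ℝ => (∫ t in (0 : ℝ)..T, w t) - (A * T * Real.log T + B * T)) =o[atTop]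
      fun T : ℝ => √T) :
    ∃ α' β' : ℝ, (fun θ : ℝ => Real.sin θ ^ k *
      (∫ s in Ioi (0 : ℝ), P.eval s * w s * Real.exp (-(2 * θ * s))) -
        (α' * Real.log θ⁻¹ + β')) =o[𝓝[>] 0] fun θ : ℝ => √θ := by
  have hj : ∀ j : ℕ, ∃ α' β' : ℝ, j < k → (fun θ : ℝ => Real.sin θ ^ k *
      (∫ s in Ioi (0 : ℝ), s ^ j * w s * Real.exp (-(2 * θ * s))) -
        (α' * Real.log θ⁻¹ + β')) =o[𝓝[>] 0] fun θ : ℝ => √θ := by
    intro j
    by_cases hjk : j < k
    · obtain ⟨_, α, β, h1⟩ := abel hw h0 hE j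
      obtain ⟨α', β', h2⟩ := ftw_mono hjk h1
      exact ⟨α', β', fun _ => h2⟩
    · exact ⟨0, 0, fun h => absurd h hjk⟩
  choose α' β' hαβ using hj
  refine ⟨∑ j ∈ Finset.range (P.natDegree + 1), P.coeff j * α' j,
    ∑ j ∈ Finset.range (P.natDegree + 1), P.coeff j * β' j, ?_⟩
  have h1 : (fun θ : ℝ => ∑ j ∈ Finset.range (P.natDegree + 1), P.coeff j * (Real.sin θ ^ k *
      (∫ s in Ioi (0 : ℝ), s ^ j * w s * Real.exp (-(2 * θ * s))) -
        (α' j * Real.log θ⁻¹ + β' j))) =o[𝓝[>] 0] fun θ : ℝ => √θ := by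
    apply Asymptotics.IsLittleO.fun_sum
    intro j hj
    rw [Finset.mem_range] at hj
    exact (hαβ j (by omega)).const_mul_left (P.coeff j)
  refine h1.congr' ?_ EventuallyEq.rfl
  filter_upwards [self_mem_nhdsWithin] with θ hθ
  have hθ' : (0 : ℝ) < θ := hθ
  have hint : ∀ j : ℕ, IntegrableOn (fun s : ℝ => s ^ j * w s * Real.exp (-(2 * θ * s)))
      (Ioi 0) := fun j => (abel hw h0 hE j).1 θ hθ'
  have e1 : ∫ s in Ioi (0 : ℝ), P.eval s * w s * Real.exp (-(2 * θ * s)) =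
      ∑ j ∈ Finset.range (P.natDegree + 1), P.coeff j *
        ∫ s in Ioi (0 : ℝ), s ^ j * w s * Real.exp (-(2 * θ * s)) := by
    rw [← Finset.sum_congr rfl (fun j _ => integral_const_mul (P.coeff j) _),
      ← integral_finsetSum _ (fun j _ => (hint j).const_mul _)]
    congr 1
    funext s
    rw [Polynomial.eval_eq_sum_range, Finset.sum_mul, Finset.sum_mul]
    refine Finset.sum_congr rfl fun j _ => ?_
    ring
  rw [e1, Finset.mul_sum, Finset.sum_mul, ← Finset.sum_add_distrib, ← Finset.sum_sub_distrib]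
  refine Finset.sum_congr rfl fun j _ => ?_
  ring

theorem f2_pr (h : Frame k N a b f g c M) {A B : ℝ}
    (hE : (fun T : ℝ => (∫ t in (0 : ℝ)..T, ‖LL k f (1 / 2 - t * I)‖ ^ 2) -
      (A * T * Real.log T + B * T)) =o[atTop] fun T : ℝ => √T) :
    ∃ α β : ℝ, (fun θ : ℝ => FF k f θ - ((α * Real.log θ⁻¹ + β : ℝ) : ℂ)) =o[𝓝[>] 0]
      fun θ : ℝ => √θ := by
  have hk := h.fh.hk
  set w : ℝ → ℝ := fun t => ‖LL k f (1 / 2 - t * I)‖ ^ 2 with hw
  have hwc : Continuous w := by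
    have h1 := (ll_diff h).continuous
    rw [hw]
    exact ((h1.comp (by fun_prop : Continuous fun t : ℝ => (1 / 2 - t * I : ℂ))).norm).pow 2
  have hw0 : ∀ t, 0 ≤ t → 0 ≤ w t := fun t _ => by rw [hw]; positivity
  obtain ⟨P, hP1, hP2⟩ := pp_poly hk
  obtain ⟨α', β', hαβ⟩ := ftw_poly P hP1 hwc hw0 hE
  obtain ⟨C, hC⟩ := lam_bound h (α := Real.pi / 2) (by positivity) (by linarith [Real.pi_pos])
  set G : ℝ → ℝ := fun t => ‖Lam k f t‖ ^ 2 with hG
  have hGc : Continuous G := by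
    rw [hG]; exact (lam_cont h).norm.pow 2
  have hGb : ∀ t, G t ≤ C ^ 2 * Real.exp (-(Real.pi * t)) := by
    intro t
    rw [hG]
    calc ‖Lam k f t‖ ^ 2 ≤ (C * Real.exp (-(Real.pi / 2 * t))) ^ 2 :=
          pow_le_pow_left₀ (norm_nonneg _) (hC t) 2
      _ = C ^ 2 * Real.exp (-(Real.pi * t)) := by
          rw [mul_pow, ← Real.exp_nat_mul]
          congr 2
          push_cast
          ring
  -- the relation between `G(-s)` and `w`
  have hrel : ∀ s : ℝ, G (-s) = ((2 * Real.pi) ^ k)⁻¹ * (2 * Real.pi) * (P.eval s * w s) +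
      (-1) ^ k * (Real.exp (-(2 * Real.pi * s)) * G (-s)) := by
    intro s
    have h1 := ll_lam h (-s)
    have h2 := gamma_sq hk s
    have h3 : ‖Complex.Gamma ((k : ℂ) / 2 + (-s : ℝ) * I)‖ =
        ‖Complex.Gamma ((k : ℂ) / 2 + s * I)‖ := by
      rw [← Complex.norm_conj, ← Complex.Gamma_conj]
      congr 2
      rw [map_add, map_mul, Complex.conj_I, Complex.conj_ofReal, map_div₀, Complex.conj_natCast,
        map_ofNat]
      simp
    have h4 : (1 / 2 + ((-s : ℝ) : ℂ) * I) = 1 / 2 - (s : ℂ) * I := by push_cast; ring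
    rw [h3, h4] at h1
    rw [hP2 s] at h2
    have h5 : G (-s) = Real.exp (Real.pi * s) * ((2 * Real.pi) ^ k)⁻¹ *
        ‖Complex.Gamma ((k : ℂ) / 2 + s * I)‖ ^ 2 * w s := by
      rw [hG, hw]
      show ‖Lam k f (-s)‖ ^ 2 = _
      rw [h1]
      congr 3
      ring_nf
    rw [h5]
    linear_combination (((2 * Real.pi) ^ k)⁻¹ * w s) * h2
  -- bounded remainders
  set R : ℝ → ℝ := fun θ => (-1) ^ k * (∫ s in Ioi (0 : ℝ),
      Real.exp (-(2 * Real.pi * s)) * G (-s) * Real.exp (-(2 * θ * s))) +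
      ∫ s in Ioi (0 : ℝ), G s * Real.exp (2 * θ * s) with hR
  have hexp : IntegrableOn (fun s : ℝ => C ^ 2 * Real.exp (-(Real.pi / 2 * s))) (Ioi 0) := by
    have h1 : IntegrableOn (fun s : ℝ => Real.exp (-(Real.pi / 2) * s)) (Ioi 0) :=
      exp_neg_integrableOn_Ioi 0 (by positivity)
    have h2 : IntegrableOn (fun s : ℝ => C ^ 2 * Real.exp (-(Real.pi / 2) * s)) (Ioi 0) :=
      h1.const_mul _
    refine h2.congr_fun ?_ measurableSet_Ioi
    intro s _
    ring_nf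
  have hb1 : ∀ θ : ℝ, 0 < θ → ∀ s ∈ Ioi (0 : ℝ),
      ‖Real.exp (-(2 * Real.pi * s)) * G (-s) * Real.exp (-(2 * θ * s))‖ ≤
        C ^ 2 * Real.exp (-(Real.pi / 2 * s)) := by
    intro θ hθ s hs
    have hs' : (0 : ℝ) < s := hs
    have hG0 : 0 ≤ G (-s) := by rw [hG]; positivity
    rw [Real.norm_of_nonneg (by positivity)]
    have h1 : Real.exp (-(2 * θ * s)) ≤ 1 := Real.exp_le_one_iff.2 (by
      have : 0 < 2 * θ * s := by positivity
      linarith)
    calc Real.exp (-(2 * Real.pi * s)) * G (-s) * Real.exp (-(2 * θ * s))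
        ≤ Real.exp (-(2 * Real.pi * s)) * (C ^ 2 * Real.exp (-(Real.pi * (-s)))) * 1 := by
          gcongr
          exact hGb (-s)
      _ = C ^ 2 * Real.exp (-(Real.pi * s)) := by
          have : Real.exp (-(2 * Real.pi * s)) * Real.exp (-(Real.pi * (-s))) =
              Real.exp (-(Real.pi * s)) := by
            rw [← Real.exp_add]; congr 1; ring
          rw [← this]; ring
      _ ≤ C ^ 2 * Real.exp (-(Real.pi / 2 * s)) := by
          have h9 : 0 < Real.pi * s := by positivity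
          exact mul_le_mul_of_nonneg_left (Real.exp_le_exp.2 (by linarith)) (sq_nonneg C)
  have hb2 : ∀ θ : ℝ, 0 < θ → θ < Real.pi / 4 → ∀ s ∈ Ioi (0 : ℝ),
      ‖G s * Real.exp (2 * θ * s)‖ ≤ C ^ 2 * Real.exp (-(Real.pi / 2 * s)) := by
    intro θ hθ hθ2 s hs
    have hs' : (0 : ℝ) < s := hs
    have hG0 : 0 ≤ G s := by rw [hG]; positivity
    rw [Real.norm_of_nonneg (by positivity)]
    calc G s * Real.exp (2 * θ * s)
        ≤ (C ^ 2 * Real.exp (-(Real.pi * s))) * Real.exp (Real.pi / 2 * s) := by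
          gcongr
          · exact hGb s
          · linarith
      _ = C ^ 2 * Real.exp (-(Real.pi / 2 * s)) := by
          rw [mul_assoc, ← Real.exp_add]
          congr 2
          ring
  have hm1 : ∀ θ : ℝ, Continuous fun s : ℝ =>
      Real.exp (-(2 * Real.pi * s)) * G (-s) * Real.exp (-(2 * θ * s)) := by
    intro θ
    have := hGc.comp continuous_neg
    exact ((by fun_prop : Continuous fun s : ℝ => Real.exp (-(2 * Real.pi * s))).mul this).mul
      (by fun_prop)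
  have hm2 : ∀ θ : ℝ, Continuous fun s : ℝ => G s * Real.exp (2 * θ * s) := by
    intro θ
    exact hGc.mul (by fun_prop)
  have hi1 : ∀ θ : ℝ, 0 < θ → IntegrableOn (fun s : ℝ =>
      Real.exp (-(2 * Real.pi * s)) * G (-s) * Real.exp (-(2 * θ * s))) (Ioi 0) := by
    intro θ hθ
    exact Integrable.mono' hexp (hm1 θ).aestronglyMeasurable
      ((ae_restrict_iff' measurableSet_Ioi).2 (Eventually.of_forall (hb1 θ hθ)))
  have hi2 : ∀ θ : ℝ, 0 < θ → θ < Real.pi / 4 → IntegrableOn (fun s : ℝ =>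
      G s * Real.exp (2 * θ * s)) (Ioi 0) := by
    intro θ hθ hθ2
    exact Integrable.mono' hexp (hm2 θ).aestronglyMeasurable
      ((ae_restrict_iff' measurableSet_Ioi).2 (Eventually.of_forall (hb2 θ hθ hθ2)))
  set D : ℝ := ∫ s in Ioi (0 : ℝ), C ^ 2 * Real.exp (-(Real.pi / 2 * s)) with hD
  have hRb : ∀ θ : ℝ, 0 < θ → θ < Real.pi / 4 → |R θ| ≤ D + D := by
    intro θ hθ hθ2
    rw [hR]
    refine (abs_add_le _ _).trans (add_le_add ?_ ?_)
    · rw [abs_mul, abs_pow, abs_neg, abs_one, one_pow, one_mul, ← Real.norm_eq_abs]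
      exact norm_integral_le_of_norm_le hexp
        ((ae_restrict_iff' measurableSet_Ioi).2 (Eventually.of_forall (hb1 θ hθ)))
    · rw [← Real.norm_eq_abs]
      exact norm_integral_le_of_norm_le hexp
        ((ae_restrict_iff' measurableSet_Ioi).2 (Eventually.of_forall (hb2 θ hθ hθ2)))
  have hRo : (fun θ : ℝ => Real.sin θ ^ k * R θ) =o[𝓝[>] 0] fun θ : ℝ => √θ := by
    refine Asymptotics.IsBigO.trans_isLittleO ?_ ftw_id
    refine Asymptotics.IsBigO.of_bound (D + D) ?_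
    have h1 : Iio (Real.pi / 4) ∈ 𝓝 (0 : ℝ) := Iio_mem_nhds (by positivity)
    have h2 : Iio (1 : ℝ) ∈ 𝓝 (0 : ℝ) := Iio_mem_nhds (by norm_num)
    filter_upwards [self_mem_nhdsWithin, mem_nhdsWithin_of_mem_nhds h1,
      mem_nhdsWithin_of_mem_nhds h2] with θ hθ h3 h4
    have hθ' : (0 : ℝ) < θ := hθ
    have h3' : θ < Real.pi / 4 := h3
    have h4' : θ < 1 := h4
    have h5 : Real.sin θ ≤ θ := Real.sin_le hθ'.le
    have h6 : 0 ≤ Real.sin θ := Real.sin_nonneg_of_nonneg_of_le_pi hθ'.le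
      (by linarith [Real.pi_gt_three])
    have hDD : 0 ≤ D + D := (abs_nonneg _).trans (hRb θ hθ' h3')
    rw [norm_mul, Real.norm_of_nonneg (by positivity), Real.norm_of_nonneg hθ'.le, mul_comm,
      Real.norm_eq_abs]
    have h7 : Real.sin θ ^ k ≤ θ := by
      calc Real.sin θ ^ k ≤ θ ^ k := by gcongr
        _ ≤ θ ^ 1 := pow_le_pow_of_le_one hθ'.le h4'.le hk
        _ = θ := pow_one θ
    exact mul_le_mul (hRb θ hθ' h3') h7 (by positivity) hDD
  -- the decomposition of `FF`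
  set κ₀ : ℝ := ((2 * Real.pi) ^ k)⁻¹ with hκ₀
  refine ⟨κ₀ * α', κ₀ * β', ?_⟩
  have hmain : (fun θ : ℝ => κ₀ * (Real.sin θ ^ k *
      (∫ s in Ioi (0 : ℝ), P.eval s * w s * Real.exp (-(2 * θ * s))) -
        (α' * Real.log θ⁻¹ + β')) + (1 / (2 * Real.pi)) * (Real.sin θ ^ k * R θ)) =o[𝓝[>] 0]
      fun θ : ℝ => √θ :=
    (hαβ.const_mul_left κ₀).add (hRo.const_mul_left _)
  have hfin : (fun θ : ℝ => (((κ₀ * (Real.sin θ ^ k *
      (∫ s in Ioi (0 : ℝ), P.eval s * w s * Real.exp (-(2 * θ * s))) -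
        (α' * Real.log θ⁻¹ + β')) + (1 / (2 * Real.pi)) * (Real.sin θ ^ k * R θ) : ℝ) : ℂ)))
        =o[𝓝[>] 0] fun θ : ℝ => √θ := by
    rw [Asymptotics.isLittleO_iff] at hmain ⊢
    intro C' hC'
    filter_upwards [hmain hC'] with θ hθ
    rwa [Complex.norm_real]
  refine hfin.congr' ?_ EventuallyEq.rfl
  have h1 : Iio (Real.pi / 4) ∈ 𝓝 (0 : ℝ) := Iio_mem_nhds (by positivity)
  filter_upwards [self_mem_nhdsWithin, mem_nhdsWithin_of_mem_nhds h1] with θ hθ h2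
  have hθ' : (0 : ℝ) < θ := hθ
  have hθ2 : θ < Real.pi / 4 := h2
  have hq := qq_formula h (θ := (θ : ℂ)) (by simpa using hθ')
    (by rw [Complex.ofReal_re]; linarith [Real.pi_pos])
  have e1 : ∀ t : ℝ, ((‖Lam k f t‖ ^ 2 : ℝ) : ℂ) * cexp (2 * θ * t) =
      ((G t * Real.exp (2 * θ * t) : ℝ) : ℂ) := by
    intro t
    rw [hG]
    push_cast
    rfl
  simp_rw [e1] at hq
  obtain ⟨hq1, hq2⟩ := hq
  have hint : Integrable (fun t : ℝ => G t * Real.exp (2 * θ * t)) := by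
    refine hq1.re.congr (Eventually.of_forall fun t => ?_)
    exact Complex.ofReal_re _
  rw [integral_complex_ofReal] at hq2
  have hsplit : ∫ t : ℝ, G t * Real.exp (2 * θ * t) =
      (∫ s in Ioi (0 : ℝ), G (-s) * Real.exp (-(2 * θ * s))) +
        ∫ s in Ioi (0 : ℝ), G s * Real.exp (2 * θ * s) := by
    rw [← intervalIntegral.integral_Iic_add_Ioi (b := 0) hint.integrableOn hint.integrableOn]
    congr 1
    have := integral_comp_neg_Ioi (0 : ℝ) (fun t : ℝ => G t * Real.exp (2 * θ * t))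
    rw [neg_zero] at this
    rw [← this]
    congr 1
    funext s
    congr 2
    ring
  have hi3 : IntegrableOn (fun s : ℝ => P.eval s * w s * Real.exp (-(2 * θ * s))) (Ioi 0) := by
    have h3 : ∀ j : ℕ, IntegrableOn (fun s : ℝ => P.coeff j * (s ^ j * w s *
        Real.exp (-(2 * θ * s)))) (Ioi 0) :=
      fun j => ((abel hwc hw0 hE j).1 θ hθ').const_mul _
    have h4 : (fun s : ℝ => P.eval s * w s * Real.exp (-(2 * θ * s))) = fun s : ℝ =>
        ∑ j ∈ Finset.range (P.natDegree + 1), P.coeff j * (s ^ j * w s *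
          Real.exp (-(2 * θ * s))) := by
      funext s
      rw [Polynomial.eval_eq_sum_range, Finset.sum_mul, Finset.sum_mul]
      refine Finset.sum_congr rfl fun j _ => ?_
      ring
    rw [h4]
    exact integrable_finsetSum _ (fun j _ => h3 j)
  have hneg : ∫ s in Ioi (0 : ℝ), G (-s) * Real.exp (-(2 * θ * s)) =
      (κ₀ * (2 * Real.pi)) * (∫ s in Ioi (0 : ℝ), P.eval s * w s * Real.exp (-(2 * θ * s))) +
      (-1) ^ k * ∫ s in Ioi (0 : ℝ),
        Real.exp (-(2 * Real.pi * s)) * G (-s) * Real.exp (-(2 * θ * s)) := by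
    rw [← integral_const_mul, ← integral_const_mul, ← integral_add (hi3.const_mul _)
      ((hi1 θ hθ').const_mul _)]
    congr 1
    funext s
    have := hrel s
    calc G (-s) * Real.exp (-(2 * θ * s))
        = (((2 * Real.pi) ^ k)⁻¹ * (2 * Real.pi) * (P.eval s * w s) +
          (-1) ^ k * (Real.exp (-(2 * Real.pi * s)) * G (-s))) * Real.exp (-(2 * θ * s)) := by
          rw [← this]
      _ = _ := by rw [hκ₀]; ring
  have hFF : FF k f θ = ((Real.sin θ ^ k * (1 / (2 * Real.pi) *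
      ∫ t : ℝ, G t * Real.exp (2 * θ * t)) : ℝ) : ℂ) := by
    unfold FF
    rw [hq2]
    push_cast
    rfl
  rw [hFF, ← Complex.ofReal_sub]
  congr 1
  rw [hsplit, hneg, hR]
  have hpi : (2 * Real.pi) ≠ 0 := by positivity
  field_simp
  ring

alias f2 := f2_pr

end Pool.Agent.JOF
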