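import Pool.Agent.Lib_helper42.JO.FHDefs
import Pool.Agent.Lib_helper42.JOF.CJF
import Pool.Agent.Lib_helper42.JOF.FRH
import Pool.Agent.Lib_helper42.JOF.FRM
import Pool.Agent.Lib_helper42.JOF.FTH
import Pool.Agent.Lib_helper42.JOF.FTW
import Pool.Agent.Lib_helper42.JOF.MLA
import Pool.Agent.Lib_helper42.JOF.MLB

/-!
# Block RED: reduction of the holomorphic statement
-/

namespace Pool.Agent.JOF

open Pool.Agent.JO Complex MeasureTheory Filter Topology Set
open scoped ComplexConjugate ContDiff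

theorem red_Gammaℂ_conj (s : ℂ) : Complex.Gammaℂ (conj s) = conj (Complex.Gammaℂ s) := by
  unfold Complex.Gammaℂ
  have h1 : (2 * (Real.pi : ℂ)) = ((2 * Real.pi : ℝ) : ℂ) := by push_cast; rfl
  have h2 : (-(conj s) : ℂ) = conj (-s) := by rw [map_neg]
  rw [map_mul, map_mul, Complex.Gamma_conj, h1, h2, Complex.cpow_conj, Complex.conj_ofReal,
    map_ofNat]
  rw [Complex.arg_ofReal_of_nonneg (by positivity)]
  exact Real.pi_pos.ne

theorem red_mellin_conj (F : ℝ → ℂ) (s : ℂ) :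
    mellin (fun y => conj (F y)) (conj s) = conj (mellin F s) := by
  unfold mellin
  rw [← integral_conj]
  refine setIntegral_congr_fun measurableSet_Ioi fun y hy => ?_
  have hy' : (0 : ℝ) < y := hy
  simp only [smul_eq_mul, map_mul]
  congr 1
  have h2 : (conj s - 1 : ℂ) = conj (s - 1) := by rw [map_sub, map_one]
  rw [h2, Complex.cpow_conj, Complex.conj_ofReal]
  rw [Complex.arg_ofReal_of_nonneg hy'.le]
  exact Real.pi_pos.ne

theorem red_LL_conj {k : ℕ} {f f' : ℂ → ℂ}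
    (h : ∀ z : ℂ, 0 < z.im → f' z = conj (f (-conj z))) (s : ℂ) :
    LL k f' (conj s) = conj (LL k f s) := by
  unfold LL
  have e1 : conj s + ((k : ℂ) - 1) / 2 = conj (s + ((k : ℂ) - 1) / 2) := by
    rw [map_add, map_div₀, map_sub, Complex.conj_natCast, map_one, map_ofNat]
  rw [e1, map_mul, map_div₀, map_ofNat, red_Gammaℂ_conj, ← red_mellin_conj]
  congr 1
  unfold mellin
  refine setIntegral_congr_fun measurableSet_Ioi fun y hy => ?_
  have hy' : (0 : ℝ) < y := hy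
  simp only
  congr 1
  rw [h (I * y) (by simpa using hy')]
  congr 2
  rw [map_mul, Complex.conj_I, Complex.conj_ofReal]
  ring

theorem hol_reduction_pr
    (H : ∀ (N k : ℕ) [NeZero N] (χ : DirichletCharacter ℂ N)
      (F : CuspForm (CongruenceSubgroup.Gamma1 N) (k : ℤ)) (lam : ℕ → ℂ), 1 ≤ k →
      IsHolEigenform N k χ F lam → ∀ α β : ℝ,
      (fun θ : ℝ => FF k (fc F) θ - ((α * Real.log θ⁻¹ + β : ℝ) : ℂ)) =o[𝓝[>] 0]
        (fun θ : ℝ => √θ) →
      ∃ ε₀ : ℝ, 0 < ε₀ ∧ ∀ η : ℝ, 0 < η → ∃ C : ℝ, ∀ ε : ℝ, 0 < ε → ε < ε₀ →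
        ‖FF k (fc F) (ε + η * I)‖ ≤ C * (ε ^ k)⁻¹) :
    HolStatement := by
  intro N _ χ k F lam hk hF
  obtain ⟨b, g, M, _, hfr⟩ := fh_frame hk hF
  have hl : ∀ lam' : ℕ → ℂ, ∀ n : ℕ, 1 ≤ n →
      ac k lam' n = lam' n * (((n : ℝ) ^ (((k : ℝ) - 1) / 2) : ℝ) : ℂ) := by
    intro lam' n hn
    unfold ac
    rw [if_neg (by omega)]
  refine ⟨LL k (fc F), ll_diff hfr, fun s hs => ll_series hfr.fh (hl lam) hs, ?_⟩
  intro A B
  by_contra hcon
  have hE := isLittleO_of_not_isOmegaSqrt hcon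
  obtain ⟨χ', F', hF', hconj⟩ := conj_form hF
  obtain ⟨b', g', M', _, hfr'⟩ := fh_frame hk hF'
  have hLL : ∀ t : ℝ, ‖LL k (fc F') (1 / 2 - t * I)‖ = ‖LL k (fc F) (1 / 2 + t * I)‖ := by
    intro t
    have h1 := red_LL_conj (k := k) hconj (1 / 2 + t * I)
    have h2 : conj ((1 : ℂ) / 2 + t * I) = 1 / 2 - t * I := by
      rw [map_add, map_mul, Complex.conj_I, Complex.conj_ofReal, map_div₀, map_one, map_ofNat]
      ring
    rw [h2] at h1
    rw [h1, Complex.norm_conj]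
  have hE' : (fun T : ℝ => (∫ t in (0 : ℝ)..T, ‖LL k (fc F') (1 / 2 - t * I)‖ ^ 2) -
      (A * T * Real.log T + B * T)) =o[atTop] fun T : ℝ => √T := by
    refine hE.congr_left ?_
    intro T
    unfold errorTerm
    congr 1
    refine intervalIntegral.integral_congr fun t _ => ?_
    exact congrArg (· ^ 2) (hLL t).symm
  obtain ⟨α, β, hαβ⟩ := f2 hfr' hE'
  obtain ⟨ε₀, hε₀, hη⟩ := H N k χ' F' _ hk hF' α β hαβ
  have hN : N ≠ 0 := NeZero.ne N
  obtain ⟨p, hp, hpN, hmod⟩ := Nat.exists_prime_gt_modEq_one N hN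
  have hp1 : ((p : ℕ) : ZMod N) = 1 := by
    have := (ZMod.natCast_eq_natCast_iff p 1 N).2 hmod
    simpa using this
  have hpd : ¬ p ∣ N := by
    intro hd
    have := Nat.le_of_dvd (Nat.pos_of_ne_zero hN) hd
    omega
  have ha := fh_hecke_a hk hF' hp hp1 hpd
  have hb := fh_hecke_b hfr' hp hp1 hpd ha
  have hlogp : 0 < Real.log p := Real.log_pos (by exact_mod_cast hp.one_lt)
  have hlogp2 : 0 < Real.log ((p : ℝ) ^ 2) := by
    rw [Real.log_pow]; positivity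
  obtain ⟨C₁, h1⟩ := hη (Real.log p / 2) (by positivity)
  obtain ⟨C₂, h2⟩ := hη (Real.log ((p : ℝ) ^ 2) / 2) (by positivity)
  refine f3 hfr' hp ha hb ⟨max C₁ C₂, ε₀, hε₀, fun ε h0 h3 => ⟨?_, ?_⟩⟩
  · refine (h1 ε h0 h3).trans ?_
    gcongr
    exact le_max_left _ _
  · refine (h2 ε h0 h3).trans ?_
    gcongr
    exact le_max_right _ _

alias hol_reduction := hol_reduction_pr

end Pool.Agent.JOF
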